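import Mathlib
import Pool.Agent.Lib_helper25.POS.Defs
import Pool.Agent.Lib_helper25.POS.FarDefs
import Pool.Agent.Lib_helper42.RS.Sym
import Pool.Agent.Lib_helper42.RS.Struct

/-!
# Block GA: periodic sets and levels
-/

set_option autoImplicit false

namespace Pool.Agent.POS

open Finset Pool.Agent.Lib_helper13.PL

section big
universe u
variable {G : Type u} [AddCommGroup G] [Fintype G] [DecidableEq G]
open Lib_helper42.RS (ds Per ng InO rho dl)

/-- GA1 : if `H` is not inside `ker chi` then an `H`-periodic set is far from every level -/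
theorem per_half {m : ℕ} (chi : G →+ ZMod m) (H : AddSubgroup G) (X A : Finset G) (u : ZMod m)
    (hX : Per H X) (hA : ∀ x ∈ A, chi x = u) (hH : ¬ ∀ t ∈ H, chi t = 0) :
    (X.card : ℤ) ≤ 2 * ds A X := by
  push Not at hH
  obtain ⟨t, ht, hchi⟩ := hH
  have h1 : (X.filter (fun x => chi x = u)).card ≤ (X.filter (fun x => ¬ chi x = u)).card := by
    refine Finset.card_le_card_of_injOn (fun x => x + t) ?_ (fun x _ y _ h => add_right_cancel h)
    intro x hx
    have hx' := Finset.mem_filter.1 (Finset.mem_coe.1 hx)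
    refine Finset.mem_coe.2 (Finset.mem_filter.2 ⟨(hX x t ht).2 hx'.1, ?_⟩)
    rw [map_add, hx'.2]
    intro h
    exact hchi (by simpa using h)
  have h2 : (X.filter (fun x => chi x = u)).card + (X.filter (fun x => ¬ chi x = u)).card =
      X.card := Finset.card_filter_add_card_filter_not _
  have h3 : X.filter (fun x => ¬ chi x = u) ⊆ symmDiff A X := by
    intro x hx
    have hx' := Finset.mem_filter.1 hx
    rw [Finset.mem_symmDiff]
    exact Or.inr ⟨hx'.1, fun h => hx'.2 (hA x h)⟩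
  have h4 := Finset.card_le_card h3
  rw [Lib_helper42.RS.ds_eq_card]
  have h5 : (X.card : ℤ) = (X.filter (fun x => chi x = u)).card +
      (X.filter (fun x => ¬ chi x = u)).card := by exact_mod_cast h2.symm
  have h6 : ((X.filter (fun x => chi x = u)).card : ℤ) ≤
    (X.filter (fun x => ¬ chi x = u)).card := by exact_mod_cast h1
  have h7 : ((X.filter (fun x => ¬ chi x = u)).card : ℤ) ≤ (symmDiff A X).card := by
    exact_mod_cast h4
  linarith

/-- the size of a periodic set -/
theorem ga_card (H : AddSubgroup G) (X : Finset G) (hX : Per H X) :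
    ∃ q : ℤ, 0 ≤ q ∧ (X.card : ℤ) = q * Nat.card H := by
  classical
  let _ : Fintype (G ⧸ H) := Fintype.ofFinite _
  set φ : G →+ G ⧸ H := QuotientAddGroup.mk' H with hφ
  have hker : φ.ker = H := QuotientAddGroup.ker_mk' H
  have hsurj : Function.Surjective φ := QuotientAddGroup.mk'_surjective H
  have hX2 : Per φ.ker X := by rw [hker]; exact hX
  have eX := Lib_helper42.RS.per_eq_lft φ X hX2
  refine ⟨((X.image φ).card : ℤ), Int.natCast_nonneg _, ?_⟩
  have h1 := Lib_helper42.RS.card_lft φ hsurj (X.image φ)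
  rw [← eX, hker] at h1
  rw [h1, mul_comm]

/-- GA2 : symmetric star -/
theorem star_sym (H : AddSubgroup G) (A B0 X Y Z : Finset G) (hO : InO H X Y Z)
    (hr : 0 < rho H A B0 (ng A) X Y Z) :
    Z = ng X ∧ rho H A B0 (ng A) X Y Z = (Nat.card H : ℤ) - 2 * ds A X - ds B0 Y ∧
      ∃ q1 q0 : ℤ, 0 ≤ q1 ∧ 1 ≤ q0 ∧ Odd q0 ∧ (X.card : ℤ) = q1 * Nat.card H ∧
        (Y.card : ℤ) = q0 * Nat.card H := by
  obtain ⟨hX, hY, hZ, k, hk⟩ := hO
  have hrho : rho H A B0 (ng A) X Y Z = (Nat.card H : ℤ) - (ds A X + ds B0 Y + ds (ng A) Z) := rfl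
  have d1 := Lib_helper42.RS.ds_nonneg A X
  have d2 := Lib_helper42.RS.ds_nonneg B0 Y
  have d3 := Lib_helper42.RS.ds_nonneg (ng A) Z
  have hZX : Z = ng X := by
    by_contra hne
    have h1 := Lib_helper42.RS.card_le_ds_of_ne hZ hX.ng hne
    have h2 := Lib_helper42.RS.ds_triangle Z (ng A) (ng X)
    rw [Lib_helper42.RS.ds_comm Z (ng A), Lib_helper42.RS.ds_ng] at h2
    linarith
  subst hZX
  refine ⟨rfl, by rw [hrho, Lib_helper42.RS.ds_ng]; ring, ?_⟩
  obtain ⟨q1, hq1, e1⟩ := ga_card H X hX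
  obtain ⟨q0, hq0, e0⟩ := ga_card H Y hY
  have hH1 := Lib_helper42.RS.card_pos_sub H
  rw [Lib_helper42.RS.card_ng, e1, e0] at hk
  have h3 : (Nat.card H : ℤ) * (q1 + q0 + q1) = Nat.card H * (2 * k + 1) := by linarith
  have h4 : q1 + q0 + q1 = 2 * k + 1 := mul_left_cancel₀ (by omega) h3
  exact ⟨q1, q0, hq1, by omega, ⟨k - q1, by linarith⟩, e1, e0⟩

/-- GA3 : a periodic set with one coset -/
theorem cst_of_card (H : AddSubgroup G) (Y : Finset G) (hY : Per H Y)
    (hc : (Y.card : ℤ) = Nat.card H) : Cst H Y := by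
  classical
  have hH1 := Lib_helper42.RS.card_pos_sub H
  have hne : Y.Nonempty := by
    rw [← Finset.card_pos]
    omega
  obtain ⟨w, hw⟩ := hne
  refine ⟨w, ?_⟩
  have hcos : (univ.filter (fun x => x - w ∈ H) : Finset G).card = Nat.card H := by
    rw [Nat.card_eq_fintype_card, ← Fintype.card_coe]
    refine Fintype.card_congr ⟨fun x => ⟨x.1 - w, (Finset.mem_filter.1 x.2).2⟩,
      fun y => ⟨y.1 + w, Finset.mem_filter.2 ⟨Finset.mem_univ _, by simp⟩⟩, ?_, ?_⟩
    · intro x
      simp
    · intro y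
      simp
  have hsub : (univ.filter (fun x => x - w ∈ H) : Finset G) ⊆ Y := by
    intro x hx
    have hx' := (Finset.mem_filter.1 hx).2
    have := (hY w (x - w) hx').2 hw
    simpa using this
  have heq := Finset.eq_of_subset_of_card_le hsub (by rw [hcos]; exact_mod_cast hc.le)
  intro x
  rw [← heq]
  simp

end big

end Pool.Agent.POS
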