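import Mathlib
import Pool.Agent.Lib_helper25.POS.FarDefs
import Pool.Agent.Lib_helper25.POS.Defs
import Pool.Agent.Lib_helper42.RS.Struct
import Pool.Agent.Lib_helper42.RS.Sym
import Pool.Agent.Lib_helper25.PR.GA

/-!
# Block GC
-/

set_option autoImplicit false

namespace Pool.Agent.POS

open Finset Pool.Agent.Lib_helper13.PL

section big
universe u
variable {G : Type u} [AddCommGroup G] [Fintype G] [DecidableEq G]
open Lib_helper42.RS (ds Per ng InO rho dl)

/-- `F(B) = Δ(B, B, -B)` -/
theorem gc_dl (B : Finset G) : dl B B (ng B) = GL.FF B := by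
  have h1 : Lib_helper42.RS.N B B (ng B) = GL.sch B := by
    unfold Lib_helper42.RS.N Lib_helper42.RS.tri GL.sch
    rw [Finset.card_filter, Finset.sum_product]
    push_cast
    have h2 : ∀ x ∈ (univ : Finset G), x ∉ B →
        (∑ y, Lib_helper42.RS.ind B x * Lib_helper42.RS.ind B y
          * Lib_helper42.RS.ind (ng B) (-(x + y))) = 0 := by
      intro x _ hx
      rw [Lib_helper42.RS.ind_not_mem hx]
      simp
    rw [← Finset.sum_subset (Finset.subset_univ B) h2]
    apply Finset.sum_congr rfl
    intro x hx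
    have h3 : ∀ y ∈ (univ : Finset G), y ∉ B →
        Lib_helper42.RS.ind B x * Lib_helper42.RS.ind B y
          * Lib_helper42.RS.ind (ng B) (-(x + y)) = 0 := by
      intro y _ hy
      rw [Lib_helper42.RS.ind_not_mem hy]
      simp
    rw [← Finset.sum_subset (Finset.subset_univ B) h3]
    apply Finset.sum_congr rfl
    intro y hy
    rw [Lib_helper42.RS.ind_mem hx, Lib_helper42.RS.ind_mem hy, one_mul, one_mul,
      Lib_helper42.RS.ind_ng, neg_neg]
    rfl
  unfold dl GL.FF Lib_helper42.RS.Q3
  rw [h1, Lib_helper42.RS.card_ng]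
  ring

/-- GC -/
theorem f0_z {m : ℕ} (chi : G →+ ZMod m) (B0 : Finset G) (hB0 : ∀ x ∈ B0, chi x = 0)
    (K' h : ℤ)
    (hcase : ∀ H : AddSubgroup G, (∀ t ∈ H, chi t = 0) → (Nat.card H : ℤ) ≤ K' ∨
      (h ≤ Nat.card H ∧ ∀ Y : Finset G, Cst H Y → (Nat.card H : ℤ) ≤ 4 * ds B0 Y)) :
    Far.F0Z B0.card K' (GL.FF B0) := by
  rcases Lib_helper42.RS.good_all G B0 B0 (ng B0) with hg | ⟨H, X, Y, Z, hO, hr0, hd0⟩
  · left
    rw [← gc_dl]
    exact hg
  · rw [gc_dl] at hd0
    rcases hr0.eq_or_lt with hr | hr
    · left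
      rw [← hr] at hd0
      simpa using hd0
    · right
      obtain ⟨hYX, _⟩ := Lib_helper42.RS.sym_of_rho hO hr
      obtain ⟨_, hrho, q1, q0, _, hq0, hodd, _, hYc⟩ := star_sym H B0 B0 X Y Z hO hr
      refine ⟨rho H B0 B0 (ng B0) X Y Z, hr0, hd0, ?_⟩
      have hX := hO.1
      rw [hYX] at hYc
      have hrho2 : rho H B0 B0 (ng B0) X Y Z = (Nat.card H : ℤ) - 3 * ds B0 X := by
        rw [hrho, hYX]
        ring
      rw [hrho2] at hr ⊢
      have d0 := Lib_helper42.RS.ds_nonneg B0 X
      have d1 := Lib_helper42.RS.card_sub_le_ds B0 X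
      have d2 := Lib_helper42.RS.card_sub_le_ds X B0
      rw [Lib_helper42.RS.ds_comm X B0] at d2
      have hH1 := Lib_helper42.RS.card_pos_sub H
      have hker : ∀ t ∈ H, chi t = 0 := by
        by_contra hH
        have h1 := per_half chi H X B0 0 hX hB0 hH
        rw [hYc] at h1
        nlinarith
      rw [hYc] at d1 d2
      rcases hcase H hker with hdead | ⟨hal, hY⟩
      · by_cases hq : q0 = 1
        · right
          subst hq
          constructor <;> linarith
        · left
          have hq3 : 3 ≤ q0 := by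
            obtain ⟨k, hk⟩ := hodd
            omega
          have : 3 * (Nat.card H : ℤ) ≤ q0 * Nat.card H :=
            mul_le_mul_of_nonneg_right hq3 (by linarith)
          linarith
      · left
        by_cases hq : q0 = 1
        · subst hq
          rw [one_mul] at hYc
          have h1 := hY X (cst_of_card H X hX hYc)
          linarith
        · have hq3 : 3 ≤ q0 := by
            obtain ⟨k, hk⟩ := hodd
            omega
          have : 3 * (Nat.card H : ℤ) ≤ q0 * Nat.card H :=
            mul_le_mul_of_nonneg_right hq3 (by linarith)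
          linarith

end big

end Pool.Agent.POS
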