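import Mathlib
import Pool.Agent.Lib_helper25.POS.Defs

/-!
# Block PA (positive regime): the peeled inequality for a no-wrap set
-/

set_option autoImplicit false

namespace Pool.Agent.POS

open Finset Pool.Agent.Lib_helper13.PL

section blocks
variable {G : Type*} [AddCommGroup G] [DecidableEq G]

/-- PA -/
theorem pl_star {m : ℕ} [NeZero m] (chi : G →+ ZMod m) (B : Finset G) (hB : NoWrap chi B) :
    GL.FF B + DD chi B ^ 2 ≤ GL.FF (lev chi B 0)
      - ∑ u ∈ (B.image chi).erase 0, cost (lev chi B u) (lev chi B 0) := by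
  have h := peel chi (ZMod.valMinAbs (n := m)) (ZMod.valMinAbs_zero m) _ B rfl ?_ ?_
  · rw [FF_eq, FF_eq] at h
    have h1 : bpos chi (ZMod.valMinAbs (n := m)) B - bneg chi (ZMod.valMinAbs (n := m)) B =
        DD chi B := rfl
    have h2 : peelSum chi B 0 =
        - ∑ u ∈ (B.image chi).erase 0, cost (lev chi B u) (lev chi B 0) := by
      unfold peelSum
      rw [← Finset.sum_neg_distrib]
      refine Finset.sum_congr rfl fun u _ => ?_
      show 2 * ((lev chi B u).card : ℤ) * ((lev chi B 0).card - (lev chi B u).card)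
        - 8 * ∑ y ∈ lev chi B 0, dlt (lev chi B u) y = _
      unfold cost
      ring
    rw [h1, h2] at h
    exact h
  · intro x hx y hy hxy
    have h1 := hB x hx
    have h2 := hB y hy
    have h3 := hB (x + y) hxy
    have h4 : (((chi (x + y)).valMinAbs - ((chi x).valMinAbs + (chi y).valMinAbs) : ℤ) : ZMod m) = 0 := by
      push_cast
      rw [map_add, sub_self]
    rw [ZMod.intCast_zmod_eq_zero_iff_dvd] at h4
    have h5 : |(chi (x + y)).valMinAbs - ((chi x).valMinAbs + (chi y).valMinAbs)| < m := by
      have e1 := abs_sub (chi (x + y)).valMinAbs ((chi x).valMinAbs + (chi y).valMinAbs)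
      have e2 := abs_add_le (chi x).valMinAbs (chi y).valMinAbs
      linarith
    have h6 := Int.eq_zero_of_abs_lt_dvd h4 h5
    linarith
  · intro x _ hx
    exact (ZMod.valMinAbs_eq_zero _).1 hx

end blocks

end Pool.Agent.POS
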