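import Mathlib
import Pool.Agent.Lib_helper25.POS.Defs

/-!
# Positive regime: block PB, the cost is nonnegative
-/

set_option autoImplicit false

namespace Pool.Agent.POS

open Finset Pool.Agent.Lib_helper13.PL

variable {G : Type*} [AddCommGroup G] [DecidableEq G]

theorem pb_sum_nonneg (A B0 : Finset G) : 0 ≤ ∑ y ∈ B0, dlt A y :=
  Finset.sum_nonneg fun y _ => dlt_nonneg A y

theorem pb_sum_ge (A B0 : Finset G) :
    (A.card : ℤ) * ((B0.card : ℤ) - A.card) ≤ ∑ y ∈ B0, dlt A y := by
  have h1 := TT_self A B0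
  have h2 := TT_le13 A B0 A
  rw [h1] at h2
  rw [mul_sub]
  linarith

/-- PB1 -/
theorem cost_small (A B0 : Finset G) :
    6 * (A.card : ℤ) * ((B0.card : ℤ) - A.card) ≤ cost A B0 := by
  have h := pb_sum_ge A B0
  unfold cost
  have e1 : 6 * (A.card : ℤ) * ((B0.card : ℤ) - A.card) =
      2 * (A.card : ℤ) * ((A.card : ℤ) - B0.card) +
        8 * ((A.card : ℤ) * ((B0.card : ℤ) - A.card)) := by ring
  rw [e1]
  linarith

/-- PB2 -/
theorem cost_big (A B0 : Finset G) :
    2 * (A.card : ℤ) * ((A.card : ℤ) - B0.card) ≤ cost A B0 := by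
  have h := pb_sum_nonneg A B0
  unfold cost
  linarith

/-- PB3 -/
theorem cost_nonneg (A B0 : Finset G) : 0 ≤ cost A B0 := by
  have hA : (0 : ℤ) ≤ A.card := Int.natCast_nonneg _
  rcases le_total (A.card : ℤ) B0.card with h | h
  · refine le_trans ?_ (cost_small A B0)
    exact mul_nonneg (by linarith) (by linarith)
  · refine le_trans ?_ (cost_big A B0)
    exact mul_nonneg (by linarith) (by linarith)

end Pool.Agent.POS
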