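import Mathlib
import Pool.Agent.Lib_helper25.POS.FarDefs
import Pool.Agent.Lib_helper42.RS.Sym
import Pool.Agent.Lib_helper25.POS.Defs
import Pool.Agent.Lib_helper42.RS.Struct
import Pool.Agent.Lib_helper25.PR.PA
import Pool.Agent.Lib_helper25.PR.PB

/-!
# Block GF: `B_0` near a coset different from the subgroup
-/

set_option autoImplicit false

namespace Pool.Agent.POS

open Finset Pool.Agent.Lib_helper13.PL

section big
universe u
variable {G : Type u} [AddCommGroup G] [Fintype G] [DecidableEq G]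
open Lib_helper42.RS (ds Per ng InO rho dl)

theorem gf_card (H : AddSubgroup G) (Y : Finset G) (hY : Cst H Y) :
    (Y.card : ℤ) = Nat.card H := by
  obtain ⟨w, hw⟩ := hY
  have e : {x // x ∈ Y} ≃ H :=
    { toFun := fun x => ⟨x.1 - w, (hw x.1).1 x.2⟩
      invFun := fun y => ⟨y.1 + w, (hw _).2 (by simp)⟩
      left_inv := fun x => by simp
      right_inv := fun y => by simp }
  rw [← Nat.card_congr e]
  simp

theorem gf_sch (B0 R : Finset G)
    (hSF : ∀ x ∈ B0, ∀ y ∈ B0, x + y ∈ B0 → x ∈ R ∨ y ∈ R ∨ x + y ∈ R) :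
    GL.sch B0 ≤ 3 * ((R.card : ℤ) * B0.card) := by
  unfold GL.sch
  have hsub : (B0 ×ˢ B0).filter (fun p => p.1 + p.2 ∈ B0) ⊆
      (R ×ˢ B0) ∪ ((B0 ×ˢ R) ∪ (R ×ˢ B0).image (fun p => (p.2, p.1 - p.2))) := by
    intro p hp
    rw [mem_filter, mem_product] at hp
    obtain ⟨⟨h1, h2⟩, h3⟩ := hp
    rcases hSF p.1 h1 p.2 h2 h3 with h | h | h
    · exact mem_union_left _ (mem_product.2 ⟨h, h2⟩)
    · exact mem_union_right _ (mem_union_left _ (mem_product.2 ⟨h1, h⟩))
    · refine mem_union_right _ (mem_union_right _ (mem_image.2 ⟨(p.1 + p.2, p.1), ?_, ?_⟩))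
      · exact mem_product.2 ⟨h, h1⟩
      · ext <;> simp
  have h1 := card_le_card hsub
  have h2 := card_union_le (R ×ˢ B0) ((B0 ×ˢ R) ∪ (R ×ˢ B0).image (fun p => (p.2, p.1 - p.2)))
  have h3 := card_union_le (B0 ×ˢ R) ((R ×ˢ B0).image (fun p => (p.2, p.1 - p.2)))
  have h4 : ((R ×ˢ B0).image (fun p => (p.2, p.1 - p.2))).card ≤ (R ×ˢ B0).card :=
    card_image_le
  rw [card_product] at h2 h4
  rw [card_product] at h3
  have h5 : ((B0 ×ˢ B0).filter (fun p => p.1 + p.2 ∈ B0)).card ≤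
      R.card * B0.card + (B0.card * R.card + R.card * B0.card) := by omega
  have h6 : (((B0 ×ˢ B0).filter (fun p => p.1 + p.2 ∈ B0)).card : ℤ) ≤
      (R.card : ℤ) * B0.card + (B0.card * R.card + R.card * B0.card) := by exact_mod_cast h5
  linarith

theorem gf_num (k p r c F : ℤ) (hp : 0 ≤ p) (hr : 0 ≤ r) (hc : c = k - p + r)
    (hd : 4 * (r + p) ≤ k) (hF : F ≤ 12 * (r * c) - 3 * c ^ 2) : 16 * F ≤ -15 * k ^ 2 := by
  obtain ⟨s, hs⟩ : ∃ s, s = k - 4 * (r + p) := ⟨_, rfl⟩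
  have hs0 : 0 ≤ s := by omega
  have hk : k = s + 4 * r + 4 * p := by omega
  subst hk
  have hc' : c = s + 3 * p + 5 * r := by omega
  subst hc'
  have h1 := mul_nonneg hs0 hs0
  have h2 := mul_nonneg hs0 hp
  have h3 := mul_nonneg hs0 hr
  have h4 := mul_nonneg hp hp
  have h5 := mul_nonneg hp hr
  nlinarith

/-- GF -/
theorem far_coset {m : ℕ} [NeZero m] (chi : G →+ ZMod m) (B : Finset G) (hB : NoWrap chi B)
    (H : AddSubgroup G) (Y : Finset G) (hY : Cst H Y) (h0 : (0 : G) ∉ Y)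
    (hd : 4 * ds (lev chi B 0) Y ≤ Nat.card H) :
    16 * GL.FF B ≤ -15 * (Nat.card H : ℤ) ^ 2 := by
  have hcard := gf_card H Y hY
  set B0 := lev chi B 0 with hB0
  -- `F(B) ≤ F(B_0)`
  have hstar := pl_star chi B hB
  have hcost : 0 ≤ ∑ u ∈ (B.image chi).erase 0, cost (lev chi B u) (lev chi B 0) :=
    sum_nonneg (fun u _ => cost_nonneg _ _)
  have hDD : 0 ≤ DD chi B ^ 2 := sq_nonneg _
  have hFF : GL.FF B ≤ GL.FF B0 := by rw [hB0]; linarith
  -- `Y` is sum free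
  have hYs : ∀ x ∈ Y, ∀ y ∈ Y, x + y ∉ Y := by
    obtain ⟨w, hw⟩ := hY
    intro x hx y hy hxy
    apply h0
    rw [hw] at hx hy hxy ⊢
    have h1 : x - w + (y - w) - (x + y - w) ∈ H := H.sub_mem (H.add_mem hx hy) hxy
    have h2 : x - w + (y - w) - (x + y - w) = 0 - w := by abel
    rwa [h2] at h1
  have hsch := gf_sch B0 (B0 \ Y) (by
    intro x hx y hy hxy
    by_contra hcon
    push Not at hcon
    obtain ⟨c1, c2, c3⟩ := hcon
    rw [mem_sdiff] at c1 c2 c3
    push Not at c1 c2 c3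
    exact hYs x (c1 hx) y (c2 hy) (c3 hxy))
  have hds : ds B0 Y = ((B0 \ Y).card : ℤ) + ((Y \ B0).card : ℤ) := by
    rw [Lib_helper42.RS.ds_eq_card]
    have : symmDiff B0 Y = (B0 \ Y) ∪ (Y \ B0) := rfl
    rw [this, card_union_of_disjoint]
    · push_cast; rfl
    · exact disjoint_sdiff_sdiff
  have hc1 := card_sdiff_add_card_inter B0 Y
  have hc2 := card_sdiff_add_card_inter Y B0
  rw [inter_comm] at hc2
  have hc : (B0.card : ℤ) = Nat.card H - ((Y \ B0).card : ℤ) + ((B0 \ Y).card : ℤ) := by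
    rw [← hcard]
    omega
  refine gf_num (Nat.card H) ((Y \ B0).card) ((B0 \ Y).card) B0.card (GL.FF B) (by positivity)
    (by positivity) hc ?_ ?_
  · rw [hds] at hd
    exact hd
  · refine le_trans hFF ?_
    unfold GL.FF
    linarith

end big

end Pool.Agent.POS
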