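import Mathlib
import Pool.Agent.Lib_helper25.POS.FarDefs

set_option autoImplicit false

namespace Pool.Agent.POS.Far

open Finset

theorem lev_small (c h K x w : ℝ) (hc : 0 ≤ c) (hK : 4 * K ≤ 3 * c) (hL : LevOK c h K x w)
    (hx : 4 * c ≤ 5 * x) : 7 / 8 * x ^ 2 - 2 * x * c + 2 * c ^ 2 ≤ w := by
  obtain ⟨hx0, -, -, -, h5⟩ := hL
  obtain ⟨β, hβ, hw, h⟩ := h5 (by linarith)
  have h34 : β ≤ 3 / 4 * x := by
    rcases h with h | h | h
    · linarith
    · linarith [h.1]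
    · linarith [h.1]
  have : β ^ 2 ≤ (3 / 4 * x) ^ 2 := pow_le_pow_left₀ hβ h34 2
  nlinarith

theorem fa_big (c h K x w : ℝ) (hc : 0 ≤ c) (hK : 4 * K ≤ 3 * c) (hL : LevOK c h K x w)
    (hx : c ≤ 5 * x) : 6 / 7 * c ^ 2 ≤ w := by
  rcases le_total (4 * c) (5 * x) with h1 | h1
  · have := lev_small c h K x w hc hK hL h1
    nlinarith [sq_nonneg (x - 8 / 7 * c)]
  · have h2 := hL.2.2.1
    have h3 : 0 ≤ (5 * x - c) * (4 * c - 5 * x) := mul_nonneg (by linarith) (by linarith)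
    nlinarith

theorem fa_sml (c h K x w : ℝ) (hL : LevOK c h K x w)
    (hx : 5 * x ≤ c) : 24 / 5 * c * x ≤ w := by
  have h2 := hL.2.2.1
  have h3 : 0 ≤ x * (c - 5 * x) := mul_nonneg hL.1 (by linarith)
  nlinarith

theorem fa_one (c h K G w S D T : ℝ) (hc : 0 ≤ c) (hK : 4 * K ≤ 3 * c)
    (hL : LevOK c h K G w) (hG : c ≤ 5 * G) (hS : 0 ≤ S) (hT : T = G + S) (hT2 : 3 * c ≤ 4 * T)
    (hD : S ≤ G → (G - S) ^ 2 ≤ D ^ 2) :
    31 / 20 * c ^ 2 ≤ D ^ 2 + (w + 24 / 5 * c * S) := by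
  have hD0 : 0 ≤ D ^ 2 := sq_nonneg D
  have hw0 : 0 ≤ w := hL.2.1
  have hcS : 0 ≤ c * S := mul_nonneg hc hS
  rcases le_total S G with h1 | h1
  · have hD1 := hD h1
    rcases le_total (3 * c) (4 * G) with h2 | h2
    · rcases le_total (5 * G) (12 * c) with h3 | h3
      · have h4 : 0 ≤ S * (12 * c - 5 * G) := mul_nonneg hS (by linarith)
        have h5 : G ^ 2 ≤ (G - S) ^ 2 + 24 / 5 * c * S := by nlinarith
        have h6 : 8 / 5 * c ^ 2 ≤ w + G ^ 2 := by
          rcases le_total (4 * c) (5 * G) with h7 | h7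
          · have := lev_small c h K G w hc hK hL h7
            nlinarith [mul_nonneg (show 0 ≤ 5 * G - 4 * c by linarith) (show 0 ≤ G by linarith),
              mul_nonneg (show 0 ≤ 5 * G - 4 * c by linarith) hc]
          · have h8 := hL.2.2.1
            have h9 : 0 ≤ (4 * G - 3 * c) * (4 * c - 5 * G) := mul_nonneg (by linarith) (by linarith)
            nlinarith [mul_nonneg hc (show 0 ≤ 4 * c - 5 * G by linarith), mul_nonneg hc (show 0 ≤ 4 * G - 3 * c by linarith)]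
        nlinarith [sq_nonneg c]
      · have h4 := lev_small c h K G w hc hK hL (by linarith)
        have h5 : 0 ≤ (5 * G - 12 * c) * G := mul_nonneg (by linarith) (by linarith)
        nlinarith [mul_nonneg (show 0 ≤ 5 * G - 12 * c by linarith) hc]
    · have h3 := hL.2.2.1
      -- S >= 3c/4 - G
      have hS2 : 3 / 4 * c - G ≤ S := by linarith
      have h4 : (2 * G - 3 / 4 * c) ^ 2 + 24 / 5 * c * (3 / 4 * c - G) ≤ (G - S) ^ 2 + 24 / 5 * c * S := by
        have h5 : 0 ≤ (S - (3 / 4 * c - G)) * (24 / 5 * c - 2 * G + (S + (3 / 4 * c - G))) :=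
          mul_nonneg (by linarith) (by linarith)
        nlinarith
      have h6 : 0 ≤ (3 * c - 4 * G) * (G + c) := mul_nonneg (by linarith) (by linarith)
      nlinarith [mul_nonneg hc (show 0 ≤ 3 * c - 4 * G by linarith), sq_nonneg c]
  · have h2 : 3 / 8 * c ≤ S := by linarith
    have h3 : c * (3 / 8 * c) ≤ c * S := mul_le_mul_of_nonneg_left h2 hc
    nlinarith [sq_nonneg c]

theorem far_a {ι : Type*} [DecidableEq ι] (U : Finset ι) (sg : ι → Prop) [DecidablePred sg]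
    (g w : ι → ℝ) (c h K D : ℝ) (hc : 0 ≤ c) (hK : 4 * K ≤ 3 * c)
    (hL : ∀ u ∈ U, LevOK c h K (g u) (w u))
    (hD : D = ∑ u ∈ U.filter (fun u => sg u), g u - ∑ u ∈ U.filter (fun u => ¬ sg u), g u)
    (hT : 3 * c ≤ 4 * ∑ u ∈ U, g u) :
    31 / 20 * c ^ 2 ≤ D ^ 2 + ∑ u ∈ U, w u := by
  have hPN := Finset.sum_filter_add_sum_filter_not U (fun u => sg u) g
  by_cases h1 : ∃ u ∈ U, c ≤ 5 * g u
  · obtain ⟨u0, hu0, hbig⟩ := h1
    have hw := Finset.add_sum_erase U w hu0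
    have hg := Finset.add_sum_erase U g hu0
    have hg0 : 0 ≤ ∑ u ∈ U.erase u0, g u :=
      Finset.sum_nonneg (fun u hu => (hL u (Finset.mem_of_mem_erase hu)).1)
    by_cases h2 : ∃ v ∈ U.erase u0, c ≤ 5 * g v
    · obtain ⟨v, hv, hvb⟩ := h2
      have h3 := fa_big c h K _ _ hc hK (hL u0 hu0) hbig
      have h4 := fa_big c h K _ _ hc hK (hL v (Finset.mem_of_mem_erase hv)) hvb
      have h5 : w v ≤ ∑ u ∈ U.erase u0, w u :=
        Finset.single_le_sum (fun u hu => (hL u (Finset.mem_of_mem_erase hu)).2.1) hv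
      have h6 : 0 ≤ D ^ 2 := sq_nonneg D
      nlinarith [sq_nonneg c]
    · push Not at h2
      have h3 : 24 / 5 * c * ∑ u ∈ U.erase u0, g u ≤ ∑ u ∈ U.erase u0, w u := by
        rw [Finset.mul_sum]
        exact Finset.sum_le_sum (fun u hu =>
          fa_sml c h K _ _ (hL u (Finset.mem_of_mem_erase hu)) (h2 u hu).le)
      have h4 := fa_one c h K (g u0) (w u0) (∑ u ∈ U.erase u0, g u) D (∑ u ∈ U, g u) hc hK
        (hL u0 hu0) hbig hg0 hg.symm hT ?_
      · linarith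
      · intro hSG
        by_cases hs : sg u0
        · have h5 : g u0 ≤ ∑ u ∈ U.filter (fun u => sg u), g u :=
            Finset.single_le_sum (fun u hu => (hL u (Finset.mem_filter.1 hu).1).1)
              (Finset.mem_filter.2 ⟨hu0, hs⟩)
          exact pow_le_pow_left₀ (by linarith) (by rw [hD]; linarith) 2
        · have h5 : g u0 ≤ ∑ u ∈ U.filter (fun u => ¬ sg u), g u :=
            Finset.single_le_sum (fun u hu => (hL u (Finset.mem_filter.1 hu).1).1)
              (Finset.mem_filter.2 ⟨hu0, hs⟩)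
          have h6 : g u0 - ∑ u ∈ U.erase u0, g u ≤ -D := by rw [hD]; linarith
          have h7 := pow_le_pow_left₀ (by linarith) h6 2
          rwa [neg_sq] at h7
  · push Not at h1
    have h3 : 24 / 5 * c * ∑ u ∈ U, g u ≤ ∑ u ∈ U, w u := by
      rw [Finset.mul_sum]
      exact Finset.sum_le_sum (fun u hu => fa_sml c h K _ _ (hL u hu) (h1 u hu).le)
    have h4 : c * (3 / 4 * c) ≤ c * ∑ u ∈ U, g u :=
      mul_le_mul_of_nonneg_left (by linarith) hc
    have h6 : 0 ≤ D ^ 2 := sq_nonneg D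
    nlinarith [sq_nonneg c]

end Pool.Agent.POS.Far
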