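import Mathlib
import Pool.Agent.Lib_helper25.POS.FarDefs
import Pool.Agent.Lib_helper25.POS.Defs

set_option autoImplicit false

namespace Pool.Agent.POS.Far

open Finset

theorem fb_kappa (c h : ℝ) (hc : 0 ≤ c) (hh : 4 * c < 3 * h) :
    0 ≤ min (73 / 50 * c) (2 * (h - c)) :=
  le_min (by positivity) (by linarith)

/-- FB1 : cost per element -/
theorem lev_rate (c h K x w : ℝ) (hc : 0 ≤ c) (hK : 4 * K ≤ 3 * c) (hh : 4 * c < 3 * h)
    (hL : LevOK c h K x w) : min (73 / 50 * c) (2 * (h - c)) * x ≤ w := by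
  obtain ⟨hx0, hw0, h6, h2, hb⟩ := hL
  have k1 : min (73 / 50 * c) (2 * (h - c)) * x ≤ 73 / 50 * c * x :=
    mul_le_mul_of_nonneg_right (min_le_left _ _) hx0
  have k2 : min (73 / 50 * c) (2 * (h - c)) * x ≤ 2 * (h - c) * x :=
    mul_le_mul_of_nonneg_right (min_le_right _ _) hx0
  rcases le_total (2 * x) c with hx | hx
  · nlinarith [mul_nonneg hx0 (sub_nonneg.2 hx), mul_nonneg hc hx0]
  · obtain ⟨β, hβ0, hw, h3 | ⟨h4, h5⟩ | ⟨h4, h5, h7⟩⟩ := hb hx
    · have hβ : β ^ 2 ≤ c ^ 2 / 9 := by nlinarith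
      nlinarith [sq_nonneg (x - 173 / 200 * c)]
    · have hβ : β ^ 2 ≤ c ^ 2 / 4 := by nlinarith
      nlinarith [sq_nonneg (x - 173 / 200 * c)]
    · rcases le_or_gt h x with hx2 | hx2
      · nlinarith [mul_nonneg hx0 (sub_nonneg.2 hx2)]
      · have h8 := h7 hx2
        have hβ : β ^ 2 ≤ (c - 2 * (h - x)) ^ 2 := by nlinarith
        have hv : 0 < h - x := by linarith
        have hv2 : 0 ≤ c - 2 * (h - x) := by linarith
        rcases le_or_gt x (4 * (c - (h - x))) with h9 | h9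
        · nlinarith [mul_nonneg hv.le (sub_nonneg.2 h9)]
        · have h10 : 2 * c ≤ x := by linarith
          nlinarith [mul_nonneg hx0 (sub_nonneg.2 h10), mul_nonneg hc hx0]

theorem fb_conc (c v f0 f1 f : ℝ) (hc : 0 < c) (hv : 0 ≤ v) (hv2 : 2 * v ≤ c) (h0 : 0 ≤ f0)
    (h1 : 0 ≤ f1) (hf : (c - 2 * v) * f0 + 2 * v * f1 ≤ c * f) : 0 ≤ f := by
  have h2 : 0 ≤ (c - 2 * v) * f0 := mul_nonneg (by linarith) h0
  have h3 : 0 ≤ 2 * v * f1 := mul_nonneg (by linarith) h1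
  have h4 : 0 ≤ c * f := by linarith
  exact nonneg_of_mul_nonneg_right h4 hc

/-- FB2 : a large level -/
theorem lev_large (c h K x w κ : ℝ) (hc : 0 ≤ c) (hK : 4 * K ≤ 3 * c) (hh : 4 * c < 3 * h)
    (hL : LevOK c h K x w) (hx : 2 * h ≤ 2 * x + c) (hκ : κ = min (73 / 50 * c) (2 * (h - c))) :
    4 / 5 * h ^ 2 + 1 / 9 * c ^ 2 ≤ w + κ * x - κ ^ 2 / 4 := by
  obtain ⟨hx0, hw0, h6, h2, hb⟩ := hL
  have hcase : (κ = 73 / 50 * c ∧ 173 * c ≤ 100 * h) ∨ (κ = 2 * (h - c)) := by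
    rcases le_total (73 / 50 * c) (2 * (h - c)) with h1 | h1
    · left
      rw [min_eq_left h1] at hκ
      exact ⟨hκ, by linarith⟩
    · right
      rw [min_eq_right h1] at hκ
      exact hκ
  -- value at `x = h`
  have val0 : 4 / 5 * h ^ 2 + 1 / 9 * c ^ 2 ≤ 2 * h * (h - c) + κ * h - κ ^ 2 / 4 := by
    rcases hcase with ⟨h1, h3⟩ | h1
    · rw [h1]
      nlinarith [mul_nonneg hc (sub_nonneg.2 h3), sq_nonneg (100 * h - 173 * c), mul_nonneg hc hc]
    · rw [h1]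
      nlinarith [mul_nonneg hc (sub_nonneg.2 hh.le), sq_nonneg (3 * h - 4 * c), mul_nonneg hc hc]
  have val1 : 4 / 5 * h ^ 2 + 1 / 9 * c ^ 2 ≤
      2 * h ^ 2 - 4 * h * c + 3 * c ^ 2 + κ * (h - c / 2) - κ ^ 2 / 4 := by
    rcases hcase with ⟨h1, h3⟩ | h1
    · rw [h1]
      nlinarith [sq_nonneg (h - 254 / 240 * c), mul_nonneg hc hc]
    · rw [h1]
      nlinarith [sq_nonneg (h - 25 / 22 * c), mul_nonneg hc hc]
  have hκ0 : 0 ≤ κ := by rw [hκ]; exact fb_kappa c h hc hh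
  rcases le_or_gt h x with hx2 | hx2
  · have e1 : 2 * h * (h - c) ≤ 2 * x * (x - c) := by nlinarith
    have e2 : κ * h ≤ κ * x := mul_le_mul_of_nonneg_left hx2 hκ0
    linarith
  · have hxc : c ≤ 2 * x := by linarith
    obtain ⟨β, hβ0, hw, hopt⟩ := hb hxc
    have main : 2 * (x ^ 2 - x * c) + 3 / 2 * c ^ 2 ≤ w →
        4 / 5 * h ^ 2 + 1 / 9 * c ^ 2 ≤ w + κ * x - κ ^ 2 / 4 := by
      intro h1
      have hy : h - c / 2 ≤ x := by linarith
      have e1 : 2 * ((h - c / 2) ^ 2 - (h - c / 2) * c) ≤ 2 * (x ^ 2 - x * c) := by nlinarith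
      have e2 : κ * (h - c / 2) ≤ κ * x := mul_le_mul_of_nonneg_left hy hκ0
      nlinarith
    rcases hopt with h3 | ⟨h4, h5⟩ | ⟨h4, h5, h7⟩
    · apply main
      have hβ : β ^ 2 ≤ c ^ 2 / 9 := by nlinarith
      nlinarith
    · apply main
      have hβ : β ^ 2 ≤ c ^ 2 / 4 := by nlinarith
      nlinarith
    · have h8 := h7 hx2
      have hv : 0 < h - x := by linarith
      have hv2 : 0 ≤ c - 2 * (h - x) := by linarith
      have hc0 : 0 < c := by linarith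
      have hβ : β ^ 2 ≤ (c - 2 * (h - x)) ^ 2 := by nlinarith
      have hw2 : 2 * x * (x - c) + 8 * (h - x) * (c - (h - x)) ≤ w := by nlinarith
      obtain ⟨v, hvx⟩ : ∃ v, v = h - x := ⟨_, rfl⟩
      have hx' : x = h - v := by linarith
      rw [← hvx] at hv hv2 hw2
      have key : 0 ≤ (2 * (h - v) * ((h - v) - c) + 8 * v * (c - v) + κ * (h - v) - κ ^ 2 / 4)
          - (4 / 5 * h ^ 2 + 1 / 9 * c ^ 2) := by
        apply fb_conc c v ((2 * h * (h - c) + κ * h - κ ^ 2 / 4) - (4 / 5 * h ^ 2 + 1 / 9 * c ^ 2))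
          ((2 * h ^ 2 - 4 * h * c + 3 * c ^ 2 + κ * (h - c / 2) - κ ^ 2 / 4)
            - (4 / 5 * h ^ 2 + 1 / 9 * c ^ 2)) _ hc0 hv.le (by linarith) (by linarith)
            (by linarith)
        have e3 : 0 ≤ v * (c - 2 * v) := mul_nonneg hv.le hv2
        have e4 : 0 ≤ c * (v * (c - 2 * v)) := mul_nonneg hc e3
        have e5 : 0 ≤ v * c ^ 2 := by positivity
        nlinarith
      rw [hx'] at hw2 ⊢
      linarith

/-- FB3 -/
theorem far_b {ι : Type*} [DecidableEq ι] (U : Finset ι) (sg : ι → Prop) [DecidablePred sg]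
    (g w : ι → ℝ) (c h K D : ℝ) (hc : 0 ≤ c) (hK : 4 * K ≤ 3 * c) (hh : 4 * c < 3 * h)
    (hL : ∀ u ∈ U, LevOK c h K (g u) (w u))
    (hD : D = ∑ u ∈ U.filter (fun u => sg u), g u - ∑ u ∈ U.filter (fun u => ¬ sg u), g u)
    (hbig : ∃ u ∈ U, 2 * h ≤ 2 * g u + c) :
    4 / 5 * h ^ 2 + 1 / 9 * c ^ 2 ≤ D ^ 2 + ∑ u ∈ U, w u := by
  obtain ⟨u0, hu0, hlarge⟩ := hbig
  obtain ⟨κ, hκ⟩ : ∃ κ, κ = min (73 / 50 * c) (2 * (h - c)) := ⟨_, rfl⟩
  have hκ0 : 0 ≤ κ := by rw [hκ]; exact fb_kappa c h hc hh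
  have hl := lev_large c h K (g u0) (w u0) κ hc hK hh (hL u0 hu0) hlarge hκ
  obtain ⟨S, hS⟩ : ∃ S, S = ∑ u ∈ U.erase u0, g u := ⟨_, rfl⟩
  have hws : κ * S ≤ ∑ u ∈ U.erase u0, w u := by
    rw [hS, Finset.mul_sum]
    apply Finset.sum_le_sum
    intro u hu
    rw [hκ]
    exact lev_rate c h K (g u) (w u) hc hK hh (hL u (Finset.mem_of_mem_erase hu))
  have hw : ∑ u ∈ U, w u = w u0 + ∑ u ∈ U.erase u0, w u := (Finset.add_sum_erase U w hu0).symm
  have hD2 : D = ∑ u ∈ U, (if sg u then g u else - g u) := by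
    rw [hD, Finset.sum_filter, Finset.sum_filter, ← Finset.sum_sub_distrib]
    apply Finset.sum_congr rfl
    intro u _
    by_cases hs : sg u
    · simp [hs]
    · simp [hs]
  have hD3 : D = (if sg u0 then g u0 else - g u0)
      + ∑ u ∈ U.erase u0, (if sg u then g u else - g u) := by
    rw [hD2]; exact (Finset.add_sum_erase U _ hu0).symm
  have b1 : - S ≤ ∑ u ∈ U.erase u0, (if sg u then g u else - g u) := by
    rw [hS, ← Finset.sum_neg_distrib]
    apply Finset.sum_le_sum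
    intro u hu
    have h0 : 0 ≤ g u := (hL u (Finset.mem_of_mem_erase hu)).1
    split_ifs <;> linarith
  have b2 : ∑ u ∈ U.erase u0, (if sg u then g u else - g u) ≤ S := by
    rw [hS]
    apply Finset.sum_le_sum
    intro u hu
    have h0 : 0 ≤ g u := (hL u (Finset.mem_of_mem_erase hu)).1
    split_ifs <;> linarith
  rw [hw]
  by_cases hs : sg u0
  · rw [if_pos hs] at hD3
    have h1 : g u0 - D ≤ S := by linarith
    have h2 : κ * (g u0 - D) ≤ κ * S := mul_le_mul_of_nonneg_left h1 hκ0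
    nlinarith [sq_nonneg (D - κ / 2)]
  · rw [if_neg hs] at hD3
    have h1 : g u0 + D ≤ S := by linarith
    have h2 : κ * (g u0 + D) ≤ κ * S := mul_le_mul_of_nonneg_left h1 hκ0
    nlinarith [sq_nonneg (D + κ / 2)]

end Pool.Agent.POS.Far
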