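import Mathlib
import Pool.Agent.Lib_helper25.POS.FarDefs

/-! # POS/FAR block FC (helper37) -/

namespace Pool.Agent.POS.Far

open Finset

/-- FC1 -/
theorem lev_mid (c h K x w : ℝ) (hK : 4 * K ≤ 3 * c) (hc : 0 ≤ c) (hL : LevOK c h K x w)
    (hx : 2 * x + c < 2 * h) (hx2 : c ≤ 2 * x) :
    2 * (x ^ 2 - x * c + 3 / 4 * c ^ 2) ≤ w := by
  obtain ⟨_, _, _, _, hb⟩ := hL
  obtain ⟨β, hβ0, hβ1, hβ2⟩ := hb hx2
  have key : β ≤ c / 2 := by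
    rcases hβ2 with h1 | h1 | h1
    · linarith
    · linarith [h1.1]
    · obtain ⟨_, _, h3⟩ := h1
      have h4 : x < h := by linarith
      have h5 := h3 h4
      linarith
  have h2 : β ^ 2 ≤ (c / 2) ^ 2 := pow_le_pow_left₀ hβ0 key 2
  nlinarith [h2, hβ1]

/-- FC2 -/
theorem num_uu (c h x y wx wy : ℝ) (hc : 0 ≤ c) (hh : 4 * c < 3 * h)
    (hx : 2 * x + c < 2 * h) (hy : 2 * y + c < 2 * h) (hxy : 2 * h ≤ 2 * x + y)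
    (hwx : c ≤ 2 * x → 2 * (x ^ 2 - x * c + 3 / 4 * c ^ 2) ≤ wx)
    (hwy : c ≤ 2 * y → 2 * (y ^ 2 - y * c + 3 / 4 * c ^ 2) ≤ wy) :
    4 / 5 * h ^ 2 + 1 / 9 * c ^ 2 ≤ wx + wy := by
  have h1 := hwx (by linarith)
  have h2 := hwy (by linarith)
  have h3 : 0 ≤ (8 / 5 * h - 6 / 5 * c) * (2 * x + y - 2 * h) :=
    mul_nonneg (by linarith) (by linarith)
  have h4 : 0 ≤ (x - (c + (8 / 5 * h - 6 / 5 * c)) / 2) ^ 2 := sq_nonneg _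
  have h5 : 0 ≤ (y - (2 * c + (8 / 5 * h - 6 / 5 * c)) / 4) ^ 2 := sq_nonneg _
  have h6 : 0 ≤ (h - 3 / 2 * c) ^ 2 := sq_nonneg _
  have h7 : 0 ≤ c ^ 2 := sq_nonneg _
  nlinarith [h1, h2, h3, h4, h5, h6, h7]

/-- FC3 -/
theorem num_three3 (c h x y z wx wy wz : ℝ) (hc : 0 ≤ c) (hh : 4 * c < 3 * h)
    (hx : 2 * x + c < 2 * h) (hy : 2 * y + c < 2 * h) (hz : 2 * z + c < 2 * h)
    (hxyz : 2 * h ≤ x + y + z)
    (hwx : c ≤ 2 * x → 2 * (x ^ 2 - x * c + 3 / 4 * c ^ 2) ≤ wx)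
    (hwy : c ≤ 2 * y → 2 * (y ^ 2 - y * c + 3 / 4 * c ^ 2) ≤ wy)
    (hwz : c ≤ 2 * z → 2 * (z ^ 2 - z * c + 3 / 4 * c ^ 2) ≤ wz) :
    4 / 5 * h ^ 2 + 1 / 9 * c ^ 2 ≤ wx + wy + wz := by
  have h1 := hwx (by linarith)
  have h2 := hwy (by linarith)
  have h2' := hwz (by linarith)
  have h3 : 0 ≤ (8 / 3 * h - 2 * c) * (x + y + z - 2 * h) :=
    mul_nonneg (by linarith) (by linarith)
  have h4 : 0 ≤ (x - 2 / 3 * h) ^ 2 := sq_nonneg _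
  have h5 : 0 ≤ (y - 2 / 3 * h) ^ 2 := sq_nonneg _
  have h5' : 0 ≤ (z - 2 / 3 * h) ^ 2 := sq_nonneg _
  have h6 : 0 ≤ (h - c) ^ 2 := sq_nonneg _
  have h7 : 0 ≤ c ^ 2 := sq_nonneg _
  nlinarith [h1, h2, h2', h3, h4, h5, h5', h6, h7]

end Pool.Agent.POS.Far
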