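import Mathlib
import Pool.Agent.Lib_helper25.POS.FarDefs
import Pool.Agent.Lib_helper25.PR.FC

/-! # POS/FAR block FD (helper37) -/

namespace Pool.Agent.POS.Far

open Finset

theorem fd_mid (c h K x w : ℝ) (hc : 0 ≤ c) (hK : 4 * K ≤ 3 * c) (hL : LevOK c h K x w)
    (hx : 2 * x + c < 2 * h) (hh2 : 2 * h ≤ 3 * c) (hx4 : c ≤ 4 * x) :
    9 / 8 * c ^ 2 ≤ w := by
  have hw := hL.2.2.1
  by_cases h3 : 4 * x ≤ 3 * c
  · have : 0 ≤ (4 * x - c) * (3 * c - 4 * x) := mul_nonneg (by linarith) (by linarith)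
    nlinarith [this, hw]
  · have h3' : 3 * c < 4 * x := not_le.1 h3
    have h4 := lev_mid c h K x w hK hc hL hx (by linarith)
    have : 0 ≤ (4 * x - 3 * c) * (4 * x - c) := mul_nonneg (by linarith) (by linarith)
    nlinarith [this, h4]

theorem fd_small (c h K x w : ℝ) (hL : LevOK c h K x w) (hx4 : 4 * x ≤ c) :
    9 / 2 * c * x ≤ w := by
  have hw := hL.2.2.1
  have : 0 ≤ x * (c - 4 * x) := mul_nonneg hL.1 (by linarith)
  nlinarith [this, hw]

theorem fd_D {ι : Type*} [DecidableEq ι] (U : Finset ι) (sg : ι → Prop) [DecidablePred sg]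
    (g : ι → ℝ) (D : ℝ) (hg : ∀ u ∈ U, 0 ≤ g u)
    (hD : D = ∑ u ∈ U.filter (fun u => sg u), g u - ∑ u ∈ U.filter (fun u => ¬ sg u), g u)
    (u : ι) (hu : u ∈ U) (hS : ∑ v ∈ U.erase u, g v ≤ g u) :
    (g u - ∑ v ∈ U.erase u, g v) ^ 2 ≤ D ^ 2 := by
  have key : ∀ P : ι → Prop, ∀ _ : DecidablePred P, P u →
      g u - ∑ v ∈ U.erase u, g v ≤
        ∑ v ∈ U.filter (fun v => P v), g v - ∑ v ∈ U.filter (fun v => ¬ P v), g v := by
    intro P _ hP
    have h1 : g u ≤ ∑ v ∈ U.filter (fun v => P v), g v :=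
      Finset.single_le_sum (f := g) (fun v hv => hg v (Finset.mem_filter.1 hv).1)
        (Finset.mem_filter.2 ⟨hu, hP⟩)
    have h2 : ∑ v ∈ U.filter (fun v => ¬ P v), g v ≤ ∑ v ∈ U.erase u, g v := by
      apply Finset.sum_le_sum_of_subset_of_nonneg
      · intro v hv
        rw [Finset.mem_filter] at hv
        rw [Finset.mem_erase]
        refine ⟨?_, hv.1⟩
        rintro rfl
        exact hv.2 hP
      · intro v hv _
        exact hg v (Finset.mem_of_mem_erase hv)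
    linarith
  by_cases hs : sg u
  · have h1 := key sg inferInstance hs
    rw [← hD] at h1
    exact pow_le_pow_left₀ (by linarith) h1 2
  · have h1 := key (fun v => ¬ sg v) inferInstance hs
    have h2 : ∑ v ∈ U.filter (fun v => ¬ ¬ sg v), g v = ∑ v ∈ U.filter (fun v => sg v), g v := by
      apply Finset.sum_congr _ (fun _ _ => rfl)
      ext v
      simp
    rw [h2] at h1
    have h3 : g u - ∑ v ∈ U.erase u, g v ≤ -D := by rw [hD]; linarith
    have h4 : (g u - ∑ v ∈ U.erase u, g v) ^ 2 ≤ (-D) ^ 2 := pow_le_pow_left₀ (by linarith) h3 2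
    linarith [neg_sq D]

/-- FD -/
theorem far_d {ι : Type*} [DecidableEq ι] (U : Finset ι) (sg : ι → Prop) [DecidablePred sg]
    (g w : ι → ℝ) (c h K D : ℝ) (hc : 0 ≤ c) (hK : 4 * K ≤ 3 * c)
    (hh2 : 2 * h ≤ 3 * c) (hL : ∀ u ∈ U, LevOK c h K (g u) (w u))
    (hD : D = ∑ u ∈ U.filter (fun u => sg u), g u - ∑ u ∈ U.filter (fun u => ¬ sg u), g u)
    (hT : 3 * c ≤ 4 * ∑ u ∈ U, g u) (hsm : ∀ u ∈ U, 2 * g u + c < 2 * h) :
    4 / 5 * h ^ 2 + 1 / 9 * c ^ 2 ≤ D ^ 2 + ∑ u ∈ U, w u ∨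
      (c + ∑ u ∈ U, g u) ^ 2 / 3 + 1 / 9 * c ^ 2 ≤ D ^ 2 + ∑ u ∈ U, w u := by
  rcases U.eq_empty_or_nonempty with hU | ⟨u0, hu0⟩
  · subst hU
    right
    simp only [Finset.sum_empty] at hT ⊢
    have hc0 : c = 0 := le_antisymm (by linarith) hc
    rw [hc0]
    have := sq_nonneg D
    nlinarith [this]
  have hg : ∀ u ∈ U, 0 ≤ g u := fun u hu => (hL u hu).1
  have hw0 : ∀ u ∈ U, 0 ≤ w u := fun u hu => (hL u hu).2.1
  have hh0 : 0 ≤ h := by
    have h1 := hsm u0 hu0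
    have h2 := hg u0 hu0
    linarith
  have hDsq : 0 ≤ D ^ 2 := sq_nonneg D
  -- bound for h
  have hb : 4 / 5 * h ^ 2 + 1 / 9 * c ^ 2 ≤ 153 / 80 * c ^ 2 := by
    have h1 : h ^ 2 ≤ (3 / 2 * c) ^ 2 := pow_le_pow_left₀ hh0 (by linarith) 2
    have h2 : 0 ≤ c ^ 2 := sq_nonneg c
    nlinarith [h1, h2]
  by_cases h1 : ∃ u ∈ U, c ≤ 4 * g u
  · obtain ⟨u, hu, hGu⟩ := h1
    have hwu : 9 / 8 * c ^ 2 ≤ w u := fd_mid c h K (g u) (w u) hc hK (hL u hu) (hsm u hu) hh2 hGu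
    have hsumw : ∑ v ∈ U, w v = w u + ∑ v ∈ U.erase u, w v := (Finset.add_sum_erase U w hu).symm
    have hsumg : ∑ v ∈ U, g v = g u + ∑ v ∈ U.erase u, g v := (Finset.add_sum_erase U g hu).symm
    by_cases h2 : ∃ v ∈ U.erase u, c ≤ 4 * g v
    · left
      obtain ⟨v, hv, hGv⟩ := h2
      have hvU := Finset.mem_of_mem_erase hv
      have hwv : 9 / 8 * c ^ 2 ≤ w v :=
        fd_mid c h K (g v) (w v) hc hK (hL v hvU) (hsm v hvU) hh2 hGv
      have h3 : w v ≤ ∑ v ∈ U.erase u, w v :=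
        Finset.single_le_sum (f := w) (fun t ht => hw0 t (Finset.mem_of_mem_erase ht)) hv
      have h4 : 0 ≤ c ^ 2 := sq_nonneg c
      rw [hsumw]
      nlinarith [h3, h4, hwu, hwv, hb]
    · push Not at h2
      obtain ⟨S, hS⟩ : ∃ S, S = ∑ v ∈ U.erase u, g v := ⟨_, rfl⟩
      have hS0 : 0 ≤ S := by
        rw [hS]
        exact Finset.sum_nonneg fun t ht => hg t (Finset.mem_of_mem_erase ht)
      have h3 : 9 / 2 * c * S ≤ ∑ v ∈ U.erase u, w v := by
        rw [hS, Finset.mul_sum]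
        apply Finset.sum_le_sum
        intro t ht
        exact fd_small c h K (g t) (w t) (hL t (Finset.mem_of_mem_erase ht)) (h2 t ht).le
      by_cases h4 : 7 * c ≤ 40 * S
      · left
        rw [hsumw]
        have h5 : 0 ≤ c * (40 * S - 7 * c) := mul_nonneg hc (by linarith)
        nlinarith [h5, h3, hwu, hb, hDsq]
      · right
        have h4' : 40 * S < 7 * c := not_le.1 h4
        have h6 : (g u - S) ^ 2 ≤ D ^ 2 := by
          rw [hS]
          apply fd_D U sg g D hg hD u hu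
          rw [← hS]
          linarith
        rw [hsumw, hsumg, ← hS]
        have h7 : 0 ≤ (g u - c / 2 - 2 * S) ^ 2 := sq_nonneg _
        have h8 : 0 ≤ S * (7 * c - 40 * S) := mul_nonneg hS0 (by linarith)
        have h9 : 0 ≤ c * S := mul_nonneg hc hS0
        have h10 : 0 ≤ c ^ 2 := sq_nonneg c
        nlinarith [h3, h6, h7, h8, h9, h10, hwu]
  · left
    push Not at h1
    have h3 : 9 / 2 * c * (∑ v ∈ U, g v) ≤ ∑ v ∈ U, w v := by
      rw [Finset.mul_sum]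
      apply Finset.sum_le_sum
      intro t ht
      exact fd_small c h K (g t) (w t) (hL t ht) (h1 t ht).le
    have h5 : 0 ≤ c * (4 * (∑ v ∈ U, g v) - 3 * c) := mul_nonneg hc (by linarith)
    have h4 : 0 ≤ c ^ 2 := sq_nonneg c
    nlinarith [h5, h3, h4, hb, hDsq]

end Pool.Agent.POS.Far
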