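import Mathlib
import Pool.Agent.Lib_helper25.POS.FarDefs

/-!
# Block FE1: strong case, `J = 1`
-/


namespace Pool.Agent.POS.Far

open Finset

theorem fe1_gain (c h K x w : ℝ) (hc : 0 < c) (hK1 : 3 * c < 4 * K) (hK2 : K ≤ c)
    (hL : LevOK c h K x w) (hx : c ≤ 2 * x) :
    2 * x * (x - c) + 8 * K * (c - K) ≤ w ∨ (h ≤ x ∧ 2 * x * (x - c) ≤ w) ∨
      (x < h ∧ 2 * (h - x) ≤ c ∧ 2 * x * (x - c) + 8 * (h - x) * (c - (h - x)) ≤ w) := by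
  obtain ⟨h0, h1, h2, h3, h4⟩ := hL
  obtain ⟨β, hβ, hw, hb⟩ := h4 hx
  rcases hb with hb | ⟨hb, hb'⟩ | ⟨hb1, hb2, hb3⟩
  · left
    have e1 : β ^ 2 ≤ (c / 3) ^ 2 := pow_le_pow_left₀ hβ (by linarith) 2
    nlinarith [mul_nonneg (sub_nonneg.2 hK1.le) (sub_nonneg.2 hK2)]
  · left
    have e1 : β ^ 2 ≤ (2 * K - c) ^ 2 := pow_le_pow_left₀ hβ hb 2
    nlinarith
  · rcases lt_or_ge x h with hxh | hxh
    · right; right
      have e0 := hb3 hxh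
      refine ⟨hxh, by linarith, ?_⟩
      have e1 : β ^ 2 ≤ (c - 2 * (h - x)) ^ 2 := pow_le_pow_left₀ hβ e0 2
      nlinarith
    · right; left
      exact ⟨hxh, h3⟩

theorem fe1_F (c K F0 : ℝ) (hc : 0 < c) (hK1 : 3 * c < 4 * K) (hK2 : K ≤ c) (hF : F0OK c K F0) :
    9 * F0 ≤ 32 * c * K - 23 * c ^ 2 := by
  rcases hF with hF | ⟨ρ, hρ, hF, hb | ⟨hb, hb'⟩⟩
  · nlinarith
  · have e1 : ρ ^ 2 ≤ (c / 3) ^ 2 := pow_le_pow_left₀ hρ (by linarith) 2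
    nlinarith
  · have e1 : ρ ^ 2 ≤ (4 * K - 3 * c) ^ 2 := pow_le_pow_left₀ hρ hb 2
    nlinarith [mul_nonneg (sub_nonneg.2 hK1.le) (sub_nonneg.2 hK2)]

theorem fe1_conc (V v A B C : ℝ) (hC : 0 ≤ C) (hv : 0 ≤ v) (hvV : v ≤ V) (h0 : 0 ≤ A)
    (hV : 0 ≤ A + B * V - C * V ^ 2) : 0 ≤ A + B * v - C * v ^ 2 := by
  rcases (hv.trans hvV).lt_or_eq with hV0 | hV0
  · have e : V * (A + B * v - C * v ^ 2) = (V - v) * A + v * (A + B * V - C * V ^ 2) +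
        C * V * (v * (V - v)) := by ring
    have e2 : 0 ≤ V * (A + B * v - C * v ^ 2) := by
      rw [e]
      have e3 : 0 ≤ V - v := by linarith
      positivity
    exact nonneg_of_mul_nonneg_right e2 hV0
  · have : v = 0 := by linarith
    rw [this]
    linarith

section num
variable (c K T : ℝ)

theorem fe1_L1 (hc : 0 < c) (hK1 : 3 * c < 4 * K) (hT : 24 / 5 * K ≤ c + T) :
    32 * c * K - 23 * c ^ 2 ≤ 9 * (4 / 5 * T ^ 2 - 2 * T * c) := by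
  nlinarith [mul_nonneg (sub_nonneg.2 hT) hc.le, sq_nonneg (c + T - 24 / 5 * K),
    mul_nonneg (sub_nonneg.2 hT) (sub_nonneg.2 hK1.le), mul_nonneg (sub_nonneg.2 hK1.le) hc.le,
    sq_nonneg (4 * K - 3 * c)]

theorem fe1_L2 (hc : 0 < c) (hK1 : 3 * c < 4 * K) (hK2 : K ≤ c) (hT : 24 / 5 * K ≤ c + T) :
    32 * c * K - 23 * c ^ 2 ≤ 9 * (7 / 9 * T ^ 2 - 2 * T * c + 8 * K * (c - K)) := by
  nlinarith [mul_nonneg (sub_nonneg.2 hT) hc.le, sq_nonneg (c + T - 24 / 5 * K),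
    mul_nonneg (sub_nonneg.2 hT) (sub_nonneg.2 hK1.le), mul_nonneg (sub_nonneg.2 hK1.le) hc.le,
    sq_nonneg (4 * K - 3 * c), mul_nonneg (sub_nonneg.2 hK1.le) (sub_nonneg.2 hK2)]

theorem fe1_L3 (hc : 0 < c) (hK1 : 3 * c < 4 * K) (hT : 24 / 5 * K ≤ c + T) :
    32 * c * K - 23 * c ^ 2 ≤ 9 * (4 / 5 * T ^ 2 - 11 / 5 * T * c + 49 / 20 * c ^ 2) := by
  nlinarith [mul_nonneg (sub_nonneg.2 hT) hc.le, sq_nonneg (c + T - 24 / 5 * K),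
    mul_nonneg (sub_nonneg.2 hT) (sub_nonneg.2 hK1.le), mul_nonneg (sub_nonneg.2 hK1.le) hc.le,
    sq_nonneg (4 * K - 3 * c)]

theorem fe1_L4 (hc : 0 < c) (hK1 : 3 * c < 4 * K) (hK2 : K ≤ c) (hT : 24 / 5 * K ≤ c + T) :
    32 * c * K - 23 * c ^ 2 ≤
      9 * (T ^ 2 - 2 * T * c - 2 / 9 * (T + c) ^ 2 + 16 * K * (c - K)) := by
  nlinarith [mul_nonneg (sub_nonneg.2 hT) hc.le, sq_nonneg (c + T - 24 / 5 * K),
    mul_nonneg (sub_nonneg.2 hT) (sub_nonneg.2 hK1.le), mul_nonneg (sub_nonneg.2 hK1.le) hc.le,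
    sq_nonneg (4 * K - 3 * c), mul_nonneg (sub_nonneg.2 hK1.le) (sub_nonneg.2 hK2)]

theorem fe1_L5 (hc : 0 < c) (hK1 : 3 * c < 4 * K) (hK2 : K ≤ c) (hT : 24 / 5 * K ≤ c + T) :
    32 * c * K - 23 * c ^ 2 ≤
      9 * (4 / 5 * T ^ 2 - 12 / 5 * T * c + 9 / 5 * c ^ 2 + 8 * K * (c - K)) := by
  nlinarith [mul_nonneg (sub_nonneg.2 hT) hc.le, sq_nonneg (c + T - 24 / 5 * K),
    mul_nonneg (sub_nonneg.2 hT) (sub_nonneg.2 hK1.le), mul_nonneg (sub_nonneg.2 hK1.le) hc.le,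
    sq_nonneg (4 * K - 3 * c), mul_nonneg (sub_nonneg.2 hK1.le) (sub_nonneg.2 hK2)]

theorem fe1_L6 (hc : 0 < c) (hK1 : 3 * c < 4 * K) (hT : 24 / 5 * K ≤ c + T) :
    32 * c * K - 23 * c ^ 2 ≤ 9 * (11 / 5 * T ^ 2 - 6 * T * c + 2 * c ^ 2) := by
  nlinarith [mul_nonneg (sub_nonneg.2 hT) hc.le, sq_nonneg (c + T - 24 / 5 * K),
    mul_nonneg (sub_nonneg.2 hT) (sub_nonneg.2 hK1.le), mul_nonneg (sub_nonneg.2 hK1.le) hc.le,
    sq_nonneg (4 * K - 3 * c)]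

theorem fe1_L7 (hc : 0 < c) (hK1 : 3 * c < 4 * K) (hK2 : K ≤ c) (hT : 24 / 5 * K ≤ c + T) :
    32 * c * K - 23 * c ^ 2 ≤
      9 * (T ^ 2 - 2 * T * c - 2 / 9 * (T + c) ^ 2 + 2 * c ^ 2 + 8 * K * (c - K)) := by
  nlinarith [mul_nonneg (sub_nonneg.2 hT) hc.le, sq_nonneg (c + T - 24 / 5 * K),
    mul_nonneg (sub_nonneg.2 hT) (sub_nonneg.2 hK1.le), mul_nonneg (sub_nonneg.2 hK1.le) hc.le,
    sq_nonneg (4 * K - 3 * c), mul_nonneg (sub_nonneg.2 hK1.le) (sub_nonneg.2 hK2)]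

/-- `h = x`, `y` alive, `D ≤ c/2` -/
theorem fe1_M1 (D : ℝ) (hc : 0 < c) (hK1 : 3 * c < 4 * K) (hT : 24 / 5 * K ≤ c + T)
    (hD : 0 ≤ D) (hD2 : 2 * D ≤ c) :
    32 * c * K - 23 * c ^ 2 ≤
      9 * (T ^ 2 + 2 * D ^ 2 - 2 * T * c + 8 * D * (c - D) - 1 / 5 * (T + D) ^ 2) := by
  have h1 := fe1_L1 c K T hc hK1 hT
  have h2 := fe1_L3 c K T hc hK1 hT
  have h3 := fe1_conc (c / 2) D (9 * (4 / 5 * T ^ 2 - 2 * T * c) - (32 * c * K - 23 * c ^ 2))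
    (9 * (8 * c - 2 / 5 * T)) (9 * (31 / 5)) (by norm_num) hD (by linarith) (by linarith)
    (by nlinarith)
  nlinarith

/-- `v = c/2 - D`, both alive -/
theorem fe1_M2 (D : ℝ) (hc : 0 < c) (hK1 : 3 * c < 4 * K) (hT : 24 / 5 * K ≤ c + T)
    (hD : 0 ≤ D) (hD2 : 2 * D ≤ c) :
    32 * c * K - 23 * c ^ 2 ≤
      9 * (T ^ 2 - 2 * T * c + 4 * c ^ 2 - 6 * D ^ 2 - 1 / 5 * (T + c - D) ^ 2) := by
  have h2 := fe1_L3 c K T hc hK1 hT
  have h0 : 0 ≤ T := by linarith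
  have h1 : 32 * c * K - 23 * c ^ 2 ≤ 9 * (4 / 5 * T ^ 2 - 12 / 5 * T * c + 19 / 5 * c ^ 2) := by
    nlinarith [mul_nonneg (sub_nonneg.2 hT) hc.le, sq_nonneg (c + T - 24 / 5 * K),
      mul_nonneg (sub_nonneg.2 hT) (sub_nonneg.2 hK1.le), mul_nonneg (sub_nonneg.2 hK1.le) hc.le,
      sq_nonneg (4 * K - 3 * c)]
  have h3 := fe1_conc (c / 2) D
    (9 * (4 / 5 * T ^ 2 - 12 / 5 * T * c + 19 / 5 * c ^ 2) - (32 * c * K - 23 * c ^ 2))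
    (9 * (2 / 5 * (T + c))) (9 * (31 / 5)) (by norm_num) hD (by linarith) (by linarith)
    (by nlinarith)
  nlinarith

section cases
variable (D v : ℝ)

theorem fe1_C0 (hc : 0 < c) (hK1 : 3 * c < 4 * K) (hT : 24 / 5 * K ≤ c + T)
    (hDT : T - c ≤ D) :
    9 * (1 / 5 * (T + D + c) ^ 2) + (32 * c * K - 23 * c ^ 2) ≤
      9 * (T ^ 2 + 2 * D ^ 2 - 2 * T * c) := by
  have L6 := fe1_L6 c K T hc hK1 hT
  have hTpos : 0 < T := by linarith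
  have h6 : 9 * (11 / 5 * T ^ 2 - 6 * T * c + 2 * c ^ 2) ≤
      9 * (T ^ 2 + 2 * D ^ 2 - 2 * T * c - 1 / 5 * (T + D + c) ^ 2) := by
    nlinarith [mul_nonneg (sub_nonneg.2 hDT) (sub_nonneg.2 hDT),
      mul_nonneg (sub_nonneg.2 hDT) hTpos.le, mul_nonneg (sub_nonneg.2 hDT) hc.le,
      mul_nonneg (sub_nonneg.2 hDT) (sub_nonneg.2 hT)]
  linarith

theorem fe1_Cdd (hc : 0 < c) (hK1 : 3 * c < 4 * K) (hK2 : K ≤ c) (hT : 24 / 5 * K ≤ c + T)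
    (hD : 0 ≤ D) (hv0 : 0 ≤ v) (hv2 : 2 * v ≤ c) :
    9 * (1 / 5 * (T + D + 2 * v) ^ 2) + (32 * c * K - 23 * c ^ 2) ≤
      9 * (T ^ 2 + 2 * D ^ 2 - 2 * T * c + 16 * K * (c - K)) := by
  have L4 := fe1_L4 c K T hc hK1 hK2 hT
  have h1 : (T + D + 2 * v) ^ 2 ≤ (T + D + c) ^ 2 :=
    pow_le_pow_left₀ (by linarith) (by linarith) 2
  nlinarith [sq_nonneg (9 * D - (T + c))]

theorem fe1_Cda (hc : 0 < c) (hK1 : 3 * c < 4 * K) (hK2 : K ≤ c) (hT : 24 / 5 * K ≤ c + T)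
    (hD : 0 ≤ D) (hv0 : 0 ≤ v) (hv2 : 2 * (v + D) ≤ c) :
    9 * (1 / 5 * (T + D + 2 * v) ^ 2) + (32 * c * K - 23 * c ^ 2) ≤
      9 * (T ^ 2 + 2 * D ^ 2 - 2 * T * c + 8 * K * (c - K) + 8 * (v + D) * (c - (v + D))) := by
  have hTpos : 0 < T := by linarith
  have L5 := fe1_L5 c K T hc hK1 hK2 hT
  have hKc : 0 ≤ K * (c - K) := mul_nonneg (by linarith) (by linarith)
  have M1 := fe1_M1 c K T D hc hK1 hT hD (by linarith)
  have hq := fe1_conc (c / 2 - D) v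
    (9 * (T ^ 2 + 2 * D ^ 2 - 2 * T * c + 8 * K * (c - K) + 8 * D * (c - D) -
      1 / 5 * (T + D) ^ 2) - (32 * c * K - 23 * c ^ 2))
    (9 * (8 * c - 16 * D - 4 / 5 * (T + D))) (9 * (44 / 5)) (by norm_num) hv0
    (by linarith) (by linarith)
    (by nlinarith [mul_nonneg hD hTpos.le, mul_nonneg hD hc.le, sq_nonneg D])
  linarith

theorem fe1_Cad (hc : 0 < c) (hK1 : 3 * c < 4 * K) (hK2 : K ≤ c) (hT : 24 / 5 * K ≤ c + T)
    (hv0 : 0 ≤ v) (hv2 : 2 * v ≤ c) :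
    9 * (1 / 5 * (T + D + 2 * v) ^ 2) + (32 * c * K - 23 * c ^ 2) ≤
      9 * (T ^ 2 + 2 * D ^ 2 - 2 * T * c + 8 * K * (c - K) + 8 * v * (c - v)) := by
  have L2 := fe1_L2 c K T hc hK1 hK2 hT
  have L7 := fe1_L7 c K T hc hK1 hK2 hT
  have hq := fe1_conc (c / 2) v
    (9 * (T ^ 2 + 2 * D ^ 2 - 2 * T * c + 8 * K * (c - K) -
      1 / 5 * (T + D) ^ 2) - (32 * c * K - 23 * c ^ 2))
    (9 * (8 * c - 4 / 5 * (T + D))) (9 * (44 / 5)) (by norm_num) hv0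
    (by linarith) (by nlinarith [sq_nonneg (9 * D - T)])
    (by nlinarith [sq_nonneg (9 * D - (T + c))])
  linarith

theorem fe1_Caa (hc : 0 < c) (hK1 : 3 * c < 4 * K) (hT : 24 / 5 * K ≤ c + T)
    (hD : 0 ≤ D) (hv0 : 0 ≤ v) (hv2 : 2 * (v + D) ≤ c) :
    9 * (1 / 5 * (T + D + 2 * v) ^ 2) + (32 * c * K - 23 * c ^ 2) ≤
      9 * (T ^ 2 + 2 * D ^ 2 - 2 * T * c + 8 * v * (c - v) + 8 * (v + D) * (c - (v + D))) := by
  have M1 := fe1_M1 c K T D hc hK1 hT hD (by linarith)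
  have M2 := fe1_M2 c K T D hc hK1 hT hD (by linarith)
  have hq := fe1_conc (c / 2 - D) v
    (9 * (T ^ 2 + 2 * D ^ 2 - 2 * T * c + 8 * D * (c - D) -
      1 / 5 * (T + D) ^ 2) - (32 * c * K - 23 * c ^ 2))
    (9 * (16 * c - 16 * D - 4 / 5 * (T + D))) (9 * (84 / 5)) (by norm_num) hv0
    (by linarith) (by linarith) (by linarith)
  linarith

theorem fe1_Chd (hc : 0 < c) (hK1 : 3 * c < 4 * K) (hK2 : K ≤ c) (hT : 24 / 5 * K ≤ c + T) :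
    9 * (1 / 5 * (T + D) ^ 2) + (32 * c * K - 23 * c ^ 2) ≤
      9 * (T ^ 2 + 2 * D ^ 2 - 2 * T * c + 8 * K * (c - K)) := by
  have L2 := fe1_L2 c K T hc hK1 hK2 hT
  nlinarith [sq_nonneg (9 * D - T)]

theorem fe1_Chh (hc : 0 < c) (hK1 : 3 * c < 4 * K) (hT : 24 / 5 * K ≤ c + T) (hD : 0 ≤ D) :
    9 * (1 / 5 * (T - D) ^ 2) + (32 * c * K - 23 * c ^ 2) ≤
      9 * (T ^ 2 + 2 * D ^ 2 - 2 * T * c) := by
  have L1 := fe1_L1 c K T hc hK1 hT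
  have hTpos : 0 < T := by linarith
  nlinarith [mul_nonneg hD hTpos.le, sq_nonneg D]

theorem fe1_Cha (hc : 0 < c) (hK1 : 3 * c < 4 * K) (hT : 24 / 5 * K ≤ c + T) (hD : 0 ≤ D)
    (hv0 : 0 ≤ v) (hvD : v ≤ D) (hv2 : 2 * v ≤ c) :
    9 * (1 / 5 * (T - D + 2 * v) ^ 2) + (32 * c * K - 23 * c ^ 2) ≤
      9 * (T ^ 2 + 2 * D ^ 2 - 2 * T * c + 8 * v * (c - v)) := by
  have hTpos : 0 < T := by linarith
  have L3 := fe1_L3 c K T hc hK1 hT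
  have A0 : 0 ≤ 9 * (T ^ 2 + 2 * D ^ 2 - 2 * T * c - 1 / 5 * (T - D) ^ 2) -
      (32 * c * K - 23 * c ^ 2) := by
    have := fe1_Chh c K T D hc hK1 hT hD
    linarith
  rcases le_or_gt (2 * D) c with hDc | hDc
  · have M1 := fe1_M1 c K T D hc hK1 hT hD hDc
    have hq := fe1_conc D v _ (9 * (8 * c - 4 / 5 * (T - D))) (9 * (44 / 5)) (by norm_num)
      hv0 hvD A0 (by linarith)
    linarith
  · have hq := fe1_conc (c / 2) v _ (9 * (8 * c - 4 / 5 * (T - D))) (9 * (44 / 5))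
      (by norm_num) hv0 (by linarith) A0
      (by nlinarith [mul_nonneg (sub_nonneg.2 hDc.le) hTpos.le,
        mul_nonneg (sub_nonneg.2 hDc.le) hc.le,
        mul_nonneg (sub_nonneg.2 hDc.le) (sub_nonneg.2 hDc.le)])
    linarith

end cases

end num

/-- FE1 : two levels `x ≥ y` on different sides -/
theorem strong_one (c h K F0 x y wx wy : ℝ) (hc : 0 < c) (hK1 : 3 * c < 4 * K) (hK2 : K ≤ c)
    (hh : 4 * c < 3 * h) (hLx : LevOK c h K x wx) (hLy : LevOK c h K y wy) (hxy : y ≤ x)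
    (hx : 2 * h ≤ 2 * x + c) (hT : 24 / 5 * K ≤ c + x + y) (hF : F0OK c K F0) :
    4 / 5 * h ^ 2 + F0 ≤ (x - y) ^ 2 + wx + wy := by
  have hF' := fe1_F c K F0 hc hK1 hK2 hF
  have hy0 : 0 ≤ y := hLy.1
  have hx0 : 0 ≤ x := hLx.1
  have hwx0 : 2 * x * (x - c) ≤ wx := hLx.2.2.2.1
  have hwy0 : 2 * y * (y - c) ≤ wy := hLy.2.2.2.1
  obtain ⟨T, hTd⟩ : ∃ T, T = x + y := ⟨_, rfl⟩
  obtain ⟨D, hDd⟩ : ∃ D, D = x - y := ⟨_, rfl⟩
  have hD0 : 0 ≤ D := by linarith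
  have hT' : 24 / 5 * K ≤ c + T := by linarith
  have exx : x = (T + D) / 2 := by linarith
  have eyy : y = (T - D) / 2 := by linarith
  have hsum : (x - y) ^ 2 + 2 * x * (x - c) + 2 * y * (y - c) = T ^ 2 + 2 * D ^ 2 - 2 * T * c := by
    rw [exx, eyy]; ring
  rcases lt_or_ge (2 * y) c with hyc | hyc
  · -- `y < c/2`
    have hh2 : h ^ 2 ≤ (x + c / 2) ^ 2 := pow_le_pow_left₀ (by linarith) (by linarith) 2
    have h5 : 4 / 5 * (x + c / 2) ^ 2 = 1 / 5 * (T + D + c) ^ 2 := by rw [exx]; ring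
    have h6 := fe1_C0 c K T D hc hK1 hT' (by linarith)
    linarith
  · -- `y ≥ c/2`
    have hxc : c ≤ 2 * x := by linarith
    have gx := fe1_gain c h K x wx hc hK1 hK2 hLx hxc
    have gy := fe1_gain c h K y wy hc hK1 hK2 hLy hyc
    rcases lt_or_ge x h with hxh | hxh
    · -- `x < h`
      obtain ⟨v, hv⟩ : ∃ v, v = h - x := ⟨_, rfl⟩
      have hh' : h = x + v := by linarith
      have hv0 : 0 ≤ v := by linarith
      have hv2 : 2 * v ≤ c := by linarith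
      have e45 : 4 / 5 * h ^ 2 = 1 / 5 * (T + D + 2 * v) ^ 2 := by rw [hh', exx]; ring
      have gx' : 2 * x * (x - c) + 8 * K * (c - K) ≤ wx ∨
          2 * x * (x - c) + 8 * v * (c - v) ≤ wx := by
        rcases gx with g | ⟨g, _⟩ | ⟨_, _, g⟩
        · exact Or.inl g
        · exfalso; linarith
        · right; rw [hv]; exact g
      have gy' : 2 * y * (y - c) + 8 * K * (c - K) ≤ wy ∨
          (2 * (v + D) ≤ c ∧ 2 * y * (y - c) + 8 * (v + D) * (c - (v + D)) ≤ wy) := by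
        rcases gy with g | ⟨g, _⟩ | ⟨_, g1, g⟩
        · exact Or.inl g
        · exfalso; linarith
        · right
          have e : h - y = v + D := by linarith
          rw [e] at g1 g
          exact ⟨g1, g⟩
      rcases gx' with gx' | gx' <;> rcases gy' with gy' | ⟨gy1, gy'⟩
      · have := fe1_Cdd c K T D v hc hK1 hK2 hT' hD0 hv0 hv2
        linarith
      · have := fe1_Cda c K T D v hc hK1 hK2 hT' hD0 hv0 gy1
        linarith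
      · have := fe1_Cad c K T D v hc hK1 hK2 hT' hv0 hv2
        linarith
      · have := fe1_Caa c K T D v hc hK1 hT' hD0 hv0 gy1
        linarith
    · -- `h ≤ x`
      have hh2 : h ^ 2 ≤ x ^ 2 := pow_le_pow_left₀ (by linarith) hxh 2
      have e45 : 4 / 5 * x ^ 2 = 1 / 5 * (T + D) ^ 2 := by rw [exx]; ring
      rcases gy with g | ⟨g, _⟩ | ⟨g0, g1, g⟩
      · have := fe1_Chd c K T D hc hK1 hK2 hT'
        linarith
      · -- `h ≤ y`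
        have hy2 : h ^ 2 ≤ y ^ 2 := pow_le_pow_left₀ (by linarith) g 2
        have e46 : 4 / 5 * y ^ 2 = 1 / 5 * (T - D) ^ 2 := by rw [eyy]; ring
        have := fe1_Chh c K T D hc hK1 hT' hD0
        linarith
      · -- `y < h`, alive
        obtain ⟨v, hv⟩ : ∃ v, v = h - y := ⟨_, rfl⟩
        have hh' : h = y + v := by linarith
        have e46 : 4 / 5 * h ^ 2 = 1 / 5 * (T - D + 2 * v) ^ 2 := by rw [hh', eyy]; ring
        rw [← hv] at g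
        have := fe1_Cha c K T D v hc hK1 hT' hD0 (by linarith) (by linarith) (by linarith)
        linarith

end Pool.Agent.POS.Far
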