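import Mathlib
import Pool.Agent.Lib_helper25.POS.FarDefs

set_option autoImplicit false

namespace Pool.Agent.POS.Far

open Finset

/-- the bound without `F0` -/
theorem fe2_low (c h K x y wx wy : ℝ) (hc : 0 < c) (hK1 : 3 * c < 4 * K)
    (hwx : 2 * x * (x - c) ≤ wx) (hwy : 2 * y * (y - c) ≤ wy)
    (hT : 24 / 5 * K ≤ c + x + y) :
    (24 / 5 * K - c) * (24 / 5 * K - 3 * c) ≤ wx + wy := by
  have h1 : (x + y) * (x + y - 2 * c) ≤ wx + wy := by nlinarith [sq_nonneg (x - y)]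
  have h2 : 0 ≤ (x + y) - (24 / 5 * K - c) := by linarith
  have h3 : 0 ≤ (x + y) + (24 / 5 * K - c) - 2 * c := by linarith
  nlinarith [mul_nonneg h2 h3]

/-- FE2 : small `h` -/
theorem strong_one_small (c h K F0 x y wx wy : ℝ) (hc : 0 < c) (hK1 : 3 * c < 4 * K)
    (hK2 : K ≤ c) (hh : 3 * h ≤ 4 * c) (hh0 : 0 < h) (hwx : 2 * x * (x - c) ≤ wx)
    (hwy : 2 * y * (y - c) ≤ wy) (hT : 24 / 5 * K ≤ c + x + y) (hF : F0OK c K F0) :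
    4 / 5 * h ^ 2 + F0 ≤ wx + wy := by
  have h1 := fe2_low c h K x y wx wy hc hK1 hwx hwy hT
  have h2 : 4 / 5 * h ^ 2 ≤ 64 / 45 * c ^ 2 := by nlinarith
  have hk : 0 ≤ 4 * K - 3 * c := by linarith
  have h3 : 0 ≤ (4 * K - 3 * c) * c := mul_nonneg hk hc.le
  have h4 : 0 ≤ (4 * K - 3 * c) ^ 2 := sq_nonneg _
  have hc2 : 0 ≤ c ^ 2 := sq_nonneg c
  rcases hF with hF | ⟨ρ, hρ0, hFρ, hF | ⟨hF, -⟩⟩
  · nlinarith
  · have h5 : ρ ^ 2 ≤ c ^ 2 / 9 := by nlinarith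
    nlinarith
  · have h5 : ρ ^ 2 ≤ (4 * K - 3 * c) ^ 2 := by nlinarith
    nlinarith

end Pool.Agent.POS.Far
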