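import Mathlib
import Pool.Agent.Lib_helper25.POS.FarDefs

set_option autoImplicit false

namespace Pool.Agent.POS.Far

open Finset

theorem ff1_F0 (c K F0 : ℝ) (hK1 : 3 * c < 4 * K) (hF : F0OK c K F0) :
    F0 ≤ c ^ 2 / 9 ∨ F0 ≤ (4 * K - 3 * c) ^ 2 := by
  rcases hF with h | ⟨ρ, h0, h1, h2 | ⟨h2, h3⟩⟩
  · left
    nlinarith [sq_nonneg c]
  · left
    nlinarith
  · right
    nlinarith

/-- the quadratic for `G = h` -/
theorem ff1_q0 (c K F0 G : ℝ) (hc : 0 < c) (hK1 : 3 * c < 4 * K) (hK2 : K ≤ c)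
    (hF : F0 ≤ c ^ 2 / 9 ∨ F0 ≤ (4 * K - 3 * c) ^ 2) :
    0 ≤ 6 / 5 * G ^ 2 - 36 / 5 * K * G + (1026 / 25 * K ^ 2 - 24 * K * c + 2 * c ^ 2) - F0 := by
  have h1 : 0 ≤ 6 / 5 * (G - 3 * K) ^ 2 := by positivity
  rcases hF with h | h
  · nlinarith [mul_pos hc hc, mul_nonneg (sub_nonneg.2 hK2) hc.le,
      mul_pos (sub_pos.2 hK1) (sub_pos.2 hK1), mul_pos (sub_pos.2 hK1) hc]
  · nlinarith [mul_pos hc hc, mul_nonneg (sub_nonneg.2 hK2) hc.le,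
      mul_pos (sub_pos.2 hK1) (sub_pos.2 hK1), mul_pos (sub_pos.2 hK1) hc]

/-- dead gain -/
theorem ff1_q1 (c K F0 G : ℝ) (hc : 0 < c) (hK1 : 3 * c < 4 * K) (hK2 : K ≤ c)
    (hF : F0 ≤ c ^ 2 / 9 ∨ F0 ≤ (4 * K - 3 * c) ^ 2) :
    0 ≤ 2 * G * (G - c) + 8 * K * (c - K) - (36 / 5 * K - 2 * c) * G
      + (1026 / 25 * K ^ 2 - 24 * K * c + 2 * c ^ 2) - 4 / 5 * (G + c / 2) ^ 2 - F0 := by
  have h1 : 0 ≤ 6 / 5 * (G - (3 * K + c / 3)) ^ 2 := by positivity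
  rcases hF with h | h
  · nlinarith [mul_pos hc hc, mul_nonneg (sub_nonneg.2 hK2) hc.le,
      mul_pos (sub_pos.2 hK1) (sub_pos.2 hK1), mul_pos (sub_pos.2 hK1) hc]
  · nlinarith [mul_pos hc hc, mul_nonneg (sub_nonneg.2 hK2) hc.le,
      mul_pos (sub_pos.2 hK1) (sub_pos.2 hK1), mul_pos (sub_pos.2 hK1) hc]

/-- alive gain, `v = c/2` -/
theorem ff1_q2 (c K F0 G : ℝ) (hc : 0 < c) (hK1 : 3 * c < 4 * K) (hK2 : K ≤ c)
    (hF : F0 ≤ c ^ 2 / 9 ∨ F0 ≤ (4 * K - 3 * c) ^ 2) :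
    0 ≤ 2 * G * (G - c) + 2 * c ^ 2 - (36 / 5 * K - 2 * c) * G
      + (1026 / 25 * K ^ 2 - 24 * K * c + 2 * c ^ 2) - 4 / 5 * (G + c / 2) ^ 2 - F0 := by
  have h1 : 0 ≤ 6 / 5 * (G - (3 * K + c / 3)) ^ 2 := by positivity
  rcases hF with h | h
  · nlinarith [mul_pos hc hc, mul_nonneg (sub_nonneg.2 hK2) hc.le,
      mul_pos (sub_pos.2 hK1) (sub_pos.2 hK1), mul_pos (sub_pos.2 hK1) hc]
  · nlinarith [mul_pos hc hc, mul_nonneg (sub_nonneg.2 hK2) hc.le,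
      mul_pos (sub_pos.2 hK1) (sub_pos.2 hK1), mul_pos (sub_pos.2 hK1) hc]

/-- alive gain, all `v` -/
theorem ff1_q3 (c K F0 G h : ℝ) (hc : 0 < c) (hK1 : 3 * c < 4 * K) (hK2 : K ≤ c)
    (hF : F0 ≤ c ^ 2 / 9 ∨ F0 ≤ (4 * K - 3 * c) ^ 2) (h1 : G ≤ h) (h2 : 2 * h ≤ 2 * G + c) :
    0 ≤ 2 * G * (G - c) + 8 * (h - G) * (c - (h - G)) - (36 / 5 * K - 2 * c) * G
      + (1026 / 25 * K ^ 2 - 24 * K * c + 2 * c ^ 2) - 4 / 5 * h ^ 2 - F0 := by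
  have a0 := ff1_q0 c K F0 h hc hK1 hK2 hF
  have a1 := ff1_q2 c K F0 (h - c / 2) hc hK1 hK2 hF
  have hv0 : 0 ≤ h - G := by linarith
  have hv1 : 0 ≤ c - 2 * (h - G) := by linarith
  have b0 := mul_nonneg hv1 a0
  have b1 := mul_nonneg hv0 a1
  have b2 := mul_nonneg hc.le (mul_nonneg hv0 hv1)
  have key : c * (2 * G * (G - c) + 8 * (h - G) * (c - (h - G)) - (36 / 5 * K - 2 * c) * G
      + (1026 / 25 * K ^ 2 - 24 * K * c + 2 * c ^ 2) - 4 / 5 * h ^ 2 - F0)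
      = (c - 2 * (h - G)) * (6 / 5 * h ^ 2 - 36 / 5 * K * h
          + (1026 / 25 * K ^ 2 - 24 * K * c + 2 * c ^ 2) - F0)
        + 2 * ((h - G) * (2 * (h - c / 2) * ((h - c / 2) - c) + 2 * c ^ 2
          - (36 / 5 * K - 2 * c) * (h - c / 2)
          + (1026 / 25 * K ^ 2 - 24 * K * c + 2 * c ^ 2) - 4 / 5 * ((h - c / 2) + c / 2) ^ 2 - F0))
        + 3 * (c * ((h - G) * (c - 2 * (h - G)))) := by
    ring
  have : 0 ≤ c * (2 * G * (G - c) + 8 * (h - G) * (c - (h - G)) - (36 / 5 * K - 2 * c) * G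
      + (1026 / 25 * K ^ 2 - 24 * K * c + 2 * c ^ 2) - 4 / 5 * h ^ 2 - F0) := by
    rw [key]; linarith
  exact nonneg_of_mul_nonneg_right this hc

/-- the other levels -/
theorem ff1_others {ι : Type*} [DecidableEq ι] (V : Finset ι) (g w : ι → ℝ) (c K G : ℝ)
    (hc : 0 < c) (hK1 : 3 * c < 4 * K) (J : ℕ) (hJ : 2 ≤ J) (hV : V.card + 1 ≤ 2 * J)
    (hw : ∀ u ∈ V, 2 * g u * (g u - c) ≤ w u)
    (hT : 6 / 5 * (3 * (J:ℝ) + 1) * K ≤ c + (G + ∑ u ∈ V, g u)) :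
    1026 / 25 * K ^ 2 - 24 * K * c + 2 * c ^ 2 - (36 / 5 * K - 2 * c) * G ≤ ∑ u ∈ V, w u := by
  have h1 : ∑ u ∈ V, (2 * (18 / 5 * K - c) * g u - 162 / 25 * K ^ 2) ≤ ∑ u ∈ V, w u := by
    refine Finset.sum_le_sum fun u hu => ?_
    have := hw u hu
    nlinarith [sq_nonneg (g u - 9 / 5 * K)]
  rw [Finset.sum_sub_distrib, ← Finset.mul_sum, Finset.sum_const, nsmul_eq_mul] at h1
  have h2 : (V.card : ℝ) + 1 ≤ 2 * J := by exact_mod_cast hV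
  have h3 : (2 : ℝ) ≤ J := by exact_mod_cast hJ
  have h4 : 0 < 18 / 5 * K - c := by linarith
  have h5 : 0 < K := by linarith
  have h6 : (V.card : ℝ) * (162 / 25 * K ^ 2) ≤ (2 * J - 1) * (162 / 25 * K ^ 2) :=
    mul_le_mul_of_nonneg_right (by linarith) (by positivity)
  have h7 : 2 * (18 / 5 * K - c) * (6 / 5 * (3 * (J:ℝ) + 1) * K - c - G)
      ≤ 2 * (18 / 5 * K - c) * ∑ u ∈ V, g u :=
    mul_le_mul_of_nonneg_left (by linarith) (by linarith)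
  have h8 : 0 ≤ ((J : ℝ) - 2) * (K * (9 / 5 * K - c)) :=
    mul_nonneg (by linarith) (mul_nonneg h5.le (by linarith))
  nlinarith

/-- FF1 : a large level -/
theorem strong_two_a {ι : Type*} [DecidableEq ι] (U : Finset ι) (g w : ι → ℝ)
    (c h K F0 : ℝ) (hc : 0 < c) (hK1 : 3 * c < 4 * K) (hK2 : K ≤ c) (hh : 4 * c < 3 * h)
    (J : ℕ) (hJ : 2 ≤ J) (hU : U.card ≤ 2 * J) (hL : ∀ u ∈ U, LevOK c h K (g u) (w u))
    (hT : 6 / 5 * (3 * (J:ℝ) + 1) * K ≤ c + ∑ u ∈ U, g u) (hF : F0OK c K F0)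
    (hbig : ∃ u ∈ U, 2 * h ≤ 2 * g u + c) :
    4 / 5 * h ^ 2 + F0 ≤ ∑ u ∈ U, w u := by
  obtain ⟨u0, hu0, hbig⟩ := hbig
  have hF' := ff1_F0 c K F0 hK1 hF
  rw [← Finset.add_sum_erase U g hu0] at hT
  rw [← Finset.add_sum_erase U w hu0]
  have hV : (U.erase u0).card + 1 ≤ 2 * J := by
    rw [Finset.card_erase_add_one hu0]; exact hU
  have ho := ff1_others (U.erase u0) g w c K (g u0) hc hK1 J hJ hV
    (fun u hu => (hL u (Finset.mem_of_mem_erase hu)).2.2.2.1) hT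
  obtain ⟨hx0, hw0, hw1, hw2, hopt⟩ := hL u0 hu0
  set G := g u0 with hG
  set wG := w u0 with hwG
  have hG0 : c ≤ 2 * G := by linarith
  rcases le_or_gt h G with hhG | hhG
  · have h0 : h ^ 2 ≤ G ^ 2 := by
      have : 0 < h := by linarith
      nlinarith
    have a0 := ff1_q0 c K F0 G hc hK1 hK2 hF'
    nlinarith
  · obtain ⟨β, hβ0, hβw, hβ⟩ := hopt hG0
    rcases hβ with h1 | ⟨h1, h2⟩ | ⟨h1, h2, h3⟩
    · have a1 := ff1_q1 c K F0 G hc hK1 hK2 hF'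
      have b1 : h ^ 2 ≤ (G + c / 2) ^ 2 := by
        have : 0 < h := by linarith
        nlinarith
      have b2 : β ^ 2 ≤ c ^ 2 / 9 := by nlinarith
      have b3 : 8 * K * (c - K) ≤ 16 / 9 * c ^ 2 := by
        nlinarith [sq_nonneg (2 * K - c), mul_pos (sub_pos.2 hK1) hc,
          mul_pos (sub_pos.2 hK1) (sub_pos.2 hK1)]
      nlinarith
    · have a1 := ff1_q1 c K F0 G hc hK1 hK2 hF'
      have b1 : h ^ 2 ≤ (G + c / 2) ^ 2 := by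
        have : 0 < h := by linarith
        nlinarith
      have b2 : β ^ 2 ≤ (2 * K - c) ^ 2 := by nlinarith
      nlinarith
    · have h3' := h3 hhG
      have a3 := ff1_q3 c K F0 G h hc hK1 hK2 hF' hhG.le hbig
      have b2 : β ^ 2 ≤ (c - 2 * (h - G)) ^ 2 := by nlinarith
      nlinarith

end Pool.Agent.POS.Far
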