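import Mathlib
import Pool.Agent.Lib_helper25.POS.FarDefs

/-!
# Block FF2 of FAR (strong case, `J ≥ 2`): `strong_two_s`, `strong_lev`, `strong_smallh`
-/

set_option autoImplicit false

namespace Pool.Agent.POS.Far

open Finset

/-- FF2 : the bound without `h` -/
theorem strong_two_s {ι : Type*} [DecidableEq ι] (U : Finset ι) (g w : ι → ℝ)
    (c K : ℝ) (hc : 0 < c) (hK1 : 3 * c < 4 * K) (hK2 : K ≤ c)
    (J : ℕ) (hJ : 2 ≤ J) (hU : U.card ≤ 2 * J) (hw : ∀ u ∈ U, 2 * g u * (g u - c) ≤ w u)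
    (hT : 6 / 5 * (3 * (J:ℝ) + 1) * K ≤ c + ∑ u ∈ U, g u) :
    2 * (18 / 5 * K - 1 / 20 * c) * (18 / 5 * K - 41 / 20 * c) ≤ ∑ u ∈ U, w u := by
  have hJ' : (2:ℝ) ≤ (J:ℝ) := by exact_mod_cast hJ
  have hcard : ((U.card : ℕ) : ℝ) ≤ 2 * (J:ℝ) := by exact_mod_cast hU
  obtain ⟨S, hS⟩ : ∃ S, S = ∑ u ∈ U, g u := ⟨_, rfl⟩
  have hsq : S ^ 2 ≤ (U.card : ℝ) * ∑ u ∈ U, g u ^ 2 := by
    rw [hS]; exact sq_sum_le_card_mul_sum_sq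
  have hsq0 : (0:ℝ) ≤ ∑ u ∈ U, g u ^ 2 := Finset.sum_nonneg fun u _ => sq_nonneg _
  have hsq2 : S ^ 2 ≤ 2 * (J:ℝ) * ∑ u ∈ U, g u ^ 2 :=
    hsq.trans (mul_le_mul_of_nonneg_right hcard hsq0)
  have hws : 2 * (∑ u ∈ U, g u ^ 2) - 2 * c * S ≤ ∑ u ∈ U, w u := by
    have h1 : ∑ u ∈ U, (2 * g u * (g u - c)) ≤ ∑ u ∈ U, w u := Finset.sum_le_sum hw
    have h2 : ∑ u ∈ U, (2 * g u * (g u - c)) = 2 * (∑ u ∈ U, g u ^ 2) - 2 * c * S := by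
      rw [hS, Finset.mul_sum, Finset.mul_sum, ← Finset.sum_sub_distrib]
      exact Finset.sum_congr rfl fun u _ => by ring
    rw [← h2]; exact h1
  rw [← hS] at hT
  obtain ⟨a, ha⟩ : ∃ a, a = S / (2 * (J:ℝ)) := ⟨_, rfl⟩
  have hSa : S = 2 * (J:ℝ) * a := by
    rw [ha]; field_simp
  obtain ⟨Q, hQ⟩ : ∃ Q, Q = ∑ u ∈ U, g u ^ 2 := ⟨_, rfl⟩
  rw [← hQ] at hsq2 hws
  have hJ0 : (0:ℝ) < (J:ℝ) := by linarith
  have hQa : 2 * (J:ℝ) * a ^ 2 ≤ Q := by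
    have h3 : (2 * (J:ℝ)) * (2 * (J:ℝ) * a ^ 2) ≤ (2 * (J:ℝ)) * Q := by
      have : S ^ 2 = (2 * (J:ℝ)) * (2 * (J:ℝ) * a ^ 2) := by rw [hSa]; ring
      rw [← this]; exact hsq2
    exact le_of_mul_le_mul_left h3 (by positivity)
  -- the lower bound for `a`
  have ha0 : 9 / 5 * K - 1 / 40 * c ≤ a := by
    have h4 : (2 * (J:ℝ)) * (9 / 5 * K - 1 / 40 * c) ≤ (2 * (J:ℝ)) * a := by
      rw [← hSa]
      have h5 : 6 / 5 * (3 * (J:ℝ) + 1) * K - c ≤ S := by linarith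
      have h6 : (2 * (J:ℝ)) * (9 / 5 * K - 1 / 40 * c) ≤ 6 / 5 * (3 * (J:ℝ) + 1) * K - c := by
        have h7 : 6 / 5 * (3 * (J:ℝ) + 1) * K - c - (2 * (J:ℝ)) * (9 / 5 * K - 1 / 40 * c)
            = (6 / 5 * K - 9 / 10 * c) + 1 / 20 * ((J:ℝ) - 2) * c := by ring
        have h8 : 0 ≤ 1 / 20 * ((J:ℝ) - 2) * c := by
          apply mul_nonneg _ hc.le
          apply mul_nonneg (by norm_num)
          linarith
        linarith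
      linarith
    exact le_of_mul_le_mul_left h4 (by positivity)
  have ha1 : 0 < 9 / 5 * K - 1 / 40 * c := by linarith
  have ha2 : 0 < 9 / 5 * K - 41 / 40 * c := by linarith
  have hac : 9 / 5 * K - 41 / 40 * c ≤ a - c := by linarith
  have hprod : (9 / 5 * K - 1 / 40 * c) * (9 / 5 * K - 41 / 40 * c) ≤ a * (a - c) :=
    mul_le_mul ha0 hac ha2.le (ha1.le.trans ha0)
  have hapos : 0 ≤ a * (a - c) := (mul_pos ha1 ha2).le.trans hprod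
  have hfin : 8 * (a * (a - c)) ≤ 4 * (J:ℝ) * (a * (a - c)) :=
    mul_le_mul_of_nonneg_right (by linarith) hapos
  have heq : 4 * (J:ℝ) * (a * (a - c)) = 2 * (2 * (J:ℝ) * a ^ 2) - 2 * c * S := by
    rw [hSa]; ring
  calc 2 * (18 / 5 * K - 1 / 20 * c) * (18 / 5 * K - 41 / 20 * c)
      = 8 * ((9 / 5 * K - 1 / 40 * c) * (9 / 5 * K - 41 / 40 * c)) := by ring
    _ ≤ 8 * (a * (a - c)) := by linarith
    _ ≤ 4 * (J:ℝ) * (a * (a - c)) := hfin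
    _ = 2 * (2 * (J:ℝ) * a ^ 2) - 2 * c * S := heq
    _ ≤ 2 * Q - 2 * c * S := by linarith
    _ ≤ ∑ u ∈ U, w u := hws

/-- FF3 : level without alive bonus -/
theorem strong_lev (c h K x w : ℝ) (hc : 0 < c) (hK1 : 3 * c < 4 * K) (hK2 : K ≤ c)
    (hL : LevOK c h K x w) (hx : 2 * x + c < 2 * h) (hx2 : c ≤ 2 * x) :
    2 * x * (x - c) + 8 * K * (c - K) ≤ w := by
  obtain ⟨h0, h1, h2, h3, h4⟩ := hL
  obtain ⟨β, hβ, hw, hop⟩ := h4 hx2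
  have hKK : K * (c - K) ≤ 3 / 16 * c ^ 2 := by nlinarith [mul_nonneg (by linarith : 0 ≤ 4 * K - 3 * c) (by linarith : 0 ≤ 4 * K - c)]
  rcases hop with h5 | ⟨h5, h6⟩ | ⟨h5, h6, h7⟩
  · have h8 : β ^ 2 ≤ (c / 3) ^ 2 := by
      apply pow_le_pow_left₀ hβ
      linarith
    nlinarith
  · have h8 : β ^ 2 ≤ (2 * K - c) ^ 2 := pow_le_pow_left₀ hβ h5 2
    nlinarith
  · exfalso
    have := h7 (by linarith)
    linarith

/-- FF6 : small `h` (used for `3h ≤ 4c` and for `2h ≤ 3c`) -/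
theorem strong_smallh (c h K F0 S : ℝ) (hc : 0 < c) (hK1 : 3 * c < 4 * K)
    (hK2 : K ≤ c) (hh : 2 * h ≤ 3 * c) (hh0 : 0 < h)
    (hS1 : 2 * (18 / 5 * K - 1 / 20 * c) * (18 / 5 * K - 41 / 20 * c) ≤ S)
    (hF : F0OK c K F0) :
    4 / 5 * h ^ 2 + F0 ≤ S := by
  have hh2 : h ^ 2 ≤ (3 / 2 * c) ^ 2 := pow_le_pow_left₀ hh0.le (by linarith) 2
  have hKc : 3 / 4 * c ≤ K := by linarith
  have hK2' : (3 / 4 * c) ^ 2 ≤ K ^ 2 := pow_le_pow_left₀ (by linarith) hKc 2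
  have hKc2 : 3 / 4 * c * c ≤ K * c := mul_le_mul_of_nonneg_right hKc hc.le
  have hc2 : 0 < c ^ 2 := by positivity
  have hexp : 2 * (18 / 5 * K - 1 / 20 * c) * (18 / 5 * K - 41 / 20 * c)
      = 648 / 25 * K ^ 2 - 378 / 25 * (K * c) + 41 / 200 * c ^ 2 := by ring
  rw [hexp] at hS1
  have hbase : 9 / 5 * c ^ 2 + 1 / 9 * c ^ 2 ≤ S := by nlinarith [mul_nonneg (by linarith : 0 ≤ K - 3 / 4 * c) hc.le, mul_nonneg (by linarith : 0 ≤ K - 3 / 4 * c) (by linarith : 0 ≤ K)]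
  rcases hF with hF | ⟨ρ, hρ, hF, h5 | ⟨h5, h6⟩⟩
  · nlinarith
  · have h8 : ρ ^ 2 ≤ (c / 3) ^ 2 := by
      apply pow_le_pow_left₀ hρ
      linarith
    nlinarith
  · have h8 : ρ ^ 2 ≤ (4 * K - 3 * c) ^ 2 := pow_le_pow_left₀ hρ h5 2
    nlinarith

end Pool.Agent.POS.Far
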