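import Mathlib
import Pool.Agent.Lib_helper25.POS.FarDefs

set_option autoImplicit false

namespace Pool.Agent.POS.Far

open Finset

/-- the bound for `F(B_0)` -/
theorem ff4_F0 (c K F0 : ℝ) (hc : 0 < c) (hF : F0OK c K F0) :
    F0 ≤ 1 / 9 * c ^ 2 ∨ F0 ≤ (4 * K - 3 * c) ^ 2 := by
  rcases hF with h | ⟨ρ, h0, h1, h2 | ⟨h2, h3⟩⟩
  · left
    nlinarith [sq_nonneg c]
  · left
    nlinarith
  · right
    nlinarith

/-- FF4 -/
theorem strong_uu (c h K F0 x y wx wy S : ℝ) (hc : 0 < c) (hK1 : 3 * c < 4 * K)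
    (hK2 : K ≤ c) (hh : 4 * c < 3 * h) (hx : 2 * x + c < 2 * h) (hy : 2 * y + c < 2 * h)
    (hxy : 2 * h ≤ 2 * x + y)
    (hwx : c ≤ 2 * x → 2 * x * (x - c) + 8 * K * (c - K) ≤ wx)
    (hwy : c ≤ 2 * y → 2 * y * (y - c) + 8 * K * (c - K) ≤ wy)
    (hS1 : 2 * (18 / 5 * K - 1 / 20 * c) * (18 / 5 * K - 41 / 20 * c) ≤ S)
    (hS2 : wx + wy ≤ S) (hF : F0OK c K F0) :
    4 / 5 * h ^ 2 + F0 ≤ S := by
  have h1 := hwx (by linarith)
  have h2 := hwy (by linarith)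
  have h3 : 8 / 5 * h ^ 2 - 12 / 5 * h * c - 1 / 10 * c ^ 2
      ≤ 2 * x * (x - c) + 2 * y * (y - c) := by
    have e1 : 0 ≤ (8 * h - 6 * c) * (2 * x + y - 2 * h) :=
      mul_nonneg (by linarith) (by linarith)
    nlinarith [sq_nonneg (x - (8 * h - c) / 10), sq_nonneg (y - (2 * h + c) / 5)]
  have h4 : 0 ≤ (K - 3 / 4 * c) * (c - K) := mul_nonneg (by linarith) (by linarith)
  have h5 : 0 ≤ c * (c - K) := mul_nonneg hc.le (by linarith)
  have h6 : 0 ≤ c * (K - 3 / 4 * c) := mul_nonneg hc.le (by linarith)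
  have h7 := sq_nonneg (h - 24 / 7 * c)
  have h8 : 0 < c ^ 2 := by positivity
  rcases ff4_F0 c K F0 hc hF with hF | hF
  · nlinarith
  · nlinarith

end Pool.Agent.POS.Far
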