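import Mathlib
import Pool.Agent.Lib_helper25.POS.FarDefs

set_option autoImplicit false

namespace Pool.Agent.POS.Far

open Finset

theorem ff5_F0 (c K F0 : ℝ) (hc : 0 < c) (hK1 : 3 * c < 4 * K) (hK2 : K ≤ c)
    (hF : F0OK c K F0) : F0 ≤ c ^ 2 / 9 ∨ F0 ≤ (4 * K - 3 * c) ^ 2 := by
  rcases hF with h | ⟨ρ, h0, h1, h | ⟨h, -⟩⟩
  · left
    have := sq_nonneg c
    linarith
  · left
    nlinarith
  · right
    nlinarith

/-- FF5 -/
theorem strong_three (c h K F0 x y z wx wy wz S : ℝ) (hc : 0 < c) (hK1 : 3 * c < 4 * K)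
    (hK2 : K ≤ c) (hh : 4 * c < 3 * h) (hx : 2 * x + c < 2 * h) (hy : 2 * y + c < 2 * h)
    (hz : 2 * z + c < 2 * h) (hxyz : 2 * h ≤ x + y + z)
    (hwx : c ≤ 2 * x → 2 * x * (x - c) + 8 * K * (c - K) ≤ wx)
    (hwy : c ≤ 2 * y → 2 * y * (y - c) + 8 * K * (c - K) ≤ wy)
    (hwz : c ≤ 2 * z → 2 * z * (z - c) + 8 * K * (c - K) ≤ wz)
    (hS1 : 2 * (18 / 5 * K - 1 / 20 * c) * (18 / 5 * K - 41 / 20 * c) ≤ S)
    (hS2 : wx + wy + wz ≤ S) (hF : F0OK c K F0) :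
    4 / 5 * h ^ 2 + F0 ≤ S := by
  have ax := hwx (by linarith)
  have ay := hwy (by linarith)
  have az := hwz (by linarith)
  have hT : 8 / 3 * h ^ 2 - 4 * h * c + 24 * K * (c - K) ≤ S := by
    have e1 : (2 / 3) * (x + y + z) ^ 2 ≤ 2 * x ^ 2 + 2 * y ^ 2 + 2 * z ^ 2 := by
      nlinarith [sq_nonneg (x - y), sq_nonneg (y - z), sq_nonneg (x - z)]
    have e2 : 8 / 3 * h ^ 2 - 4 * h * c ≤ (2 / 3) * (x + y + z) ^ 2 - 2 * c * (x + y + z) := by
      have := mul_nonneg (sub_nonneg.2 hxyz)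
        (by linarith : 0 ≤ (2 / 3) * (x + y + z + 2 * h) - 2 * c)
      nlinarith
    nlinarith
  have hKK : 0 ≤ K * (c - K) := mul_nonneg (by linarith) (by linarith)
  rcases le_total K (81 / 100 * c) with hk | hk
  · have e3 : 36 / 10 * c ^ 2 ≤ 24 * K * (c - K) := by
      nlinarith [mul_nonneg (sub_nonneg.2 hk) (by linarith : 0 ≤ K - 3 / 4 * c)]
    have e4 : F0 ≤ c ^ 2 / 9 := by
      rcases ff5_F0 c K F0 hc hK1 hK2 hF with h | h
      · exact h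
      · nlinarith
    nlinarith [sq_nonneg (h - 15 / 14 * c)]
  · rcases le_total h (12 / 5 * c) with hh2 | hh2
    · have e5 : 4 / 5 * h ^ 2 ≤ 4608 / 1000 * c ^ 2 := by nlinarith
      rcases ff5_F0 c K F0 hc hK1 hK2 hF with h | h
      · nlinarith
      · nlinarith
    · have e6 : 1152 / 1000 * c ^ 2 ≤ 28 / 15 * h ^ 2 - 4 * h * c := by
        nlinarith [mul_nonneg (sub_nonneg.2 hh2) (by linarith : 0 ≤ h - 1 / 5 * c)]
      rcases ff5_F0 c K F0 hc hK1 hK2 hF with h | h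
      · nlinarith
      · have : (4 * K - 3 * c) ^ 2 ≤ c ^ 2 := by nlinarith
        nlinarith

end Pool.Agent.POS.Far
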