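import Mathlib
import Pool.Agent.Lib_helper25.POS.FarDefs
import Pool.Agent.Lib_helper25.PR.FA
import Pool.Agent.Lib_helper25.PR.FB
import Pool.Agent.Lib_helper25.PR.FC
import Pool.Agent.Lib_helper25.PR.FD
import Pool.Agent.Lib_helper25.PR.FE1
import Pool.Agent.Lib_helper25.PR.FE2
import Pool.Agent.Lib_helper25.PR.FF1
import Pool.Agent.Lib_helper25.PR.FF2
import Pool.Agent.Lib_helper25.PR.FF4
import Pool.Agent.Lib_helper25.PR.FF5

/-!
# FAR, block FI: assembly of the numerical part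
-/

set_option autoImplicit false

namespace Pool.Agent.POS.Far

open Finset

/-- FI1 : reduction to `K ≤ c` -/
theorem lev_min (c h K x w : ℝ) (hL : LevOK c h K x w) : LevOK c h (min K c) x w := by
  obtain ⟨h1, h2, h3, h4, h5⟩ := hL
  refine ⟨h1, h2, h3, h4, fun hx => ?_⟩
  obtain ⟨β, hβ0, hβ1, hβ2⟩ := h5 hx
  refine ⟨β, hβ0, hβ1, ?_⟩
  rcases hβ2 with h6 | ⟨h6, h7⟩ | h6
  · exact Or.inl h6
  · refine Or.inr (Or.inl ⟨?_, h7⟩)
    rcases le_total K c with hKc | hKc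
    · rw [min_eq_left hKc]; exact h6
    · rw [min_eq_right hKc]; linarith
  · exact Or.inr (Or.inr h6)

/-- FI2 -/
theorem f0_min (c K F0 : ℝ) (hF : F0OK c K F0) : F0OK c (min K c) F0 := by
  rcases hF with hF | ⟨ρ, h1, h2, h3⟩
  · exact Or.inl hF
  · refine Or.inr ⟨ρ, h1, h2, ?_⟩
    rcases h3 with h3 | ⟨h3, h4⟩
    · exact Or.inl h3
    · refine Or.inr ⟨?_, h4⟩
      rcases le_total K c with hKc | hKc
      · rw [min_eq_left hKc]; exact h3
      · rw [min_eq_right hKc]; linarith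

/-- weak case: the bound for `F0` -/
theorem fi_f0_weak (c K F0 : ℝ) (hK : 4 * K ≤ 3 * c) (hF : F0OK c K F0) :
    F0 ≤ 1 / 9 * c ^ 2 := by
  rcases hF with hF | ⟨ρ, h1, h2, h3⟩
  · nlinarith [sq_nonneg c]
  · rcases h3 with h3 | ⟨h3, h4⟩
    · nlinarith
    · have : ρ = 0 := by linarith
      subst this
      nlinarith [sq_nonneg c]

/-- two different levels -/
theorem fi_two {ι : Type*} [DecidableEq ι] (U : Finset ι) (w : ι → ℝ) (hw : ∀ u ∈ U, 0 ≤ w u)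
    (u v : ι) (hu : u ∈ U) (hv : v ∈ U) (huv : u ≠ v) : w u + w v ≤ ∑ t ∈ U, w t := by
  have h1 : ∑ t ∈ ({u, v} : Finset ι), w t = w u + w v := Finset.sum_pair huv
  rw [← h1]
  apply Finset.sum_le_sum_of_subset_of_nonneg
  · intro t ht
    rw [Finset.mem_insert, Finset.mem_singleton] at ht
    rcases ht with rfl | rfl <;> assumption
  · intro t ht _
    exact hw t ht

/-- three different levels -/
theorem fi_three {ι : Type*} [DecidableEq ι] (U : Finset ι) (w : ι → ℝ) (hw : ∀ u ∈ U, 0 ≤ w u)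
    (u v t : ι) (hu : u ∈ U) (hv : v ∈ U) (ht : t ∈ U) (huv : u ≠ v) (hut : u ≠ t)
    (hvt : v ≠ t) : w u + w v + w t ≤ ∑ z ∈ U, w z := by
  have h1 : ∑ z ∈ ({u, v, t} : Finset ι), w z = w u + w v + w t := by
    rw [Finset.sum_insert (by simp [huv, hut]), Finset.sum_pair hvt]
    ring
  rw [← h1]
  apply Finset.sum_le_sum_of_subset_of_nonneg
  · intro z hz
    rw [Finset.mem_insert, Finset.mem_insert, Finset.mem_singleton] at hz
    rcases hz with rfl | rfl | rfl <;> assumption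
  · intro z hz _
    exact hw z hz

/-- at most one level -/
theorem fi_one {ι : Type*} [DecidableEq ι] (V : Finset ι) (g w : ι → ℝ) (c h K : ℝ)
    (hc : 0 < c) (hL : ∀ u ∈ V, LevOK c h K (g u) (w u)) (hV : V.card ≤ 1) :
    ∃ x y : ℝ, LevOK c h K x y ∧ ∑ u ∈ V, g u = x ∧ ∑ u ∈ V, w u = y ∧
      ∀ u ∈ V, g u = x := by
  rcases Finset.eq_empty_or_nonempty V with hV0 | hV1
  · subst hV0
    refine ⟨0, 0, ⟨le_refl _, le_refl _, ?_, ?_, ?_⟩, Finset.sum_empty, Finset.sum_empty, ?_⟩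
    · simp
    · simp
    · intro hx; linarith
    · intro u hu; simp at hu
  · obtain ⟨a, hV1⟩ := Finset.card_eq_one.1 (le_antisymm hV hV1.card_pos)
    subst hV1
    refine ⟨g a, w a, hL a (Finset.mem_singleton_self a), Finset.sum_singleton _ _,
      Finset.sum_singleton _ _, ?_⟩
    intro u hu
    rw [Finset.mem_singleton] at hu
    rw [hu]

/-- `J = 1`, with ordered levels -/
theorem fi_strong_one (c h K F0 x y wx wy : ℝ) (hc : 0 < c) (hK1 : 3 * c < 4 * K)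
    (hK2 : K ≤ c) (hh0 : 0 < h) (hLx : LevOK c h K x wx) (hLy : LevOK c h K y wy)
    (hxy : y ≤ x)
    (hx : 2 * h ≤ 2 * x + c ∨ 2 * h ≤ 3 * c) (hT : 24 / 5 * K ≤ c + x + y)
    (hF : F0OK c K F0) :
    4 / 5 * h ^ 2 + F0 ≤ (x - y) ^ 2 + wx + wy := by
  rcases le_or_gt (3 * h) (4 * c) with hh | hh
  · have := strong_one_small c h K F0 x y wx wy hc hK1 hK2 hh hh0 hLx.2.2.2.1 hLy.2.2.2.1 hT hF
    nlinarith [sq_nonneg (x - y)]
  · have hx' : 2 * h ≤ 2 * x + c := by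
      rcases hx with hx | hx
      · exact hx
      · linarith
    exact strong_one c h K F0 x y wx wy hc hK1 hK2 hh hLx hLy hxy hx' hT hF

/-- the weak case -/
theorem fi_weak {ι : Type*} [DecidableEq ι] (U : Finset ι) (sg : ι → Prop) [DecidablePred sg]
    (g w : ι → ℝ) (c h K D F0 : ℝ) (hc : 0 ≤ c) (hh : 0 < h) (hK : 4 * K ≤ 3 * c)
    (hL : ∀ u ∈ U, LevOK c h K (g u) (w u)) (hF : F0OK c K F0)
    (hD : D = ∑ u ∈ U.filter (fun u => sg u), g u - ∑ u ∈ U.filter (fun u => ¬ sg u), g u)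
    (hT : 3 * c ≤ 4 * ∑ u ∈ U, g u)
    (hbon : (∃ u ∈ U, 2 * h ≤ 2 * g u + c) ∨
      (∃ u ∈ U, ∃ v ∈ U, u ≠ v ∧ 2 * h ≤ 2 * g u + g v) ∨
      (∃ u ∈ U, ∃ v ∈ U, ∃ t ∈ U, u ≠ v ∧ u ≠ t ∧ v ≠ t ∧ 2 * h ≤ g u + g v + g t) ∨
      2 * h ≤ 3 * c) :
    4 / 5 * h ^ 2 + F0 ≤ D ^ 2 + ∑ u ∈ U, w u ∨
      (c + ∑ u ∈ U, g u) ^ 2 / 3 + F0 ≤ D ^ 2 + ∑ u ∈ U, w u := by
  have hF' := fi_f0_weak c K F0 hK hF
  have hw : ∀ u ∈ U, 0 ≤ w u := fun u hu => (hL u hu).2.1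
  rcases le_or_gt (3 * h) (4 * c) with hh2 | hh2
  · left
    have h1 := far_a U sg g w c h K D hc hK hL hD hT
    nlinarith [mul_nonneg hc hh.le]
  · by_cases hbig : ∃ u ∈ U, 2 * h ≤ 2 * g u + c
    · left
      have h1 := far_b U sg g w c h K D hc hK hh2 hL hD hbig
      linarith
    · have hsm : ∀ u ∈ U, 2 * g u + c < 2 * h := by
        intro u hu
        by_contra hcon
        exact hbig ⟨u, hu, not_lt.1 hcon⟩
      have hmid : ∀ u ∈ U, c ≤ 2 * g u →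
          2 * ((g u) ^ 2 - g u * c + 3 / 4 * c ^ 2) ≤ w u :=
        fun u hu => lev_mid c h K (g u) (w u) hK hc (hL u hu) (hsm u hu)
      rcases hbon with hb | ⟨u, hu, v, hv, huv, hb⟩ | ⟨u, hu, v, hv, t, ht, huv, hut, hvt, hb⟩ | hb
      · exact absurd hb hbig
      · left
        have h1 := num_uu c h (g u) (g v) (w u) (w v) hc hh2 (hsm u hu) (hsm v hv) hb
          (hmid u hu) (hmid v hv)
        have h2 := fi_two U w hw u v hu hv huv
        nlinarith [sq_nonneg D]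
      · left
        have h1 := num_three3 c h (g u) (g v) (g t) (w u) (w v) (w t) hc hh2 (hsm u hu)
          (hsm v hv) (hsm t ht) hb (hmid u hu) (hmid v hv) (hmid t ht)
        have h2 := fi_three U w hw u v t hu hv ht huv hut hvt
        nlinarith [sq_nonneg D]
      · rcases far_d U sg g w c h K D hc hK hb hL hD hT hsm with h1 | h1
        · left; linarith
        · right; linarith

/-- the strong case with `J ≥ 2` -/
theorem fi_strong_two {ι : Type*} [DecidableEq ι] (U : Finset ι)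
    (g w : ι → ℝ) (c h K F0 : ℝ) (hc : 0 < c) (hh : 0 < h)
    (hK1 : 3 * c < 4 * K) (hK2 : K ≤ c)
    (hL : ∀ u ∈ U, LevOK c h K (g u) (w u)) (hF : F0OK c K F0)
    (J : ℕ) (hJ : 2 ≤ J) (hU : U.card ≤ 2 * J)
    (hdead : 6 / 5 * (3 * (J:ℝ) + 1) * K ≤ c + ∑ u ∈ U, g u)
    (hbon : (∃ u ∈ U, 2 * h ≤ 2 * g u + c) ∨
      (∃ u ∈ U, ∃ v ∈ U, u ≠ v ∧ 2 * h ≤ 2 * g u + g v) ∨
      (∃ u ∈ U, ∃ v ∈ U, ∃ t ∈ U, u ≠ v ∧ u ≠ t ∧ v ≠ t ∧ 2 * h ≤ g u + g v + g t) ∨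
      2 * h ≤ 3 * c) :
    4 / 5 * h ^ 2 + F0 ≤ ∑ u ∈ U, w u := by
  have hw : ∀ u ∈ U, 0 ≤ w u := fun u hu => (hL u hu).2.1
  have hS1 := strong_two_s U g w c K hc hK1 hK2 J hJ hU
    (fun u hu => (hL u hu).2.2.2.1) hdead
  rcases le_or_gt (2 * h) (3 * c) with hh2 | hh2
  · exact strong_smallh c h K F0 _ hc hK1 hK2 hh2 hh hS1 hF
  · have hh3 : 4 * c < 3 * h := by linarith
    by_cases hbig : ∃ u ∈ U, 2 * h ≤ 2 * g u + c
    · exact strong_two_a U g w c h K F0 hc hK1 hK2 hh3 J hJ hU hL hdead hF hbig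
    · have hsm : ∀ u ∈ U, 2 * g u + c < 2 * h := by
        intro u hu
        by_contra hcon
        exact hbig ⟨u, hu, not_lt.1 hcon⟩
      have hmid : ∀ u ∈ U, c ≤ 2 * g u →
          2 * g u * (g u - c) + 8 * K * (c - K) ≤ w u :=
        fun u hu => strong_lev c h K (g u) (w u) hc hK1 hK2 (hL u hu) (hsm u hu)
      rcases hbon with hb | ⟨u, hu, v, hv, huv, hb⟩ | ⟨u, hu, v, hv, t, ht, huv, hut, hvt, hb⟩ | hb
      · exact absurd hb hbig
      · exact strong_uu c h K F0 (g u) (g v) (w u) (w v) _ hc hK1 hK2 hh3 (hsm u hu)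
          (hsm v hv) hb (hmid u hu) (hmid v hv) hS1 (fi_two U w hw u v hu hv huv) hF
      · exact strong_three c h K F0 (g u) (g v) (g t) (w u) (w v) (w t) _ hc hK1 hK2 hh3
          (hsm u hu) (hsm v hv) (hsm t ht) hb (hmid u hu) (hmid v hv) (hmid t ht) hS1
          (fi_three U w hw u v t hu hv ht huv hut hvt) hF
      · linarith

/-- the strong case with `J = 1` -/
theorem fi_strong_J1 {ι : Type*} [DecidableEq ι] (U : Finset ι) (sg : ι → Prop)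
    [DecidablePred sg] (g w : ι → ℝ) (c h K D F0 : ℝ) (hc : 0 < c) (hh : 0 < h)
    (hK1 : 3 * c < 4 * K) (hK2 : K ≤ c)
    (hL : ∀ u ∈ U, LevOK c h K (g u) (w u)) (hF : F0OK c K F0)
    (hD : D = ∑ u ∈ U.filter (fun u => sg u), g u - ∑ u ∈ U.filter (fun u => ¬ sg u), g u)
    (hU1 : (U.filter (fun u => sg u)).card ≤ 1) (hU2 : (U.filter (fun u => ¬ sg u)).card ≤ 1)
    (hdead : 24 / 5 * K ≤ c + ∑ u ∈ U, g u)
    (hbon : (∃ u ∈ U, 2 * h ≤ 2 * g u + c) ∨ 2 * h ≤ 3 * c) :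
    4 / 5 * h ^ 2 + F0 ≤ D ^ 2 + ∑ u ∈ U, w u := by
  obtain ⟨x, wx, hLx, hx, hwx, hx1⟩ := fi_one (U.filter (fun u => sg u)) g w c h K hc
    (fun u hu => hL u (Finset.mem_filter.1 hu).1) hU1
  obtain ⟨y, wy, hLy, hy, hwy, hy1⟩ := fi_one (U.filter (fun u => ¬ sg u)) g w c h K hc
    (fun u hu => hL u (Finset.mem_filter.1 hu).1) hU2
  have hg : ∑ u ∈ U, g u = x + y := by
    rw [← hx, ← hy]
    exact (Finset.sum_filter_add_sum_filter_not U (fun u => sg u) g).symm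
  have hw : ∑ u ∈ U, w u = wx + wy := by
    rw [← hwx, ← hwy]
    exact (Finset.sum_filter_add_sum_filter_not U (fun u => sg u) w).symm
  have hb : 2 * h ≤ 2 * max x y + c ∨ 2 * h ≤ 3 * c := by
    rcases hbon with ⟨u, hu, hb⟩ | hb
    · left
      by_cases hs : sg u
      · have := hx1 u (Finset.mem_filter.2 ⟨hu, hs⟩)
        have h2 := le_max_left x y
        rw [this] at hb
        linarith
      · have := hy1 u (Finset.mem_filter.2 ⟨hu, hs⟩)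
        have h2 := le_max_right x y
        rw [this] at hb
        linarith
    · right; exact hb
  rw [hx, hy] at hD
  rw [hw, hD]
  rw [hg] at hdead
  rcases le_total y x with hxy | hxy
  · rw [max_eq_left hxy] at hb
    have := fi_strong_one c h K F0 x y wx wy hc hK1 hK2 hh hLx hLy hxy hb (by linarith) hF
    linarith
  · rw [max_eq_right hxy] at hb
    have := fi_strong_one c h K F0 y x wy wx hc hK1 hK2 hh hLy hLx hxy hb (by linarith) hF
    have h2 : (x - y) ^ 2 = (y - x) ^ 2 := by ring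
    rw [h2]
    linarith

/-- FI3 : **the numerical theorem** -/
theorem far_num {ι : Type*} [DecidableEq ι] (U : Finset ι) (sg : ι → Prop)
    [DecidablePred sg]
    (g w : ι → ℝ) (c h K D F0 : ℝ) (hc : 0 ≤ c) (hh : 0 < h) (hK : 0 ≤ K)
    (hL : ∀ u ∈ U, LevOK c h K (g u) (w u)) (hF : F0OK c K F0)
    (hD : D = ∑ u ∈ U.filter (fun u => sg u), g u - ∑ u ∈ U.filter (fun u => ¬ sg u), g u)
    (hT : 3 * c ≤ 4 * ∑ u ∈ U, g u) (J : ℕ) (hJ : 1 ≤ J)
    (hU1 : (U.filter (fun u => sg u)).card ≤ J) (hU2 : (U.filter (fun u => ¬ sg u)).card ≤ J)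
    (hdead : 6 / 5 * (3 * (J:ℝ) + 1) * K ≤ c + ∑ u ∈ U, g u)
    (hbon : (∃ u ∈ U, 2 * h ≤ 2 * g u + c) ∨
      (∃ u ∈ U, ∃ v ∈ U, u ≠ v ∧ 2 * h ≤ g u + g v + c) ∨
      (2 ≤ J ∧ ∃ u ∈ U, ∃ v ∈ U, u ≠ v ∧ 2 * h ≤ 2 * g u + g v) ∨
      (2 ≤ J ∧ ∃ u ∈ U, ∃ v ∈ U, ∃ t ∈ U, u ≠ v ∧ u ≠ t ∧ v ≠ t ∧ 2 * h ≤ g u + g v + g t) ∨
      2 * h ≤ 3 * c) :
    4 / 5 * h ^ 2 + F0 ≤ D ^ 2 + ∑ u ∈ U, w u ∨
      (c + ∑ u ∈ U, g u) ^ 2 / 3 + F0 ≤ D ^ 2 + ∑ u ∈ U, w u := by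
  have hL' : ∀ u ∈ U, LevOK c h (min K c) (g u) (w u) :=
    fun u hu => lev_min c h K (g u) (w u) (hL u hu)
  have hF' : F0OK c (min K c) F0 := f0_min c K F0 hF
  -- reduce the options: the second gives the first
  have hb2 : (∃ u ∈ U, 2 * h ≤ 2 * g u + c) ∨
      (2 ≤ J ∧ ∃ u ∈ U, ∃ v ∈ U, u ≠ v ∧ 2 * h ≤ 2 * g u + g v) ∨
      (2 ≤ J ∧ ∃ u ∈ U, ∃ v ∈ U, ∃ t ∈ U, u ≠ v ∧ u ≠ t ∧ v ≠ t ∧ 2 * h ≤ g u + g v + g t) ∨
      2 * h ≤ 3 * c := by
    rcases hbon with hb | ⟨u, hu, v, hv, _, hb⟩ | hb | hb | hb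
    · exact Or.inl hb
    · left
      rcases le_total (g u) (g v) with h1 | h1
      · exact ⟨v, hv, by linarith⟩
      · exact ⟨u, hu, by linarith⟩
    · exact Or.inr (Or.inl hb)
    · exact Or.inr (Or.inr (Or.inl hb))
    · exact Or.inr (Or.inr (Or.inr hb))
  have hb3 : (∃ u ∈ U, 2 * h ≤ 2 * g u + c) ∨
      (∃ u ∈ U, ∃ v ∈ U, u ≠ v ∧ 2 * h ≤ 2 * g u + g v) ∨
      (∃ u ∈ U, ∃ v ∈ U, ∃ t ∈ U, u ≠ v ∧ u ≠ t ∧ v ≠ t ∧ 2 * h ≤ g u + g v + g t) ∨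
      2 * h ≤ 3 * c := by
    rcases hb2 with hb | ⟨_, hb⟩ | ⟨_, hb⟩ | hb
    · exact Or.inl hb
    · exact Or.inr (Or.inl hb)
    · exact Or.inr (Or.inr (Or.inl hb))
    · exact Or.inr (Or.inr (Or.inr hb))
  rcases le_or_gt (4 * min K c) (3 * c) with hwk | hst
  · exact fi_weak U sg g w c h (min K c) D F0 hc hh hwk hL' hF' hD hT hb3
  · left
    have hKc : min K c ≤ c := min_le_right K c
    have hKK : min K c ≤ K := min_le_left K c
    have hc' : 0 < c := by linarith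
    have hJ' : (0:ℝ) ≤ 6 / 5 * (3 * (J:ℝ) + 1) := by positivity
    have hdead' : 6 / 5 * (3 * (J:ℝ) + 1) * min K c ≤ c + ∑ u ∈ U, g u :=
      le_trans (mul_le_mul_of_nonneg_left hKK hJ') hdead
    rcases Nat.lt_or_ge J 2 with hJ2 | hJ2
    · have hJ1 : J = 1 := by omega
      subst hJ1
      have hdead2 : 24 / 5 * min K c ≤ c + ∑ u ∈ U, g u := by
        have h1 : 6 / 5 * (3 * ((1:ℕ):ℝ) + 1) * min K c = 24 / 5 * min K c := by
          push_cast; ring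
        linarith
      have hb4 : (∃ u ∈ U, 2 * h ≤ 2 * g u + c) ∨ 2 * h ≤ 3 * c := by
        rcases hb2 with hb | ⟨hb, _⟩ | ⟨hb, _⟩ | hb
        · exact Or.inl hb
        · omega
        · omega
        · exact Or.inr hb
      exact fi_strong_J1 U sg g w c h (min K c) D F0 hc' hh hst hKc hL' hF' hD hU1 hU2
        hdead2 hb4
    · have hcard : U.card ≤ 2 * J := by
        have h1 := Finset.card_filter_add_card_filter_not (s := U) (fun u => sg u)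
        omega
      have h1 := fi_strong_two U g w c h (min K c) F0 hc' hh hst hKc hL' hF' J hJ2 hcard
        hdead' hb3
      nlinarith [sq_nonneg D]

end Pool.Agent.POS.Far
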