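import Mathlib
import Pool.Agent.Lib_helper25.POS.FarDefs
import Pool.Agent.Lib_helper59.KE.Defs
import Pool.Agent.Lib_helper42.RS.Main
import Pool.Agent.Lib_helper42.RS.Sym
import Pool.Agent.Lib_helper25.POS.Defs
import Pool.Agent.Lib_helper42.RS.Struct
import Pool.Agent.Lib_helper25.PR.GA
import Pool.Agent.Lib_helper25.PR.PB

/-!
# POS, block GB: the information about a level
-/

set_option autoImplicit false
set_option linter.unusedSectionVars false

namespace Pool.Agent.POS

open Finset Pool.Agent.Lib_helper13.PL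

section big
universe u
variable {G : Type u} [AddCommGroup G] [Fintype G] [DecidableEq G]
open Lib_helper42.RS (ds Per ng InO rho dl)

theorem gb_N (A B C : Finset G) :
    Lib_helper42.RS.N A B (Lib_helper42.RS.ng C) = TT A B C := by
  unfold Lib_helper42.RS.N Lib_helper42.RS.tri TT
  have h1 : ∀ x y : G, Lib_helper42.RS.ind A x * Lib_helper42.RS.ind B y *
      Lib_helper42.RS.ind (Lib_helper42.RS.ng C) (-(x + y)) =
      if x ∈ A then (if y ∈ B then (if x + y ∈ C then 1 else 0) else 0) else 0 := by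
    intro x y
    rw [Lib_helper42.RS.ind_ng, neg_neg]
    unfold Lib_helper42.RS.ind
    split_ifs <;> simp
  simp only [h1]
  have h2 : ∀ x : G, (∑ y, if x ∈ A then (if y ∈ B then (if x + y ∈ C then (1:ℤ) else 0) else 0)
      else 0) = if x ∈ A then (∑ y ∈ B, if x + y ∈ C then (1:ℤ) else 0) else 0 := by
    intro x
    split_ifs with hx
    · rw [Finset.sum_ite_mem, Finset.univ_inter]
    · simp
  simp only [h2]
  rw [Finset.sum_ite_mem, Finset.univ_inter]

theorem gb_dl (A B0 : Finset G) :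
    Lib_helper42.RS.dl A B0 (Lib_helper42.RS.ng A) =
      (B0.card : ℤ) ^ 2 - 4 * ∑ y ∈ B0, dlt A y := by
  unfold Lib_helper42.RS.dl Lib_helper42.RS.Q3
  rw [gb_N, TT_self, Lib_helper42.RS.card_ng]
  ring

theorem gb_ds {A X : Finset G} {n : ℤ} (h : (X.card : ℤ) = n) :
    (A.card : ℤ) - n ≤ ds A X ∧ n - A.card ≤ ds A X := by
  rw [← h]
  have h1 := Lib_helper42.RS.card_sub_le_ds A X
  have h2 := Lib_helper42.RS.card_sub_le_ds X A
  rw [Lib_helper42.RS.ds_comm X A] at h2
  exact ⟨h1, h2⟩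

/-- GB -/
theorem lev_z {m : ℕ} (chi : G →+ ZMod m) (A B0 : Finset G) (u : ZMod m)
    (hA : ∀ x ∈ A, chi x = u) (hB0 : ∀ x ∈ B0, chi x = 0) (K' h : ℤ)
    (hcase : ∀ H : AddSubgroup G, (∀ t ∈ H, chi t = 0) → (Nat.card H : ℤ) ≤ K' ∨
      (h ≤ Nat.card H ∧ ∀ Y : Finset G, Cst H Y → (Nat.card H : ℤ) ≤ 4 * ds B0 Y)) :
    Far.LevZ B0.card h K' A.card (cost A B0) := by
  refine ⟨by positivity, cost_nonneg A B0, cost_small A B0, cost_big A B0, ?_⟩
  intro hcx
  have hcost : cost A B0 = 2 * ((A.card : ℤ) ^ 2 - A.card * B0.card + (B0.card : ℤ) ^ 2)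
      - 2 * dl A B0 (ng A) := by
    rw [gb_dl]
    unfold cost
    ring
  rcases Lib_helper42.RS.good_all G A B0 (ng A) with hd | ⟨H, X, Y, Z, hO, hr0, hd⟩
  · refine ⟨0, le_rfl, ?_, Or.inl (by positivity)⟩
    rw [hcost]
    linarith
  · refine ⟨rho H A B0 (ng A) X Y Z, hr0, by rw [hcost]; linarith, ?_⟩
    rcases hr0.eq_or_lt with hz | hpos
    · left
      rw [← hz]
      positivity
    obtain ⟨-, hρ, q1, q0, hq1, hq0, hodd, hXc, hYc⟩ := star_sym H A B0 X Y Z hO hpos
    obtain ⟨hX, hY, -, -⟩ := hO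
    obtain ⟨x1, x2⟩ := gb_ds (A := A) hXc
    obtain ⟨y1, y2⟩ := gb_ds (A := B0) hYc
    have hk : (1 : ℤ) ≤ Nat.card H := by
      have : 0 < Nat.card H := Nat.card_pos
      exact_mod_cast this
    have hd1 := Lib_helper42.RS.ds_nonneg A X
    have hd0 := Lib_helper42.RS.ds_nonneg B0 Y
    have hq0k : (Nat.card H : ℤ) ≤ q0 * Nat.card H := by nlinarith
    have hq1' : 1 ≤ q1 := by
      by_contra hlt
      have h0 : q1 = 0 := by omega
      rw [h0, zero_mul] at x1 x2
      linarith
    have hq1k : (Nat.card H : ℤ) ≤ q1 * Nat.card H := by nlinarith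
    have hker : ∀ t ∈ H, chi t = 0 := by
      by_contra hn
      have e1 := per_half chi H X A u hX hA hn
      have e0 := per_half chi H Y B0 0 hY hB0 hn
      rw [hXc] at e1
      rw [hYc] at e0
      linarith
    rcases lt_or_ge q0 3 with hlt | hge
    · have hq : q0 = 1 := by
        obtain ⟨r, hr⟩ := hodd
        omega
      rw [hq, one_mul] at hYc y1 y2
      rcases hcase H hker with hdead | ⟨hal, hfar⟩
      · right; left
        constructor <;> linarith
      · right; right
        have h4 := hfar Y (cst_of_card H Y hY hYc)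
        refine ⟨by linarith, by linarith, fun _ => by linarith⟩
    · left
      have h3 : 3 * (Nat.card H : ℤ) ≤ q0 * Nat.card H :=
        mul_le_mul_of_nonneg_right hge (by linarith)
      linarith

end big

end Pool.Agent.POS
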