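import Mathlib
import Pool.Agent.Lib_helper25.POS.Defs
import Pool.Agent.Lib_helper25.POS.FarDefs
import Pool.Agent.Lib_helper59.KE.Defs
import Pool.Agent.Lib_helper42.RS.Sym
import Pool.Agent.Lib_helper42.RS.Struct
import Pool.Agent.Lib_helper25.PR.GA

/-!
# Block GD: a triple of levels with a bonus
-/

set_option autoImplicit false

namespace Pool.Agent.POS

open Finset Pool.Agent.Lib_helper13.PL

section big
universe u
variable {G : Type u} [AddCommGroup G] [Fintype G] [DecidableEq G]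
open Lib_helper42.RS (ds Per ng InO rho dl)

theorem gd_N (A B C : Finset G) :
    Lib_helper42.RS.N A B (Lib_helper42.RS.ng C) = TT A B C := by
  unfold Lib_helper42.RS.N Lib_helper42.RS.tri TT
  have h1 : ∀ x y : G, Lib_helper42.RS.ind A x * Lib_helper42.RS.ind B y *
      Lib_helper42.RS.ind (Lib_helper42.RS.ng C) (-(x + y)) =
      if x ∈ A then (if y ∈ B then (if x + y ∈ C then 1 else 0) else 0) else 0 := by
    intro x y
    rw [Lib_helper42.RS.ind_ng, neg_neg]
    unfold Lib_helper42.RS.ind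
    split_ifs <;> simp
  simp only [h1]
  have h2 : ∀ x : G, (∑ y, if x ∈ A then (if y ∈ B then (if x + y ∈ C then (1:ℤ) else 0) else 0)
      else 0) = if x ∈ A then (∑ y ∈ B, if x + y ∈ C then (1:ℤ) else 0) else 0 := by
    intro x
    split_ifs with hx
    · rw [Finset.sum_ite_mem, Finset.univ_inter]
    · simp
  simp only [h2]
  rw [Finset.sum_ite_mem, Finset.univ_inter]

theorem gd_dl (A B C : Finset G) :
    dl A B (ng C) = 4 * TT A B C - Lib_helper42.RS.Q3 A.card B.card C.card := by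
  unfold Lib_helper42.RS.dl
  rw [gd_N, Lib_helper42.RS.card_ng]

theorem gd_Qp_nonneg (x y z : ℤ) (hx : 0 ≤ x) (hy : 0 ≤ y) (hz : 0 ≤ z) : 0 ≤ KE.Qp x y z := by
  unfold KE.Qp
  split_ifs with h1 h2 h3
  · positivity
  · positivity
  · positivity
  · push Not at h1 h2 h3
    have a := mul_pos (sub_pos.2 h1) (sub_pos.2 h2)
    have b := mul_pos (sub_pos.2 h2) (sub_pos.2 h3)
    have c := mul_pos (sub_pos.2 h1) (sub_pos.2 h3)
    nlinarith

theorem gd_Q3_le (x y z : ℤ) : Lib_helper42.RS.Q3 x y z ≤ KE.Qp x y z := by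
  unfold KE.Qp Lib_helper42.RS.Q3
  split_ifs with h1 h2 h3
  · linarith [sq_nonneg (x - y - z), show 4 * y * z
      = 2 * x * y + 2 * y * z + 2 * z * x - x ^ 2 - y ^ 2 - z ^ 2 + (x - y - z) ^ 2 by ring]
  · linarith [sq_nonneg (y - x - z), show 4 * x * z
      = 2 * x * y + 2 * y * z + 2 * z * x - x ^ 2 - y ^ 2 - z ^ 2 + (y - x - z) ^ 2 by ring]
  · linarith [sq_nonneg (z - x - y), show 4 * x * y
      = 2 * x * y + 2 * y * z + 2 * z * x - x ^ 2 - y ^ 2 - z ^ 2 + (z - x - y) ^ 2 by ring]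
  · linarith

theorem gd_Qp1 (x y z : ℤ) (h : y + z ≤ x) :
    KE.Qp x y z = Lib_helper42.RS.Q3 x y z + (x - y - z) ^ 2 := by
  unfold KE.Qp Lib_helper42.RS.Q3
  rw [if_pos h]; ring

theorem gd_Qp2 (x y z : ℤ) (h : x + z < y) (hz : 0 ≤ z) :
    KE.Qp x y z = Lib_helper42.RS.Q3 x y z + (y - x - z) ^ 2 := by
  unfold KE.Qp Lib_helper42.RS.Q3
  rw [if_neg (by linarith), if_pos h.le]; ring

theorem gd_Qp3 (x y z : ℤ) (h : x + y < z) (hx : 0 ≤ x) (hy : 0 ≤ y) :
    KE.Qp x y z = Lib_helper42.RS.Q3 x y z + (z - x - y) ^ 2 := by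
  unfold KE.Qp Lib_helper42.RS.Q3
  rw [if_neg (by linarith), if_neg (by linarith), if_pos h.le]; ring

theorem gd_sq {r t : ℤ} (h0 : 0 ≤ r) (h : r ≤ t) : r ^ 2 ≤ t ^ 2 := by nlinarith

theorem gd_case (a c e h x y z ρ d1 d2 d3 : ℤ) (hh : 0 < h) (hx : y + z < x)
    (h1 : x * h - a ≤ d1) (h2 : c - y * h ≤ d2) (h3 : e - z * h ≤ d3)
    (hρ : ρ = h - (d1 + d2 + d3)) : ρ ≤ a - c - e := by
  have h4 : (y + z + 1) * h ≤ x * h := mul_le_mul_of_nonneg_right (by omega) hh.le
  rw [add_mul, add_mul, one_mul] at h4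
  linarith

/-- GD -/
theorem bonus_struct {m : ℕ} (chi : G →+ ZMod m) (A C E : Finset G) (a c e : ZMod m)
    (hA : ∀ x ∈ A, chi x = a) (hC : ∀ x ∈ C, chi x = c) (hE : ∀ x ∈ E, chi x = e)
    (K' : ℤ) (hK : 1 ≤ K')
    (hb : KE.Qp A.card C.card E.card + K' ^ 2 < 4 * TT A C E) :
    0 < A.card ∧ 0 < C.card ∧ 0 < E.card ∧ ∃ H : AddSubgroup G, (∀ t ∈ H, chi t = 0) ∧
      K' < Nat.card H ∧ 2 * (Nat.card H : ℤ) < A.card + C.card + E.card := by
  have hQ0 := gd_Qp_nonneg (A.card : ℤ) C.card E.card (by positivity) (by positivity)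
    (by positivity)
  have hTpos : 0 < TT A C E := by
    have : 1 ≤ K' ^ 2 := one_le_pow₀ hK
    linarith
  have pA : 0 < A.card := by
    rw [Finset.card_pos, Finset.nonempty_iff_ne_empty]
    rintro rfl
    simp [TT] at hTpos
  have pC : 0 < C.card := by
    rw [Finset.card_pos, Finset.nonempty_iff_ne_empty]
    rintro rfl
    simp [TT] at hTpos
  have pE : 0 < E.card := by
    rw [Finset.card_pos, Finset.nonempty_iff_ne_empty]
    rintro rfl
    simp [TT] at hTpos
  refine ⟨pA, pC, pE, ?_⟩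
  have hdl := gd_dl A C E
  have hQ := gd_Q3_le (A.card : ℤ) C.card E.card
  rcases Lib_helper42.RS.good_all G A C (ng E) with hg | ⟨H, X, Y, Z, hO, hr0, hr1⟩
  · linarith [sq_nonneg K']
  obtain ⟨hPX, hPY, hPZ, n, hn⟩ := hO
  obtain ⟨x, hx⟩ := hPX.dvd
  obtain ⟨y, hy⟩ := hPY.dvd
  obtain ⟨z, hz⟩ := hPZ.dvd
  have hH : (0 : ℤ) < Nat.card H := by
    have : 0 < Nat.card H := Nat.card_pos
    exact_mod_cast this
  have nn : ∀ {w : ℤ} {W : Finset G}, (W.card : ℤ) = w * Nat.card H → 0 ≤ w := by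
    intro w W hw
    by_contra hneg
    push Not at hneg
    have : w * (Nat.card H : ℤ) < 0 := mul_neg_of_neg_of_pos hneg hH
    have h2 : (0 : ℤ) ≤ W.card := by positivity
    linarith
  have hx0 := nn hx
  have hy0 := nn hy
  have hz0 := nn hz
  have hsum : x + y + z = 2 * n + 1 := by
    have : (x + y + z) * (Nat.card H : ℤ) = (2 * n + 1) * Nat.card H := by linarith
    exact mul_right_cancel₀ hH.ne' this
  have dX1 := Lib_helper42.RS.card_sub_le_ds A X
  have dX2 := Lib_helper42.RS.card_sub_le_ds X A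
  rw [Lib_helper42.RS.ds_comm X A] at dX2
  have dY1 := Lib_helper42.RS.card_sub_le_ds C Y
  have dY2 := Lib_helper42.RS.card_sub_le_ds Y C
  rw [Lib_helper42.RS.ds_comm Y C] at dY2
  have dZ1 := Lib_helper42.RS.card_sub_le_ds (ng E) Z
  have dZ2 := Lib_helper42.RS.card_sub_le_ds Z (ng E)
  rw [Lib_helper42.RS.ds_comm Z (ng E)] at dZ2
  rw [Lib_helper42.RS.card_ng] at dZ1 dZ2
  have hρe : rho H A C (ng E) X Y Z = (Nat.card H : ℤ) - ds A X - ds C Y - ds (ng E) Z := by
    unfold Lib_helper42.RS.rho Lib_helper42.RS.ds3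
    ring
  set ρ := rho H A C (ng E) X Y Z with hρ
  have hKr : K' < ρ := by
    by_contra hno
    push Not at hno
    have := gd_sq hr0 hno
    linarith
  have eX := Lib_helper42.RS.ds_nonneg A X
  have eY := Lib_helper42.RS.ds_nonneg C Y
  have eZ := Lib_helper42.RS.ds_nonneg (ng E) Z
  rw [hdl] at hr1
  have t1 : x ≤ y + z := by
    by_contra hno
    push Not at hno
    have h2 : ρ ≤ (A.card : ℤ) - C.card - E.card :=
      gd_case _ _ _ _ x y z ρ (ds A X) (ds C Y) (ds (ng E) Z) hH hno (by rw [← hx]; exact dX2)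
        (by rw [← hy]; exact dY1) (by rw [← hz]; exact dZ1) (by rw [hρe]; ring)
    have h3 := gd_Qp1 (A.card : ℤ) C.card E.card (by linarith)
    have h4 := gd_sq hr0 h2
    linarith [sq_nonneg K']
  have t2 : y ≤ x + z := by
    by_contra hno
    push Not at hno
    have h2 : ρ ≤ (C.card : ℤ) - A.card - E.card :=
      gd_case _ _ _ _ y x z ρ (ds C Y) (ds A X) (ds (ng E) Z) hH hno (by rw [← hy]; exact dY2)
        (by rw [← hx]; exact dX1) (by rw [← hz]; exact dZ1) (by rw [hρe]; ring)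
    have h3 := gd_Qp2 (A.card : ℤ) C.card E.card (by linarith) (by positivity)
    have h4 := gd_sq hr0 h2
    linarith [sq_nonneg K']
  have t3 : z ≤ x + y := by
    by_contra hno
    push Not at hno
    have h2 : ρ ≤ (E.card : ℤ) - A.card - C.card :=
      gd_case _ _ _ _ z x y ρ (ds (ng E) Z) (ds A X) (ds C Y) hH hno (by rw [← hz]; exact dZ2)
        (by rw [← hx]; exact dX1) (by rw [← hy]; exact dY1) (by rw [hρe]; ring)
    have h3 := gd_Qp3 (A.card : ℤ) C.card E.card (by linarith) (by positivity) (by positivity)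
    have h4 := gd_sq hr0 h2
    linarith [sq_nonneg K']
  have hs3 : 3 ≤ x + y + z := by omega
  have hs3' : 3 * (Nat.card H : ℤ) ≤ (x + y + z) * Nat.card H :=
    mul_le_mul_of_nonneg_right hs3 hH.le
  have hs4 : (x + y + z) * (Nat.card H : ℤ) = X.card + Y.card + Z.card := by
    rw [hx, hy, hz]; ring
  refine ⟨H, ?_, by linarith, by linarith⟩
  by_contra hH0
  have h1 := per_half chi H X A a hPX hA hH0
  have h2 := per_half chi H Y C c hPY hC hH0
  have h3 := per_half chi H Z (ng E) (-e) hPZ (fun x hx => by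
    have := hE (-x) (Lib_helper42.RS.mem_ng.1 hx)
    rw [map_neg] at this
    rw [← this, neg_neg]) hH0
  linarith

end big

end Pool.Agent.POS
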