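import Mathlib
import Pool.Agent.Lib_helper25.POS.FarDefs
import Pool.Agent.Lib_helper59.KE.Defs
import Pool.Agent.Lib_helper42.RS.Sym
import Pool.Agent.Lib_helper25.POS.Defs
import Pool.Agent.Lib_helper42.RS.Struct

/-!
# POS, block GE: the five options
-/

set_option autoImplicit false

namespace Pool.Agent.POS

open Finset Pool.Agent.Lib_helper13.PL

section big
universe u
variable {G : Type u} [AddCommGroup G] [Fintype G] [DecidableEq G]
open Lib_helper42.RS (ds Per ng InO rho dl)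

omit [Fintype G] in
theorem ge_lev {m : ℕ} [NeZero m] (chi : G →+ ZMod m) (B : Finset G) (hB : NoWrap chi B)
    (J : ℕ) (hJ : J = (m - 1) / 3) (u : ZMod m) (hu : 0 < (lev chi B u).card) :
    |u.valMinAbs| ≤ (J : ℤ) ∧ u ∈ B.image chi := by
  rw [Finset.card_pos] at hu
  obtain ⟨x, hx⟩ := hu
  unfold lev at hx
  rw [Finset.mem_filter] at hx
  refine ⟨?_, Finset.mem_image.2 ⟨x, hx.1, hx.2⟩⟩
  have h1 := hB x hx.1
  rw [hx.2] at h1
  have hm : 0 < m := Nat.pos_of_ne_zero (NeZero.ne m)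
  omega

theorem ge_add {m : ℕ} [NeZero m] (J : ℕ) (hJ : J = (m - 1) / 3) (u v : ZMod m)
    (hu : |u.valMinAbs| ≤ (J : ℤ)) (hv : |v.valMinAbs| ≤ (J : ℤ))
    (huv : |(u + v).valMinAbs| ≤ (J : ℤ)) :
    (u + v).valMinAbs = u.valMinAbs + v.valMinAbs := by
  have hm : 0 < m := Nat.pos_of_ne_zero (NeZero.ne m)
  have h0 : (((u + v).valMinAbs : ℤ) : ZMod m) = ((u.valMinAbs + v.valMinAbs : ℤ) : ZMod m) := by
    push_cast
    simp only [ZMod.coe_valMinAbs]
  have h1 : (m : ℤ) ∣ (u.valMinAbs + v.valMinAbs) - (u + v).valMinAbs :=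
    (ZMod.intCast_eq_intCast_iff_dvd_sub _ _ m).1 h0
  have h2 : (u.valMinAbs + v.valMinAbs) - (u + v).valMinAbs = 0 := by
    apply Int.eq_zero_of_abs_lt_dvd h1
    rw [abs_lt]
    rw [abs_le] at hu hv huv
    constructor <;> omega
  omega

/-- GE -/
theorem bon_options {m : ℕ} [NeZero m] (chi : G →+ ZMod m) (B : Finset G) (hB : NoWrap chi B)
    (J : ℕ) (hJ : J = (m - 1) / 3) (h : ℤ) (u v : ZMod m)
    (hu : 0 < (lev chi B u).card) (hv : 0 < (lev chi B v).card)
    (huv : 0 < (lev chi B (u + v)).card)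
    (hs : 2 * h < (lev chi B u).card + (lev chi B v).card + (lev chi B (u + v)).card)
    (U : Finset (ZMod m)) (hU : U = (B.image chi).erase 0) (g : ZMod m → ℤ)
    (hg : g = fun u => ((lev chi B u).card : ℤ)) (c : ℤ) (hc : c = (lev chi B 0).card) :
    (∃ u ∈ U, 2 * h ≤ 2 * g u + c) ∨
      (∃ u ∈ U, ∃ v ∈ U, u ≠ v ∧ 2 * h ≤ g u + g v + c) ∨
      (2 ≤ J ∧ ∃ u ∈ U, ∃ v ∈ U, u ≠ v ∧ 2 * h ≤ 2 * g u + g v) ∨
      (2 ≤ J ∧ ∃ u ∈ U, ∃ v ∈ U, ∃ t ∈ U, u ≠ v ∧ u ≠ t ∧ v ≠ t ∧ 2 * h ≤ g u + g v + g t) ∨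
      2 * h ≤ 3 * c := by
  obtain ⟨hu1, hu2⟩ := ge_lev chi B hB J hJ u hu
  obtain ⟨hv1, hv2⟩ := ge_lev chi B hB J hJ v hv
  obtain ⟨hw1, hw2⟩ := ge_lev chi B hB J hJ (u + v) huv
  have hadd := ge_add J hJ u v hu1 hv1 hw1
  have gu : ∀ w, g w = ((lev chi B w).card : ℤ) := fun w => by rw [hg]
  have g0 : g 0 = c := by rw [hc, gu]
  rw [← gu, ← gu, ← gu] at hs
  have hmem : ∀ w, w ∈ B.image chi → w ≠ 0 → w ∈ U := fun w h1 h2 => by
    rw [hU]; exact Finset.mem_erase.2 ⟨h2, h1⟩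
  by_cases h1 : u = 0
  · subst h1
    rw [zero_add, g0] at hs
    by_cases h2 : v = 0
    · subst h2
      rw [g0] at hs
      right; right; right; right
      linarith
    · left
      exact ⟨v, hmem v hv2 h2, by linarith⟩
  · by_cases h2 : v = 0
    · subst h2
      rw [add_zero, g0] at hs
      left
      exact ⟨u, hmem u hu2 h1, by linarith⟩
    · by_cases h3 : u + v = 0
      · rw [h3, g0] at hs
        by_cases h4 : u = v
        · subst h4
          left
          exact ⟨u, hmem u hu2 h1, by linarith⟩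
        · right; left
          exact ⟨u, hmem u hu2 h1, v, hmem v hv2 h2, h4, by linarith⟩
      · have hJ2 : 2 ≤ J := by
          have k1 : u.valMinAbs ≠ 0 := fun h => h1 ((ZMod.valMinAbs_eq_zero u).1 h)
          have k2 : v.valMinAbs ≠ 0 := fun h => h2 ((ZMod.valMinAbs_eq_zero v).1 h)
          have k3 : (u + v).valMinAbs ≠ 0 := fun h => h3 ((ZMod.valMinAbs_eq_zero (u + v)).1 h)
          rw [hadd] at k3 hw1
          rw [abs_le] at hu1 hv1 hw1
          omega
        by_cases h4 : u = v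
        · subst h4
          right; right; left
          refine ⟨hJ2, u, hmem u hu2 h1, u + u, hmem _ hw2 h3, ?_, by linarith⟩
          intro h5
          exact h1 (left_eq_add.1 h5)
        · right; right; right; left
          refine ⟨hJ2, u, hmem u hu2 h1, v, hmem v hv2 h2, u + v, hmem _ hw2 h3, h4, ?_, ?_,
            by linarith⟩
          · intro h5
            exact h2 (left_eq_add.1 h5)
          · intro h5
            exact h1 (right_eq_add.1 h5)

end big

end Pool.Agent.POS
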