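import Mathlib
import Pool.Agent.Lib_helper25.POS.FarDefs
import Pool.Agent.Lib_helper59.KE.Defs
import Pool.Agent.Lib_helper42.RS.Sym
import Pool.Agent.Lib_helper25.POS.Defs
import Pool.Agent.Lib_helper42.RS.Struct
import Pool.Agent.Lib_helper25.PR.FI
import Pool.Agent.Lib_helper25.PR.GB
import Pool.Agent.Lib_helper25.PR.GC
import Pool.Agent.Lib_helper25.PR.GD
import Pool.Agent.Lib_helper25.PR.GE
import Pool.Agent.Lib_helper25.PR.GH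
import Pool.Agent.Lib_helper25.PR.PA

/-!
# POS, block GI: the far regime
-/

set_option autoImplicit false

namespace Pool.Agent.POS

open Finset Pool.Agent.Lib_helper13.PL

/-- the integer information about a level gives the real one -/
theorem gi_lev (c h K x w : ℤ) (hL : Far.LevZ c h K x w) :
    Far.LevOK (c : ℝ) (h : ℝ) (K : ℝ) (x : ℝ) (w : ℝ) := by
  obtain ⟨h1, h2, h3, h4, h5⟩ := hL
  refine ⟨by exact_mod_cast h1, by exact_mod_cast h2, by exact_mod_cast h3,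
    by exact_mod_cast h4, ?_⟩
  intro hx
  have hx' : c ≤ 2 * x := by exact_mod_cast hx
  obtain ⟨β, hβ0, hβ1, hβ2⟩ := h5 hx'
  refine ⟨(β : ℝ), by exact_mod_cast hβ0, by exact_mod_cast hβ1, ?_⟩
  rcases hβ2 with h6 | ⟨h6, h7⟩ | ⟨h6, h7, h8⟩
  · left
    exact_mod_cast h6
  · right
    left
    exact ⟨by exact_mod_cast h6, by exact_mod_cast h7⟩
  · right
    right
    refine ⟨by exact_mod_cast h6, by exact_mod_cast h7, ?_⟩
    intro hxh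
    have hxh' : x < h := by exact_mod_cast hxh
    have h9 := h8 hxh'
    exact_mod_cast h9

/-- the integer information about `F(B_0)` gives the real one -/
theorem gi_f0 (c K F0 : ℤ) (hF : Far.F0Z c K F0) : Far.F0OK (c : ℝ) (K : ℝ) (F0 : ℝ) := by
  rcases hF with h1 | ⟨ρ, h1, h2, h3⟩
  · left
    exact_mod_cast h1
  · right
    refine ⟨(ρ : ℝ), by exact_mod_cast h1, by exact_mod_cast h2, ?_⟩
    rcases h3 with h4 | ⟨h4, h5⟩
    · left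
      exact_mod_cast h4
    · right
      exact ⟨by exact_mod_cast h4, by exact_mod_cast h5⟩

section big
universe u
variable {G : Type u} [AddCommGroup G] [Fintype G] [DecidableEq G]
open Lib_helper42.RS (ds Per ng InO rho dl)

/-- GI : FAR -/
theorem far_regime {m : ℕ} [NeZero m] (chi : G →+ ZMod m) (B : Finset G) (hB : NoWrap chi B)
    (h74 : 7 * (lev chi B 0).card ≤ 4 * B.card) (K' h : ℤ) (hK : 1 ≤ K') (hh : 1 ≤ h)
    (hdead : 12 * (m * K') ≤ 10 * B.card)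
    (hcase : ∀ H : AddSubgroup G, (∀ t ∈ H, chi t = 0) → (Nat.card H : ℤ) ≤ K' ∨
      (h ≤ Nat.card H ∧ ∀ Y : Finset G, Cst H Y →
        (Nat.card H : ℤ) ≤ 4 * ds (lev chi B 0) Y))
    (u v : ZMod m)
    (hb : KE.Qp (lev chi B u).card (lev chi B v).card (lev chi B (u + v)).card + K' ^ 2
      < 4 * TT (lev chi B u) (lev chi B v) (lev chi B (u + v))) :
    5 * GL.FF B ≤ -4 * h ^ 2 ∨ 3 * GL.FF B ≤ -(B.card : ℤ) ^ 2 := by
  classical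
  have hlev : ∀ w : ZMod m, ∀ x ∈ lev chi B w, chi x = w := by
    intro w x hx
    exact (Finset.mem_filter.mp hx).2
  obtain ⟨hcu, hcv, hcuv, H, hHL, hHK, hHs⟩ := bonus_struct chi (lev chi B u) (lev chi B v)
    (lev chi B (u + v)) u v (u + v) (hlev u) (hlev v) (hlev (u + v)) K' hK hb
  have hhH : h ≤ Nat.card H := by
    rcases hcase H hHL with h1 | h1
    · exact absurd h1 (not_le.mpr hHK)
    · exact h1.1
  obtain ⟨J, hJ⟩ : ∃ J : ℕ, J = (m - 1) / 3 := ⟨_, rfl⟩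
  obtain ⟨U, hU⟩ : ∃ U : Finset (ZMod m), U = (B.image chi).erase 0 := ⟨_, rfl⟩
  obtain ⟨g, hg⟩ : ∃ g : ZMod m → ℤ, g = fun u => ((lev chi B u).card : ℤ) := ⟨_, rfl⟩
  obtain ⟨c, hc⟩ : ∃ c : ℤ, c = (lev chi B 0).card := ⟨_, rfl⟩
  have hopt := bon_options chi B hB J hJ h u v hcu hcv hcuv (by linarith) U hU g hg c hc
  obtain ⟨hm1, hm2, hm3, hm4⟩ := lev_masses chi B hB J hJ U hU
  have hm1' : (B.card : ℤ) = c + ∑ u ∈ U, g u := by
    rw [hc, hg]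
    exact hm1
  have hm2' : DD chi B = ∑ u ∈ U.filter (fun u => 0 < u.valMinAbs), g u
      - ∑ u ∈ U.filter (fun u => ¬ 0 < u.valMinAbs), g u := by
    rw [hg]
    exact hm2
  have hc0 : 0 ≤ c := by
    rw [hc]
    positivity
  have h74' : 7 * c ≤ 4 * (B.card : ℤ) := by
    rw [hc]
    exact_mod_cast h74
  have hJ1 : 1 ≤ J := by
    by_contra hJ0
    have hJ0' : J = 0 := by omega
    rw [hJ0'] at hm3 hm4
    have e1 : U.filter (fun u => 0 < u.valMinAbs) = ∅ :=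
      Finset.card_eq_zero.mp (Nat.le_zero.mp hm3)
    have e2 : U.filter (fun u => ¬ 0 < u.valMinAbs) = ∅ :=
      Finset.card_eq_zero.mp (Nat.le_zero.mp hm4)
    have e3 : U = ∅ := by
      rw [← Finset.filter_union_filter_not_eq (fun u : ZMod m => 0 < u.valMinAbs) U, e1, e2]
      simp
    rw [e3] at hm1'
    simp only [Finset.sum_empty, add_zero] at hm1'
    have e4 : (B.card : ℤ) ≤ 0 := by linarith
    have e5 : (lev chi B u).card ≤ B.card := Finset.card_filter_le _ _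
    have e6 : 0 < B.card := lt_of_lt_of_le hcu e5
    have e7 : (0 : ℤ) < B.card := by exact_mod_cast e6
    linarith
  have hm0 : 1 ≤ m := Nat.one_le_iff_ne_zero.mpr (NeZero.ne m)
  have h3J : 3 * J + 1 ≤ m := by omega
  obtain ⟨cs, hcs⟩ : ∃ cs : ZMod m → ℤ, cs = fun u => cost (lev chi B u) (lev chi B 0) :=
    ⟨_, rfl⟩
  have hstar := pl_star chi B hB
  have hstar' : GL.FF B + DD chi B ^ 2 ≤ GL.FF (lev chi B 0) - ∑ u ∈ U, cs u := by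
    rw [hU, hcs]
    exact hstar
  have hL : ∀ u ∈ U, Far.LevOK (c : ℝ) (h : ℝ) (K' : ℝ) ((g u : ℤ) : ℝ) ((cs u : ℤ) : ℝ) := by
    intro w _
    apply gi_lev
    rw [hc, hg, hcs]
    exact lev_z chi (lev chi B w) (lev chi B 0) w (hlev w) (hlev 0) K' h hcase
  have hF : Far.F0OK (c : ℝ) (K' : ℝ) ((GL.FF (lev chi B 0) : ℤ) : ℝ) := by
    apply gi_f0
    rw [hc]
    exact f0_z chi (lev chi B 0) (hlev 0) K' h hcase
  have hsumR : ((B.card : ℤ) : ℝ) = (c : ℝ) + ∑ u ∈ U, ((g u : ℤ) : ℝ) := by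
    rw [hm1']
    push_cast
    ring
  have hD : ((DD chi B : ℤ) : ℝ) = ∑ u ∈ U.filter (fun u => 0 < u.valMinAbs), ((g u : ℤ) : ℝ)
      - ∑ u ∈ U.filter (fun u => ¬ 0 < u.valMinAbs), ((g u : ℤ) : ℝ) := by
    rw [hm2']
    push_cast
    ring
  have hT : 3 * (c : ℝ) ≤ 4 * ∑ u ∈ U, ((g u : ℤ) : ℝ) := by
    have e1 : 7 * (c : ℝ) ≤ 4 * ((B.card : ℤ) : ℝ) := by exact_mod_cast h74'
    rw [hsumR] at e1
    linarith
  have hK0 : (0 : ℝ) ≤ (K' : ℝ) := by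
    have : (0 : ℤ) ≤ K' := by linarith
    exact_mod_cast this
  have hdeadR : 6 / 5 * (3 * (J : ℝ) + 1) * (K' : ℝ) ≤ (c : ℝ) + ∑ u ∈ U, ((g u : ℤ) : ℝ) := by
    rw [← hsumR]
    have e1 : 12 * ((m : ℝ) * (K' : ℝ)) ≤ 10 * ((B.card : ℤ) : ℝ) := by exact_mod_cast hdead
    have e2 : 3 * (J : ℝ) + 1 ≤ (m : ℝ) := by exact_mod_cast h3J
    have e3 : (3 * (J : ℝ) + 1) * (K' : ℝ) ≤ (m : ℝ) * (K' : ℝ) :=
      mul_le_mul_of_nonneg_right e2 hK0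
    linarith
  have hbon : (∃ u ∈ U, 2 * (h : ℝ) ≤ 2 * ((g u : ℤ) : ℝ) + (c : ℝ)) ∨
      (∃ u ∈ U, ∃ v ∈ U, u ≠ v ∧ 2 * (h : ℝ) ≤ ((g u : ℤ) : ℝ) + ((g v : ℤ) : ℝ) + (c : ℝ)) ∨
      (2 ≤ J ∧ ∃ u ∈ U, ∃ v ∈ U, u ≠ v ∧ 2 * (h : ℝ) ≤ 2 * ((g u : ℤ) : ℝ) + ((g v : ℤ) : ℝ)) ∨
      (2 ≤ J ∧ ∃ u ∈ U, ∃ v ∈ U, ∃ t ∈ U, u ≠ v ∧ u ≠ t ∧ v ≠ t ∧
        2 * (h : ℝ) ≤ ((g u : ℤ) : ℝ) + ((g v : ℤ) : ℝ) + ((g t : ℤ) : ℝ)) ∨
      2 * (h : ℝ) ≤ 3 * (c : ℝ) := by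
    rcases hopt with ⟨a, ha, h1⟩ | ⟨a, ha, b, hb', hab, h1⟩ | ⟨hJ2, a, ha, b, hb', hab, h1⟩ |
      ⟨hJ2, a, ha, b, hb', t, ht, hab, hat, hbt, h1⟩ | h1
    · exact Or.inl ⟨a, ha, by exact_mod_cast h1⟩
    · exact Or.inr (Or.inl ⟨a, ha, b, hb', hab, by exact_mod_cast h1⟩)
    · exact Or.inr (Or.inr (Or.inl ⟨hJ2, a, ha, b, hb', hab, by exact_mod_cast h1⟩))
    · exact Or.inr (Or.inr (Or.inr (Or.inl
        ⟨hJ2, a, ha, b, hb', t, ht, hab, hat, hbt, by exact_mod_cast h1⟩)))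
    · exact Or.inr (Or.inr (Or.inr (Or.inr (by exact_mod_cast h1))))
  have hstarR : ((GL.FF B : ℤ) : ℝ) + ((DD chi B : ℤ) : ℝ) ^ 2 ≤
      ((GL.FF (lev chi B 0) : ℤ) : ℝ) - ∑ u ∈ U, ((cs u : ℤ) : ℝ) := by exact_mod_cast hstar'
  have hh0 : (0 : ℝ) < (h : ℝ) := by
    have : (0 : ℤ) < h := by linarith
    exact_mod_cast this
  have hc0R : (0 : ℝ) ≤ (c : ℝ) := by exact_mod_cast hc0
  have key := Far.far_num U (fun u : ZMod m => 0 < u.valMinAbs) (fun u => ((g u : ℤ) : ℝ))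
    (fun u => ((cs u : ℤ) : ℝ)) (c : ℝ) (h : ℝ) (K' : ℝ) ((DD chi B : ℤ) : ℝ)
    ((GL.FF (lev chi B 0) : ℤ) : ℝ) hc0R hh0 hK0 hL hF hD hT J hJ1 hm3 hm4 hdeadR hbon
  rcases key with key | key
  · left
    have e1 : 5 * ((GL.FF B : ℤ) : ℝ) ≤ -4 * (h : ℝ) ^ 2 := by linarith
    exact_mod_cast e1
  · right
    have e1 : 3 * ((GL.FF B : ℤ) : ℝ) ≤ -((B.card : ℤ) : ℝ) ^ 2 := by
      rw [hsumR]
      linarith
    exact_mod_cast e1

end big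

end Pool.Agent.POS
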