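import Mathlib
import Pool.Agent.Lib_helper13.PL.Cor

/-! POS, block NA: numbers of Lemma U -/

set_option autoImplicit false

namespace Pool.Agent.POS

open Finset Pool.Agent.Lib_helper13.PL

/-- NA1 -/
theorem u_none (k p r g : ℤ) (hk : 0 < k) (hp : 0 ≤ p) (hr : 0 ≤ r) (hg : 0 ≤ g)
    (hgk : 2 * g ≤ k) :
    (6 * k - 16 * (p + r)) * (g * (k - g)) + k * (2 * p + 6 * r) * g ≤
      k * (6 * g * (k - g) - 6 * p * g - 2 * r * g) := by
  have _ := hk
  have h1 : 0 ≤ (p + r) * g * (k - 2 * g) :=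
    mul_nonneg (mul_nonneg (by linarith) hg) (by linarith)
  nlinarith [h1]

/-- NA2 -/
theorem u_nomaj (k p r g : ℤ) (hk : 0 < k) (hp : 0 ≤ p) (hr : 0 ≤ r) (hpr : 4 * (p + r) ≤ k)
    (hgk : k ≤ 2 * g) (hgk2 : g ≤ k) :
    (6 * k - 16 * (p + r)) * (g * (k - g)) + k * (2 * p + 6 * r) * g ≤
      k * (2 * g * (g + k - 3 * p - r)) := by
  have _ := hgk2
  have h1 : 0 ≤ g * (2 * g - k) * (k - 2 * (p + r)) :=
    mul_nonneg (mul_nonneg (by linarith) (by linarith)) (by linarith)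
  nlinarith [h1]

/-- NA3 -/
theorem u_one (k p r a t : ℤ) (hk : 0 < k) (hp : 0 ≤ p) (hr : 0 ≤ r) (hpr : 4 * (p + r) ≤ k)
    (ha : 0 ≤ a) (ha2 : 2 * a ≤ k) (ht : 0 ≤ t) (ht2 : 2 * t ≤ k) :
    (6 * k - 16 * (p + r)) * gam k (k - a + t) + k * (2 * p + 6 * r) * (k - a + t) ≤
      k * (k * (2 * p + 6 * r + 6 * a + 10 * t) - 6 * a ^ 2 - 6 * t ^ 2 - 4 * a * t
      - p * (10 * a + 6 * t) - r * (6 * a + 10 * t)) := by
  rcases le_total t a with h | h
  · rw [gam_of_lt (by linarith : 0 ≤ k - a + t) (by linarith) hk]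
    have h1 : 0 ≤ (p + r) * (a - t) * (k - 2 * (a - t)) :=
      mul_nonneg (mul_nonneg (by linarith) (by linarith)) (by linarith)
    have h2 : 0 ≤ r * k * a := mul_nonneg (mul_nonneg hr hk.le) ha
    have h3 : 0 ≤ k * t * (k - 2 * a) := mul_nonneg (mul_nonneg hk.le ht) (by linarith)
    have h4 : 0 ≤ k * t * (k - 4 * (p + r)) := mul_nonneg (mul_nonneg hk.le ht) (by linarith)
    have h5 : 0 ≤ k * t * p := mul_nonneg (mul_nonneg hk.le ht) hp
    have h6 : 0 ≤ k * t * k := mul_nonneg (mul_nonneg hk.le ht) hk.le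
    have h7 : k * (k * (2 * p + 6 * r + 6 * a + 10 * t) - 6 * a ^ 2 - 6 * t ^ 2 - 4 * a * t
      - p * (10 * a + 6 * t) - r * (6 * a + 10 * t)) -
      ((6 * k - 16 * (p + r)) * ((k - a + t) * (k - (k - a + t))) +
        k * (2 * p + 6 * r) * (k - a + t)) =
      8 * ((p + r) * (a - t) * (k - 2 * (a - t))) + 8 * (r * k * a) + 8 * (k * t * (k - 2 * a)) +
      6 * (k * t * (k - 4 * (p + r))) + 8 * (k * t * p) + 2 * (k * t * k) := by
      ring
    linarith
  · have h0 : gam k (k - a + t) = (t - a) * (k - (t - a)) := by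
      have e : k - a + t = (t - a) + k * 1 := by ring
      rw [e, gam_add_mul, gam_of_lt (by linarith) (by linarith) hk]
    rw [h0]
    have h1 : 0 ≤ (p + r) * (t - a) * (k - 2 * (t - a)) :=
      mul_nonneg (mul_nonneg (by linarith) (by linarith)) (by linarith)
    have h2 : 0 ≤ k * a * (k - 2 * t) := mul_nonneg (mul_nonneg hk.le ha) (by linarith)
    have h3 : 0 ≤ k * a * (k - 4 * (p + r)) := mul_nonneg (mul_nonneg hk.le ha) (by linarith)
    have h4 : 0 ≤ k * t * (k - 4 * (p + r)) := mul_nonneg (mul_nonneg hk.le ht) (by linarith)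
    have h5 : 0 ≤ k * a * r := mul_nonneg (mul_nonneg hk.le ha) hr
    have h6 : 0 ≤ k * t * r := mul_nonneg (mul_nonneg hk.le ht) hr
    have h7 : 0 ≤ k * t * p := mul_nonneg (mul_nonneg hk.le ht) hp
    have h8 : k * (k * (2 * p + 6 * r + 6 * a + 10 * t) - 6 * a ^ 2 - 6 * t ^ 2 - 4 * a * t
      - p * (10 * a + 6 * t) - r * (6 * a + 10 * t)) -
      ((6 * k - 16 * (p + r)) * ((t - a) * (k - (t - a))) +
        k * (2 * p + 6 * r) * (k - a + t)) =
      8 * ((p + r) * (t - a) * (k - 2 * (t - a))) + 8 * (k * a * (k - 2 * t)) +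
      4 * (k * a * (k - 4 * (p + r))) + 4 * (k * t * (k - 4 * (p + r))) + 8 * (k * a * r) +
      8 * (k * t * r) + 16 * (k * t * p) := by
      ring
    linarith

/-- NA4 -/
theorem u_big (k p r g d S : ℤ) (hk : 0 < k) (hp : 0 ≤ p) (hr : 0 ≤ r)
    (hpr : 4 * (p + r) ≤ k) (hg : k ≤ g) (hd : 2 * k - g ≤ d) (hS1 : k * d ≤ 2 * S)
    (hS2 : gam k g ≤ S) :
    (6 * k - 16 * (p + r)) * gam k g + k * (2 * p + 6 * r) * g ≤
      k * (2 * g * (g - (k - p + r)) + 8 * (S - p * d)) := by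
  have hΓ := gam_nonneg hk g
  have hgg : 0 ≤ g * (g - k) := mul_nonneg (by linarith) (by linarith)
  -- the three values
  have hA0 : 0 ≤ 2 * (g * (g - k)) + 8 * S - 6 * gam k g := by linarith
  have hA1 : 0 ≤ 2 * (g * (g - k)) + 8 * S - 2 * gam k g - 2 * (k * d) := by linarith
  have hA2 : 0 ≤ 2 * (g * (g - 2 * k)) + 8 * S - 2 * gam k g := by
    rcases le_total (2 * k) g with h | h
    · have : 0 ≤ g * (g - 2 * k) := mul_nonneg (by linarith) (by linarith)
      linarith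
    · have h1 : gam k g = (g - k) * (k - (g - k)) := by
        have e : g = (g - k) + k * 1 := by ring
        conv_lhs => rw [e]
        rw [gam_add_mul, gam_of_lt (by linarith) (by linarith) hk]
      have h2 : k * (2 * k - g) ≤ k * d := mul_le_mul_of_nonneg_left hd hk.le
      rw [h1] at hS2 ⊢
      nlinarith
  have h1 : 0 ≤ (k - 4 * p - 4 * r) * (2 * (g * (g - k)) + 8 * S - 6 * gam k g) :=
    mul_nonneg (by linarith) hA0
  have h2 := mul_nonneg hp hA1
  have h3 := mul_nonneg hr hA2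
  have h4 : k * (2 * g * (g - (k - p + r)) + 8 * (S - p * d)) -
      ((6 * k - 16 * (p + r)) * gam k g + k * (2 * p + 6 * r) * g) =
      (k - 4 * p - 4 * r) * (2 * (g * (g - k)) + 8 * S - 6 * gam k g) +
      4 * (p * (2 * (g * (g - k)) + 8 * S - 2 * gam k g - 2 * (k * d))) +
      4 * (r * (2 * (g * (g - 2 * k)) + 8 * S - 2 * gam k g)) := by
    ring
  linarith

end Pool.Agent.POS
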