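import Mathlib
import Pool.Agent.Lib_helper25.POS.Defs

set_option autoImplicit false
set_option linter.unusedSectionVars false

namespace Pool.Agent.POS

open Finset Pool.Agent.Lib_helper13.PL

section sets
variable {G : Type*} [AddCommGroup G] [Fintype G] [DecidableEq G]

theorem nb_eq (K : AddSubgroup G) (x z : G) :
    ((z : G ⧸ K) = (x : G ⧸ K)) ↔ z - x ∈ K := by
  rw [eq_comm, QuotientAddGroup.eq, neg_add_eq_sub]

/-- NB -/
theorem gam_le_sum (K : AddSubgroup G) (KK : Finset G) (hKK : ∀ x, x ∈ KK ↔ x ∈ K)
    (A : Finset G) (k : ℤ) (hk : k = KK.card) :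
    gam k A.card ≤ ∑ x ∈ A, (k - th K A x) := by
  classical
  have hk0 : 0 < k := by
    rw [hk]
    have : KK.Nonempty := ⟨0, (hKK 0).mpr K.zero_mem⟩
    exact_mod_cast this.card_pos
  set f : G → G ⧸ K := fun x => (x : G ⧸ K) with hf
  set I : Finset (G ⧸ K) := A.image f with hI
  set g : G ⧸ K → ℤ := fun i => ((A.filter (fun x => f x = i)).card : ℤ) with hg
  have hmaps : ∀ x ∈ A, f x ∈ I := fun x hx => Finset.mem_image_of_mem f hx
  have hth : ∀ x, th K A x = g (f x) := by
    intro x
    unfold th
    rw [hg]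
    show ((A.filter (fun z => z - x ∈ K)).card : ℤ) =
      ((A.filter (fun z => f z = f x)).card : ℤ)
    congr 2
    apply Finset.filter_congr
    intro z _
    exact (nb_eq K x z).symm
  have hcard : (A.card : ℤ) = ∑ i ∈ I, g i := by
    rw [hg]
    have := Finset.card_eq_sum_card_fiberwise (f := f) (s := A) (t := I) hmaps
    rw [this]
    push_cast
    rfl
  have hsum : ∑ x ∈ A, (k - th K A x) = ∑ i ∈ I, g i * (k - g i) := by
    rw [← Finset.sum_fiberwise_of_maps_to hmaps]
    apply Finset.sum_congr rfl
    intro i _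
    have e : ∀ x ∈ A.filter (fun x => f x = i), k - th K A x = k - g i := by
      intro x hx
      rw [hth, (Finset.mem_filter.1 hx).2]
    rw [Finset.sum_congr rfl e, Finset.sum_const, nsmul_eq_mul]
  have hle : ∀ i ∈ I, g i ≤ k := by
    intro i hi
    obtain ⟨x, hx, rfl⟩ := Finset.mem_image.1 hi
    have hc : (A.filter (fun z => f z = f x)).card ≤ KK.card := by
      apply Finset.card_le_card_of_injOn (fun z => z - x)
      · intro z hz
        have h1 := (Finset.mem_filter.1 hz).2
        exact (hKK _).2 ((nb_eq K x z).1 h1)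
      · intro a _ b _ hab
        exact sub_left_injective hab
    rw [hk]
    show ((A.filter (fun z => f z = f x)).card : ℤ) ≤ KK.card
    exact_mod_cast hc
  rw [hcard, hsum]
  exact gam_sum hk0 I g (fun i _ => Int.natCast_nonneg _) hle

end sets

end Pool.Agent.POS
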