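import Mathlib
import Pool.Agent.Lib_helper25.POS.Defs

/-!
# Cost of one coset
-/

set_option autoImplicit false

namespace Pool.Agent.POS

open Finset Pool.Agent.Lib_helper13.PL

section blocks
variable {G : Type*} [AddCommGroup G] [DecidableEq G]

theorem pd_th (K : AddSubgroup G) (KK : Finset G) (hKK : ∀ x, x ∈ KK ↔ x ∈ K) (A : Finset G)
    (x : G) : ((KK.filter (fun y => x + y ∈ A)).card : ℤ) = th K A x := by
  classical
  unfold th
  rw [Nat.cast_inj]
  refine Finset.card_bij (fun y _ => x + y) ?_ ?_ ?_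
  · intro y hy
    rw [mem_filter] at hy
    rw [mem_filter]
    refine ⟨hy.2, ?_⟩
    rw [add_sub_cancel_left]
    exact (hKK y).1 hy.1
  · intro y _ y' _ h
    exact add_left_cancel h
  · intro z hz
    rw [mem_filter] at hz
    refine ⟨z - x, ?_, by rw [add_sub_cancel]⟩
    rw [mem_filter, add_sub_cancel]
    exact ⟨(hKK _).2 hz.2, hz.1⟩

theorem pd_sum (K : AddSubgroup G) (KK : Finset G) (hKK : ∀ x, x ∈ KK ↔ x ∈ K) (A : Finset G) :
    ∑ y ∈ KK, dlt A y = ∑ x ∈ A, ((KK.card : ℤ) - th K A x) := by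
  have h1 : ∀ y ∈ KK, dlt A y = ∑ x ∈ A, if x + y ∉ A then (1 : ℤ) else 0 := by
    intro y _
    unfold dlt
    rw [Finset.sum_boole]
  rw [sum_congr rfl h1, sum_comm]
  refine sum_congr rfl fun x _ => ?_
  rw [Finset.sum_boole, ← pd_th K KK hKK A x]
  have h2 := Finset.card_filter_add_card_filter_not (s := KK) (fun y => x + y ∈ A)
  have h3 : ((KK.filter (fun y => x + y ∈ A)).card : ℤ) +
      ((KK.filter (fun y => x + y ∉ A)).card : ℤ) = KK.card := by exact_mod_cast h2
  linarith

/-- the sum over `B0` -/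
theorem pd_B0 (KK B0 : Finset G) (f : G → ℤ) :
    ∑ y ∈ B0, f y = ∑ y ∈ KK, f y - ∑ y ∈ KK \ B0, f y + ∑ y ∈ B0 \ KK, f y := by
  have h1 := Finset.sum_inter_add_sum_sdiff KK B0 f
  have h2 := Finset.sum_inter_add_sum_sdiff B0 KK f
  rw [inter_comm] at h2
  linarith

theorem pd_card (KK B0 : Finset G) :
    (B0.card : ℤ) = KK.card - ((KK \ B0).card : ℤ) + ((B0 \ KK).card : ℤ) := by
  have h := pd_B0 KK B0 (fun _ => 1)
  simp only [sum_const, nsmul_eq_mul, mul_one] at h
  exact h

theorem pd_dlt_le (A : Finset G) (y : G) : dlt A y ≤ A.card := by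
  unfold dlt
  exact_mod_cast card_filter_le _ _

theorem pd_dlt_nonneg (A : Finset G) (y : G) : 0 ≤ dlt A y := by
  unfold dlt
  positivity

/-- PD2 -/
theorem cost_none (K : AddSubgroup G) (KK : Finset G) (hKK : ∀ x, x ∈ KK ↔ x ∈ K)
    (A B0 : Finset G) (k p r g : ℤ) (hk : k = KK.card) (hp : p = ((KK \ B0).card : ℤ))
    (hr : r = ((B0 \ KK).card : ℤ)) (hg : g = A.card) :
    6 * g * (k - g) - 6 * p * g - 2 * r * g ≤ cost A B0 := by
  classical
  unfold cost
  rw [pd_B0 KK B0, pd_sum K KK hKK A, pd_card KK B0, ← hk, ← hp, ← hr, ← hg]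
  have h1 : g * (k - g) ≤ ∑ x ∈ A, (k - th K A x) := by
    have h2 : ∑ _x ∈ A, (k - g) ≤ ∑ x ∈ A, (k - th K A x) := by
      refine sum_le_sum fun x _ => ?_
      have h3 : th K A x ≤ g := by
        rw [hg]
        unfold th
        exact_mod_cast card_filter_le _ _
      linarith
    rw [sum_const, nsmul_eq_mul, ← hg] at h2
    exact h2
  have h2 : ∑ y ∈ KK \ B0, dlt A y ≤ p * g := by
    have h3 : ∑ y ∈ KK \ B0, dlt A y ≤ ∑ _y ∈ KK \ B0, g := by
      refine sum_le_sum fun y _ => ?_
      rw [hg]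
      exact pd_dlt_le A y
    rw [sum_const, nsmul_eq_mul, ← hp] at h3
    exact h3
  have h3 : 0 ≤ ∑ y ∈ B0 \ KK, dlt A y := sum_nonneg fun y _ => pd_dlt_nonneg A y
  nlinarith

/-- PD1 -/
theorem cost_one (K : AddSubgroup G) (KK : Finset G) (hKK : ∀ x, x ∈ KK ↔ x ∈ K)
    (A B0 C : Finset G) (hC : Cst K C)
    (k p r a t : ℤ) (hk : k = KK.card) (hp : p = ((KK \ B0).card : ℤ))
    (hr : r = ((B0 \ KK).card : ℤ)) (ha : a = ((C \ A).card : ℤ)) (ht : t = ((A \ C).card : ℤ)) :
    k * (2 * p + 6 * r + 6 * a + 10 * t) - 6 * a ^ 2 - 6 * t ^ 2 - 4 * a * t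
      - p * (10 * a + 6 * t) - r * (6 * a + 10 * t) ≤ cost A B0 := by
  classical
  obtain ⟨w, hw⟩ := hC
  have hCc : (C.card : ℤ) = k := by
    rw [hk, Nat.cast_inj]
    refine Finset.card_bij (fun x _ => x - w) ?_ ?_ ?_
    · intro x hx
      exact (hKK _).2 ((hw x).1 hx)
    · intro x _ x' _ h
      exact sub_left_injective h
    · intro y hy
      refine ⟨y + w, ?_, by rw [add_sub_cancel_right]⟩
      rw [hw, add_sub_cancel_right]
      exact (hKK y).1 hy
  have hAC : ((A ∩ C).card : ℤ) = k - a := by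
    have h1 := Finset.card_inter_add_card_sdiff C A
    rw [inter_comm] at h1
    have h2 : ((A ∩ C).card : ℤ) + ((C \ A).card : ℤ) = C.card := by exact_mod_cast h1
    rw [hCc, ← ha] at h2
    linarith
  have hA : (A.card : ℤ) = k - a + t := by
    have h1 := Finset.card_inter_add_card_sdiff A C
    have h2 : ((A ∩ C).card : ℤ) + ((A \ C).card : ℤ) = A.card := by exact_mod_cast h1
    rw [hAC, ← ht] at h2
    linarith
  have ht0 : 0 ≤ t := by rw [ht]; positivity
  have ha0 : 0 ≤ a := by rw [ha]; positivity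
  -- membership in `C` along `K`
  have hmove : ∀ x y : G, y - x ∈ K → x ∈ C → y ∈ C := by
    intro x y h hx
    rw [hw] at hx ⊢
    have : y - w = (y - x) + (x - w) := by abel
    rw [this]
    exact K.add_mem h hx
  have hth1 : ∀ x ∈ A, x ∈ C → th K A x = k - a := by
    intro x hx hxC
    rw [← hAC]
    unfold th
    rw [Nat.cast_inj]
    congr 1
    ext z
    rw [mem_filter, mem_inter]
    constructor
    · rintro ⟨h1, h2⟩
      exact ⟨h1, hmove x z h2 hxC⟩
    · rintro ⟨h1, h2⟩
      refine ⟨h1, ?_⟩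
      rw [hw] at h2 hxC
      have : z - x = (z - w) - (x - w) := by abel
      rw [this]
      exact K.sub_mem h2 hxC
  have hth2 : ∀ x ∈ A, x ∉ C → th K A x ≤ t := by
    intro x hx hxC
    rw [ht]
    unfold th
    rw [Nat.cast_le]
    apply card_le_card
    intro z hz
    rw [mem_filter] at hz
    rw [mem_sdiff]
    refine ⟨hz.1, fun hzC => hxC ?_⟩
    refine hmove z x ?_ hzC
    have : x - z = -(z - x) := by abel
    rw [this]
    exact K.neg_mem hz.2
  have h1 : (k - a) * a + t * (k - t) ≤ ∑ x ∈ A, (k - th K A x) := by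
    rw [← Finset.sum_inter_add_sum_sdiff A C]
    have e1 : ∑ x ∈ A ∩ C, (k - th K A x) = (k - a) * a := by
      have h2 : ∀ x ∈ A ∩ C, k - th K A x = a := by
        intro x hx
        rw [mem_inter] at hx
        rw [hth1 x hx.1 hx.2]
        ring
      rw [sum_congr rfl h2, sum_const, nsmul_eq_mul, hAC]
    have e2 : t * (k - t) ≤ ∑ x ∈ A \ C, (k - th K A x) := by
      have h2 : ∑ _x ∈ A \ C, (k - t) ≤ ∑ x ∈ A \ C, (k - th K A x) := by
        refine sum_le_sum fun x hx => ?_
        rw [mem_sdiff] at hx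
        have := hth2 x hx.1 hx.2
        linarith
      rw [sum_const, nsmul_eq_mul, ← ht] at h2
      exact h2
    linarith
  have h2 : ∑ y ∈ KK \ B0, dlt A y ≤ p * (a + t) := by
    have h3 : ∑ y ∈ KK \ B0, dlt A y ≤ ∑ _y ∈ KK \ B0, (a + t) := by
      refine sum_le_sum fun y hy => ?_
      rw [mem_sdiff] at hy
      have hyK := (hKK y).1 hy.1
      unfold dlt
      have h4 : A.filter (fun x => x + y ∉ A) ⊆
          (C \ A).image (fun z => z - y) ∪ (A \ C) := by
        intro x hx
        rw [mem_filter] at hx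
        rw [mem_union]
        by_cases hxC : x ∈ C
        · left
          rw [mem_image]
          refine ⟨x + y, ?_, by rw [add_sub_cancel_right]⟩
          rw [mem_sdiff]
          refine ⟨hmove x (x + y) ?_ hxC, hx.2⟩
          rw [add_sub_cancel_left]
          exact hyK
        · right
          rw [mem_sdiff]
          exact ⟨hx.1, hxC⟩
      have h5 := (card_le_card h4).trans (card_union_le _ _)
      have h6 := card_image_le (s := C \ A) (f := fun z => z - y)
      have h7 : (A.filter (fun x => x + y ∉ A)).card ≤ (C \ A).card + (A \ C).card := by omega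
      rw [ha, ht]
      exact_mod_cast h7
    rw [sum_const, nsmul_eq_mul, ← hp] at h3
    exact h3
  have h3 : r * (k - a - t) ≤ ∑ y ∈ B0 \ KK, dlt A y := by
    have h4 : ∑ _y ∈ B0 \ KK, (k - a - t) ≤ ∑ y ∈ B0 \ KK, dlt A y := by
      refine sum_le_sum fun y hy => ?_
      rw [mem_sdiff] at hy
      have hyK : y ∉ K := fun h => hy.2 ((hKK y).2 h)
      have h5 := Finset.card_filter_add_card_filter_not (s := A) (fun x => x + y ∈ A)
      have h6 : A.filter (fun x => x + y ∈ A) ⊆
          (A \ C).image (fun z => z - y) ∪ (A \ C) := by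
        intro x hx
        rw [mem_filter] at hx
        rw [mem_union]
        by_cases hxC : x ∈ C
        · left
          rw [mem_image]
          refine ⟨x + y, ?_, by rw [add_sub_cancel_right]⟩
          rw [mem_sdiff]
          refine ⟨hx.2, fun h => hyK ?_⟩
          rw [hw] at h hxC
          have : y = (x + y - w) - (x - w) := by abel
          rw [this]
          exact K.sub_mem h hxC
        · right
          rw [mem_sdiff]
          exact ⟨hx.1, hxC⟩
      have h7 := (card_le_card h6).trans (card_union_le _ _)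
      have h8 := card_image_le (s := A \ C) (f := fun z => z - y)
      have h9 : ((A.filter (fun x => x + y ∈ A)).card : ℤ) ≤ 2 * t := by
        rw [ht]
        have : (A.filter (fun x => x + y ∈ A)).card ≤ 2 * (A \ C).card := by omega
        exact_mod_cast this
      have h10 : ((A.filter (fun x => x + y ∈ A)).card : ℤ) + dlt A y = A.card := by
        unfold dlt
        exact_mod_cast h5
      rw [hA] at h10
      linarith
    rw [sum_const, nsmul_eq_mul, ← hr] at h4
    exact h4
  unfold cost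
  rw [pd_B0 KK B0, pd_sum K KK hKK A, pd_card KK B0, ← hk, ← hp, ← hr, hA]
  nlinarith

end blocks

end Pool.Agent.POS
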