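import Mathlib
import Pool.Agent.Lib_helper25.POS.Defs

set_option autoImplicit false
set_option linter.unusedSectionVars false
set_option linter.unusedVariables false

namespace Pool.Agent.POS

open Finset Pool.Agent.Lib_helper13.PL

section
variable {G : Type*} [AddCommGroup G] [DecidableEq G]

theorem pe_th (K : AddSubgroup G) (KK : Finset G) (hKK : ∀ x, x ∈ KK ↔ x ∈ K) (A : Finset G)
    (x : G) : th K A x = ((KK.filter (fun y => x + y ∈ A)).card : ℤ) := by
  classical
  unfold th
  norm_cast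
  refine Finset.card_bij' (fun z _ => z - x) (fun y _ => x + y) ?_ ?_ ?_ ?_
  · intro z hz
    rw [Finset.mem_filter] at hz ⊢
    refine ⟨(hKK _).mpr hz.2, ?_⟩
    rw [add_sub_cancel]
    exact hz.1
  · intro y hy
    rw [Finset.mem_filter] at hy ⊢
    refine ⟨hy.2, ?_⟩
    rw [add_sub_cancel_left]
    exact (hKK _).mp hy.1
  · intro z hz
    exact add_sub_cancel _ _
  · intro y hy
    exact add_sub_cancel_left _ _

theorem pe_th_congr (K : AddSubgroup G) (A : Finset G) {x y : G} (h : x - y ∈ K) :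
    th K A x = th K A y := by
  classical
  unfold th
  congr 2
  refine Finset.filter_congr fun z _ => ?_
  have e1 : z - y = (z - x) + (x - y) := by abel
  have e2 : z - x = (z - y) - (x - y) := by abel
  constructor
  · intro hz
    rw [e1]
    exact K.add_mem hz h
  · intro hz
    rw [e2]
    exact K.sub_mem hz h

theorem pe_sum (K : AddSubgroup G) (KK : Finset G) (hKK : ∀ x, x ∈ KK ↔ x ∈ K) (A : Finset G) :
    ∑ y ∈ KK, dlt A y = ∑ x ∈ A, ((KK.card : ℤ) - th K A x) := by
  have e1 : ∀ y, dlt A y = ∑ x ∈ A, if x + y ∉ A then (1 : ℤ) else 0 := by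
    intro y
    rw [Finset.sum_boole]
    rfl
  simp only [e1]
  rw [Finset.sum_comm]
  refine Finset.sum_congr rfl fun x _ => ?_
  rw [Finset.sum_boole, pe_th K KK hKK]
  have h := Finset.card_filter_add_card_filter_not (s := KK) (fun y => x + y ∈ A)
  have h' : ((KK.filter (fun y => x + y ∈ A)).card : ℤ) +
      ((KK.filter (fun y => ¬ x + y ∈ A)).card : ℤ) = KK.card := by exact_mod_cast h
  linarith

theorem pe_card (KK B0 : Finset G) :
    (B0.card : ℤ) = KK.card - ((KK \ B0).card : ℤ) + ((B0 \ KK).card : ℤ) := by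
  have h1 := Finset.card_sdiff_add_card_inter KK B0
  have h2 := Finset.card_sdiff_add_card_inter B0 KK
  rw [Finset.inter_comm B0 KK] at h2
  omega

theorem pe_low (KK A B0 : Finset G) (d : ℤ) (hd : ∀ y ∈ KK, dlt A y ≤ d) :
    ∑ y ∈ KK, dlt A y - ((KK \ B0).card : ℤ) * d ≤ ∑ y ∈ B0, dlt A y := by
  have h1 := Finset.sum_filter_add_sum_filter_not KK (fun y => y ∈ B0) (fun y => dlt A y)
  have h2 : ∑ y ∈ KK.filter (fun y => y ∈ B0), dlt A y ≤ ∑ y ∈ B0, dlt A y :=
    Finset.sum_le_sum_of_subset_of_nonneg (fun y hy => (Finset.mem_filter.mp hy).2)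
      (fun y _ _ => dlt_nonneg A y)
  have h3 : ∑ y ∈ KK.filter (fun y => ¬ y ∈ B0), dlt A y ≤ ((KK \ B0).card : ℤ) * d := by
    rw [← Finset.sdiff_eq_filter]
    have := Finset.sum_le_card_nsmul (KK \ B0) (fun y => dlt A y) d
      (fun y hy => hd y (Finset.mem_sdiff.mp hy).1)
    rw [nsmul_eq_mul] at this
    exact this
  linarith

theorem pe_main (K : AddSubgroup G) (KK : Finset G) (hKK : ∀ x, x ∈ KK ↔ x ∈ K)
    (A B0 : Finset G) (k p r g d S : ℤ) (hk : k = KK.card) (hp : p = ((KK \ B0).card : ℤ))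
    (hr : r = ((B0 \ KK).card : ℤ)) (hg : g = A.card) (hd : ∀ y ∈ KK, dlt A y ≤ d)
    (hS : S ≤ ∑ x ∈ A, (k - th K A x)) :
    2 * g * (g - (k - p + r)) + 8 * (S - p * d) ≤ cost A B0 := by
  have h1 := pe_low KK A B0 d hd
  have h2 := pe_sum K KK hKK A
  have h3 := pe_card KK B0
  rw [← hk] at h2 h3
  rw [← hp] at h1 h3
  rw [← hr] at h3
  unfold cost
  rw [h3, ← hg]
  linarith

theorem pe_dlt_le (A : Finset G) (y : G) : dlt A y ≤ A.card := by
  unfold dlt
  exact_mod_cast Finset.card_filter_le _ _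

/-- a bound for `dlt` with a set periodic modulo `K` -/
theorem pe_dlt_per (A C : Finset G) (y : G) (hC : ∀ x ∈ C, x + y ∈ C) :
    dlt A y ≤ ((A \ C).card : ℤ) + ((C \ A).card : ℤ) := by
  unfold dlt
  norm_cast
  have h1 : A.filter (fun x => x + y ∉ A) ⊆
      (A \ C) ∪ (A.filter (fun x => x + y ∈ C \ A)) := by
    intro x hx
    rw [Finset.mem_filter] at hx
    rw [Finset.mem_union, Finset.mem_sdiff, Finset.mem_filter, Finset.mem_sdiff]
    by_cases h : x ∈ C
    · exact Or.inr ⟨hx.1, hC x h, hx.2⟩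
    · exact Or.inl ⟨hx.1, h⟩
  refine (Finset.card_le_card h1).trans ((Finset.card_union_le _ _).trans ?_)
  refine Nat.add_le_add_left ?_ _
  refine Finset.card_le_card_of_injOn (fun x => x + y) ?_ ?_
  · intro x hx
    exact (Finset.mem_filter.mp hx).2
  · intro a _ b _ hab
    exact add_right_cancel hab

theorem pe_pos (K : AddSubgroup G) (KK : Finset G) (hKK : ∀ x, x ∈ KK ↔ x ∈ K) :
    (0 : ℤ) < KK.card := by
  have : KK.Nonempty := ⟨0, (hKK 0).mpr K.zero_mem⟩
  exact_mod_cast this.card_pos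

/-- a coset has `k` elements -/
theorem pe_coset (K : AddSubgroup G) (KK : Finset G) (hKK : ∀ x, x ∈ KK ↔ x ∈ K) (C : Finset G)
    (x : G) (hC : ∀ z, z ∈ C ↔ z - x ∈ K) : C.card = KK.card := by
  refine Finset.card_bij' (fun z _ => z - x) (fun y _ => x + y) ?_ ?_ ?_ ?_
  · intro z hz
    exact (hKK _).mpr ((hC z).mp hz)
  · intro y hy
    rw [hC, add_sub_cancel_left]
    exact (hKK _).mp hy
  · intro z hz
    exact add_sub_cancel _ _
  · intro y hy
    exact add_sub_cancel_left _ _

/-- PE1 -/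
theorem cost_no_major (K : AddSubgroup G) (KK : Finset G) (hKK : ∀ x, x ∈ KK ↔ x ∈ K)
    (A B0 : Finset G) (k p r g : ℤ) (hk : k = KK.card) (hp : p = ((KK \ B0).card : ℤ))
    (hr : r = ((B0 \ KK).card : ℤ)) (hg : g = A.card) (hA : ∀ x ∈ A, 2 * th K A x ≤ k) :
    2 * g * (g + k - 3 * p - r) ≤ cost A B0 := by
  have h1 : g * k ≤ 2 * ∑ x ∈ A, (k - th K A x) := by
    rw [Finset.mul_sum, hg, ← nsmul_eq_mul]
    refine Finset.card_nsmul_le_sum A _ k fun x hx => ?_
    have := hA x hx
    linarith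
  have h2 := pe_main K KK hKK A B0 k p r g g (∑ x ∈ A, (k - th K A x)) hk hp hr hg
    (fun y _ => hg ▸ pe_dlt_le A y) le_rfl
  nlinarith

theorem pe_num3 (k p r a t S : ℤ) (ha : 0 ≤ a) (ha2 : 2 * a ≤ k) (ht : k ≤ 2 * t) (hp : 0 ≤ p)
    (hr : 0 ≤ r) (hpr : 3 * (p + r) ≤ k) (hS : 2 * ((k - a) * a) + t * k ≤ 2 * S) :
    2 * k ^ 2 ≤ 2 * (k - a + t) * ((k - a + t) - (k - p + r)) + 8 * (S - p * (a + t)) := by
  have h1 : 0 ≤ (k - 2 * a) * (3 * k - 2 * p - 6 * r) :=
    mul_nonneg (by linarith) (by linarith)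
  have h2 : 0 ≤ a * (4 * k - 12 * p - 4 * r) := mul_nonneg ha (by linarith)
  have h3 : 0 ≤ a * (k - 2 * a) := mul_nonneg ha (by linarith)
  have h4 : 0 ≤ (2 * t - k) * (8 * k - 4 * a - 6 * p - 2 * r) :=
    mul_nonneg (by linarith) (by linarith)
  have h5 : 0 ≤ (2 * t - k) ^ 2 := sq_nonneg _
  nlinarith

/-- PE3 -/
theorem cost_one_major (K : AddSubgroup G) (KK : Finset G) (hKK : ∀ x, x ∈ KK ↔ x ∈ K)
    (A B0 C : Finset G) (k p r t : ℤ) (hk : k = KK.card) (hp : p = ((KK \ B0).card : ℤ))
    (hr : r = ((B0 \ KK).card : ℤ)) (hpr : 3 * (p + r) ≤ k)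
    (x : G) (hx : k < 2 * th K A x) (hC : ∀ z, z ∈ C ↔ z - x ∈ K)
    (hy : ∀ y ∈ A, y - x ∉ K → 2 * th K A y ≤ k)
    (ht : t = ((A \ C).card : ℤ)) (htk : k < 2 * t) :
    2 * k ^ 2 ≤ cost A B0 := by
  classical
  set a : ℤ := ((C \ A).card : ℤ) with ha
  have hCk : (C.card : ℤ) = k := by rw [pe_coset K KK hKK C x hC, hk]
  have h1 : ((C ∩ A).card : ℤ) = k - a := by
    have := Finset.card_sdiff_add_card_inter C A
    rw [ha, ← hCk]
    omega
  have h2 : (A.card : ℤ) = k - a + t := by
    have := Finset.card_sdiff_add_card_inter A C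
    rw [Finset.inter_comm] at this
    rw [← h1, ht]
    omega
  have hth : th K A x = k - a := by
    rw [← h1]
    unfold th
    congr 2
    ext z
    rw [Finset.mem_filter, Finset.mem_inter, hC]
    tauto
  have ha2 : 2 * a ≤ k := by linarith
  have hper : ∀ y ∈ KK, ∀ z ∈ C, z + y ∈ C := by
    intro y hy z hz
    rw [hC] at hz ⊢
    have : z + y - x = (z - x) + y := by abel
    rw [this]
    exact K.add_mem hz ((hKK y).mp hy)
  have hS : 2 * ((k - a) * a) + t * k ≤ 2 * ∑ z ∈ A, (k - th K A z) := by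
    rw [← Finset.sum_filter_add_sum_filter_not A (fun z => z ∈ C), mul_add]
    apply add_le_add
    · have e1 : ∑ z ∈ A.filter (fun z => z ∈ C), (k - th K A z) = (k - a) * a := by
        have e2 : ∀ z ∈ A.filter (fun z => z ∈ C), k - th K A z = a := by
          intro z hz
          rw [Finset.mem_filter, hC] at hz
          rw [pe_th_congr K A hz.2, hth]
          ring
        rw [Finset.sum_congr rfl e2, Finset.sum_const, nsmul_eq_mul, ← h1]
        congr 3
        ext z
        rw [Finset.mem_filter, Finset.mem_inter]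
        tauto
      rw [e1]
    · rw [← Finset.sdiff_eq_filter, ht, Finset.mul_sum, ← nsmul_eq_mul]
      refine Finset.card_nsmul_le_sum (A \ C) _ k fun z hz => ?_
      rw [Finset.mem_sdiff, hC] at hz
      have := hy z hz.1 hz.2
      linarith
  have h3 := pe_main K KK hKK A B0 k p r (k - a + t) (a + t) (∑ z ∈ A, (k - th K A z)) hk hp hr
    h2.symm (fun y hy => by
      have := pe_dlt_per A C y (hper y hy)
      rw [← ht, ← ha] at this
      linarith) le_rfl
  refine (pe_num3 k p r a t _ (by rw [ha]; positivity) ha2 htk.le (by rw [hp]; positivity)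
    (by rw [hr]; positivity) hpr hS).trans h3

theorem pe_num2a (k p r d : ℤ) (hk : 0 < k) (hd : 0 ≤ d) (hdk : d ≤ k) (hp : 0 ≤ p)
    (hr : 0 ≤ r) (hpr : 3 * (p + r) ≤ k) :
    0 ≤ 2 * k ^ 2 - 2 * k * d + 2 * d ^ 2 + 4 * k * p - 4 * k * r - 10 * d * p + 2 * d * r := by
  have h1 : 0 ≤ (k - 3 * p) * (2 * (k - d) ^ 2 + 4 * d ^ 2) :=
    mul_nonneg (by linarith) (by positivity)
  have h2 : 0 ≤ 3 * p * ((k - d) * (10 * k - 6 * d)) :=
    mul_nonneg (by linarith) (mul_nonneg (by linarith) (by linarith))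
  have h3 : 0 ≤ k * ((4 * k - 2 * d) * (k - 3 * (p + r))) :=
    mul_nonneg hk.le (mul_nonneg (by linarith) (by linarith))
  have h4 : k * (3 * (2 * k ^ 2 - 2 * k * d + 2 * d ^ 2 + 4 * k * p - 4 * k * r - 10 * d * p
      + 2 * d * r)) = (k - 3 * p) * (2 * (k - d) ^ 2 + 4 * d ^ 2)
      + 3 * p * ((k - d) * (10 * k - 6 * d)) + k * ((4 * k - 2 * d) * (k - 3 * (p + r))) := by
    ring
  have h5 : 0 ≤ k * (3 * (2 * k ^ 2 - 2 * k * d + 2 * d ^ 2 + 4 * k * p - 4 * k * r - 10 * d * p
      + 2 * d * r)) := by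
    rw [h4]
    linarith
  have h6 := nonneg_of_mul_nonneg_right h5 hk
  linarith

theorem pe_num2 (k p r d g S : ℤ) (hk : 0 < k) (hd : 0 ≤ d) (hp : 0 ≤ p)
    (hr : 0 ≤ r) (hpr : 3 * (p + r) ≤ k) (hg : k ≤ g) (hg2 : 2 * k - d ≤ g) (hS : d * k ≤ 2 * S) :
    2 * k ^ 2 ≤ 2 * g * (g - (k - p + r)) + 8 * (S - p * d) := by
  rcases le_total d k with h | h
  · have h1 := pe_num2a k p r d hk hd h hp hr hpr
    have h2 : 0 ≤ (g - (2 * k - d)) * (g + (2 * k - d) - k + p - r) :=
      mul_nonneg (by linarith) (by linarith)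
    nlinarith
  · have h1 : 0 ≤ (d - k) * (4 * k - 8 * p) := mul_nonneg (by linarith) (by linarith)
    have h2 : 0 ≤ (g - k) * (g + p - r) := mul_nonneg (by linarith) (by linarith)
    have h3 : 0 ≤ k * (k - 3 * (p + r)) := mul_nonneg hk.le (by linarith)
    have h4 : 0 ≤ k * r := mul_nonneg hk.le hr
    nlinarith

/-- PE2 -/
theorem cost_two_major (K : AddSubgroup G) (KK : Finset G) (hKK : ∀ x, x ∈ KK ↔ x ∈ K)
    (A B0 : Finset G) (k p r : ℤ) (hk : k = KK.card) (hp : p = ((KK \ B0).card : ℤ))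
    (hr : r = ((B0 \ KK).card : ℤ)) (hpr : 3 * (p + r) ≤ k)
    (x y : G) (hxy : x - y ∉ K) (hx : k < 2 * th K A x) (hy : k < 2 * th K A y) :
    2 * k ^ 2 ≤ cost A B0 := by
  classical
  have hk0 : 0 < k := by rw [hk]; exact pe_pos K KK hKK
  -- the majority set
  obtain ⟨C, hC⟩ : ∃ C : Finset G, ∀ z, z ∈ C ↔ k < 2 * th K A z := by
    refine ⟨(A.biUnion (fun a => KK.image (fun y => a + y))).filter
      (fun z => k < 2 * th K A z), fun z => ?_⟩
    rw [Finset.mem_filter]
    refine ⟨fun h => h.2, fun h => ⟨?_, h⟩⟩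
    have h0 : 0 < th K A z := by linarith
    unfold th at h0
    have h1 : 0 < (A.filter (fun w => w - z ∈ K)).card := by exact_mod_cast h0
    obtain ⟨w, hw⟩ := Finset.card_pos.mp h1
    rw [Finset.mem_filter] at hw
    rw [Finset.mem_biUnion]
    refine ⟨w, hw.1, ?_⟩
    rw [Finset.mem_image]
    refine ⟨z - w, ?_, add_sub_cancel _ _⟩
    rw [hKK]
    have := K.neg_mem hw.2
    rwa [neg_sub] at this
  have hcongr : ∀ z w : G, z - w ∈ K → (z ∈ C ↔ w ∈ C) := by
    intro z w h
    rw [hC, hC, pe_th_congr K A h]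
  have hper : ∀ y ∈ KK, ∀ z ∈ C, z + y ∈ C := by
    intro y hy z hz
    rw [hcongr (z + y) z (by rw [add_sub_cancel_left]; exact (hKK y).mp hy)]
    exact hz
  set d : ℤ := ((A \ C).card : ℤ) + ((C \ A).card : ℤ) with hd
  have hd0 : 0 ≤ d := by rw [hd]; positivity
  -- two cosets
  have h2k : 2 * k ≤ (C.card : ℤ) := by
    have hsub : KK.image (fun z => x + z) ∪ KK.image (fun z => y + z) ⊆ C := by
      intro z hz
      rw [Finset.mem_union, Finset.mem_image, Finset.mem_image] at hz
      rcases hz with ⟨w, hw, rfl⟩ | ⟨w, hw, rfl⟩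
      · exact hper w hw x ((hC x).mpr hx)
      · exact hper w hw y ((hC y).mpr hy)
    have hdis : Disjoint (KK.image (fun z => x + z)) (KK.image (fun z => y + z)) := by
      rw [Finset.disjoint_left]
      intro z h1 h2
      rw [Finset.mem_image] at h1 h2
      obtain ⟨w, hw, rfl⟩ := h1
      obtain ⟨w', hw', h3⟩ := h2
      apply hxy
      have : x - y = w' - w := by
        have h4 : y + w' = x + w := h3
        have h5 : y = x + w - w' := by rw [← h4]; abel
        rw [h5]
        abel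
      rw [this]
      exact K.sub_mem ((hKK _).mp hw') ((hKK _).mp hw)
    have h1 := Finset.card_le_card hsub
    rw [Finset.card_union_of_disjoint hdis, Finset.card_image_of_injective _ (add_right_injective x),
      Finset.card_image_of_injective _ (add_right_injective y)] at h1
    rw [hk]
    omega
  have hg2 : 2 * k - d ≤ (A.card : ℤ) := by
    have h1 := Finset.card_sdiff_add_card_inter C A
    have h2 := Finset.card_sdiff_add_card_inter A C
    rw [Finset.inter_comm] at h2
    rw [hd]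
    omega
  have hg : k ≤ (A.card : ℤ) := by
    have h1 : th K A x + th K A y ≤ (A.card : ℤ) := by
      classical
      unfold th
      have hdis : Disjoint (A.filter (fun z => z - x ∈ K)) (A.filter (fun z => z - y ∈ K)) := by
        rw [Finset.disjoint_left]
        intro z h1 h2
        rw [Finset.mem_filter] at h1 h2
        apply hxy
        have : x - y = (z - y) - (z - x) := by abel
        rw [this]
        exact K.sub_mem h2.2 h1.2
      have h3 := Finset.card_le_card (Finset.union_subset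
        (Finset.filter_subset (fun z => z - x ∈ K) A) (Finset.filter_subset (fun z => z - y ∈ K) A))
      rw [Finset.card_union_of_disjoint hdis] at h3
      exact_mod_cast h3
    linarith
  have hS : d * k ≤ 2 * ∑ z ∈ A, (k - th K A z) := by
    classical
    rw [← Finset.sum_filter_add_sum_filter_not A (fun z => z ∈ C), mul_add]
    have h1 : ((A \ C).card : ℤ) * k ≤ 2 * ∑ z ∈ A.filter (fun z => ¬ z ∈ C), (k - th K A z) := by
      rw [← Finset.sdiff_eq_filter, Finset.mul_sum, ← nsmul_eq_mul]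
      refine Finset.card_nsmul_le_sum (A \ C) _ k fun z hz => ?_
      rw [Finset.mem_sdiff, hC] at hz
      have := hz.2
      linarith
    have h2 : ((C \ A).card : ℤ) * k ≤ 2 * ∑ z ∈ A.filter (fun z => z ∈ C), (k - th K A z) := by
      have e1 : ∀ z ∈ A.filter (fun z => z ∈ C), k - th K A z =
          ∑ w ∈ C \ A, if w - z ∈ K then (1 : ℤ) else 0 := by
        intro z hz
        rw [Finset.mem_filter] at hz
        rw [Finset.sum_boole, pe_th K KK hKK, hk]
        have h := Finset.card_filter_add_card_filter_not (s := KK) (fun y => z + y ∈ A)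
        have h' : ((KK.filter (fun y => z + y ∈ A)).card : ℤ) +
            ((KK.filter (fun y => ¬ z + y ∈ A)).card : ℤ) = KK.card := by exact_mod_cast h
        rw [← h', add_sub_cancel_left]
        norm_cast
        refine Finset.card_bij' (fun y _ => z + y) (fun w _ => w - z) ?_ ?_ ?_ ?_
        · intro y hy
          rw [Finset.mem_filter] at hy
          rw [Finset.mem_filter, Finset.mem_sdiff, add_sub_cancel_left]
          exact ⟨⟨hper y hy.1 z hz.2, hy.2⟩, (hKK y).mp hy.1⟩
        · intro w hw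
          rw [Finset.mem_filter, Finset.mem_sdiff] at hw
          rw [Finset.mem_filter, add_sub_cancel]
          exact ⟨(hKK _).mpr hw.2, hw.1.2⟩
        · intro y hy
          exact add_sub_cancel_left _ _
        · intro w hw
          exact add_sub_cancel _ _
      rw [Finset.sum_congr rfl e1, Finset.sum_comm, Finset.mul_sum, ← nsmul_eq_mul]
      refine Finset.card_nsmul_le_sum (C \ A) _ k fun w hw => ?_
      rw [Finset.mem_sdiff] at hw
      have h3 : (∑ z ∈ A.filter (fun z => z ∈ C), if w - z ∈ K then (1 : ℤ) else 0) =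
          th K A w := by
        rw [Finset.sum_boole]
        unfold th
        congr 2
        rw [Finset.filter_filter]
        refine Finset.filter_congr fun z _ => ?_
        constructor
        · rintro ⟨h4, h5⟩
          have := K.neg_mem h5
          rwa [neg_sub] at this
        · intro h4
          refine ⟨(hcongr z w h4).mpr hw.1, ?_⟩
          have := K.neg_mem h4
          rwa [neg_sub] at this
      rw [h3]
      have := (hC w).mp hw.1
      linarith
    rw [hd, add_mul]
    linarith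
  have h3 := pe_main K KK hKK A B0 k p r (A.card : ℤ) d (∑ z ∈ A, (k - th K A z)) hk hp hr
    rfl (fun y hy => pe_dlt_per A C y (hper y hy)) le_rfl
  exact (pe_num2 k p r d _ _ hk0 hd0 (by rw [hp]; positivity) (by rw [hr]; positivity) hpr hg hg2
    hS).trans h3

end

end Pool.Agent.POS
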