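import Mathlib
import Pool.Agent.Lib_helper25.POS.Defs
import Pool.Agent.Lib_helper25.PR.NA
import Pool.Agent.Lib_helper25.PR.NB
import Pool.Agent.Lib_helper25.PR.PD
import Pool.Agent.Lib_helper25.PR.PE

/-!
# POS block NC: Lemma U
-/

set_option autoImplicit false

namespace Pool.Agent.POS

open Finset Pool.Agent.Lib_helper13.PL

section
variable {G : Type*} [AddCommGroup G] [Fintype G] [DecidableEq G]

/-- the majority set is periodic -/
theorem nc_congr (K : AddSubgroup G) (A C : Finset G) (k : ℤ)
    (hC : ∀ z, z ∈ C ↔ k < 2 * th K A z) (z w : G) (h : z - w ∈ K) : z ∈ C ↔ w ∈ C := by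
  rw [hC, hC, pe_th_congr K A h]

theorem nc_per (K : AddSubgroup G) (KK : Finset G) (hKK : ∀ x, x ∈ KK ↔ x ∈ K) (A C : Finset G)
    (k : ℤ) (hC : ∀ z, z ∈ C ↔ k < 2 * th K A z) (y : G) (hy : y ∈ KK) (z : G) (hz : z ∈ C) :
    z + y ∈ C := by
  rw [nc_congr K A C k hC (z + y) z (by rw [add_sub_cancel_left]; exact (hKK y).mp hy)]
  exact hz

/-- twice the sum over the fibres -/
theorem nc_sum (K : AddSubgroup G) (KK : Finset G) (hKK : ∀ x, x ∈ KK ↔ x ∈ K) (A C : Finset G)
    (k : ℤ) (hk : k = KK.card) (hC : ∀ z, z ∈ C ↔ k < 2 * th K A z) :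
    k * (((A \ C).card : ℤ) + ((C \ A).card : ℤ)) ≤ 2 * ∑ z ∈ A, (k - th K A z) := by
  classical
  have hcongr := nc_congr K A C k hC
  have hper := nc_per K KK hKK A C k hC
  rw [← Finset.sum_filter_add_sum_filter_not A (fun z => z ∈ C), mul_add]
  have h1 : ((A \ C).card : ℤ) * k ≤ 2 * ∑ z ∈ A.filter (fun z => ¬ z ∈ C), (k - th K A z) := by
    rw [← Finset.sdiff_eq_filter, Finset.mul_sum, ← nsmul_eq_mul]
    refine Finset.card_nsmul_le_sum (A \ C) _ k fun z hz => ?_
    rw [Finset.mem_sdiff, hC] at hz
    have := hz.2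
    linarith
  have h2 : ((C \ A).card : ℤ) * k ≤ 2 * ∑ z ∈ A.filter (fun z => z ∈ C), (k - th K A z) := by
    have e1 : ∀ z ∈ A.filter (fun z => z ∈ C), k - th K A z =
        ∑ w ∈ C \ A, if w - z ∈ K then (1 : ℤ) else 0 := by
      intro z hz
      rw [Finset.mem_filter] at hz
      rw [Finset.sum_boole, pe_th K KK hKK, hk]
      have h := Finset.card_filter_add_card_filter_not (s := KK) (fun y => z + y ∈ A)
      have h' : ((KK.filter (fun y => z + y ∈ A)).card : ℤ) +
          ((KK.filter (fun y => ¬ z + y ∈ A)).card : ℤ) = KK.card := by exact_mod_cast h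
      rw [← h', add_sub_cancel_left]
      norm_cast
      refine Finset.card_bij' (fun y _ => z + y) (fun w _ => w - z) ?_ ?_ ?_ ?_
      · intro y hy
        rw [Finset.mem_filter] at hy
        rw [Finset.mem_filter, Finset.mem_sdiff, add_sub_cancel_left]
        exact ⟨⟨hper y hy.1 z hz.2, hy.2⟩, (hKK y).mp hy.1⟩
      · intro w hw
        rw [Finset.mem_filter, Finset.mem_sdiff] at hw
        rw [Finset.mem_filter, add_sub_cancel]
        exact ⟨(hKK _).mpr hw.2, hw.1.2⟩
      · intro y hy
        exact add_sub_cancel_left _ _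
      · intro w hw
        exact add_sub_cancel _ _
    rw [Finset.sum_congr rfl e1, Finset.sum_comm, Finset.mul_sum, ← nsmul_eq_mul]
    refine Finset.card_nsmul_le_sum (C \ A) _ k fun w hw => ?_
    rw [Finset.mem_sdiff] at hw
    have h3 : (∑ z ∈ A.filter (fun z => z ∈ C), if w - z ∈ K then (1 : ℤ) else 0) =
        th K A w := by
      rw [Finset.sum_boole]
      unfold th
      congr 2
      rw [Finset.filter_filter]
      refine Finset.filter_congr fun z _ => ?_
      constructor
      · rintro ⟨h4, h5⟩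
        have := K.neg_mem h5
        rwa [neg_sub] at this
      · intro h4
        refine ⟨(hcongr z w h4).mpr hw.1, ?_⟩
        have := K.neg_mem h4
        rwa [neg_sub] at this
    rw [h3]
    have := (hC w).mp hw.1
    linarith
  linarith

/-- the case of large `A` -/
theorem nc_big (K : AddSubgroup G) (KK : Finset G) (hKK : ∀ x, x ∈ KK ↔ x ∈ K)
    (A B0 C : Finset G) (k p r : ℤ) (hk : k = KK.card) (hp : p = ((KK \ B0).card : ℤ))
    (hr : r = ((B0 \ KK).card : ℤ)) (hpr : 4 * (p + r) ≤ k)
    (hC : ∀ z, z ∈ C ↔ k < 2 * th K A z) (hg : k ≤ (A.card : ℤ))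
    (hd : 2 * k - A.card ≤ ((A \ C).card : ℤ) + ((C \ A).card : ℤ)) :
    (6 * k - 16 * (p + r)) * gam k A.card + k * (2 * p + 6 * r) * A.card ≤ k * cost A B0 := by
  have hk0 : 0 < k := by rw [hk]; exact pe_pos K KK hKK
  have h1 := pe_main K KK hKK A B0 k p r (A.card : ℤ) (((A \ C).card : ℤ) + ((C \ A).card : ℤ))
    (∑ z ∈ A, (k - th K A z)) hk hp hr rfl
    (fun y hy => pe_dlt_per A C y (nc_per K KK hKK A C k hC y hy)) le_rfl
  have h2 := u_big k p r (A.card : ℤ) (((A \ C).card : ℤ) + ((C \ A).card : ℤ))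
    (∑ z ∈ A, (k - th K A z)) hk0 (by rw [hp]; positivity) (by rw [hr]; positivity) hpr hg hd
    (nc_sum K KK hKK A C k hk hC) (gam_le_sum K KK hKK A k hk)
  exact h2.trans (mul_le_mul_of_nonneg_left h1 hk0.le)

/-- NC -/
theorem lemmaU (K : AddSubgroup G) (KK : Finset G) (hKK : ∀ x, x ∈ KK ↔ x ∈ K)
    (A B0 : Finset G) (k p r : ℤ) (hk : k = KK.card) (hp : p = ((KK \ B0).card : ℤ))
    (hr : r = ((B0 \ KK).card : ℤ)) (hpr : 4 * (p + r) ≤ k) :
    (6 * k - 16 * (p + r)) * gam k A.card + k * (2 * p + 6 * r) * A.card ≤ k * cost A B0 := by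
  classical
  have hk0 : 0 < k := by rw [hk]; exact pe_pos K KK hKK
  have hp0 : 0 ≤ p := by rw [hp]; positivity
  have hr0 : 0 ≤ r := by rw [hr]; positivity
  have hg0 : (0 : ℤ) ≤ A.card := by positivity
  obtain ⟨C, hC⟩ : ∃ C : Finset G, ∀ z, z ∈ C ↔ k < 2 * th K A z :=
    ⟨Finset.univ.filter (fun z => k < 2 * th K A z), fun z => by simp⟩
  rcases C.eq_empty_or_nonempty with hCe | ⟨x, hx⟩
  · have hA : ∀ z : G, 2 * th K A z ≤ k := by
      intro z
      by_contra hcon
      have : z ∈ C := (hC z).2 (by linarith)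
      rw [hCe] at this
      exact absurd this (Finset.notMem_empty z)
    rcases le_total (2 * (A.card : ℤ)) k with h | h
    · have h1 := cost_none K KK hKK A B0 k p r (A.card : ℤ) hk hp hr rfl
      have h2 := u_none k p r (A.card : ℤ) hk0 hp0 hr0 hg0 h
      rw [gam_of_lt hg0 (by linarith) hk0]
      exact h2.trans (mul_le_mul_of_nonneg_left h1 hk0.le)
    · rcases le_total (A.card : ℤ) k with h' | h'
      · have h1 := cost_no_major K KK hKK A B0 k p r (A.card : ℤ) hk hp hr rfl
          (fun z _ => hA z)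
        have h2 := u_nomaj k p r (A.card : ℤ) hk0 hp0 hr0 hpr h h'
        rw [gam_of_lt hg0 h' hk0]
        exact h2.trans (mul_le_mul_of_nonneg_left h1 hk0.le)
      · refine nc_big K KK hKK A B0 C k p r hk hp hr hpr hC h' ?_
        rw [hCe, Finset.sdiff_empty, Finset.empty_sdiff, Finset.card_empty]
        push_cast
        linarith
  · -- the coset of `x`
    obtain ⟨Cx, hCx⟩ : ∃ Cx : Finset G, ∀ z, z ∈ Cx ↔ z - x ∈ K :=
      ⟨Finset.univ.filter (fun z => z - x ∈ K), fun z => by simp⟩
    have hsub : Cx ⊆ C := by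
      intro z hz
      rw [nc_congr K A C k hC z x ((hCx z).1 hz)]
      exact hx
    have hcard : (Cx.card : ℤ) = k := by rw [pe_coset K KK hKK Cx x hCx, hk]
    have h1 := Finset.card_sdiff_add_card_inter C A
    have h2 := Finset.card_sdiff_add_card_inter A C
    rw [Finset.inter_comm] at h2
    by_cases hCC : C ⊆ Cx
    · have hEq : C = Cx := Finset.Subset.antisymm hCC hsub
      have hCk : (C.card : ℤ) = k := by rw [hEq, hcard]
      have hth : th K A x = ((C ∩ A).card : ℤ) := by
        unfold th
        congr 2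
        ext z
        rw [Finset.mem_filter, Finset.mem_inter, hEq, hCx]
        tauto
      have hx2 := (hC x).1 hx
      rw [hth] at hx2
      have e1 : ((C \ A).card : ℤ) + ((C ∩ A).card : ℤ) = k := by rw [← hCk]; exact_mod_cast h1
      have e2 : ((A \ C).card : ℤ) + ((C ∩ A).card : ℤ) = A.card := by exact_mod_cast h2
      rcases le_total (2 * ((A \ C).card : ℤ)) k with h | h
      · have h3 := cost_one K KK hKK A B0 C ⟨x, fun z => by rw [hEq, hCx]⟩ k p r
          ((C \ A).card : ℤ) ((A \ C).card : ℤ) hk hp hr rfl rfl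
        have h4 := u_one k p r ((C \ A).card : ℤ) ((A \ C).card : ℤ) hk0 hp0 hr0 hpr
          (by positivity) (by linarith) (by positivity) h
        have e3 : k - ((C \ A).card : ℤ) + ((A \ C).card : ℤ) = A.card := by linarith
        rw [e3] at h4
        exact h4.trans (mul_le_mul_of_nonneg_left h3 hk0.le)
      · exact nc_big K KK hKK A B0 C k p r hk hp hr hpr hC (by linarith) (by linarith)
    · obtain ⟨y, hy, hyx⟩ := Finset.not_subset.1 hCC
      have hyx' : y - x ∉ K := fun h => hyx ((hCx y).2 h)
      have hx2 := (hC x).1 hx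
      have hy2 := (hC y).1 hy
      have hg : k ≤ (A.card : ℤ) := by
        have h3 : th K A x + th K A y ≤ (A.card : ℤ) := by
          unfold th
          have hdis : Disjoint (A.filter (fun z => z - x ∈ K)) (A.filter (fun z => z - y ∈ K)) := by
            rw [Finset.disjoint_left]
            intro z h4 h5
            rw [Finset.mem_filter] at h4 h5
            apply hyx'
            have : y - x = (z - x) - (z - y) := by abel
            rw [this]
            exact K.sub_mem h4.2 h5.2
          have h6 := Finset.card_le_card (Finset.union_subset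
            (Finset.filter_subset (fun z => z - x ∈ K) A)
            (Finset.filter_subset (fun z => z - y ∈ K) A))
          rw [Finset.card_union_of_disjoint hdis] at h6
          exact_mod_cast h6
        linarith
      have h2k : 2 * k ≤ (C.card : ℤ) := by
        obtain ⟨Cy, hCy⟩ : ∃ Cy : Finset G, ∀ z, z ∈ Cy ↔ z - y ∈ K :=
          ⟨Finset.univ.filter (fun z => z - y ∈ K), fun z => by simp⟩
        have hsub' : Cy ⊆ C := by
          intro z hz
          rw [nc_congr K A C k hC z y ((hCy z).1 hz)]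
          exact hy
        have hcard' : (Cy.card : ℤ) = k := by rw [pe_coset K KK hKK Cy y hCy, hk]
        have hdis : Disjoint Cx Cy := by
          rw [Finset.disjoint_left]
          intro z h4 h5
          rw [hCx] at h4
          rw [hCy] at h5
          apply hyx'
          have : y - x = (z - x) - (z - y) := by abel
          rw [this]
          exact K.sub_mem h4 h5
        have h6 := Finset.card_le_card (Finset.union_subset hsub hsub')
        rw [Finset.card_union_of_disjoint hdis] at h6
        have h7 : (Cx.card : ℤ) + Cy.card ≤ C.card := by exact_mod_cast h6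
        linarith
      refine nc_big K KK hKK A B0 C k p r hk hp hr hpr hC hg ?_
      have e1 : ((C \ A).card : ℤ) + ((C ∩ A).card : ℤ) = C.card := by exact_mod_cast h1
      have e2 : ((A \ C).card : ℤ) + ((C ∩ A).card : ℤ) = A.card := by exact_mod_cast h2
      have e3 : (0 : ℤ) ≤ ((A \ C).card : ℤ) := by positivity
      linarith

end

end Pool.Agent.POS
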