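import Mathlib
import Pool.Agent.Lib_helper13.PL.Cor

/-!
# Block ND : the numbers of the near regime
-/

set_option autoImplicit false

namespace Pool.Agent.POS

open Finset Pool.Agent.Lib_helper13.PL

/-- ND1 -/
theorem near_num1 (k Λ P N n y : ℤ) (hk : 0 < k) (hΛ : 2 * k ≤ Λ) (hy : 0 ≤ y) (hyk : y ≤ k)
    (hT : P + N = 2 * k * n + y ∨ P + N = 2 * k * n - y) :
    k * y ^ 2 + Λ * (y * (k - y)) ≤ k * (P - N) ^ 2 + Λ * (gam k P + gam k N) := by
  have hΛ0 : 0 ≤ Λ := by linarith
  by_cases hD : y ≤ |P - N|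
  · have h1 : y ^ 2 ≤ (P - N) ^ 2 := by
      rw [← sq_abs (P - N)]
      exact pow_le_pow_left₀ hy hD 2
    have h2 : gam k (P + N) = y * (k - y) := by
      rcases hT with hT | hT
      · rw [hT, show 2 * k * n + y = k * (2 * n) + y by ring]
        exact gam_val _ hy hyk hk
      · rw [hT, show 2 * k * n - y = k * (2 * n) - y by ring]
        exact gam_val' _ hy hyk hk
    have h3 := gam_add hk P N
    rw [h2] at h3
    have h4 := mul_le_mul_of_nonneg_left h1 hk.le
    have h5 := mul_le_mul_of_nonneg_left h3 hΛ0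
    linarith
  · push Not at hD
    have hD' := abs_lt.mp hD
    rcases hT with hT | hT
    · obtain ⟨a, ha⟩ : ∃ a, a = P - k * n := ⟨_, rfl⟩
      obtain ⟨c, hc⟩ : ∃ c, c = N - k * n := ⟨_, rfl⟩
      have hac : a + c = y := by rw [ha, hc]; linarith
      have hac2 : a - c = P - N := by rw [ha, hc]; ring
      have e1 : gam k P = a * (k - a) := by
        rw [show P = k * n + a by rw [ha]; ring]
        exact gam_val _ (by linarith) (by linarith) hk
      have e2 : gam k N = c * (k - c) := by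
        rw [show N = k * n + c by rw [hc]; ring]
        exact gam_val _ (by linarith) (by linarith) hk
      rw [e1, e2, ← hac2]
      have hs : y = a + c := hac.symm
      subst hs
      have ha0 : 0 ≤ a := by linarith
      have hc0 : 0 ≤ c := by linarith
      have h6 := mul_nonneg (mul_nonneg ha0 hc0) (sub_nonneg.mpr hΛ)
      nlinarith [h6]
    · obtain ⟨a, ha⟩ : ∃ a, a = k * n - P := ⟨_, rfl⟩
      obtain ⟨c, hc⟩ : ∃ c, c = k * n - N := ⟨_, rfl⟩
      have hac : a + c = y := by rw [ha, hc]; linarith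
      have hac2 : c - a = P - N := by rw [ha, hc]; ring
      have e1 : gam k P = a * (k - a) := by
        rw [show P = k * n - a by rw [ha]; ring]
        exact gam_val' _ (by linarith) (by linarith) hk
      have e2 : gam k N = c * (k - c) := by
        rw [show N = k * n - c by rw [hc]; ring]
        exact gam_val' _ (by linarith) (by linarith) hk
      rw [e1, e2, ← hac2]
      have hs : y = a + c := hac.symm
      subst hs
      have ha0 : 0 ≤ a := by linarith
      have hc0 : 0 ≤ c := by linarith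
      have h6 := mul_nonneg (mul_nonneg ha0 hc0) (sub_nonneg.mpr hΛ)
      nlinarith [h6]

/-- identification of `s` with the distance to the nearest odd multiple -/
lemma nd_ident (k i n s σ : ℤ) (hk : 0 < k) (hs : 0 ≤ s) (hsk : s ≤ k)
    (h1 : -k ≤ 4 * σ) (h2 : 4 * σ ≤ 5 * k)
    (hb : 2 * (i - n) * k = σ - s ∨ 2 * (i - n) * k = σ + s) :
    (0 ≤ σ ∧ σ ≤ k ∧ s = σ) ∨ (σ < 0 ∧ s = -σ) ∨ (k < σ ∧ s = 2 * k - σ) := by
  obtain ⟨j, hj⟩ : ∃ j, j = i - n := ⟨_, rfl⟩
  rw [← hj] at hb
  rcases hb with hb | hb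
  · have h3 : j = 0 := by
      have h4 : j < 1 := by
        by_contra hc
        push Not at hc
        nlinarith
      have h5 : -1 < j := by
        by_contra hc
        push Not at hc
        nlinarith
      omega
    rw [h3] at hb
    have h6 : s = σ := by linarith
    left
    exact ⟨by linarith, by linarith, h6⟩
  · have h4 : j < 2 := by
      by_contra hc
      push Not at hc
      nlinarith
    have h5 : -1 < j := by
      by_contra hc
      push Not at hc
      nlinarith
    have h6 : j = 0 ∨ j = 1 := by omega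
    rcases h6 with h6 | h6
    · rw [h6] at hb
      rcases lt_or_ge σ 0 with h7 | h7
      · right; left
        exact ⟨h7, by linarith⟩
      · left
        exact ⟨h7, by linarith, by linarith⟩
    · rw [h6] at hb
      rcases lt_or_ge k σ with h7 | h7
      · right; right
        exact ⟨h7, by linarith⟩
      · left
        exact ⟨by linarith, h7, by linarith⟩

/-- ND2 : the final comparison -/
theorem near_num2 (k p r T n y i s F : ℤ) (hk : 0 < k) (hp : 0 ≤ p) (hr : 0 ≤ r)
    (hpr : 4 * (p + r) ≤ k) (hy : 0 ≤ y) (hyk : y ≤ k)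
    (hT : (T = 2 * k * n + y ∧ 0 ≤ n) ∨ (T = 2 * k * n - y ∧ 1 ≤ n))
    (hTc : 3 * (k - p + r) ≤ 4 * T) (hs : 0 ≤ s) (hsk : s ≤ k)
    (hb : T + (k - p + r) = (2 * i + 1) * k + s ∨ T + (k - p + r) + s = (2 * i + 1) * k)
    (hF : k * F ≤ k * (k ^ 2 - 6 * k * (p + r) + 9 * p ^ 2 + 6 * p * r + 9 * r ^ 2)
      - k * y ^ 2 - (6 * k - 16 * (p + r)) * (y * (k - y)) - k * (2 * p + 6 * r) * T) :
    F ≤ (k - s) * (k - 5 * s) := by
  refine le_of_mul_le_mul_left (le_trans hF ?_) hk
  have hkp : 0 ≤ k * p := mul_nonneg hk.le hp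
  have hkr : 0 ≤ k * r := mul_nonneg hk.le hr
  have hky : 0 ≤ k * y := mul_nonneg hk.le hy
  rcases hT with ⟨hT, hn⟩ | ⟨hT, hn⟩
  · have hσ := nd_ident k i n s (y - p + r) hk hs hsk (by linarith) (by linarith)
      (by
        rcases hb with hb | hb
        · left; rw [hT] at hb; linear_combination -hb
        · right; rw [hT] at hb; linear_combination -hb)
    rcases hσ with ⟨h1, h2, h3⟩ | ⟨h1, h3⟩ | ⟨h1, h3⟩
    · -- 0 ≤ σ ≤ k
      have key : 0 ≤ k * (12 * k * p - 4 * p ^ 2 - 4 * r ^ 2 - 16 * p * r - 24 * y * p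
          + 4 * n * k * (p + 3 * r)) + 16 * (p + r) * y ^ 2 := by
        rcases hn.eq_or_lt with hn0 | hn1
        · -- n = 0
          rw [← hn0]
          have hyT : T = y := by rw [hT, ← hn0]; ring
          have h9 : 9 * k ≤ 16 * y := by rw [hyT] at hTc; linarith
          have a1 : 0 ≤ p * ((4 * y - 3 * k) ^ 2) := mul_nonneg hp (sq_nonneg _)
          have a2 : 0 ≤ (k * p) * (3 * k - 4 * p - 0) := mul_nonneg hkp (by linarith)
          have a3 : 0 ≤ r * ((16 * y - 9 * k) * (16 * y + 9 * k)) :=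
            mul_nonneg hr (mul_nonneg (by linarith) (by linarith))
          have a4 : 0 ≤ (k * r) * (k - 4 * (p + r)) := mul_nonneg hkr (by linarith)
          have a5 : 0 ≤ (k * r) * r := mul_nonneg hkr hr
          have a6 : 0 ≤ (k * r) * k := mul_nonneg hkr hk.le
          nlinarith [a1, a2, a3, a4, a5, a6]
        · have hn1' : 0 ≤ n - 1 := by omega
          have a1 : 0 ≤ p * ((4 * y - 3 * k) ^ 2) := mul_nonneg hp (sq_nonneg _)
          have a2 : 0 ≤ (k * p) * (k - 4 * (p + r)) := mul_nonneg hkp (by linarith)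
          have a3 : 0 ≤ (k * r) * (k - 4 * (p + r)) := mul_nonneg hkr (by linarith)
          have a4 : 0 ≤ (n - 1) * (k * k * (p + 3 * r)) :=
            mul_nonneg hn1' (mul_nonneg (mul_nonneg hk.le hk.le) (by linarith))
          have a5 : 0 ≤ r * y ^ 2 := mul_nonneg hr (sq_nonneg _)
          have a6 : 0 ≤ (k * r) * k := mul_nonneg hkr hk.le
          have a7 : 0 ≤ (k * p) * k := mul_nonneg hkp hk.le
          have a8 : 0 ≤ (k * r) * r := mul_nonneg hkr hr
          have a9 : 0 ≤ (k * p) * r := mul_nonneg hkp hr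
          nlinarith [a1, a2, a3, a4, a5, a6, a7, a8, a9]
      rw [h3, hT]
      nlinarith [key]
    · -- σ < 0
      have hn1 : 1 ≤ n := by
        by_contra hc
        have hn0 : n = 0 := by omega
        have hyT : T = y := by rw [hT, hn0]; ring
        rw [hyT] at hTc
        linarith
      have key : 0 ≤ k * (- 4 * p ^ 2 - 4 * r ^ 2 - 16 * p * r - 24 * y * p + 12 * k * y + 12 * k * r
          + 4 * n * k * (p + 3 * r)) + 16 * (p + r) * y ^ 2 := by
        have hn1' : 0 ≤ n - 1 := by omega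
        have a1 : 0 ≤ (k * y) * (k - 4 * (p + r)) := mul_nonneg hky (by linarith)
        have a2 : 0 ≤ (k * p) * (k - 4 * (p + r)) := mul_nonneg hkp (by linarith)
        have a3 : 0 ≤ (k * r) * (k - 4 * (p + r)) := mul_nonneg hkr (by linarith)
        have a4 : 0 ≤ (n - 1) * (k * k * (p + 3 * r)) :=
          mul_nonneg hn1' (mul_nonneg (mul_nonneg hk.le hk.le) (by linarith))
        have a5 : 0 ≤ (p + r) * y ^ 2 := mul_nonneg (by linarith) (sq_nonneg _)
        have a6 : 0 ≤ (k * r) * k := mul_nonneg hkr hk.le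
        have a7 : 0 ≤ (k * p) * k := mul_nonneg hkp hk.le
        have a8 : 0 ≤ (k * y) * r := mul_nonneg hky hr
        have a9 : 0 ≤ (k * y) * k := mul_nonneg hky hk.le
        nlinarith [a1, a2, a3, a4, a5, a6, a7, a8, a9, mul_nonneg hkr hr, mul_nonneg hkp hr]
      rw [h3, hT]
      nlinarith [key]
    · -- σ > k
      have hvr : k - y ≤ r := by linarith
      have hv0 : 0 ≤ k - y := by linarith
      obtain ⟨v, hv⟩ : ∃ v, v = k - y := ⟨_, rfl⟩
      have hyv : y = k - v := by rw [hv]; ring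
      rw [← hv] at hvr hv0
      have hkv : 0 ≤ k * v := mul_nonneg hk.le hv0
      have key : 0 ≤ k * (12 * k * p + 8 * k * r + 8 * k * v - 4 * p ^ 2 - 4 * r ^ 2 - 16 * p * r
          - 8 * p * v - 32 * r * v + 4 * n * k * (p + 3 * r)) + 16 * (p + r) * v ^ 2 := by
        have a1 : 0 ≤ (k * v) * (k - 4 * (p + r)) := mul_nonneg hkv (by linarith)
        have a2 : 0 ≤ (k * p) * (k - 4 * (p + r)) := mul_nonneg hkp (by linarith)
        have a3 : 0 ≤ (k * r) * (k - 4 * (p + r)) := mul_nonneg hkr (by linarith)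
        have a4 : 0 ≤ n * (k * k * (p + 3 * r)) :=
          mul_nonneg hn (mul_nonneg (mul_nonneg hk.le hk.le) (by linarith))
        have a5 : 0 ≤ (p + r) * v ^ 2 := mul_nonneg (by linarith) (sq_nonneg _)
        have a6 : 0 ≤ (k * r) * k := mul_nonneg hkr hk.le
        have a7 : 0 ≤ (k * p) * k := mul_nonneg hkp hk.le
        have a8 : 0 ≤ (k * v) * p := mul_nonneg hkv hp
        nlinarith [a1, a2, a3, a4, a5, a6, a7, a8, mul_nonneg hkr hr, mul_nonneg hkp hr,
          mul_nonneg hkp hp]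
      rw [h3, hT, hyv]
      nlinarith [key]
  · have hσ := nd_ident k (-i) (-n) s (y + p - r) hk hs hsk (by linarith) (by linarith)
      (by
        rcases hb with hb | hb
        · right; rw [hT] at hb; linear_combination hb
        · left; rw [hT] at hb; linear_combination hb)
    have hn1' : 0 ≤ n - 1 := by omega
    have a0 : 0 ≤ (n - 1) * (k * k * (p + 3 * r)) :=
      mul_nonneg hn1' (mul_nonneg (mul_nonneg hk.le hk.le) (by linarith))
    rcases hσ with ⟨h1, h2, h3⟩ | ⟨h1, h3⟩ | ⟨h1, h3⟩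
    · have key : 0 ≤ k * (12 * k * r - 4 * p ^ 2 - 4 * r ^ 2 - 16 * p * r - 8 * p * y - 32 * r * y
          + 4 * n * k * (p + 3 * r)) + 16 * (p + r) * y ^ 2 := by
        have b1 : 0 ≤ p * (4 * y - k) ^ 2 := mul_nonneg hp (sq_nonneg _)
        have b2 : 0 ≤ r * (4 * y - 4 * k) ^ 2 := mul_nonneg hr (sq_nonneg _)
        have a2 : 0 ≤ (k * p) * (k - 4 * (p + r)) := mul_nonneg hkp (by linarith)
        have a3 : 0 ≤ (k * r) * (k - 4 * (p + r)) := mul_nonneg hkr (by linarith)
        have a6 : 0 ≤ (k * r) * k := mul_nonneg hkr hk.le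
        have a7 : 0 ≤ (k * p) * k := mul_nonneg hkp hk.le
        nlinarith [a0, b1, b2, a2, a3, a6, a7, mul_nonneg hkr hr, mul_nonneg hkp hr,
          mul_nonneg hkp hp]
      rw [h3, hT]
      nlinarith [key]
    · have hyr : y ≤ r := by linarith
      have key : 0 ≤ k * (12 * k * y + 12 * k * p - 4 * p ^ 2 - 4 * r ^ 2 - 16 * p * r - 8 * p * y
          - 32 * r * y + 4 * n * k * (p + 3 * r)) + 16 * (p + r) * y ^ 2 := by
        have a1 : 0 ≤ (k * y) * (k - 4 * (p + r)) := mul_nonneg hky (by linarith)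
        have a2 : 0 ≤ (k * p) * (k - 4 * (p + r)) := mul_nonneg hkp (by linarith)
        have a3 : 0 ≤ (k * r) * (k - 4 * (p + r)) := mul_nonneg hkr (by linarith)
        have a5 : 0 ≤ (p + r) * y ^ 2 := mul_nonneg (by linarith) (sq_nonneg _)
        have a6 : 0 ≤ (k * r) * k := mul_nonneg hkr hk.le
        have a7 : 0 ≤ (k * p) * k := mul_nonneg hkp hk.le
        have a8 : 0 ≤ (k * y) * p := mul_nonneg hky hp
        have a9 : 0 ≤ (k * y) * k := mul_nonneg hky hk.le
        nlinarith [a0, a1, a2, a3, a5, a6, a7, a8, a9, mul_nonneg hkr hr, mul_nonneg hkp hr,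
          mul_nonneg hkp hp]
      rw [h3, hT]
      nlinarith [key]
    · have hvp : k - y ≤ p := by linarith
      have hv0 : 0 ≤ k - y := by linarith
      obtain ⟨v, hv⟩ : ∃ v, v = k - y := ⟨_, rfl⟩
      have hyv : y = k - v := by rw [hv]; ring
      rw [← hv] at hvp hv0
      have hkv : 0 ≤ k * v := mul_nonneg hk.le hv0
      have key : 0 ≤ k * (4 * k * p + 16 * k * r + 8 * k * v - 4 * p ^ 2 - 4 * r ^ 2 - 16 * p * r
          - 24 * p * v + 4 * (n - 1) * k * (p + 3 * r)) + 16 * (p + r) * v ^ 2 := by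
        have a1 : 0 ≤ (k * v) * (k - 4 * (p + r)) := mul_nonneg hkv (by linarith)
        have a2 : 0 ≤ (k * p) * (k - 4 * (p + r)) := mul_nonneg hkp (by linarith)
        have a3 : 0 ≤ (k * r) * (k - 4 * (p + r)) := mul_nonneg hkr (by linarith)
        have a5 : 0 ≤ (p + r) * v ^ 2 := mul_nonneg (by linarith) (sq_nonneg _)
        have a6 : 0 ≤ (k * r) * k := mul_nonneg hkr hk.le
        have a7 : 0 ≤ (k * p) * k := mul_nonneg hkp hk.le
        have a8 : 0 ≤ (k * v) * p := mul_nonneg hkv hp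
        have a9 : 0 ≤ (k * v) * k := mul_nonneg hkv hk.le
        have a10 : 0 ≤ (k * v) * r := mul_nonneg hkv hr
        nlinarith [a0, a1, a2, a3, a5, a6, a7, a8, a9, a10, mul_nonneg hkr hr, mul_nonneg hkp hr,
          mul_nonneg hkp hp]
      rw [h3, hT, hyv]
      nlinarith [key]

end Pool.Agent.POS
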