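import Mathlib
import Pool.Agent.Lib_helper25.POS.Defs

/-!
# Block PC: `F(B_0)` near a subgroup
-/

set_option autoImplicit false

namespace Pool.Agent.POS

open Finset Pool.Agent.Lib_helper13.PL

section blockPC
variable {G : Type*} [AddCommGroup G] [DecidableEq G]

/-- for `P ⊆ K`: the number of pairs in `K × K` with sum in `P` is `|K| |P|` -/
lemma pc_full (K : AddSubgroup G) (KK P : Finset G) (hKK : ∀ x, x ∈ KK ↔ x ∈ K) (hP : P ⊆ KK) :
    TT KK KK P = (KK.card : ℤ) * P.card := by
  unfold TT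
  have h : ∀ x ∈ KK, (∑ y ∈ KK, if x + y ∈ P then (1 : ℤ) else 0) = (P.card : ℤ) := by
    intro x hx
    rw [Finset.sum_boole]
    have : (KK.filter (fun y => x + y ∈ P)).card = P.card := by
      refine Finset.card_bij (fun y _ => x + y) ?_ ?_ ?_
      · intro y hy
        exact (Finset.mem_filter.mp hy).2
      · intro a _ b _ hab
        exact add_left_cancel hab
      · intro z hz
        refine ⟨z - x, ?_, by abel⟩
        rw [Finset.mem_filter]
        refine ⟨?_, by simpa using hz⟩
        rw [hKK]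
        exact K.sub_mem ((hKK z).1 (hP hz)) ((hKK x).1 hx)
    exact_mod_cast this
  rw [Finset.sum_congr rfl h, Finset.sum_const, nsmul_eq_mul]

/-- the structured part -/
lemma pc_core (K : AddSubgroup G) (KK P K' : Finset G) (hKK : ∀ x, x ∈ KK ↔ x ∈ K)
    (hd : Disjoint K' P) (hu : K' ∪ P = KK) (k p : ℤ) (hk : k = KK.card) (hp : p = P.card) :
    TT K' K' K' ≤ k ^ 2 - 3 * k * p + 3 * p ^ 2 := by
  have hPs : P ⊆ KK := by rw [← hu]; exact subset_union_right
  have hKs : K' ⊆ KK := by rw [← hu]; exact subset_union_left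
  have hc : (K'.card : ℤ) = k - p := by
    have h := Finset.card_union_of_disjoint hd
    rw [hu] at h
    have h2 : (KK.card : ℤ) = K'.card + P.card := by exact_mod_cast h
    rw [hk, hp]; linarith
  -- all pairs of `K'` have sum in `K`
  have e1 : TT K' K' KK = (K'.card : ℤ) * K'.card := by
    unfold TT
    have h : ∀ x ∈ K', (∑ y ∈ K', if x + y ∈ KK then (1 : ℤ) else 0) = (K'.card : ℤ) := by
      intro x hx
      have h' : ∀ y ∈ K', (if x + y ∈ KK then (1 : ℤ) else 0) = 1 := by
        intro y hy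
        rw [if_pos]
        rw [hKK]
        exact K.add_mem ((hKK x).1 (hKs hx)) ((hKK y).1 (hKs hy))
      rw [Finset.sum_congr rfl h', Finset.sum_const, nsmul_eq_mul, mul_one]
    rw [Finset.sum_congr rfl h, Finset.sum_const, nsmul_eq_mul]
  have e2 : TT K' K' KK = TT K' K' K' + TT K' K' P := by
    rw [← hu, TT_union3 _ _ hd]
  have e3 : TT KK KK P = TT K' K' P + TT K' P P + TT P KK P := by
    have h1 : TT KK KK P = TT K' KK P + TT P KK P := by
      conv_lhs => rw [← hu]
      rw [TT_union1 _ _ hd, hu]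
    have h2 : TT K' KK P = TT K' K' P + TT K' P P := by
      conv_lhs => rw [← hu]
      rw [TT_union2 _ _ hd]
    rw [h1, h2]
  have e4 := pc_full K KK P hKK hPs
  have b1 := TT_le23 K' P P
  have b2 := TT_le13 P KK P
  rw [hc] at e1
  rw [← hk, ← hp] at e4
  rw [← hp] at b1 b2
  nlinarith

/-- PC -/
theorem ff0 (K : AddSubgroup G) (KK : Finset G) (hKK : ∀ x, x ∈ KK ↔ x ∈ K) (B0 : Finset G)
    (k p r : ℤ) (hk : k = KK.card) (hp : p = ((KK \ B0).card : ℤ))
    (hr : r = ((B0 \ KK).card : ℤ)) :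
    GL.FF B0 ≤ k ^ 2 - 6 * k * (p + r) + 9 * p ^ 2 + 6 * p * r + 9 * r ^ 2 := by
  rw [← FF_eq]
  unfold FF
  set K' := KK ∩ B0 with hK'
  set R := B0 \ KK with hR
  set P := KK \ B0 with hPdef
  have mK : ∀ x, x ∈ K' → x ∈ K := fun x hx => (hKK x).1 (Finset.mem_inter.mp hx).1
  have mR : ∀ x, x ∈ R → x ∉ K := fun x hx h => (Finset.mem_sdiff.mp hx).2 ((hKK x).2 h)
  have hd : Disjoint K' R := by
    rw [Finset.disjoint_left]
    intro x hx hx'
    exact mR x hx' (mK x hx)
  have hu : K' ∪ R = B0 := by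
    ext x
    simp only [hK', hR, Finset.mem_union, Finset.mem_inter, Finset.mem_sdiff]
    tauto
  have hd2 : Disjoint K' P := by
    rw [Finset.disjoint_left]
    intro x hx hx'
    exact (Finset.mem_sdiff.mp hx').2 (Finset.mem_inter.mp hx).2
  have hu2 : K' ∪ P = KK := by
    ext x
    simp only [hK', hPdef, Finset.mem_union, Finset.mem_inter, Finset.mem_sdiff]
    tauto
  have hc : (B0.card : ℤ) = k - p + r := by
    have h := Finset.card_union_of_disjoint hd
    have h' := Finset.card_union_of_disjoint hd2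
    rw [hu] at h
    rw [hu2] at h'
    have h2 : (B0.card : ℤ) = K'.card + R.card := by exact_mod_cast h
    have h2' : (KK.card : ℤ) = K'.card + P.card := by exact_mod_cast h'
    rw [hk, hp, hr]; linarith
  have core := pc_core K KK P K' hKK hd2 hu2 k p hk hp
  have e0 := TT_add_piece hd
  rw [hu] at e0
  have z1 : TT K' K' R = 0 := TT_eq_zero fun x hx y hy h =>
    mR _ h (K.add_mem (mK x hx) (mK y hy))
  have z2 : TT R K' K' = 0 := TT_eq_zero fun x hx y hy h => by
    have h1 := K.sub_mem (mK _ h) (mK y hy)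
    rw [add_sub_cancel_right] at h1
    exact mR x hx h1
  have z3 : TT R K' B0 = TT R K' K' + TT R K' R := by
    conv_lhs => rw [← hu]
    rw [TT_union3 _ _ hd]
  have b1 := TT_le13 R K' R
  have b2 := TT_le12 R R B0
  rw [← hr] at b1 b2
  rw [hc]
  nlinarith

end blockPC

end Pool.Agent.POS
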