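import Mathlib
import Pool.Agent.Lib_helper25.POS.Defs
import Pool.Agent.Lib_helper25.PR.NC
import Pool.Agent.Lib_helper25.PR.ND
import Pool.Agent.Lib_helper25.PR.PA
import Pool.Agent.Lib_helper25.PR.PC
import Pool.Agent.Lib_helper25.PR.PE

/-!
# POS block NE: the near regime
-/

set_option autoImplicit false

namespace Pool.Agent.POS

open Finset Pool.Agent.Lib_helper13.PL

section
variable {G : Type*} [AddCommGroup G] [Fintype G] [DecidableEq G]

theorem ne_gam_sum {ι : Type*} {k : ℤ} (hk : 0 < k) (I : Finset ι) (g : ι → ℤ) :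
    gam k (∑ u ∈ I, g u) ≤ ∑ u ∈ I, gam k (g u) := by
  classical
  induction I using Finset.induction_on with
  | empty => simp [gam]
  | insert u I hu ih =>
    rw [Finset.sum_insert hu, Finset.sum_insert hu]
    exact (gam_add hk _ _).trans (by linarith)

theorem ne_mass {m : ℕ} (chi : G →+ ZMod m) (B : Finset G) (Q : ZMod m → Prop)
    [DecidablePred Q] (hQ : ¬ Q 0) :
    ((B.filter (fun x => Q (chi x))).card : ℤ) =
      ∑ u ∈ ((B.image chi).erase 0).filter Q, ((lev chi B u).card : ℤ) := by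
  have h := Finset.card_eq_sum_card_fiberwise (f := chi) (s := B.filter (fun x => Q (chi x)))
    (t := ((B.image chi).erase 0).filter Q) (by
      intro x hx
      rw [Finset.mem_coe, Finset.mem_filter] at hx
      rw [Finset.mem_coe, Finset.mem_filter, Finset.mem_erase]
      exact ⟨⟨fun h0 => hQ (h0 ▸ hx.2), Finset.mem_image_of_mem _ hx.1⟩, hx.2⟩)
  rw [h, Nat.cast_sum]
  refine Finset.sum_congr rfl fun u hu => ?_
  rw [Finset.mem_filter] at hu
  congr 2
  ext x
  unfold lev
  rw [Finset.mem_filter, Finset.mem_filter, Finset.mem_filter]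
  constructor
  · rintro ⟨⟨h1, -⟩, h2⟩
    exact ⟨h1, h2⟩
  · rintro ⟨h1, h2⟩
    exact ⟨⟨h1, by rw [h2]; exact hu.2⟩, h2⟩

theorem ne_split {m : ℕ} [NeZero m] (U : Finset (ZMod m)) (hU : ∀ u ∈ U, u ≠ 0)
    (f : ZMod m → ℤ) : ∑ u ∈ U, f u = ∑ u ∈ U.filter (fun u => 0 < u.valMinAbs), f u +
      ∑ u ∈ U.filter (fun u => u.valMinAbs < 0), f u := by
  rw [← Finset.sum_filter_add_sum_filter_not U (fun u => 0 < u.valMinAbs) f]
  congr 1
  refine Finset.sum_congr (Finset.filter_congr fun u hu => ?_) fun _ _ => rfl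
  have h1 : u.valMinAbs ≠ 0 := fun h => hU u hu ((ZMod.valMinAbs_eq_zero u).1 h)
  omega

/-- NE -/
theorem near_regime {m : ℕ} [NeZero m]
    (chi : G →+ ZMod m) (B : Finset G) (hB : NoWrap chi B)
    (K : AddSubgroup G) (KK : Finset G) (hKK : ∀ x, x ∈ KK ↔ x ∈ K)
    (h43 : 3 * (lev chi B 0).card ≤ 4 * (B.card - (lev chi B 0).card : ℤ))
    (k : ℤ) (hk : k = KK.card)
    (hpr : 4 * (((KK \ lev chi B 0).card : ℤ) + ((lev chi B 0 \ KK).card : ℤ)) ≤ k)
    (i s : ℤ) (hs : 0 ≤ s) (hsk : s ≤ k)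
    (hb : (B.card : ℤ) = (2 * i + 1) * k + s ∨ (B.card : ℤ) + s = (2 * i + 1) * k) :
    GL.FF B ≤ (k - s) * (k - 5 * s) := by
  have hk0 : 0 < k := by rw [hk]; exact pe_pos K KK hKK
  have hstar := pl_star chi B hB
  have hff := ff0 K KK hKK (lev chi B 0) k _ _ hk rfl rfl
  have hcard := pe_card KK (lev chi B 0)
  rw [← hk] at hcard
  have hU : ∀ u ∈ (B.image chi).erase 0, u ≠ 0 := fun u hu => (Finset.mem_erase.1 hu).1
  have hP := ne_mass chi B (fun u => 0 < u.valMinAbs) (by simp)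
  have hN := ne_mass chi B (fun u => u.valMinAbs < 0) (by simp)
  have hT := ne_split ((B.image chi).erase 0) hU (fun u => ((lev chi B u).card : ℤ))
  rw [← hP, ← hN] at hT
  -- the whole mass
  have hA := ne_mass chi B (fun u => u ≠ 0) (by simp)
  rw [Finset.filter_true_of_mem hU] at hA
  have hall : ((lev chi B 0).card : ℤ) + ((B.filter (fun x => chi x ≠ 0)).card : ℤ) = B.card := by
    unfold lev
    exact_mod_cast Finset.card_filter_add_card_filter_not (s := B) (fun x => chi x = 0)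
  have hbound : ∀ u ∈ (B.image chi).erase 0,
      (6 * k - 16 * (((KK \ lev chi B 0).card : ℤ) + ((lev chi B 0 \ KK).card : ℤ))) *
        gam k (lev chi B u).card +
      k * (2 * ((KK \ lev chi B 0).card : ℤ) + 6 * ((lev chi B 0 \ KK).card : ℤ)) *
        (lev chi B u).card ≤ k * cost (lev chi B u) (lev chi B 0) := fun u _ =>
    lemmaU K KK hKK (lev chi B u) (lev chi B 0) k _ _ hk rfl rfl hpr
  have hsum := Finset.sum_le_sum hbound
  rw [Finset.sum_add_distrib, ← Finset.mul_sum, ← Finset.mul_sum, ← Finset.mul_sum] at hsum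
  have hgam := ne_split ((B.image chi).erase 0) hU (fun u => gam k (lev chi B u).card)
  have hgP := ne_gam_sum hk0 (((B.image chi).erase 0).filter (fun u => 0 < u.valMinAbs))
    (fun u => ((lev chi B u).card : ℤ))
  have hgN := ne_gam_sum hk0 (((B.image chi).erase 0).filter (fun u => u.valMinAbs < 0))
    (fun u => ((lev chi B u).card : ℤ))
  rw [← hP] at hgP
  rw [← hN] at hgN
  have hDD : DD chi B = ((B.filter (fun x => 0 < (chi x).valMinAbs)).card : ℤ) -
    ((B.filter (fun x => (chi x).valMinAbs < 0)).card : ℤ) := rfl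
  rw [hDD] at hstar
  have hp0 : (0 : ℤ) ≤ ((KK \ lev chi B 0).card : ℤ) := by positivity
  have hr0 : (0 : ℤ) ≤ ((lev chi B 0 \ KK).card : ℤ) := by positivity
  have hP0 : (0 : ℤ) ≤ ((B.filter (fun x => 0 < (chi x).valMinAbs)).card : ℤ) := by positivity
  have hN0 : (0 : ℤ) ≤ ((B.filter (fun x => (chi x).valMinAbs < 0)).card : ℤ) := by positivity
  generalize ((KK \ lev chi B 0).card : ℤ) = p at *
  generalize ((lev chi B 0 \ KK).card : ℤ) = r at *
  generalize ((B.filter (fun x => 0 < (chi x).valMinAbs)).card : ℤ) = P at *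
  generalize ((B.filter (fun x => (chi x).valMinAbs < 0)).card : ℤ) = N at *
  generalize ∑ u ∈ (B.image chi).erase 0, cost (lev chi B u) (lev chi B 0) = Sc at *
  generalize ∑ u ∈ (B.image chi).erase 0, gam k (lev chi B u).card = Sg at *
  generalize ∑ u ∈ ((B.image chi).erase 0).filter (fun u => 0 < u.valMinAbs),
    gam k (lev chi B u).card = SP at *
  generalize ∑ u ∈ ((B.image chi).erase 0).filter (fun u => u.valMinAbs < 0),
    gam k (lev chi B u).card = SN at *
  rw [hT] at hsum hA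
  rw [hA] at hall
  -- the nearest multiple of `2 k`
  obtain ⟨n, y, hy, hyk, hTy⟩ : ∃ n y : ℤ, 0 ≤ y ∧ y ≤ k ∧
      ((P + N = 2 * k * n + y ∧ 0 ≤ n) ∨ (P + N = 2 * k * n - y ∧ 1 ≤ n)) := by
    have h1 := Int.mul_ediv_add_emod (P + N) (2 * k)
    have h2 := Int.emod_nonneg (P + N) (by linarith : (2 * k) ≠ 0)
    have h3 := Int.emod_lt_of_pos (P + N) (by linarith : 0 < 2 * k)
    have h4 : 0 ≤ (P + N) / (2 * k) := Int.ediv_nonneg (by linarith) (by linarith)
    rcases le_total ((P + N) % (2 * k)) k with h | h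
    · exact ⟨(P + N) / (2 * k), (P + N) % (2 * k), h2, h, Or.inl ⟨h1.symm, h4⟩⟩
    · exact ⟨(P + N) / (2 * k) + 1, 2 * k - (P + N) % (2 * k), by linarith, by linarith,
        Or.inr ⟨by linarith, by linarith⟩⟩
  have hLam : 2 * k ≤ 6 * k - 16 * (p + r) := by linarith
  have h1 := near_num1 k (6 * k - 16 * (p + r)) P N n y hk0 hLam hy hyk
    (by rcases hTy with h | h
        · exact Or.inl h.1
        · exact Or.inr h.1)
  have hLam0 : 0 ≤ 6 * k - 16 * (p + r) := by linarith
  have h2 : (6 * k - 16 * (p + r)) * (gam k P + gam k N) ≤ (6 * k - 16 * (p + r)) * Sg :=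
    mul_le_mul_of_nonneg_left (by linarith) hLam0
  have h3 : k * (GL.FF B + (P - N) ^ 2) ≤ k * (GL.FF (lev chi B 0) - Sc) :=
    mul_le_mul_of_nonneg_left hstar hk0.le
  have h4 : k * GL.FF (lev chi B 0) ≤
      k * (k ^ 2 - 6 * k * (p + r) + 9 * p ^ 2 + 6 * p * r + 9 * r ^ 2) :=
    mul_le_mul_of_nonneg_left hff hk0.le
  refine near_num2 k p r (P + N) n y i s (GL.FF B) hk0 hp0 hr0 hpr hy hyk hTy ?_ hs hsk ?_ ?_
  · linarith
  · rcases hb with hb | hb
    · exact Or.inl (by linarith)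
    · exact Or.inr (by linarith)
  · linarith

end

end Pool.Agent.POS
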