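import Mathlib
import Pool.Agent.Lib_helper25.POS.FarDefs
import Pool.Agent.Lib_helper25.POS.Defs
import Pool.Agent.Lib_helper59.KE.Defs
import Pool.Agent.Lib_helper42.RS.Struct
import Pool.Agent.Lib_helper42.RS.Sym
import Pool.Agent.Lib_helper25.PR.GF
import Pool.Agent.Lib_helper25.PR.GI
import Pool.Agent.Lib_helper25.PR.NE

/-!
# FAR, block GJ: the negative regime
-/

set_option autoImplicit false

namespace Pool.Agent.POS

open Finset Pool.Agent.Lib_helper13.PL

section big
universe u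
variable {G : Type u} [AddCommGroup G] [Fintype G] [DecidableEq G]
open Lib_helper42.RS (ds Per ng InO rho dl)

/-- a coset containing `0` is the subgroup -/
theorem gj_coset_zero (H : AddSubgroup G) (Y : Finset G) (hY : Cst H Y) (h0 : (0 : G) ∈ Y) :
    ∀ x, x ∈ Y ↔ x ∈ H := by
  obtain ⟨w, hw⟩ := hY
  have hw0 : w ∈ H := by
    have h1 := (hw 0).1 h0
    rw [zero_sub] at h1
    exact (AddSubgroup.neg_mem_iff H).1 h1
  intro x
  rw [hw x]
  constructor
  · intro hx
    have h2 := H.add_mem hx hw0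
    rwa [sub_add_cancel] at h2
  · intro hx
    exact H.sub_mem hx hw0

/-- the number of elements of the subgroup as a finset -/
theorem gj_card (H : AddSubgroup G) (Y : Finset G) (hY : ∀ x, x ∈ Y ↔ x ∈ H) :
    (Nat.card H : ℤ) = Y.card := by
  have h1 : Nat.card H = Nat.card Y :=
    Nat.card_congr (Equiv.subtypeEquivRight (fun x => (hY x).symm))
  rw [h1, Nat.card_eq_fintype_card, Fintype.card_coe]

/-- the distance of two sets -/
theorem gj_ds (A Y : Finset G) :
    ds A Y = ((A \ Y).card : ℤ) + ((Y \ A).card : ℤ) := by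
  unfold ds
  rw [← Lib_helper42.RS.sum_ind (A \ Y), ← Lib_helper42.RS.sum_ind (Y \ A),
    ← Finset.sum_add_distrib]
  refine Finset.sum_congr rfl (fun x _ => ?_)
  unfold Lib_helper42.RS.ind
  by_cases h1 : x ∈ A <;> by_cases h2 : x ∈ Y <;> simp [h1, h2]

/-- GJ : (K*) : no wrap, `B_0` not too large.
`Dead k` : `k` is the order of a dead subgroup; K' the largest dead order. -/
theorem k_star {m : ℕ} [NeZero m] (chi : G →+ ZMod m) (B : Finset G) (hB : NoWrap chi B)
    (h74 : 7 * (lev chi B 0).card ≤ 4 * B.card) (K' h : ℤ) (hK : 1 ≤ K') (hh : 1 ≤ h)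
    (hdead : 12 * (m * K') ≤ 10 * B.card)
    (hord : ∀ H : AddSubgroup G, (∀ t ∈ H, chi t = 0) → (Nat.card H : ℤ) ≤ K' ∨
      h ≤ Nat.card H) :
    (∀ u v : ZMod m, 4 * TT (lev chi B u) (lev chi B v) (lev chi B (u + v))
      ≤ KE.Qp (lev chi B u).card (lev chi B v).card (lev chi B (u + v)).card + K' ^ 2) ∨
    5 * GL.FF B ≤ -4 * h ^ 2 ∨ 3 * GL.FF B ≤ -(B.card : ℤ) ^ 2 ∨
    ∃ H : AddSubgroup G, (∀ t ∈ H, chi t = 0) ∧ K' < Nat.card H ∧ h ≤ Nat.card H ∧
      ∀ i s : ℤ, 0 ≤ s → s ≤ Nat.card H →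
        ((B.card : ℤ) = (2 * i + 1) * Nat.card H + s ∨
          (B.card : ℤ) + s = (2 * i + 1) * Nat.card H) →
        GL.FF B ≤ ((Nat.card H : ℤ) - s) * ((Nat.card H : ℤ) - 5 * s) := by
  by_cases hall : ∀ u v : ZMod m, 4 * TT (lev chi B u) (lev chi B v) (lev chi B (u + v))
      ≤ KE.Qp (lev chi B u).card (lev chi B v).card (lev chi B (u + v)).card + K' ^ 2
  · exact Or.inl hall
  right
  push Not at hall
  obtain ⟨u, v, hb⟩ := hall
  by_cases hn : ∃ H : AddSubgroup G, (∀ t ∈ H, chi t = 0) ∧ K' < Nat.card H ∧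
      h ≤ Nat.card H ∧ ∃ Y : Finset G, Cst H Y ∧ 4 * ds (lev chi B 0) Y < Nat.card H
  · obtain ⟨H, hker, hHK, hH, Y, hY, hd⟩ := hn
    by_cases h0 : (0 : G) ∈ Y
    · right; right
      refine ⟨H, hker, hHK, hH, ?_⟩
      intro i s hs hsk hbc
      have hmem := gj_coset_zero H Y hY h0
      have hcard := gj_card H Y hmem
      have h43 : 3 * (lev chi B 0).card ≤ 4 * (B.card - (lev chi B 0).card : ℤ) := by
        have : (7 * (lev chi B 0).card : ℤ) ≤ 4 * B.card := by exact_mod_cast h74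
        linarith
      have hpr : 4 * (((Y \ lev chi B 0).card : ℤ) + ((lev chi B 0 \ Y).card : ℤ))
          ≤ (Nat.card H : ℤ) := by
        have h1 : ds (lev chi B 0) Y
            = ((lev chi B 0 \ Y).card : ℤ) + ((Y \ lev chi B 0).card : ℤ) := gj_ds _ _
        rw [h1] at hd
        linarith
      exact near_regime chi B hB H Y hmem h43 (Nat.card H : ℤ) hcard hpr i s hs hsk hbc
    · left
      have h1 := far_coset chi B hB H Y hY h0 hd.le
      have h2 : h ^ 2 ≤ (Nat.card H : ℤ) ^ 2 := by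
        apply pow_le_pow_left₀ (by linarith) hH
      nlinarith [sq_nonneg (Nat.card H : ℤ)]
  · have hcase : ∀ H : AddSubgroup G, (∀ t ∈ H, chi t = 0) → (Nat.card H : ℤ) ≤ K' ∨
        (h ≤ Nat.card H ∧ ∀ Y : Finset G, Cst H Y →
          (Nat.card H : ℤ) ≤ 4 * ds (lev chi B 0) Y) := by
      intro H hker
      rcases le_or_gt (Nat.card H : ℤ) K' with h0 | h0
      · exact Or.inl h0
      rcases hord H hker with h1 | h1
      · exact Or.inl h1
      · refine Or.inr ⟨h1, fun Y hY => ?_⟩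
        by_contra hcon
        exact hn ⟨H, hker, h0, h1, Y, hY, not_le.1 hcon⟩
    rcases far_regime chi B hB h74 K' h hK hh hdead hcase u v hb with h1 | h1
    · exact Or.inl h1
    · exact Or.inr (Or.inl h1)

end big

end Pool.Agent.POS
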