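import Mathlib
import Pool.Agent.Lib_helper25.POS.Defs
import Pool.Agent.Lib_helper42.RS.Struct
import Pool.Agent.Lib_helper42.RS.Sym

/-!
# Block PK of the positive regime: the structure of `B_0`
-/

set_option autoImplicit false
set_option linter.unusedSectionVars false

namespace Pool.Agent.POS

open Finset Pool.Agent.Lib_helper13.PL

section pk
variable {G : Type*} [AddCommGroup G] [DecidableEq G]

lemma pk_card (K : AddSubgroup G) (X : Finset G) (w : G) (hw : ∀ x, x ∈ X ↔ x - w ∈ K) :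
    X.card = Nat.card K := by
  have e : K ≃ X :=
    { toFun := fun a => ⟨a + w, by rw [hw]; simp⟩
      invFun := fun a => ⟨a - w, (hw _).1 a.2⟩
      left_inv := fun a => by simp
      right_inv := fun a => by simp }
  rw [Nat.card_congr e, Nat.card_eq_fintype_card, Fintype.card_coe]

/-- if every Schur triple has a member outside `X` -/
lemma pk_sch (B0 X : Finset G) (h : ∀ x ∈ X, ∀ y ∈ X, x + y ∉ X) :
    GL.sch B0 ≤ 3 * (((B0 \ X).card : ℤ) * (B0.card : ℤ)) := by
  have hsub : (B0 ×ˢ B0).filter (fun p => p.1 + p.2 ∈ B0) ⊆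
      (((B0 \ X) ×ˢ B0) ∪ (B0 ×ˢ (B0 \ X))) ∪
        ((B0 \ X) ×ˢ B0).image (fun q => (q.2, q.1 - q.2)) := by
    rintro ⟨x, y⟩ hp
    rw [Finset.mem_filter, Finset.mem_product] at hp
    obtain ⟨⟨hx, hy⟩, hz⟩ := hp
    simp only at hx hy hz
    by_cases h1 : x ∈ X
    · by_cases h2 : y ∈ X
      · have h3 : x + y ∉ X := h x h1 y h2
        refine Finset.mem_union_right _ (Finset.mem_image.mpr ⟨(x + y, x), ?_, ?_⟩)
        · exact Finset.mem_product.mpr ⟨Finset.mem_sdiff.mpr ⟨hz, h3⟩, hx⟩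
        · simp
      · exact Finset.mem_union_left _ (Finset.mem_union_right _
          (Finset.mem_product.mpr ⟨hx, Finset.mem_sdiff.mpr ⟨hy, h2⟩⟩))
    · exact Finset.mem_union_left _ (Finset.mem_union_left _
          (Finset.mem_product.mpr ⟨Finset.mem_sdiff.mpr ⟨hx, h1⟩, hy⟩))
  have hc := Finset.card_le_card hsub
  have h1 := Finset.card_union_le (((B0 \ X) ×ˢ B0) ∪ (B0 ×ˢ (B0 \ X)))
    (((B0 \ X) ×ˢ B0).image (fun q => (q.2, q.1 - q.2)))
  have h2 := Finset.card_union_le ((B0 \ X) ×ˢ B0) (B0 ×ˢ (B0 \ X))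
  have h3 := Finset.card_image_le (s := (B0 \ X) ×ˢ B0) (f := fun q : G × G => (q.2, q.1 - q.2))
  rw [Finset.card_product] at h2 h3
  rw [Finset.card_product] at h2
  have h4 : ((B0 ×ˢ B0).filter (fun p => p.1 + p.2 ∈ B0)).card ≤
      3 * ((B0 \ X).card * B0.card) := by
    have h5 : B0.card * (B0 \ X).card = (B0 \ X).card * B0.card := Nat.mul_comm _ _
    omega
  unfold GL.sch
  exact_mod_cast h4

/-- PK1 -/
theorem coset_is_K [Fintype G] (K : AddSubgroup G) (B0 X : Finset G)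
    (hX : ∃ w, ∀ x, x ∈ X ↔ x - w ∈ K)
    (hds : 3 * Lib_helper42.RS.ds B0 X < (Nat.card K : ℤ)) (hF : 1 ≤ GL.FF B0) :
    ∀ x, x ∈ X ↔ x ∈ K := by
  obtain ⟨w, hw⟩ := hX
  by_cases hwK : w ∈ K
  · intro x
    rw [hw]
    constructor
    · intro h
      have := K.add_mem h hwK
      simpa using this
    · intro h
      exact K.sub_mem h hwK
  · exfalso
    have hcX := pk_card K X w hw
    have hsch := pk_sch B0 X (by
      intro x hx y hy hxy
      rw [hw] at hx hy hxy
      apply hwK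
      have h1 := K.sub_mem hxy (K.add_mem hx hy)
      have h2 : x + y - w - (x - w + (y - w)) = w := by abel
      rwa [h2] at h1)
    have hds2 : Lib_helper42.RS.ds B0 X = ((B0 \ X).card : ℤ) + ((X \ B0).card : ℤ) := by
      rw [Lib_helper42.RS.ds_eq_card]
      have h1 : symmDiff B0 X = (B0 \ X) ∪ (X \ B0) := rfl
      rw [h1, Finset.card_union_of_disjoint]
      · push_cast; ring
      · exact Finset.disjoint_left.mpr fun x hx hx' =>
          (Finset.mem_sdiff.mp hx').2 (Finset.mem_sdiff.mp hx).1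
    have e1 := Finset.card_sdiff_add_card_inter B0 X
    have e2 := Finset.card_sdiff_add_card_inter X B0
    rw [Finset.inter_comm X B0] at e2
    have e1' : ((B0 \ X).card : ℤ) + ((B0 ∩ X).card : ℤ) = B0.card := by exact_mod_cast e1
    have e2' : ((X \ B0).card : ℤ) + ((B0 ∩ X).card : ℤ) = X.card := by exact_mod_cast e2
    have hcX' : (X.card : ℤ) = Nat.card K := by exact_mod_cast hcX
    obtain ⟨r, hr⟩ : ∃ r : ℤ, r = ((B0 \ X).card : ℤ) := ⟨_, rfl⟩
    obtain ⟨p, hp⟩ : ∃ p : ℤ, p = ((X \ B0).card : ℤ) := ⟨_, rfl⟩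
    obtain ⟨c, hc⟩ : ∃ c : ℤ, c = (B0.card : ℤ) := ⟨_, rfl⟩
    have hr0 : 0 ≤ r := by rw [hr]; positivity
    have hp0 : 0 ≤ p := by rw [hp]; positivity
    have hc0 : 0 ≤ c := by rw [hc]; positivity
    rw [hds2, ← hr, ← hp, ← hcX'] at hds
    rw [← hr, ← hc] at hsch e1'
    rw [← hp] at e2'
    unfold GL.FF at hF
    rw [← hc] at hF
    have h5 : 4 * r - c < 0 := by linarith
    have h6 : 3 * c * (4 * r - c) ≤ 0 := by
      exact mul_nonpos_of_nonneg_of_nonpos (by linarith) h5.le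
    nlinarith

/-- PK2 -/
theorem K_le_L {m : ℕ} [Fintype G] (chi : G →+ ZMod m) (K : AddSubgroup G) (KK B0 : Finset G)
    (hKK : ∀ x, x ∈ KK ↔ x ∈ K) (hB0 : ∀ x ∈ B0, chi x = 0)
    (h : 3 * (KK \ B0).card < KK.card) : ∀ x ∈ K, chi x = 0 := by
  intro x hx
  by_contra hne
  have h1 : (KK.filter (fun y => chi y = 0)).card ≤ (KK.filter (fun y => ¬ chi y = 0)).card := by
    refine Finset.card_le_card_of_injOn (fun y => y + x) ?_ ?_
    · intro y hy
      rw [Finset.mem_coe, Finset.mem_filter] at hy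
      rw [Finset.mem_coe, Finset.mem_filter]
      refine ⟨(hKK _).2 (K.add_mem ((hKK _).1 hy.1) hx), ?_⟩
      rw [map_add, hy.2, zero_add]
      exact hne
    · intro y _ z _ hyz
      simpa using hyz
  have h2 : (KK.filter (fun y => ¬ chi y = 0)).card ≤ (KK \ B0).card := by
    refine Finset.card_le_card fun y hy => ?_
    rw [Finset.mem_filter] at hy
    exact Finset.mem_sdiff.mpr ⟨hy.1, fun hyB => hy.2 (hB0 y hyB)⟩
  have h3 := Finset.card_filter_add_card_filter_not (s := KK) (fun y => chi y = 0)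
  omega

end pk

end Pool.Agent.POS
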