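import Mathlib
import Pool.Agent.Lib_helper25.PR.GC
import Pool.Agent.Lib_helper25.PR.GJ
import Pool.Agent.Lib_helper25.PR.PK

/-!
# A level 0 with large `F` is near a subgroup
-/

set_option autoImplicit false

namespace Pool.Agent.POS

open Finset Pool.Agent.Lib_helper13.PL

section big
universe u
variable {G : Type u} [AddCommGroup G] [Fintype G] [DecidableEq G]
open Lib_helper42.RS (ds Per ng InO rho dl)

/-- if `9 F(B₀) > |B₀|²` then `B₀` is near a subgroup of `ker chi` -/
theorem f0_near {m : ℕ} (chi : G →+ ZMod m) (B0 : Finset G) (hB0 : ∀ x ∈ B0, chi x = 0)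
    (hF : (B0.card : ℤ) ^ 2 < 9 * GL.FF B0) :
    ∃ (H : AddSubgroup G) (HH : Finset G), (∀ t ∈ H, chi t = 0) ∧ (∀ x, x ∈ HH ↔ x ∈ H) ∧
      3 * (((HH \ B0).card : ℤ) + ((B0 \ HH).card : ℤ)) < Nat.card H ∧
      GL.FF B0 ≤ ((Nat.card H : ℤ)
        - 3 * (((HH \ B0).card : ℤ) + ((B0 \ HH).card : ℤ))) ^ 2 := by
  have hF1 : 1 ≤ GL.FF B0 := by nlinarith [sq_nonneg (B0.card : ℤ)]
  rcases Lib_helper42.RS.good_all G B0 B0 (ng B0) with hg | ⟨H, X, Y, Z, hO, hr0, hd0⟩
  · rw [gc_dl] at hg
    linarith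
  · rw [gc_dl] at hd0
    rcases hr0.eq_or_lt with hr | hr
    · rw [← hr] at hd0
      norm_num at hd0
      linarith
    · obtain ⟨hYX, _⟩ := Lib_helper42.RS.sym_of_rho hO hr
      obtain ⟨_, hrho, q1, q0, _, hq0, hodd, _, hYc⟩ := star_sym H B0 B0 X Y Z hO hr
      have hX := hO.1
      rw [hYX] at hYc
      have hrho2 : rho H B0 B0 (ng B0) X Y Z = (Nat.card H : ℤ) - 3 * ds B0 X := by
        rw [hrho, hYX]
        ring
      rw [hrho2] at hr hd0
      have d2 := Lib_helper42.RS.card_sub_le_ds X B0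
      rw [Lib_helper42.RS.ds_comm X B0] at d2
      have d0 := Lib_helper42.RS.ds_nonneg B0 X
      have hH1 := Lib_helper42.RS.card_pos_sub H
      have hker : ∀ t ∈ H, chi t = 0 := by
        by_contra hH
        have h1 := per_half chi H X B0 0 hX hB0 hH
        rw [hYc] at h1
        nlinarith
      have hq : q0 = 1 := by
        by_contra hq
        have hq3 : 3 ≤ q0 := by
          obtain ⟨k, hk⟩ := hodd
          omega
        have h3 : 3 * (Nat.card H : ℤ) ≤ q0 * Nat.card H :=
          mul_le_mul_of_nonneg_right hq3 (by linarith)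
        rw [hYc] at d2
        have h4 : 3 * ((Nat.card H : ℤ) - 3 * ds B0 X) ≤ B0.card := by linarith
        nlinarith
      rw [hq, one_mul] at hYc
      have hcst := cst_of_card H X hX hYc
      have hXH := coset_is_K H B0 X hcst (by linarith) hF1
      have hds := gj_ds B0 X
      refine ⟨H, X, hker, hXH, ?_, ?_⟩
      · linarith
      · have h5 : ((X \ B0).card : ℤ) + ((B0 \ X).card : ℤ) = ds B0 X := by linarith
        rw [h5]
        exact hd0

end big

end Pool.Agent.POS
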