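import Mathlib
import Pool.Agent.Lib_helper25.POS.Defs

/-!
# FAR, block GH: bookkeeping of the levels
-/

set_option autoImplicit false

namespace Pool.Agent.POS

open Finset Pool.Agent.Lib_helper13.PL

section gh
universe u
variable {G : Type u} [AddCommGroup G] [Fintype G] [DecidableEq G]

/-- the number of levels with a given bound for `|valMinAbs|` -/
theorem gh_count {m : ℕ} [NeZero m] (S : Finset (ZMod m)) (J : ℕ) (f : ZMod m → ℤ)
    (hf : Function.Injective f) (h : ∀ u ∈ S, 1 ≤ f u ∧ f u ≤ (J : ℤ)) : S.card ≤ J := by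
  have h1 : (S.image f) ⊆ Finset.Icc (1 : ℤ) (J : ℤ) := by
    intro z hz
    obtain ⟨u, hu, rfl⟩ := Finset.mem_image.mp hz
    exact Finset.mem_Icc.mpr (h u hu)
  have h2 := Finset.card_le_card h1
  rw [Finset.card_image_of_injective S hf] at h2
  simpa using h2

/-- a part of `B` is the union of its levels -/
theorem gh_part {m : ℕ} (chi : G →+ ZMod m) (B : Finset G) (U : Finset (ZMod m))
    (p q : ZMod m → Prop) [DecidablePred p] [DecidablePred q]
    (h : ∀ x ∈ B, p (chi x) → chi x ∈ U ∧ q (chi x)) (h' : ∀ u ∈ U, q u → p u) :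
    ((B.filter (fun x => p (chi x))).card : ℤ) =
      ∑ u ∈ U.filter (fun u => q u), ((lev chi B u).card : ℤ) := by
  have h1 : (B.filter (fun x => p (chi x))).card =
      ∑ u ∈ U.filter (fun u => q u),
        ((B.filter (fun x => p (chi x))).filter (fun x => chi x = u)).card := by
    apply Finset.card_eq_sum_card_fiberwise
    intro x hx
    have hx' := Finset.mem_filter.mp (Finset.mem_coe.mp hx)
    have := h x hx'.1 hx'.2
    exact Finset.mem_coe.mpr (Finset.mem_filter.mpr this)
  rw [h1]
  push_cast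
  apply Finset.sum_congr rfl
  intro u hu
  have hu' := Finset.mem_filter.mp hu
  have h2 : (B.filter (fun x => p (chi x))).filter (fun x => chi x = u) = lev chi B u := by
    ext x
    simp only [lev, Finset.mem_filter]
    constructor
    · rintro ⟨⟨hB, _⟩, hx⟩
      exact ⟨hB, hx⟩
    · rintro ⟨hB, hx⟩
      refine ⟨⟨hB, ?_⟩, hx⟩
      rw [hx]
      exact h' u hu'.1 hu'.2
  rw [h2]

/-- GH1 -/
theorem lev_masses {m : ℕ} [NeZero m] (chi : G →+ ZMod m) (B : Finset G) (hB : NoWrap chi B)
    (J : ℕ) (hJ : J = (m - 1) / 3) (U : Finset (ZMod m)) (hU : U = (B.image chi).erase 0) :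
    (B.card : ℤ) = (lev chi B 0).card + ∑ u ∈ U, ((lev chi B u).card : ℤ) ∧
    DD chi B = ∑ u ∈ U.filter (fun u => 0 < u.valMinAbs), ((lev chi B u).card : ℤ)
      - ∑ u ∈ U.filter (fun u => ¬ 0 < u.valMinAbs), ((lev chi B u).card : ℤ) ∧
    (U.filter (fun u => 0 < u.valMinAbs)).card ≤ J ∧
    (U.filter (fun u => ¬ 0 < u.valMinAbs)).card ≤ J := by
  have hm : 0 < m := Nat.pos_of_ne_zero (NeZero.ne m)
  have hmem : ∀ u ∈ U, u ≠ 0 ∧ 3 * |u.valMinAbs| < (m : ℤ) := by
    intro u hu
    rw [hU, Finset.mem_erase, Finset.mem_image] at hu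
    obtain ⟨h0, x, hx, rfl⟩ := hu
    exact ⟨h0, hB x hx⟩
  have hne : ∀ u ∈ U, u.valMinAbs ≠ 0 := by
    intro u hu h
    exact (hmem u hu).1 ((ZMod.valMinAbs_eq_zero u).mp h)
  have hJ' : ∀ z : ℤ, 3 * z < (m : ℤ) → z ≤ (J : ℤ) := by
    intro z hz
    omega
  have hinj : Function.Injective (ZMod.valMinAbs : ZMod m → ℤ) := ZMod.injective_valMinAbs
  refine ⟨?_, ?_, ?_, ?_⟩
  · have h1 := gh_part chi B U (fun u => u ≠ 0) (fun _ => True)
      (by
        intro x hx hp
        refine ⟨?_, trivial⟩
        rw [hU, Finset.mem_erase]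
        exact ⟨hp, Finset.mem_image_of_mem _ hx⟩)
      (by
        intro u hu _
        exact (hmem u hu).1)
    have h2 := Finset.card_filter_add_card_filter_not (s := B) (fun x => chi x = 0)
    have h5 : U.filter (fun _ : ZMod m => True) = U := Finset.filter_true_of_mem (by
      intro _ _
      trivial)
    rw [h5] at h1
    have h3 : (lev chi B 0).card = (B.filter (fun x => chi x = 0)).card := rfl
    rw [h3, ← h1]
    have h4 : ((B.filter (fun x => chi x = 0)).card : ℤ) +
        ((B.filter (fun x => ¬ chi x = 0)).card : ℤ) = (B.card : ℤ) := by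
      exact_mod_cast h2
    rw [← h4]
  · have h1 := gh_part chi B U (fun u => 0 < u.valMinAbs) (fun u => 0 < u.valMinAbs)
      (by
        intro x hx hp
        refine ⟨?_, hp⟩
        rw [hU, Finset.mem_erase]
        refine ⟨?_, Finset.mem_image_of_mem _ hx⟩
        intro h0
        rw [h0, ZMod.valMinAbs_zero] at hp
        exact lt_irrefl _ hp)
      (by
        intro u _ hq
        exact hq)
    have h2 := gh_part chi B U (fun u => u.valMinAbs < 0) (fun u => ¬ 0 < u.valMinAbs)
      (by
        intro x hx hp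
        refine ⟨?_, not_lt.mpr hp.le⟩
        rw [hU, Finset.mem_erase]
        refine ⟨?_, Finset.mem_image_of_mem _ hx⟩
        intro h0
        rw [h0, ZMod.valMinAbs_zero] at hp
        exact lt_irrefl _ hp)
      (by
        intro u hu hq
        exact lt_of_le_of_ne (not_lt.mp hq) (hne u hu))
    rw [DD, h1, h2]
  · apply gh_count _ J ZMod.valMinAbs hinj
    intro u hu
    have hu' := Finset.mem_filter.mp hu
    have h1 := (hmem u hu'.1).2
    have h2 := le_abs_self u.valMinAbs
    exact ⟨hu'.2, hJ' _ (by linarith)⟩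
  · apply gh_count _ J (fun u => - ZMod.valMinAbs u) (fun a b hab => hinj (neg_injective hab))
    intro u hu
    have hu' := Finset.mem_filter.mp hu
    have h1 := (hmem u hu'.1).2
    have h2 := neg_abs_le u.valMinAbs
    have h3 := hne u hu'.1
    have h4 : u.valMinAbs < 0 := lt_of_le_of_ne (not_lt.mp hu'.2) h3
    refine ⟨?_, hJ' _ ?_⟩
    · show 1 ≤ - u.valMinAbs
      omega
    · show 3 * (- u.valMinAbs) < (m : ℤ)
      linarith

end gh

end Pool.Agent.POS
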