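import Mathlib
import Pool.Agent.Lib_helper25.POS.Defs

set_option autoImplicit false

namespace Pool.Agent.POS

open Finset Pool.Agent.Lib_helper13.PL

theorem pf_num (k p0 r0 PI RI RJ Q P1 P2 R1 R2 s P R D : ℤ) (j : ℕ) (hj : 1 ≤ j)
    (hp0 : 0 ≤ p0) (hp0k : p0 ≤ k) (hr0 : 0 ≤ r0) (hr0k : r0 ≤ 3 * k)
    (hRI : 0 ≤ RI) (hRJ : 0 ≤ RJ) (hP1 : 0 ≤ P1) (hP2 : 0 ≤ P2) (hR1 : 0 ≤ R1) (hR2 : 0 ≤ R2)
    (e1 : PI = P1 + P2) (e2 : RI + RJ = R1 + R2)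
    (hQ : Q ≤ 6 * (P1 ^ 2 + P2 ^ 2 + R1 ^ 2 + R2 ^ 2) + 4 * (P1 * R1 + P2 * R2))
    (hP : P = p0 + (P1 + P2)) (hR : R = r0 + (R1 + R2)) (hD : D = (R1 - P1) - (R2 - P2))
    (hs : s = |R - P|)
    (hcase : P = 0 ∨ R = 0 ∨ (4 * P ≤ 3 * k ∧ 4 * R ≤ 3 * k)) :
    k ^ 2 - 6 * k * (p0 + r0) + 9 * p0 ^ 2 + 6 * p0 * r0 + 9 * r0 ^ 2
      - (2 * j * (k * (2 * p0 + 6 * r0)) + k * (6 * PI + 10 * RI) - p0 * (10 * PI + 6 * RI)
        - r0 * (6 * PI + 10 * RI))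
      - (6 * k * RJ - 6 * p0 * RJ - 2 * r0 * RJ) + Q - D ^ 2 ≤ (k - s) * (k - 5 * s) := by
  have hk : 0 ≤ k := hp0.trans hp0k
  have hs2 : s ^ 2 = (R - P) ^ 2 := by rw [hs, sq_abs]
  have hP0 : 0 ≤ P := by rw [hP]; positivity
  have hR0 : 0 ≤ R := by rw [hR]; positivity
  have h3 : 16 * (P * R) ≤ 6 * (k * (P + R)) - 6 * (k * s) := by
    have h31 : 16 * (P * R) ≤ 12 * (k * min P R) := by
      rcases hcase with h | h | ⟨h, h'⟩
      · rw [h]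
        have : min 0 R = 0 := min_eq_left hR0
        rw [this]
        simp
      · rw [h]
        have : min P 0 = 0 := min_eq_right hP0
        rw [this]
        simp
      · rcases le_total P R with h1 | h1
        · rw [min_eq_left h1]
          nlinarith
        · rw [min_eq_right h1]
          nlinarith
    have h32 : 2 * min P R = P + R - s := by
      rw [hs]
      rcases le_total P R with h1 | h1
      · rw [min_eq_left h1, abs_of_nonneg (by linarith)]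
        ring
      · rw [min_eq_right h1, abs_of_nonpos (by linarith)]
        ring
    have h33 : 12 * (k * min P R) = 6 * (k * (P + R)) - 6 * (k * s) := by
      have : 12 * (k * min P R) = 6 * k * (2 * min P R) := by ring
      rw [this, h32]
      ring
    linarith
  have h1 : 2 * (k * (2 * p0 + 6 * r0)) ≤ 2 * j * (k * (2 * p0 + 6 * r0)) := by
    have hj' : (1 : ℤ) ≤ j := by exact_mod_cast hj
    have h0 : 0 ≤ k * (2 * p0 + 6 * r0) := by positivity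
    nlinarith
  have h4 : p0 * p0 ≤ k * p0 := mul_le_mul_of_nonneg_right hp0k hp0
  have h5 : r0 * r0 ≤ 3 * k * r0 := mul_le_mul_of_nonneg_right hr0k hr0
  have h6 : 0 ≤ r0 * RJ := mul_nonneg hr0 hRJ
  have h7 : 0 ≤ k * RI := mul_nonneg hk hRI
  have h8 : 0 ≤ P1 * R2 := mul_nonneg hP1 hR2
  have h9 : 0 ≤ P2 * R1 := mul_nonneg hP2 hR1
  have h10 : 0 ≤ R1 * R2 := mul_nonneg hR1 hR2
  have h11 : 0 ≤ P1 * P2 := mul_nonneg hP1 hP2
  have e3 : RJ = R1 + R2 - RI := by linarith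
  have e4 : (k - s) * (k - 5 * s) = k ^ 2 - 6 * (k * s) + 5 * (R - P) ^ 2 := by
    rw [← hs2]
    ring
  rw [e4]
  subst e1 hP hR hD e3
  nlinarith [h3, h1, h4, h5, h6, h7, h8, h9, h10, h11, hQ]

/-- PF -/
theorem ns_num {ι : Type*} [DecidableEq ι] (U I : Finset ι) (hI : I ⊆ U) (sg : ι → Prop)
    [DecidablePred sg] (j : ℕ)
    (hpos : (I.filter (fun u => sg u)).card = j) (hneg : (I.filter (fun u => ¬ sg u)).card = j)
    (hj : 1 ≤ j) (p r : ι → ℤ) (hp : ∀ u, 0 ≤ p u) (hr : ∀ u, 0 ≤ r u)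
    (hpI : ∀ u ∈ U, u ∉ I → p u = 0) (k p0 r0 P R D s : ℤ)
    (hp0 : 0 ≤ p0) (hp0k : p0 ≤ k) (hr0 : 0 ≤ r0) (hr0k : r0 ≤ 3 * k)
    (hP : P = p0 + ∑ u ∈ U, p u) (hR : R = r0 + ∑ u ∈ U, r u)
    (hD : D = ∑ u ∈ U.filter (fun u => sg u), (r u - p u)
      - ∑ u ∈ U.filter (fun u => ¬ sg u), (r u - p u))
    (hs : s = |R - P|)
    (hcase : P = 0 ∨ R = 0 ∨ (4 * P ≤ 3 * k ∧ 4 * R ≤ 3 * k)) :
    k ^ 2 - 6 * k * (p0 + r0) + 9 * p0 ^ 2 + 6 * p0 * r0 + 9 * r0 ^ 2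
      - ∑ u ∈ I, (k * (2 * p0 + 6 * r0 + 6 * p u + 10 * r u) - 6 * p u ^ 2 - 6 * r u ^ 2
          - 4 * p u * r u - p0 * (10 * p u + 6 * r u) - r0 * (6 * p u + 10 * r u))
      - ∑ u ∈ U \ I, (6 * r u * (k - r u) - 6 * p0 * r u - 2 * r0 * r u)
      - D ^ 2 ≤ (k - s) * (k - 5 * s) := by
  -- sums
  have hcard : (I.card : ℤ) = 2 * j := by
    have := Finset.card_filter_add_card_filter_not (s := I) (fun u => sg u)
    rw [hpos, hneg] at this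
    rw [← this]
    push_cast
    ring
  have eI : ∑ u ∈ I, (k * (2 * p0 + 6 * r0 + 6 * p u + 10 * r u) - 6 * p u ^ 2 - 6 * r u ^ 2
          - 4 * p u * r u - p0 * (10 * p u + 6 * r u) - r0 * (6 * p u + 10 * r u)) =
      2 * j * (k * (2 * p0 + 6 * r0)) + k * (6 * ∑ u ∈ I, p u + 10 * ∑ u ∈ I, r u)
        - p0 * (10 * ∑ u ∈ I, p u + 6 * ∑ u ∈ I, r u) - r0 * (6 * ∑ u ∈ I, p u + 10 * ∑ u ∈ I, r u)
        - ∑ u ∈ I, (6 * p u ^ 2 + 6 * r u ^ 2 + 4 * p u * r u) := by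
    have e : 2 * j * (k * (2 * p0 + 6 * r0)) = ∑ u ∈ I, (k * (2 * p0 + 6 * r0)) := by
      rw [Finset.sum_const, nsmul_eq_mul, hcard]
    rw [e]
    simp only [Finset.mul_sum, ← Finset.sum_add_distrib, ← Finset.sum_sub_distrib]
    exact Finset.sum_congr rfl fun u _ => by ring
  have eJ : ∑ u ∈ U \ I, (6 * r u * (k - r u) - 6 * p0 * r u - 2 * r0 * r u) =
      (6 * k * ∑ u ∈ U \ I, r u - 6 * p0 * ∑ u ∈ U \ I, r u - 2 * r0 * ∑ u ∈ U \ I, r u)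
        - ∑ u ∈ U \ I, (6 * p u ^ 2 + 6 * r u ^ 2 + 4 * p u * r u) := by
    simp only [Finset.mul_sum, ← Finset.sum_sub_distrib]
    refine Finset.sum_congr rfl fun u hu => ?_
    rw [Finset.mem_sdiff] at hu
    rw [hpI u hu.1 hu.2]
    ring
  have eQ : ∑ u ∈ U \ I, (6 * p u ^ 2 + 6 * r u ^ 2 + 4 * p u * r u) +
      ∑ u ∈ I, (6 * p u ^ 2 + 6 * r u ^ 2 + 4 * p u * r u) =
      ∑ u ∈ U, (6 * p u ^ 2 + 6 * r u ^ 2 + 4 * p u * r u) := Finset.sum_sdiff hI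
  have eR : ∑ u ∈ U \ I, r u + ∑ u ∈ I, r u = ∑ u ∈ U, r u := Finset.sum_sdiff hI
  have eP : ∑ u ∈ U \ I, p u + ∑ u ∈ I, p u = ∑ u ∈ U, p u := Finset.sum_sdiff hI
  have eP0 : ∑ u ∈ U \ I, p u = 0 := Finset.sum_eq_zero fun u hu => by
    rw [Finset.mem_sdiff] at hu
    exact hpI u hu.1 hu.2
  have fP := Finset.sum_filter_add_sum_filter_not U (fun u => sg u) p
  have fR := Finset.sum_filter_add_sum_filter_not U (fun u => sg u) r
  have fQ := Finset.sum_filter_add_sum_filter_not U (fun u => sg u)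
    (fun u => 6 * p u ^ 2 + 6 * r u ^ 2 + 4 * p u * r u)
  have key : ∀ V : Finset ι, ∑ u ∈ V, (6 * p u ^ 2 + 6 * r u ^ 2 + 4 * p u * r u) ≤
      6 * (∑ u ∈ V, p u) ^ 2 + 6 * (∑ u ∈ V, r u) ^ 2 + 4 * ((∑ u ∈ V, p u) * ∑ u ∈ V, r u) := by
    intro V
    have k1 : ∑ u ∈ V, p u ^ 2 ≤ (∑ u ∈ V, p u) ^ 2 :=
      Finset.sum_sq_le_sq_sum_of_nonneg fun u _ => hp u
    have k2 : ∑ u ∈ V, r u ^ 2 ≤ (∑ u ∈ V, r u) ^ 2 :=
      Finset.sum_sq_le_sq_sum_of_nonneg fun u _ => hr u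
    have k3 : ∑ u ∈ V, p u * r u ≤ (∑ u ∈ V, p u) * ∑ u ∈ V, r u := by
      rw [Finset.sum_mul]
      refine Finset.sum_le_sum fun u hu => ?_
      exact mul_le_mul_of_nonneg_left
        (Finset.single_le_sum (fun v _ => hr v) hu) (hp u)
    have k4 : ∑ u ∈ V, (6 * p u ^ 2 + 6 * r u ^ 2 + 4 * p u * r u) =
        6 * ∑ u ∈ V, p u ^ 2 + 6 * ∑ u ∈ V, r u ^ 2 + 4 * ∑ u ∈ V, p u * r u := by
      simp only [Finset.mul_sum, ← Finset.sum_add_distrib]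
      exact Finset.sum_congr rfl fun u _ => by ring
    rw [k4]
    linarith
  have K1 := key (U.filter (fun u => sg u))
  have K2 := key (U.filter (fun u => ¬ sg u))
  have hD' : D = (∑ u ∈ U.filter (fun u => sg u), r u - ∑ u ∈ U.filter (fun u => sg u), p u) -
      (∑ u ∈ U.filter (fun u => ¬ sg u), r u - ∑ u ∈ U.filter (fun u => ¬ sg u), p u) := by
    rw [hD, Finset.sum_sub_distrib, Finset.sum_sub_distrib]
  have main := pf_num k p0 r0 (∑ u ∈ I, p u) (∑ u ∈ I, r u) (∑ u ∈ U \ I, r u)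
    (∑ u ∈ U, (6 * p u ^ 2 + 6 * r u ^ 2 + 4 * p u * r u))
    (∑ u ∈ U.filter (fun u => sg u), p u) (∑ u ∈ U.filter (fun u => ¬ sg u), p u)
    (∑ u ∈ U.filter (fun u => sg u), r u) (∑ u ∈ U.filter (fun u => ¬ sg u), r u)
    s P R D j hj hp0 hp0k hr0 hr0k
    (Finset.sum_nonneg fun u _ => hr u) (Finset.sum_nonneg fun u _ => hr u)
    (Finset.sum_nonneg fun u _ => hp u) (Finset.sum_nonneg fun u _ => hp u)
    (Finset.sum_nonneg fun u _ => hr u) (Finset.sum_nonneg fun u _ => hr u)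
    (by linarith) (by linarith) (by rw [← fQ]; linarith) (by rw [fP]; exact hP)
    (by rw [fR]; exact hR) hD' hs hcase
  rw [eI, eJ]
  linarith

end Pool.Agent.POS
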