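import Mathlib
import Pool.Agent.Lib_helper25.POS.Defs
import Pool.Agent.Lib_helper25.PR.PA
import Pool.Agent.Lib_helper25.PR.PC
import Pool.Agent.Lib_helper25.PR.PD
import Pool.Agent.Lib_helper25.PR.PF

/-!
# POS block PG: the near-structured lemma (balanced)
-/

set_option autoImplicit false

namespace Pool.Agent.POS

open Finset Pool.Agent.Lib_helper13.PL

section pg
variable {G : Type*} [AddCommGroup G] [DecidableEq G]

lemma pg_cost_empty (B0 : Finset G) : cost (∅ : Finset G) B0 = 0 := by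
  simp [cost, dlt]

lemma pg_coset_card (K : AddSubgroup G) (KK : Finset G) (hKK : ∀ x, x ∈ KK ↔ x ∈ K)
    (C : Finset G) (w : G) (hC : ∀ x, x ∈ C ↔ x - w ∈ K) : C.card = KK.card := by
  have e : C = KK.image (fun x => x + w) := by
    ext x
    rw [hC, mem_image]
    constructor
    · intro h
      exact ⟨x - w, (hKK _).2 h, by simp⟩
    · rintro ⟨y, hy, rfl⟩
      simpa using (hKK _).1 hy
  rw [e, card_image_of_injective _ (add_left_injective w)]

omit [AddCommGroup G] in
lemma pg_card_diff (A C : Finset G) :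
    (A.card : ℤ) = C.card + ((A \ C).card : ℤ) - ((C \ A).card : ℤ) := by
  have h1 := card_sdiff_add_card_inter A C
  have h2 := card_sdiff_add_card_inter C A
  rw [inter_comm] at h2
  omega

/-- PG -/
theorem ns {m : ℕ} [NeZero m] [Fintype G] (chi : G →+ ZMod m) (B : Finset G)
    (hB : NoWrap chi B) (K : AddSubgroup G) (KK : Finset G) (hKK : ∀ x, x ∈ KK ↔ x ∈ K)
    (hKL : ∀ x ∈ K, chi x = 0) (I : Finset (ZMod m)) (h0 : 0 ∈ I)
    (C : ZMod m → Finset G) (hC : ∀ u ∈ I, ∃ w, chi w = u ∧ ∀ x, x ∈ C u ↔ x - w ∈ K)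
    (hC0 : C 0 = KK) (j : ℕ) (hj : 1 ≤ j)
    (hpos : (I.filter (fun u => 0 < u.valMinAbs)).card = j)
    (hneg : (I.filter (fun u => u.valMinAbs < 0)).card = j)
    (k P R s : ℤ) (hk : k = KK.card) (hP : P = ((I.biUnion C \ B).card : ℤ))
    (hR : R = ((B \ I.biUnion C).card : ℤ)) (hs : s = |R - P|)
    (hr0 : ((lev chi B 0 \ KK).card : ℤ) ≤ 3 * k)
    (hcase : P = 0 ∨ R = 0 ∨ (4 * P ≤ 3 * k ∧ 4 * R ≤ 3 * k)) :
    GL.FF B ≤ (k - s) * (k - 5 * s) ∧ (B.card : ℤ) = (2 * j + 1) * k + R - P := by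
  have hCchi : ∀ u ∈ I, ∀ x ∈ C u, chi x = u := by
    intro u hu x hx
    obtain ⟨w, hw, h⟩ := hC u hu
    have h1 := hKL _ ((h x).1 hx)
    rw [map_sub, hw, sub_eq_zero] at h1
    exact h1
  have hCcard : ∀ u ∈ I, ((C u).card : ℤ) = k := by
    intro u hu
    obtain ⟨w, hw, h⟩ := hC u hu
    rw [pg_coset_card K KK hKK (C u) w h, hk]
  have hlev : ∀ u, ∀ x, x ∈ lev chi B u ↔ x ∈ B ∧ chi x = u := by
    intro u x; simp [lev]
  -- the index sets
  obtain ⟨U, hU⟩ : ∃ U : Finset (ZMod m), U = ((B.image chi) ∪ I).erase 0 := ⟨_, rfl⟩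
  obtain ⟨I', hI'⟩ : ∃ I' : Finset (ZMod m), I' = I.erase 0 := ⟨_, rfl⟩
  have hI'U : I' ⊆ U := by
    rw [hI', hU]; exact erase_subset_erase _ subset_union_right
  have hU0 : ∀ u ∈ U, u ≠ 0 := by
    intro u hu; rw [hU] at hu; exact ne_of_mem_erase hu
  have hI'I : ∀ u, u ∈ I' ↔ u ≠ 0 ∧ u ∈ I := by
    intro u; rw [hI', mem_erase]
  have hUI : ∀ u ∈ U, u ∉ I' → u ∉ I := by
    intro u hu h h1
    exact h ((hI'I u).2 ⟨hU0 u hu, h1⟩)
  have hval : ∀ u : ZMod m, u ≠ 0 → (¬ (0 < u.valMinAbs) ↔ u.valMinAbs < 0) := by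
    intro u hu
    have h1 : u.valMinAbs ≠ 0 := by
      intro h; exact hu ((ZMod.valMinAbs_eq_zero u).1 h)
    omega
  have hIpos : (I'.filter (fun u => 0 < u.valMinAbs)).card = j := by
    rw [← hpos]; congr 1; ext u
    rw [mem_filter, mem_filter, hI'I]
    constructor
    · rintro ⟨⟨_, h1⟩, h2⟩; exact ⟨h1, h2⟩
    · rintro ⟨h1, h2⟩
      refine ⟨⟨?_, h1⟩, h2⟩
      rintro rfl
      simp at h2
  have hIneg : (I'.filter (fun u => ¬ 0 < u.valMinAbs)).card = j := by
    rw [← hneg]; congr 1; ext u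
    rw [mem_filter, mem_filter, hI'I]
    constructor
    · rintro ⟨⟨h0, h1⟩, h2⟩; exact ⟨h1, (hval u h0).1 h2⟩
    · rintro ⟨h1, h2⟩
      have h3 : u ≠ 0 := by
        rintro rfl
        simp at h2
      exact ⟨⟨h3, h1⟩, (hval u h3).2 h2⟩
  have hI'card : I'.card = 2 * j := by
    have := card_filter_add_card_filter_not (s := I') (fun u : ZMod m => 0 < u.valMinAbs)
    omega
  have hIcard : I.card = 2 * j + 1 := by
    have h1 : I'.card + 1 = I.card := by rw [hI']; exact card_erase_add_one h0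
    omega
  -- the numbers
  obtain ⟨p, hp⟩ : ∃ p : ZMod m → ℤ, p = fun u =>
    if u ∈ I then ((C u \ lev chi B u).card : ℤ) else 0 := ⟨_, rfl⟩
  obtain ⟨r, hr⟩ : ∃ r : ZMod m → ℤ, r = fun u =>
    if u ∈ I then ((lev chi B u \ C u).card : ℤ) else ((lev chi B u).card : ℤ) := ⟨_, rfl⟩
  have hpI : ∀ u ∈ I, p u = ((C u \ lev chi B u).card : ℤ) := by
    intro u hu; rw [hp]; simp only [if_pos hu]
  have hpN : ∀ u, u ∉ I → p u = 0 := by
    intro u hu; rw [hp]; simp only [if_neg hu]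
  have hrI : ∀ u ∈ I, r u = ((lev chi B u \ C u).card : ℤ) := by
    intro u hu; rw [hr]; simp only [if_pos hu]
  have hrN : ∀ u, u ∉ I → r u = ((lev chi B u).card : ℤ) := by
    intro u hu; rw [hr]; simp only [if_neg hu]
  have hp_nn : ∀ u, 0 ≤ p u := by
    intro u
    by_cases h : u ∈ I
    · rw [hpI u h]; positivity
    · rw [hpN u h]
  have hr_nn : ∀ u, 0 ≤ r u := by
    intro u
    by_cases h : u ∈ I
    · rw [hrI u h]; positivity
    · rw [hrN u h]; positivity
  have hgI : ∀ u ∈ I, ((lev chi B u).card : ℤ) = k + (r u - p u) := by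
    intro u hu
    rw [hpI u hu, hrI u hu, ← hCcard u hu]
    have := pg_card_diff (lev chi B u) (C u)
    linarith
  have hgN : ∀ u, u ∉ I → ((lev chi B u).card : ℤ) = r u - p u := by
    intro u hu
    rw [hpN u hu, hrN u hu]; ring
  -- P
  have hPsum : P = ((KK \ lev chi B 0).card : ℤ) + ∑ u ∈ U, p u := by
    have e1 : I.biUnion C \ B = I.biUnion (fun u => C u \ lev chi B u) := by
      ext x
      simp only [mem_sdiff, mem_biUnion, hlev]
      constructor
      · rintro ⟨⟨u, hu, hx⟩, hxB⟩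
        exact ⟨u, hu, hx, fun h => hxB h.1⟩
      · rintro ⟨u, hu, hx, h⟩
        exact ⟨⟨u, hu, hx⟩, fun hB => h ⟨hB, hCchi u hu x hx⟩⟩
    have e2 : (I.biUnion (fun u => C u \ lev chi B u)).card
        = ∑ u ∈ I, (C u \ lev chi B u).card := by
      apply card_biUnion
      intro u hu v hv huv
      rw [Function.onFun, disjoint_left]
      intro x hx hx'
      rw [mem_sdiff] at hx hx'
      exact huv ((hCchi u hu x hx.1).symm.trans (hCchi v hv x hx'.1))
    rw [hP, e1, e2, ← add_sum_erase I _ h0, ← hI', hC0]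
    push_cast
    congr 1
    rw [← sum_subset hI'U]
    · apply sum_congr rfl
      intro u hu
      rw [hpI u ((hI'I u).1 hu).2]
    · intro u hu hu'
      exact hpN u (hUI u hu hu')
  -- R
  have hRsum : R = ((lev chi B 0 \ KK).card : ℤ) + ∑ u ∈ U, r u := by
    have hmap : ∀ x ∈ B \ I.biUnion C, chi x ∈ insert 0 U := by
      intro x hx
      rw [mem_sdiff] at hx
      by_cases h : chi x = 0
      · rw [h]; exact mem_insert_self _ _
      · apply mem_insert_of_mem
        rw [hU, mem_erase]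
        exact ⟨h, mem_union_left _ (mem_image_of_mem _ hx.1)⟩
    have e1 := card_eq_sum_card_fiberwise hmap
    have h0U : (0 : ZMod m) ∉ U := fun h => hU0 0 h rfl
    rw [sum_insert h0U] at e1
    rw [hR, e1]
    push_cast
    congr 1
    · congr 2
      ext x
      simp only [mem_filter, mem_sdiff, mem_biUnion, hlev, not_exists, not_and]
      constructor
      · rintro ⟨⟨h1, h2⟩, h3⟩
        refine ⟨⟨h1, h3⟩, ?_⟩
        rw [← hC0]
        exact h2 0 h0
      · rintro ⟨⟨h1, h3⟩, h2⟩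
        refine ⟨⟨h1, ?_⟩, h3⟩
        intro u hu hx
        have : u = 0 := (hCchi u hu x hx).symm.trans h3
        subst this
        rw [hC0] at hx
        exact h2 hx
    · apply sum_congr rfl
      intro u hu
      by_cases huI : u ∈ I
      · rw [hrI u huI]
        congr 2
        ext x
        simp only [mem_filter, mem_sdiff, mem_biUnion, hlev, not_exists, not_and]
        constructor
        · rintro ⟨⟨h1, h2⟩, h3⟩
          exact ⟨⟨h1, h3⟩, h2 u huI⟩
        · rintro ⟨⟨h1, h3⟩, h2⟩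
          refine ⟨⟨h1, ?_⟩, h3⟩
          intro v hv hx
          have : v = u := (hCchi v hv x hx).symm.trans h3
          subst this
          exact h2 hx
      · rw [hrN u huI]
        congr 2
        ext x
        simp only [mem_filter, mem_sdiff, mem_biUnion, hlev, not_exists, not_and]
        constructor
        · rintro ⟨⟨h1, h2⟩, h3⟩
          exact ⟨h1, h3⟩
        · rintro ⟨h1, h3⟩
          refine ⟨⟨h1, ?_⟩, h3⟩
          intro v hv hx
          have : v = u := (hCchi v hv x hx).symm.trans h3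
          subst this
          exact huI hv
  -- DD
  have hsplit : ∀ (q : ZMod m → Prop) [DecidablePred q], (∀ u, q u → u ≠ 0) →
      ((B.filter (fun x => q (chi x))).card : ℤ)
        = ∑ u ∈ U.filter q, ((lev chi B u).card : ℤ) := by
    intro q _ hq
    have hmap : ∀ x ∈ B.filter (fun x => q (chi x)), chi x ∈ U.filter q := by
      intro x hx
      rw [mem_filter] at hx
      rw [mem_filter, hU, mem_erase]
      exact ⟨⟨hq _ hx.2, mem_union_left _ (mem_image_of_mem _ hx.1)⟩, hx.2⟩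
    have e1 := card_eq_sum_card_fiberwise hmap
    rw [e1]
    push_cast
    apply sum_congr rfl
    intro u hu
    rw [mem_filter] at hu
    congr 2
    ext x
    simp only [mem_filter, hlev]
    constructor
    · rintro ⟨⟨h1, _⟩, h3⟩
      exact ⟨h1, h3⟩
    · rintro ⟨h1, h3⟩
      exact ⟨⟨h1, by rw [h3]; exact hu.2⟩, h3⟩
  have hgsum : ∀ (q : ZMod m → Prop) [DecidablePred q],
      ∑ u ∈ U.filter q, ((lev chi B u).card : ℤ)
        = ((I'.filter q).card : ℤ) * k + ∑ u ∈ U.filter q, (r u - p u) := by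
    intro q _
    have e1 : ∀ u ∈ U.filter q, ((lev chi B u).card : ℤ)
        = (if u ∈ I' then k else 0) + (r u - p u) := by
      intro u hu
      rw [mem_filter] at hu
      by_cases h : u ∈ I'
      · rw [if_pos h, hgI u ((hI'I u).1 h).2]
      · rw [if_neg h, hgN u (hUI u hu.1 h)]; ring
    rw [sum_congr rfl e1, sum_add_distrib]
    congr 1
    rw [← sum_filter, sum_const, nsmul_eq_mul]
    congr 3
    ext u
    simp only [mem_filter]
    constructor
    · rintro ⟨⟨_, h1⟩, h2⟩; exact ⟨h2, h1⟩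
    · rintro ⟨h1, h2⟩; exact ⟨⟨hI'U h1, h2⟩, h1⟩
  have hDsum : DD chi B = ∑ u ∈ U.filter (fun u => 0 < u.valMinAbs), (r u - p u)
      - ∑ u ∈ U.filter (fun u => ¬ 0 < u.valMinAbs), (r u - p u) := by
    have e1 : DD chi B = ((B.filter (fun x => 0 < (chi x).valMinAbs)).card : ℤ) -
      ((B.filter (fun x => (chi x).valMinAbs < 0)).card : ℤ) := rfl
    rw [e1, hsplit (fun u => 0 < u.valMinAbs) (by rintro u h rfl; simp at h),
      hsplit (fun u => u.valMinAbs < 0) (by rintro u h rfl; simp at h)]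
    have e2 : U.filter (fun u => u.valMinAbs < 0) = U.filter (fun u => ¬ 0 < u.valMinAbs) := by
      apply filter_congr
      intro u hu
      exact (hval u (hU0 u hu)).symm
    rw [e2, hgsum (fun u => 0 < u.valMinAbs), hgsum (fun u => ¬ 0 < u.valMinAbs), hIpos, hIneg]
    ring
  -- the cost
  have hcostsum : ∑ u ∈ (B.image chi).erase 0, cost (lev chi B u) (lev chi B 0)
      = ∑ u ∈ U, cost (lev chi B u) (lev chi B 0) := by
    apply sum_subset
    · rw [hU]; exact erase_subset_erase _ subset_union_left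
    · intro u hu hu'
      have h1 : lev chi B u = ∅ := by
        rw [eq_empty_iff_forall_notMem]
        intro x hx
        rw [hlev] at hx
        apply hu'
        rw [mem_erase]
        exact ⟨hU0 u hu, by rw [← hx.2]; exact mem_image_of_mem _ hx.1⟩
      rw [h1, pg_cost_empty]
  have hstar := pl_star chi B hB
  rw [hcostsum] at hstar
  obtain ⟨p0, hp0⟩ : ∃ p0 : ℤ, p0 = ((KK \ lev chi B 0).card : ℤ) := ⟨_, rfl⟩
  obtain ⟨r0, hr0'⟩ : ∃ r0 : ℤ, r0 = ((lev chi B 0 \ KK).card : ℤ) := ⟨_, rfl⟩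
  have hff := ff0 K KK hKK (lev chi B 0) k p0 r0 hk hp0 hr0'
  have hc1 : ∀ u ∈ I', k * (2 * p0 + 6 * r0 + 6 * p u + 10 * r u) - 6 * p u ^ 2 - 6 * r u ^ 2
      - 4 * p u * r u - p0 * (10 * p u + 6 * r u) - r0 * (6 * p u + 10 * r u)
      ≤ cost (lev chi B u) (lev chi B 0) := by
    intro u hu
    have huI := ((hI'I u).1 hu).2
    obtain ⟨w, _, hw⟩ := hC u huI
    exact cost_one K KK hKK (lev chi B u) (lev chi B 0) (C u) ⟨w, hw⟩ k p0 r0 (p u) (r u) hk hp0
      hr0' (hpI u huI) (hrI u huI)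
  have hc2 : ∀ u ∈ U \ I', 6 * r u * (k - r u) - 6 * p0 * r u - 2 * r0 * r u
      ≤ cost (lev chi B u) (lev chi B 0) := by
    intro u hu
    rw [mem_sdiff] at hu
    exact cost_none K KK hKK (lev chi B u) (lev chi B 0) k p0 r0 (r u) hk hp0 hr0'
      (hrN u (hUI u hu.1 hu.2))
  have hsum : ∑ u ∈ I', (k * (2 * p0 + 6 * r0 + 6 * p u + 10 * r u) - 6 * p u ^ 2 - 6 * r u ^ 2
          - 4 * p u * r u - p0 * (10 * p u + 6 * r u) - r0 * (6 * p u + 10 * r u))
      + ∑ u ∈ U \ I', (6 * r u * (k - r u) - 6 * p0 * r u - 2 * r0 * r u)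
      ≤ ∑ u ∈ U, cost (lev chi B u) (lev chi B 0) := by
    rw [← sum_sdiff hI'U, add_comm]
    exact add_le_add (sum_le_sum hc2) (sum_le_sum hc1)
  have hnum := ns_num U I' hI'U (fun u => 0 < u.valMinAbs) j hIpos hIneg hj p r hp_nn hr_nn
    (fun u hu h => hpN u (hUI u hu h)) k p0 r0 P R (DD chi B) s (by rw [hp0]; positivity)
    (by
      rw [hp0, hk]
      exact_mod_cast card_le_card sdiff_subset)
    (by rw [hr0']; positivity) (by rw [hr0']; exact hr0) (by rw [hp0]; exact hPsum)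
    (by rw [hr0']; exact hRsum) hDsum hs hcase
  refine ⟨by linarith, ?_⟩
  have h1 := pg_card_diff B (I.biUnion C)
  rw [h1, ← hR, ← hP]
  have h2 : (((I.biUnion C).card : ℕ) : ℤ) = (2 * j + 1) * k := by
    rw [card_biUnion]
    · push_cast
      rw [sum_congr rfl hCcard, sum_const, hIcard, nsmul_eq_mul]
      push_cast
      ring
    · intro u hu v hv huv
      rw [Function.onFun, disjoint_left]
      intro x hx hx'
      exact huv ((hCchi u hu x hx).symm.trans (hCchi v hv x hx'))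
  rw [h2]

end pg

end Pool.Agent.POS
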