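import Mathlib
import Pool.Agent.Lib_helper25.POS.Defs
import Pool.Agent.Lib_helper28.GL.Wit

/-!
# Block PH: the witness
-/

set_option autoImplicit false

namespace Pool.Agent.POS

open Finset Pool.Agent.Lib_helper13.PL

section blocks
variable {G : Type*} [AddCommGroup G] [DecidableEq G]

/-- PH -/
theorem witness {m : ℕ} [NeZero m] [Fintype G] (chi : G →+ ZMod m)
    (hchi : Function.Surjective chi) (K : AddSubgroup G) (hKL : ∀ x ∈ K, chi x = 0)
    (j s b : ℕ) (hm : 3 * j < m) (hs : s ≤ Nat.card K)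
    (hb : b + s = (2 * j + 1) * Nat.card K ∨ b = (2 * j + 1) * Nat.card K + s)
    (hbG : b ≤ Fintype.card G) :
    GL.Bd G b (((Nat.card K : ℤ) - s) * ((Nat.card K : ℤ) - 5 * s)) := by
  obtain ⟨g, hg⟩ := hchi 1
  have hal : GL.Alive K m := by
    refine ⟨g, fun i h0 h1 h2 => ?_⟩
    have h3 := hKL _ h2
    rw [map_nsmul, hg, nsmul_eq_mul, mul_one] at h3
    have h4 := (ZMod.natCast_eq_zero_iff i m).1 h3
    have := Nat.le_of_dvd h0 h4
    omega
  obtain ⟨E, hE1, hEmax, hEal, K', hKK', hcard, hS⟩ := GL.exists_level K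
  have hmE : m ≤ E := hEmax m hal
  rcases hb with hb | hb
  · exact ⟨_, Or.inr ⟨K, j, s, hs, rfl, Or.inl ⟨hb, hal.mono (by omega)⟩⟩, le_refl _⟩
  · rcases Nat.lt_or_ge E (3 * j + 2) with hE2 | hE2
    · have hE3 : E = 3 * j + 1 := by omega
      rcases Nat.eq_zero_or_pos j with hj | hj
      · -- `K = ⊤`
        subst hj
        have hK : K = ⊤ := by
          by_contra hne
          have := hEmax 2 (GL.alive_two hne)
          omega
        have hcG : Nat.card K = Fintype.card G := by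
          rw [hK, ← Nat.card_eq_fintype_card]
          exact Nat.card_congr AddSubgroup.topEquiv.toEquiv
        have hs0 : s = 0 := by omega
        exact ⟨_, Or.inr ⟨K, 0, s, hs, rfl, Or.inl ⟨by omega, hal.mono (by omega)⟩⟩, le_refl _⟩
      · have hsj : s ≤ j * Nat.card K := hs.trans (Nat.le_mul_of_pos_left _ hj)
        have hq : E / 3 = j := by omega
        obtain ⟨S, hSK, hSF, hSc⟩ := hS (j * Nat.card K - s) (by rw [hq]; omega)
        refine ⟨_, Or.inl ⟨K', S, hSK, hSF, ?_, rfl⟩, ?_⟩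
        · rw [hSc, hb, hcard, hE3]
          have h1 : (3 * j + 1) * Nat.card K = j * Nat.card K + (2 * j + 1) * Nat.card K := by ring
          omega
        · rw [hcard, hE3, hb]
          push_cast
          have h0 : (0 : ℤ) ≤ (Nat.card K : ℤ) := Nat.cast_nonneg _
          have h1 : (0 : ℤ) ≤ (s : ℤ) := Nat.cast_nonneg _
          nlinarith [mul_nonneg h0 h1, mul_nonneg h1 h1]
    · exact ⟨_, Or.inr ⟨K, j, s, hs, rfl, Or.inr ⟨hb, hEal.mono hE2⟩⟩, le_refl _⟩

end blocks

end Pool.Agent.POS
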