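import Mathlib
import Pool.Agent.Lib_helper25.POS.Defs

/-! POS, block PI: numbers of case `z_0 = 1` -/

set_option autoImplicit false

namespace Pool.Agent.POS

open Finset Pool.Agent.Lib_helper13.PL

/-- PI1 : a level with one majority coset, `d = a + t` at least `k/2` -/
theorem num_d_big (k e p r a t : ℤ) (hp : 0 ≤ p) (hr : 0 ≤ r) (he : e = p + r)
    (hek : 3 * e < k) (ha : 0 ≤ a) (ha2 : 2 * a ≤ k) (ht : 0 ≤ t) (ht2 : 2 * t ≤ k)
    (hd : k ≤ 2 * (a + t)) :
    (k - 3 * e) ^ 2 ≤ k * (2 * p + 6 * r + 6 * a + 10 * t) - 6 * a ^ 2 - 6 * t ^ 2 - 4 * a * t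
      - p * (10 * a + 6 * t) - r * (6 * a + 10 * t) := by
  have hk : 0 < k := by linarith
  have he0 : 0 ≤ e := by rw [he]; linarith
  have hpk : 0 ≤ p * k := mul_nonneg hp hk.le
  have hrk : 0 ≤ r * k := mul_nonneg hr hk.le
  have hee : 9 * (e * e) ≤ 3 * (e * k) := by nlinarith
  have hek' : e * k = p * k + r * k := by rw [he]; ring
  have hkk : 3 * (e * k) ≤ k * k := by nlinarith
  have h1 : 0 ≤ (3 * k ^ 2 - 6 * (p * k) + 6 * (r * k)) - 2 * (k - 3 * e) ^ 2 := by nlinarith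
  have h2 : 0 ≤ (7 * k ^ 2 - 2 * (p * k) + 2 * (r * k)) - 2 * (k - 3 * e) ^ 2 := by nlinarith
  have h3 : 0 ≤ (8 * k ^ 2 - 12 * (p * k) - 4 * (r * k)) - 2 * (k - 3 * e) ^ 2 := by nlinarith
  have hα : 0 ≤ k - 2 * a := by linarith
  have hβ : 0 ≤ k - 2 * t := by linarith
  have hσ : 0 ≤ 2 * (a + t) - k := by linarith
  have g1 := mul_nonneg hβ h1
  have g2 := mul_nonneg hα h2
  have g3 := mul_nonneg hσ h3
  have g4 := mul_nonneg hk.le (mul_nonneg hα hβ)
  have g5 := mul_nonneg hk.le (mul_nonneg hβ hσ)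
  have g6 := mul_nonneg hk.le (mul_nonneg hα hσ)
  have key : 0 ≤ (2 * k) * ((k * (2 * p + 6 * r + 6 * a + 10 * t) - 6 * a ^ 2 - 6 * t ^ 2
      - 4 * a * t - p * (10 * a + 6 * t) - r * (6 * a + 10 * t)) - (k - 3 * e) ^ 2) := by
    have h : (2 * k) * ((k * (2 * p + 6 * r + 6 * a + 10 * t) - 6 * a ^ 2 - 6 * t ^ 2
      - 4 * a * t - p * (10 * a + 6 * t) - r * (6 * a + 10 * t)) - (k - 3 * e) ^ 2) =
      (k - 2 * t) * ((3 * k ^ 2 - 6 * (p * k) + 6 * (r * k)) - 2 * (k - 3 * e) ^ 2) +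
      (k - 2 * a) * ((7 * k ^ 2 - 2 * (p * k) + 2 * (r * k)) - 2 * (k - 3 * e) ^ 2) +
      (2 * (a + t) - k) * ((8 * k ^ 2 - 12 * (p * k) - 4 * (r * k)) - 2 * (k - 3 * e) ^ 2) +
      (4 * (k * ((k - 2 * a) * (k - 2 * t))) + 3 * (k * ((k - 2 * t) * (2 * (a + t) - k))) +
        3 * (k * ((k - 2 * a) * (2 * (a + t) - k)))) := by
      ring
    rw [h]
    linarith
  have := nonneg_of_mul_nonneg_right key (by linarith)
  linarith

/-- PI3 : the whole numerical analysis: levels `u ∈ U`, `V ⊆ U` those with a majority coset. -/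
theorem num_levels {ι : Type*} [DecidableEq ι] (U V : Finset ι) (hV : V ⊆ U) (sg : ι → Prop)
    [DecidablePred sg] (d g c : ι → ℤ) (k e D : ℤ) (he : 0 ≤ e) (hek : 3 * e < k)
    (hd : ∀ u ∈ U, 0 ≤ d u) (hd2 : ∀ u ∈ U, 2 * d u ≤ k)
    (hcV : ∀ u ∈ V, 2 * k * e + d u * (6 * k - 6 * d u - 10 * e) ≤ c u)
    (hcU : ∀ u ∈ U, u ∉ V → 6 * d u * (k - e - d u) ≤ c u)
    (hgV : ∀ u ∈ V, |g u - k| ≤ d u) (hgU : ∀ u ∈ U, u ∉ V → g u = d u)
    (hD : D = ∑ u ∈ U.filter (fun u => sg u), g u - ∑ u ∈ U.filter (fun u => ¬ sg u), g u)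
    (hbud : ∑ u ∈ U, c u + D ^ 2 < (k - 3 * e) ^ 2) (hbig : k - e ≤ 3 * ∑ u ∈ U, g u) :
    ∃ j : ℕ, 1 ≤ j ∧ (V.filter (fun u => sg u)).card = j ∧
      (V.filter (fun u => ¬ sg u)).card = j ∧ 4 * (e + ∑ u ∈ U, d u) ≤ 3 * k := by
  have hk : 0 < k := by linarith
  have hke : 0 ≤ k * e := mul_nonneg hk.le he
  have hee : 3 * (e * e) ≤ k * e := by nlinarith
  have hkk : 3 * (k * e) ≤ k * k := by nlinarith
  -- the structure of the case `2 d = k`
  have hE : 2 * (k - 3 * e) ^ 2 ≤ 3 * k ^ 2 - 6 * (k * e) := by nlinarith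
  set S := ∑ u ∈ U, d u with hS
  have hS0 : 0 ≤ S := Finset.sum_nonneg hd
  -- `V` is not empty
  have hVne : V.Nonempty := by
    by_contra hcon
    rw [Finset.not_nonempty_iff_eq_empty] at hcon
    have h1 : ∀ u ∈ U, 3 * (k - 2 * e) * g u ≤ c u := by
      intro u hu
      have hu' : u ∉ V := by rw [hcon]; exact Finset.notMem_empty u
      have h2 := hcU u hu hu'
      rw [hgU u hu hu']
      have h3 : 0 ≤ d u * (k - 2 * d u) := mul_nonneg (hd u hu) (by linarith [hd2 u hu])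
      nlinarith
    have h2 := Finset.sum_le_sum h1
    rw [← Finset.mul_sum] at h2
    have h3 : (k - 2 * e) * (k - e) ≤ (k - 2 * e) * (3 * ∑ u ∈ U, g u) :=
      mul_le_mul_of_nonneg_left hbig (by linarith)
    have h4 : 0 ≤ D ^ 2 := sq_nonneg D
    nlinarith
  -- a lower bound for all the costs
  have hc : ∀ u ∈ U, d u * (6 * k - 6 * d u - 10 * e) + (if u ∈ V then 2 * (k * e) else 0) ≤
      c u := by
    intro u hu
    split_ifs with h
    · have := hcV u h
      linarith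
    · have h1 := hcU u hu h
      have h2 : 0 ≤ d u * e := mul_nonneg (hd u hu) he
      nlinarith
  have hsumV : ∑ u ∈ U, (if u ∈ V then 2 * (k * e) else 0) = (V.card : ℤ) * (2 * (k * e)) := by
    rw [← Finset.sum_filter, Finset.sum_const, nsmul_eq_mul]
    congr 2
    congr 1
    ext u
    rw [Finset.mem_filter]
    exact ⟨fun h => h.2, fun h => ⟨hV h, h⟩⟩
  have hcs : ∑ u ∈ U, d u * (6 * k - 6 * d u - 10 * e) + (V.card : ℤ) * (2 * (k * e)) ≤
      ∑ u ∈ U, c u := by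
    rw [← hsumV, ← Finset.sum_add_distrib]
    exact Finset.sum_le_sum hc
  have hV1 : (1 : ℤ) ≤ V.card := by exact_mod_cast hVne.card_pos
  have hD0 : 0 ≤ D ^ 2 := sq_nonneg D
  -- the costs are not negative
  have hc0 : ∀ u ∈ U, 0 ≤ c u := by
    intro u hu
    by_cases h : u ∈ V
    · have h1 := hcV u h
      have h2 : 0 ≤ (2 * d u) * (k - 2 * d u) :=
        mul_nonneg (by linarith [hd u hu]) (by linarith [hd2 u hu])
      have h3 : 0 ≤ (k - 2 * d u) * e := mul_nonneg (by linarith [hd2 u hu]) he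
      have h4 : 0 ≤ d u * (k - 3 * e) := mul_nonneg (hd u hu) (by linarith)
      have h5 : 0 ≤ d u * e := mul_nonneg (hd u hu) he
      nlinarith
    · have h1 := hcU u hu h
      have h2 : 0 ≤ d u * (k - 2 * d u) := mul_nonneg (hd u hu) (by linarith [hd2 u hu])
      have h4 : 0 ≤ d u * (k - 3 * e) := mul_nonneg (hd u hu) (by linarith)
      have h5 : 0 ≤ d u * e := mul_nonneg (hd u hu) he
      nlinarith
  -- `e` is small
  have he1 : 2 * (k * e) < (k - 3 * e) ^ 2 := by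
    by_contra hcon
    rw [not_lt] at hcon
    obtain ⟨u, hu⟩ := hVne
    have huU := hV hu
    have h1 : c u ≤ ∑ u ∈ U, c u := Finset.single_le_sum hc0 huU
    have h2 := hcV u hu
    -- `k (2ke + φ(d)) = (k - 2d) 2ke + 2d (3k²/2 - 3ke) + 3 k (2 d) (k - 2 d)`
    have h3 : 0 ≤ (k - 2 * d u) * (2 * (k * e) - (k - 3 * e) ^ 2) :=
      mul_nonneg (by linarith [hd2 u huU]) (by linarith)
    have h4 : 0 ≤ d u * (3 * k ^ 2 - 6 * (k * e) - 2 * (k - 3 * e) ^ 2) :=
      mul_nonneg (hd u huU) (by linarith)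
    have h5 : 0 ≤ k * (d u * (k - 2 * d u)) :=
      mul_nonneg hk.le (mul_nonneg (hd u huU) (by linarith [hd2 u huU]))
    have h6 : k * (2 * k * e + d u * (6 * k - 6 * d u - 10 * e)) - k * (k - 3 * e) ^ 2 =
        (k - 2 * d u) * (2 * (k * e) - (k - 3 * e) ^ 2) +
        d u * (3 * k ^ 2 - 6 * (k * e) - 2 * (k - 3 * e) ^ 2) +
        3 * (k * (d u * (k - 2 * d u))) := by ring
    have h7 : 0 ≤ k * ((2 * k * e + d u * (6 * k - 6 * d u - 10 * e)) - (k - 3 * e) ^ 2) := by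
      rw [mul_sub, h6]
      linarith
    have h8 := nonneg_of_mul_nonneg_right h7 hk
    linarith
  have he6 : 6 * e < k := by
    by_contra hcon
    rw [not_lt] at hcon
    nlinarith
  -- `S` is small
  have hφ : ∀ u ∈ U, d u * (3 * k - 10 * e) ≤ d u * (6 * k - 6 * d u - 10 * e) := by
    intro u hu
    have h2 : 0 ≤ d u * (k - 2 * d u) := mul_nonneg (hd u hu) (by linarith [hd2 u hu])
    nlinarith
  have hφS : S * (3 * k - 10 * e) ≤ ∑ u ∈ U, d u * (6 * k - 6 * d u - 10 * e) := by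
    rw [hS, Finset.sum_mul]
    exact Finset.sum_le_sum hφ
  have hVke : 2 * (k * e) ≤ (V.card : ℤ) * (2 * (k * e)) := by nlinarith
  have hS2 : 2 * S < k := by
    by_contra hcon
    rw [not_lt] at hcon
    have h1 : k * (3 * k - 10 * e) ≤ 2 * S * (3 * k - 10 * e) :=
      mul_le_mul_of_nonneg_right hcon (by linarith)
    nlinarith
  -- the sum of the `φ`
  have hsq : ∑ u ∈ U, d u ^ 2 ≤ S ^ 2 := by
    have h1 : ∀ u ∈ U, d u ^ 2 ≤ d u * S := by
      intro u hu
      rw [sq]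
      exact mul_le_mul_of_nonneg_left (Finset.single_le_sum hd hu) (hd u hu)
    have h2 := Finset.sum_le_sum h1
    rw [← Finset.sum_mul] at h2
    rw [sq]
    exact h2
  have hφ2 : S * (6 * k - 10 * e) - 6 * S ^ 2 ≤ ∑ u ∈ U, d u * (6 * k - 6 * d u - 10 * e) := by
    have h1 : ∑ u ∈ U, d u * (6 * k - 6 * d u - 10 * e) =
        S * (6 * k - 10 * e) - 6 * ∑ u ∈ U, d u ^ 2 := by
      rw [hS, Finset.sum_mul, Finset.mul_sum, ← Finset.sum_sub_distrib]
      exact Finset.sum_congr rfl fun u _ => by ring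
    rw [h1]
    linarith
  -- the difference `D`
  set ip := (V.filter (fun u => sg u)).card with hip
  set im := (V.filter (fun u => ¬ sg u)).card with him
  have hDx : |D - k * ((ip : ℤ) - im)| ≤ S := by
    have h1 : ∀ u ∈ U, |g u - (if u ∈ V then k else 0)| ≤ d u := by
      intro u hu
      split_ifs with h
      · exact hgV u h
      · rw [hgU u hu h, sub_zero, abs_of_nonneg (hd u hu)]
    have h2 : ∀ (P : ι → Prop) [DecidablePred P],
        |∑ u ∈ U.filter P, g u - k * ((V.filter P).card : ℤ)| ≤ ∑ u ∈ U.filter P, d u := by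
      intro P _
      have h3 : k * ((V.filter P).card : ℤ) = ∑ u ∈ U.filter P, (if u ∈ V then k else 0) := by
        rw [← Finset.sum_filter, Finset.sum_const, nsmul_eq_mul, mul_comm]
        congr 2
        congr 1
        ext u
        simp only [Finset.mem_filter]
        exact ⟨fun h => ⟨⟨hV h.1, h.2⟩, h.1⟩, fun h => ⟨h.2, h.1.2⟩⟩
      rw [h3, ← Finset.sum_sub_distrib]
      refine (Finset.abs_sum_le_sum_abs _ _).trans (Finset.sum_le_sum fun u hu => ?_)
      exact h1 u (Finset.mem_filter.1 hu).1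
    have h3 := h2 (fun u => sg u)
    have h4 := h2 (fun u => ¬ sg u)
    have h5 : S = ∑ u ∈ U.filter (fun u => sg u), d u + ∑ u ∈ U.filter (fun u => ¬ sg u), d u :=
      (Finset.sum_filter_add_sum_filter_not U (fun u => sg u) d).symm
    rw [abs_le] at h3 h4 ⊢
    rw [h5, hD]
    constructor <;> linarith [h3.1, h3.2, h4.1, h4.2]
  have hcard : (V.card : ℤ) = ip + im := by
    rw [hip, him]
    exact_mod_cast (Finset.card_filter_add_card_filter_not (s := V) (fun u => sg u)).symm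
  have hbal : ip = im := by
    by_contra hne
    have hne' : (ip : ℤ) - im ≠ 0 := by
      intro h
      exact hne (by omega)
    have h1 : k - S ≤ |D| := by
      have h2 : k ≤ |k * ((ip : ℤ) - im)| := by
        rw [abs_mul, abs_of_pos hk]
        have : (1 : ℤ) ≤ |(ip : ℤ) - im| := Int.one_le_abs hne'
        nlinarith
      have h3 : |k * ((ip : ℤ) - im)| ≤ |D| + |D - k * ((ip : ℤ) - im)| := by
        have h4 := abs_sub D (D - k * ((ip : ℤ) - im))
        have h5 : D - (D - k * ((ip : ℤ) - im)) = k * ((ip : ℤ) - im) := by ring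
        rw [h5] at h4
        exact h4
      linarith
    have h2 : (k - S) ^ 2 ≤ D ^ 2 := by
      rw [← sq_abs D]
      exact pow_le_pow_left₀ (by linarith) h1 2
    have h3 : 0 ≤ S * (k - 2 * S) := mul_nonneg hS0 (by linarith)
    have h4 : 0 ≤ (k - 2 * S) * e := mul_nonneg (by linarith) he
    have h5 : 0 ≤ S * e := mul_nonneg hS0 he
    have h6 : 0 ≤ S * (k - 6 * e) := mul_nonneg hS0 (by linarith)
    nlinarith
  have hj : 1 ≤ ip := by
    by_contra hcon
    have : ip = 0 := by omega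
    rw [hcard, ← hbal, this] at hV1
    norm_num at hV1
  refine ⟨ip, hj, rfl, hbal.symm, ?_⟩
  have h1 : 2 * (2 * (k * e)) ≤ (V.card : ℤ) * (2 * (k * e)) := by
    refine mul_le_mul_of_nonneg_right ?_ (by linarith)
    rw [hcard, ← hbal]
    have : (1 : ℤ) ≤ ip := by exact_mod_cast hj
    linarith
  have h2 : 0 ≤ S * (3 * k - 10 * e) := mul_nonneg hS0 (by linarith)
  have h3 : 4 * (k * e) < (k - 3 * e) ^ 2 := by linarith
  have h4 : 9 * e < k := by
    by_contra hcon
    rw [not_lt] at hcon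
    nlinarith
  linarith

end Pool.Agent.POS
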