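import Mathlib
import Pool.Agent.Lib_helper25.POS.Defs
import Pool.Agent.Lib_helper25.PR.PA
import Pool.Agent.Lib_helper25.PR.PB
import Pool.Agent.Lib_helper25.PR.PC
import Pool.Agent.Lib_helper25.PR.PD
import Pool.Agent.Lib_helper25.PR.PE
import Pool.Agent.Lib_helper25.PR.PG
import Pool.Agent.Lib_helper25.PR.PH
import Pool.Agent.Lib_helper25.PR.PI

/-!
# Case `z_0 = 1`
-/

set_option autoImplicit false

namespace Pool.Agent.POS

open Finset Pool.Agent.Lib_helper13.PL

section blocks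
variable {G : Type*} [AddCommGroup G] [DecidableEq G]

/-- a level with a majority coset -/
theorem pm_level (K : AddSubgroup G) (KK : Finset G) (hKK : ∀ x, x ∈ KK ↔ x ∈ K)
    (A B0 C : Finset G) (k p r e a t : ℤ) (hk : k = KK.card) (hp : p = ((KK \ B0).card : ℤ))
    (hr : r = ((B0 \ KK).card : ℤ)) (he : e = p + r) (hek : 3 * e < k)
    (hcost : cost A B0 < (k - 3 * e) ^ 2)
    (x : G) (hx : k < 2 * th K A x) (hC : ∀ z, z ∈ C ↔ z - x ∈ K)
    (ha : a = ((C \ A).card : ℤ)) (ht : t = ((A \ C).card : ℤ)) :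
    2 * (a + t) < k ∧ 2 * k * e + (a + t) * (6 * k - 6 * (a + t) - 10 * e) ≤ cost A B0 ∧
      |(A.card : ℤ) - k| ≤ a + t := by
  classical
  have hp0 : 0 ≤ p := by rw [hp]; positivity
  have hr0 : 0 ≤ r := by rw [hr]; positivity
  have ha0 : 0 ≤ a := by rw [ha]; positivity
  have ht0 : 0 ≤ t := by rw [ht]; positivity
  have he0 : 0 ≤ e := by rw [he]; linarith
  have hk0 : 0 ≤ k := by linarith
  have hpr : 3 * (p + r) ≤ k := by linarith
  have hsq : (k - 3 * e) ^ 2 ≤ k ^ 2 := by nlinarith [mul_nonneg he0 (by linarith : 0 ≤ 2 * k - 3 * e)]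
  have hk2 : 0 ≤ k ^ 2 := sq_nonneg k
  have hy : ∀ y ∈ A, y - x ∉ K → 2 * th K A y ≤ k := by
    intro y _ hyx
    by_contra h
    have h1 := cost_two_major K KK hKK A B0 k p r hk hp hr hpr x y
      (fun h2 => hyx (by have := K.neg_mem h2; rwa [neg_sub] at this)) hx (not_le.1 h)
    linarith
  have ht2 : 2 * t ≤ k := by
    by_contra h
    have h1 := cost_one_major K KK hKK A B0 C k p r t hk hp hr hpr x hx hC hy ht (not_le.1 h)
    linarith
  have hCc : (C.card : ℤ) = k := by
    rw [hk, Nat.cast_inj]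
    refine Finset.card_bij (fun z _ => z - x) ?_ ?_ ?_
    · intro z hz
      exact (hKK _).2 ((hC z).1 hz)
    · intro z _ z' _ h
      exact sub_left_injective h
    · intro y hy'
      refine ⟨y + x, ?_, by rw [add_sub_cancel_right]⟩
      rw [hC, add_sub_cancel_right]
      exact (hKK y).1 hy'
  have hth : th K A x = ((A ∩ C).card : ℤ) := by
    unfold th
    rw [Nat.cast_inj]
    congr 1
    ext z
    rw [mem_filter, mem_inter, hC]
  have hAC : ((A ∩ C).card : ℤ) = k - a := by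
    have h1 := Finset.card_inter_add_card_sdiff C A
    rw [inter_comm] at h1
    have h2 : ((A ∩ C).card : ℤ) + ((C \ A).card : ℤ) = C.card := by exact_mod_cast h1
    rw [hCc, ← ha] at h2
    linarith
  have hA : (A.card : ℤ) = k - a + t := by
    have h1 := Finset.card_inter_add_card_sdiff A C
    have h2 : ((A ∩ C).card : ℤ) + ((A \ C).card : ℤ) = A.card := by exact_mod_cast h1
    rw [hAC, ← ht] at h2
    linarith
  have ha2 : 2 * a ≤ k := by
    rw [hth, hAC] at hx
    linarith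
  have hone := cost_one K KK hKK A B0 C ⟨x, hC⟩ k p r a t hk hp hr ha ht
  refine ⟨?_, ?_, ?_⟩
  · by_contra h
    have h1 := num_d_big k e p r a t hp0 hr0 he hek ha0 ha2 ht0 ht2 (not_lt.1 h)
    linarith
  · refine le_trans ?_ hone
    have e1 : (k * (2 * p + 6 * r + 6 * a + 10 * t) - 6 * a ^ 2 - 6 * t ^ 2 - 4 * a * t
      - p * (10 * a + 6 * t) - r * (6 * a + 10 * t)) -
      (2 * k * e + (a + t) * (6 * k - 6 * (a + t) - 10 * e)) =
        4 * (k * r) + 4 * (k * t) + 8 * (a * t) + 4 * (p * t) + 4 * (r * a) := by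
      rw [he]
      ring
    have h1 := mul_nonneg hk0 hr0
    have h2 := mul_nonneg hk0 ht0
    have h3 := mul_nonneg ha0 ht0
    have h4 := mul_nonneg hp0 ht0
    have h5 := mul_nonneg hr0 ha0
    linarith
  · rw [hA, abs_le]
    constructor <;> linarith

/-- a level without majority coset -/
theorem pm_none (K : AddSubgroup G) (KK : Finset G) (hKK : ∀ x, x ∈ KK ↔ x ∈ K)
    (A B0 : Finset G) (k p r e : ℤ) (hk : k = KK.card) (hp : p = ((KK \ B0).card : ℤ))
    (hr : r = ((B0 \ KK).card : ℤ)) (he : e = p + r) (hek : 3 * e < k)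
    (hcost : cost A B0 < (k - 3 * e) ^ 2) (hA : ∀ x ∈ A, 2 * th K A x ≤ k) :
    2 * (A.card : ℤ) ≤ k ∧ 6 * (A.card : ℤ) * (k - e - A.card) ≤ cost A B0 := by
  have hp0 : 0 ≤ p := by rw [hp]; positivity
  have hr0 : 0 ≤ r := by rw [hr]; positivity
  have he0 : 0 ≤ e := by rw [he]; linarith
  have hk0 : 0 ≤ k := by linarith
  obtain ⟨g, hg⟩ : ∃ g : ℤ, g = (A.card : ℤ) := ⟨_, rfl⟩
  rw [← hg]
  have hg0 : 0 ≤ g := by rw [hg]; positivity
  constructor
  · by_contra h
    have h1 := cost_no_major K KK hKK A B0 k p r g hk hp hr hg hA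
    have h2 : g + k - 3 * p - r ≥ 0 := by linarith
    push Not at h
    have h3 : k * (3 * k - 6 * e) ≤ 2 * g * (2 * (g + k - 3 * p - r)) := by
      have h4 : 3 * k - 6 * e ≤ 2 * (g + k - 3 * p - r) := by rw [he]; linarith
      exact mul_le_mul h.le h4 (by linarith) (by linarith)
    nlinarith [mul_nonneg he0 (by linarith : 0 ≤ k - 3 * e), mul_nonneg hk0 he0]
  · have h1 := cost_none K KK hKK A B0 k p r g hk hp hr hg
    have h2 := mul_nonneg hr0 hg0
    rw [he]
    nlinarith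

theorem pm_lev_eq {m : ℕ} (chi : G →+ ZMod m) (B : Finset G) (s : ZMod m → Prop)
    [DecidablePred s] (hs : ∀ u, s u → u ≠ 0) :
    ((B.filter (fun x => s (chi x))).card : ℤ) =
      ∑ u ∈ ((B.image chi).erase 0).filter (fun u => s u), ((lev chi B u).card : ℤ) := by
  have h1 : (B.filter (fun x => s (chi x))).card =
      ∑ u ∈ ((B.image chi).erase 0).filter (fun u => s u),
        ((B.filter (fun x => s (chi x))).filter (fun x => chi x = u)).card := by
    refine Finset.card_eq_sum_card_fiberwise ?_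
    intro x hx
    rw [mem_coe, mem_filter] at hx
    rw [mem_coe, mem_filter, mem_erase]
    exact ⟨⟨hs _ hx.2, mem_image_of_mem _ hx.1⟩, hx.2⟩
  rw [h1]
  push_cast
  refine sum_congr rfl fun u hu => ?_
  rw [mem_filter] at hu
  congr 2
  unfold lev
  rw [filter_filter]
  refine filter_congr fun x _ => ?_
  constructor
  · rintro ⟨_, h⟩
    exact h
  · intro h
    exact ⟨by rw [h]; exact hu.2, h⟩

theorem pm_card {m : ℕ} (chi : G →+ ZMod m) (B : Finset G) :
    (B.card : ℤ) = ((lev chi B 0).card : ℤ) +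
      ∑ u ∈ (B.image chi).erase 0, ((lev chi B u).card : ℤ) := by
  have h1 := pm_lev_eq chi B (fun u => u ≠ 0) (fun u h => h)
  have h2 : ((B.image chi).erase 0).filter (fun u => u ≠ 0) = (B.image chi).erase 0 := by
    refine filter_true_of_mem fun u hu => ?_
    exact (mem_erase.1 hu).1
  rw [h2] at h1
  rw [← h1]
  unfold lev
  have h3 := Finset.card_filter_add_card_filter_not (s := B) (fun x => chi x = 0)
  exact_mod_cast h3.symm

theorem pm_DD {m : ℕ} [NeZero m] (chi : G →+ ZMod m) (B : Finset G) :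
    DD chi B = ∑ u ∈ ((B.image chi).erase 0).filter (fun u => 0 < u.valMinAbs),
        ((lev chi B u).card : ℤ) -
      ∑ u ∈ ((B.image chi).erase 0).filter (fun u => ¬ 0 < u.valMinAbs),
        ((lev chi B u).card : ℤ) := by
  unfold DD
  rw [pm_lev_eq chi B (fun u => 0 < u.valMinAbs) (fun u h h0 => by
      rw [h0, ZMod.valMinAbs_zero] at h; exact lt_irrefl _ h),
    pm_lev_eq chi B (fun u => u.valMinAbs < 0) (fun u h h0 => by
      rw [h0, ZMod.valMinAbs_zero] at h; exact lt_irrefl _ h)]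
  congr 2
  refine filter_congr fun u hu => ?_
  rw [mem_erase] at hu
  have h1 : u.valMinAbs ≠ 0 := by
    intro h
    exact hu.1 ((ZMod.valMinAbs_eq_zero u).1 h)
  constructor
  · intro h
    linarith
  · intro h
    exact lt_of_le_of_ne (not_lt.1 h) h1

theorem pm_j {m : ℕ} [NeZero m] (chi : G →+ ZMod m) (B : Finset G) (hB : NoWrap chi B)
    (V : Finset (ZMod m)) (hV : V ⊆ (B.image chi).erase 0) (j : ℕ)
    (hj : (V.filter (fun u => 0 < u.valMinAbs)).card = j) : 3 * j < m := by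
  have hm : 0 < m := Nat.pos_of_ne_zero (NeZero.ne m)
  have h1 : (V.filter (fun u => 0 < u.valMinAbs)).card ≤ (Icc 1 ((m - 1) / 3)).card := by
    refine Finset.card_le_card_of_injOn (fun u => u.valMinAbs.toNat) ?_ ?_
    · intro u hu
      rw [mem_coe, mem_filter] at hu
      have h2 := hV hu.1
      rw [mem_erase, mem_image] at h2
      obtain ⟨_, x, hx, hxu⟩ := h2
      have h3 := hB x hx
      rw [hxu, abs_of_pos hu.2] at h3
      rw [mem_coe, mem_Icc]
      have h4 := hu.2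
      show 1 ≤ u.valMinAbs.toNat ∧ u.valMinAbs.toNat ≤ (m - 1) / 3
      omega
    · intro u hu v hv h
      rw [mem_coe, mem_filter] at hu hv
      have h2 : u.valMinAbs = v.valMinAbs := by
        have h3 := hu.2
        have h4 := hv.2
        simp only at h
        omega
      exact ZMod.injective_valMinAbs h2
  rw [hj, Nat.card_Icc] at h1
  omega

/-- PM -/
theorem case1 {m : ℕ} [NeZero m] [Fintype G] (chi : G →+ ZMod m)
    (hchi : Function.Surjective chi) (B : Finset G) (hB : NoWrap chi B)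
    (h43 : 4 * (lev chi B 0).card ≤ 3 * B.card) (hF : 1 ≤ GL.FF B)
    (K : AddSubgroup G) (KK : Finset G) (hKK : ∀ x, x ∈ KK ↔ x ∈ K) (hKL : ∀ x ∈ K, chi x = 0)
    (hpr : 3 * ((KK \ lev chi B 0).card + (lev chi B 0 \ KK).card) < KK.card) :
    GL.Bd G B.card (GL.FF B) := by
  classical
  obtain ⟨B0, hB0⟩ : ∃ B0 : Finset G, B0 = lev chi B 0 := ⟨_, rfl⟩
  obtain ⟨U, hU⟩ : ∃ U : Finset (ZMod m), U = (B.image chi).erase 0 := ⟨_, rfl⟩
  obtain ⟨k, hk⟩ : ∃ k : ℤ, k = KK.card := ⟨_, rfl⟩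
  obtain ⟨p, hp⟩ : ∃ p : ℤ, p = ((KK \ B0).card : ℤ) := ⟨_, rfl⟩
  obtain ⟨r, hr⟩ : ∃ r : ℤ, r = ((B0 \ KK).card : ℤ) := ⟨_, rfl⟩
  have hp0 : 0 ≤ p := by rw [hp]; positivity
  have hr0 : 0 ≤ r := by rw [hr]; positivity
  obtain ⟨e, he⟩ : ∃ e : ℤ, e = p + r := ⟨_, rfl⟩
  have he0 : 0 ≤ e := by rw [he]; linarith
  have hek : 3 * e < k := by
    rw [← hB0] at hpr
    rw [he, hp, hr, hk]
    exact_mod_cast hpr
  have hk0 : 0 ≤ k := by linarith
  -- the budget
  have hpl := pl_star chi B hB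
  rw [← hB0, ← hU] at hpl
  have hff := ff0 K KK hKK B0 k p r hk hp hr
  have hbud : ∑ u ∈ U, cost (lev chi B u) B0 + DD chi B ^ 2 < (k - 3 * e) ^ 2 := by
    have h1 : k ^ 2 - 6 * k * (p + r) + 9 * p ^ 2 + 6 * p * r + 9 * r ^ 2 ≤ (k - 3 * e) ^ 2 := by
      rw [he]
      nlinarith [mul_nonneg hp0 hr0]
    linarith
  have hcn : ∀ u, 0 ≤ cost (lev chi B u) B0 := fun u => cost_nonneg _ _
  have hcu : ∀ u ∈ U, cost (lev chi B u) B0 < (k - 3 * e) ^ 2 := by
    intro u hu
    have h1 := single_le_sum (f := fun u => cost (lev chi B u) B0) (fun i _ => hcn i) hu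
    have h2 := sq_nonneg (DD chi B)
    linarith
  -- the levels with a majority coset
  obtain ⟨V, hVd⟩ : ∃ V : Finset (ZMod m), V = U.filter (fun u => ∃ x ∈ lev chi B u,
    k < 2 * th K (lev chi B u) x) := ⟨_, rfl⟩
  have hVU : V ⊆ U := by rw [hVd]; exact filter_subset _ _
  have hVx : ∀ u ∈ V, ∃ x, x ∈ lev chi B u ∧ k < 2 * th K (lev chi B u) x := by
    intro u hu
    rw [hVd, mem_filter] at hu
    obtain ⟨_, x, hx, h⟩ := hu
    exact ⟨x, hx, h⟩
  choose! xs hxs using hVx
  obtain ⟨C, hCd⟩ : ∃ C : ZMod m → Finset G, ∀ u, C u = if u = 0 then KK else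
    univ.filter (fun z => z - xs u ∈ K) := ⟨_, fun u => rfl⟩
  have hC0 : C 0 = KK := by rw [hCd, if_pos rfl]
  have hCV : ∀ u, u ≠ 0 → ∀ z, z ∈ C u ↔ z - xs u ∈ K := by
    intro u hu z
    rw [hCd, if_neg hu, mem_filter]
    simp
  have h0U : (0 : ZMod m) ∉ U := by rw [hU]; exact notMem_erase _ _
  have h0V : (0 : ZMod m) ∉ V := fun h => h0U (hVU h)
  have hV0 : ∀ u ∈ V, u ≠ 0 := fun u hu h => h0V (h ▸ hu)
  obtain ⟨a, had⟩ : ∃ a : ZMod m → ℤ, ∀ u, a u = if u ∈ V then
    ((C u \ lev chi B u).card : ℤ) else 0 := ⟨_, fun u => rfl⟩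
  obtain ⟨t, htd⟩ : ∃ t : ZMod m → ℤ, ∀ u, t u = if u ∈ V then
    ((lev chi B u \ C u).card : ℤ) else ((lev chi B u).card : ℤ) := ⟨_, fun u => rfl⟩
  have haV : ∀ u ∈ V, a u = ((C u \ lev chi B u).card : ℤ) := fun u hu => by
    rw [had, if_pos hu]
  have htV : ∀ u ∈ V, t u = ((lev chi B u \ C u).card : ℤ) := fun u hu => by
    rw [htd, if_pos hu]
  have ha0 : ∀ u, 0 ≤ a u := by
    intro u
    rw [had]
    by_cases hu : u ∈ V
    · rw [if_pos hu]
      exact Int.natCast_nonneg _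
    · rw [if_neg hu]
  have ht0 : ∀ u, 0 ≤ t u := by
    intro u
    rw [htd]
    by_cases hu : u ∈ V
    · rw [if_pos hu]
      exact Int.natCast_nonneg _
    · rw [if_neg hu]
      exact Int.natCast_nonneg _
  have hlevV : ∀ u ∈ V, 2 * (a u + t u) < k ∧
      2 * k * e + (a u + t u) * (6 * k - 6 * (a u + t u) - 10 * e) ≤ cost (lev chi B u) B0 ∧
      |((lev chi B u).card : ℤ) - k| ≤ a u + t u := by
    intro u hu
    exact pm_level K KK hKK (lev chi B u) B0 (C u) k p r e (a u) (t u) hk hp hr he hek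
      (hcu u (hVU hu)) (xs u) (hxs u hu).2 (hCV u (hV0 u hu)) (haV u hu) (htV u hu)
  have hlevN : ∀ u ∈ U, u ∉ V → 2 * ((lev chi B u).card : ℤ) ≤ k ∧
      6 * ((lev chi B u).card : ℤ) * (k - e - (lev chi B u).card) ≤ cost (lev chi B u) B0 := by
    intro u hu huV
    refine pm_none K KK hKK (lev chi B u) B0 k p r e hk hp hr he hek (hcu u hu) ?_
    intro x hx
    by_contra h
    exact huV (by rw [hVd, mem_filter]; exact ⟨hu, x, hx, not_le.1 h⟩)
  have hdN : ∀ u, u ∉ V → a u + t u = ((lev chi B u).card : ℤ) := by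
    intro u hu
    rw [had, htd, if_neg hu, if_neg hu, zero_add]
  have hcard := pm_card chi B
  rw [← hB0, ← hU] at hcard
  have hbig : k - e ≤ 3 * ∑ u ∈ U, ((lev chi B u).card : ℤ) := by
    have h1 : 4 * (B0.card : ℤ) ≤ 3 * B.card := by rw [hB0]; exact_mod_cast h43
    have h2 := Finset.card_inter_add_card_sdiff KK B0
    have h3 := Finset.card_inter_add_card_sdiff B0 KK
    have h4 : ((KK ∩ B0).card : ℤ) + ((KK \ B0).card : ℤ) = KK.card := by exact_mod_cast h2
    have h5 : ((B0 ∩ KK).card : ℤ) + ((B0 \ KK).card : ℤ) = B0.card := by exact_mod_cast h3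
    rw [inter_comm] at h5
    linarith
  obtain ⟨j, hj1, hjp, hjn, hjS⟩ := num_levels U V hVU (fun u : ZMod m => 0 < u.valMinAbs)
    (fun u => a u + t u) (fun u => ((lev chi B u).card : ℤ)) (fun u => cost (lev chi B u) B0)
    k e (DD chi B) he0 hek (fun u _ => add_nonneg (ha0 u) (ht0 u))
    (fun u hu => by
      by_cases huV : u ∈ V
      · exact (hlevV u huV).1.le
      · simp only [hdN u huV]
        exact (hlevN u hu huV).1)
    (fun u hu => (hlevV u hu).2.1)
    (fun u hu huV => by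
      simp only [hdN u huV]
      exact (hlevN u hu huV).2)
    (fun u hu => (hlevV u hu).2.2) (fun u _ huV => (hdN u huV).symm)
    (by rw [hU]; exact pm_DD chi B) hbud hbig
  -- the near-structured lemma
  obtain ⟨I, hId⟩ : ∃ I : Finset (ZMod m), I = insert 0 V := ⟨_, rfl⟩
  obtain ⟨P, hPd⟩ : ∃ P : ℤ, P = ((I.biUnion C \ B).card : ℤ) := ⟨_, rfl⟩
  obtain ⟨R, hRd⟩ : ∃ R : ℤ, R = ((B \ I.biUnion C).card : ℤ) := ⟨_, rfl⟩
  have hsub : ∀ u, lev chi B u ⊆ B := fun u => filter_subset _ _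
  have hP : P ≤ p + ∑ u ∈ U, a u := by
    have h1 : I.biUnion C \ B ⊆ (KK \ B0) ∪ V.biUnion (fun u => C u \ lev chi B u) := by
      intro x hx
      rw [mem_sdiff, mem_biUnion] at hx
      obtain ⟨⟨u, hu, hxu⟩, hxB⟩ := hx
      rw [mem_union]
      rw [hId, mem_insert] at hu
      rcases hu with hu | hu
      · left
        rw [hu, hC0] at hxu
        rw [mem_sdiff]
        exact ⟨hxu, fun h => hxB (hsub 0 (hB0 ▸ h))⟩
      · right
        rw [mem_biUnion]
        exact ⟨u, hu, mem_sdiff.2 ⟨hxu, fun h => hxB (hsub u h)⟩⟩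
    have h2 := (card_le_card h1).trans (card_union_le _ _)
    have h3 : (V.biUnion (fun u => C u \ lev chi B u)).card ≤
        ∑ u ∈ V, (C u \ lev chi B u).card := card_biUnion_le
    have h4 : ((I.biUnion C \ B).card : ℤ) ≤ ((KK \ B0).card : ℤ) +
        ∑ u ∈ V, ((C u \ lev chi B u).card : ℤ) := by exact_mod_cast h2.trans (by omega)
    rw [← hPd, ← hp] at h4
    have h5 : ∑ u ∈ V, ((C u \ lev chi B u).card : ℤ) = ∑ u ∈ V, a u :=
      sum_congr rfl fun u hu => (haV u hu).symm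
    have h6 : ∑ u ∈ V, a u ≤ ∑ u ∈ U, a u :=
      sum_le_sum_of_subset_of_nonneg hVU fun u _ _ => ha0 u
    linarith
  have hR : R ≤ r + ∑ u ∈ U, t u := by
    have h1 : B \ I.biUnion C ⊆ (B0 \ KK) ∪
        U.biUnion (fun u => if u ∈ V then lev chi B u \ C u else lev chi B u) := by
      intro x hx
      rw [mem_sdiff, mem_biUnion] at hx
      obtain ⟨hxB, hxn⟩ := hx
      rw [mem_union]
      by_cases h0 : chi x = 0
      · left
        rw [mem_sdiff, hB0]
        refine ⟨mem_filter.2 ⟨hxB, h0⟩, fun h => hxn ⟨0, ?_, ?_⟩⟩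
        · rw [hId]; exact mem_insert_self _ _
        · rw [hC0]; exact h
      · right
        rw [mem_biUnion]
        refine ⟨chi x, ?_, ?_⟩
        · rw [hU, mem_erase]
          exact ⟨h0, mem_image_of_mem _ hxB⟩
        · have h2 : x ∈ lev chi B (chi x) := mem_filter.2 ⟨hxB, rfl⟩
          by_cases hV' : chi x ∈ V
          · rw [if_pos hV', mem_sdiff]
            refine ⟨h2, fun h => hxn ⟨chi x, ?_, h⟩⟩
            rw [hId]
            exact mem_insert_of_mem hV'
          · rw [if_neg hV']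
            exact h2
    have h2 := (card_le_card h1).trans (card_union_le _ _)
    have h3 : (U.biUnion (fun u => if u ∈ V then lev chi B u \ C u else lev chi B u)).card ≤
        ∑ u ∈ U, (if u ∈ V then lev chi B u \ C u else lev chi B u).card := card_biUnion_le
    have h4 : ((B \ I.biUnion C).card : ℤ) ≤ ((B0 \ KK).card : ℤ) +
        ∑ u ∈ U, ((if u ∈ V then lev chi B u \ C u else lev chi B u).card : ℤ) := by
      exact_mod_cast h2.trans (by omega)
    rw [← hRd, ← hr] at h4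
    have h5 : ∑ u ∈ U, ((if u ∈ V then lev chi B u \ C u else lev chi B u).card : ℤ) =
        ∑ u ∈ U, t u := by
      refine sum_congr rfl fun u _ => ?_
      rw [htd]
      by_cases hu : u ∈ V
      · rw [if_pos hu, if_pos hu]
      · rw [if_neg hu, if_neg hu]
    linarith
  have hsum : ∑ u ∈ U, (a u + t u) = ∑ u ∈ U, a u + ∑ u ∈ U, t u := sum_add_distrib
  have hP0 : 0 ≤ P := by rw [hPd]; exact Int.natCast_nonneg _
  have hR0 : 0 ≤ R := by rw [hRd]; exact Int.natCast_nonneg _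
  have hPR : 4 * (P + R) ≤ 3 * k := by
    rw [hsum] at hjS
    linarith
  obtain ⟨s, hs⟩ : ∃ s : ℤ, s = |R - P| := ⟨_, rfl⟩
  have hsk : 0 ≤ s ∧ s ≤ k := by
    rw [hs]
    refine ⟨abs_nonneg _, ?_⟩
    rw [abs_le]
    constructor <;> linarith
  have hr3 : ((lev chi B 0 \ KK).card : ℤ) ≤ 3 * k := by
    rw [← hB0, ← hr]
    linarith
  have hIp : (I.filter (fun u => 0 < u.valMinAbs)).card = j := by
    rw [hId, filter_insert, if_neg (by rw [ZMod.valMinAbs_zero]; exact lt_irrefl _)]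
    exact hjp
  have hIn : (I.filter (fun u => u.valMinAbs < 0)).card = j := by
    rw [hId, filter_insert, if_neg (by rw [ZMod.valMinAbs_zero]; exact lt_irrefl _), ← hjn]
    congr 1
    refine filter_congr fun u hu => ?_
    have h1 : u.valMinAbs ≠ 0 := by
      intro h
      exact hV0 u hu ((ZMod.valMinAbs_eq_zero u).1 h)
    constructor
    · intro h
      linarith
    · intro h
      exact lt_of_le_of_ne (not_lt.1 h) h1
  obtain ⟨hns, hnc⟩ := ns chi B hB K KK hKK hKL I (by rw [hId]; exact mem_insert_self _ _) C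
    (fun u hu => by
      rw [hId, mem_insert] at hu
      rcases hu with hu | hu
      · refine ⟨0, by rw [hu, map_zero], fun x => ?_⟩
        rw [hu, hC0, sub_zero]
        exact hKK x
      · exact ⟨xs u, (mem_filter.1 (hxs u hu).1).2, hCV u (hV0 u hu)⟩)
    hC0 j hj1 hIp hIn k P R s hk hPd hRd hs hr3 (Or.inr (Or.inr ⟨by linarith, by linarith⟩))
  -- the witness
  have hm : 3 * j < m := pm_j chi B hB V (by rw [← hU]; exact hVU) j hjp
  have hKc : Nat.card K = KK.card := by
    rw [← Nat.card_eq_finsetCard KK]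
    exact Nat.card_congr (Equiv.subtypeEquivRight fun x => (hKK x).symm)
  obtain ⟨s', hs'⟩ : ∃ s' : ℕ, (s' : ℤ) = s := ⟨s.toNat, Int.toNat_of_nonneg hsk.1⟩
  have hkc : (Nat.card K : ℤ) = k := by rw [hKc, hk]
  have hw := witness chi hchi K hKL j s' B.card hm (by
      have : (s' : ℤ) ≤ (Nat.card K : ℤ) := by rw [hs', hkc]; exact hsk.2
      exact_mod_cast this) (by
      rcases le_total R P with h | h
      · left
        have h1 : s = P - R := by rw [hs, abs_of_nonpos (by linarith)]; ring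
        have h2 : (B.card : ℤ) + s' = (2 * j + 1) * (Nat.card K : ℤ) := by
          rw [hs', hkc, hnc, h1]
          ring
        exact_mod_cast h2
      · right
        have h1 : s = R - P := by rw [hs, abs_of_nonneg (by linarith)]
        have h2 : (B.card : ℤ) = (2 * j + 1) * (Nat.card K : ℤ) + s' := by
          rw [hs', hkc, hnc, h1]
          ring
        exact_mod_cast h2) (card_le_univ B)
  rw [hs', hkc] at hw
  obtain ⟨v, hv1, hv2⟩ := hw
  exact ⟨v, hv1, hns.trans hv2⟩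

end blocks

end Pool.Agent.POS
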