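import Mathlib
import Pool.Agent.Lib_helper25.POS.FarDefs
import Pool.Agent.Lib_helper25.PR.FI

/-!
# FAR with a weaker hypothesis on the dead bound (`J ≥ 3`)
-/

set_option autoImplicit false

namespace Pool.Agent.POS.Far

open Finset

/-- the quadratic for `G = h` -/
theorem f3_q0 (c K F0 G : ℝ) (hc : 0 < c) (hK1 : 3 * c < 4 * K) (hK2 : K ≤ c)
    (hF : F0 ≤ c ^ 2 / 9 ∨ F0 ≤ (4 * K - 3 * c) ^ 2) :
    0 ≤ 6 / 5 * G ^ 2 - 20 / 3 * K * G + (1250 / 27 * K ^ 2 - 260 / 9 * K * c + 2 * c ^ 2) - F0 := by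
  have h1 : 0 ≤ 6 / 5 * (G - 25 / 9 * K) ^ 2 := by positivity
  rcases hF with h | h
  · nlinarith [mul_pos hc hc, mul_nonneg (sub_nonneg.2 hK2) hc.le,
      mul_pos (sub_pos.2 hK1) (sub_pos.2 hK1), mul_pos (sub_pos.2 hK1) hc]
  · nlinarith [mul_pos hc hc, mul_nonneg (sub_nonneg.2 hK2) hc.le,
      mul_pos (sub_pos.2 hK1) (sub_pos.2 hK1), mul_pos (sub_pos.2 hK1) hc]

/-- dead gain -/
theorem f3_q1 (c K F0 G : ℝ) (hc : 0 < c) (hK1 : 3 * c < 4 * K) (hK2 : K ≤ c)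
    (hF : F0 ≤ c ^ 2 / 9 ∨ F0 ≤ (4 * K - 3 * c) ^ 2) :
    0 ≤ 2 * G * (G - c) + 8 * K * (c - K) - (20 / 3 * K - 2 * c) * G
      + (1250 / 27 * K ^ 2 - 260 / 9 * K * c + 2 * c ^ 2) - 4 / 5 * (G + c / 2) ^ 2 - F0 := by
  have h1 : 0 ≤ 6 / 5 * (G - (25 / 9 * K + c / 3)) ^ 2 := by positivity
  rcases hF with h | h
  · nlinarith [mul_pos hc hc, mul_nonneg (sub_nonneg.2 hK2) hc.le,
      mul_pos (sub_pos.2 hK1) (sub_pos.2 hK1), mul_pos (sub_pos.2 hK1) hc]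
  · nlinarith [mul_pos hc hc, mul_nonneg (sub_nonneg.2 hK2) hc.le,
      mul_pos (sub_pos.2 hK1) (sub_pos.2 hK1), mul_pos (sub_pos.2 hK1) hc]

/-- alive gain, `v = c/2` -/
theorem f3_q2 (c K F0 G : ℝ) (hc : 0 < c) (hK1 : 3 * c < 4 * K) (hK2 : K ≤ c)
    (hF : F0 ≤ c ^ 2 / 9 ∨ F0 ≤ (4 * K - 3 * c) ^ 2) :
    0 ≤ 2 * G * (G - c) + 2 * c ^ 2 - (20 / 3 * K - 2 * c) * G
      + (1250 / 27 * K ^ 2 - 260 / 9 * K * c + 2 * c ^ 2) - 4 / 5 * (G + c / 2) ^ 2 - F0 := by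
  have h1 : 0 ≤ 6 / 5 * (G - (25 / 9 * K + c / 3)) ^ 2 := by positivity
  rcases hF with h | h
  · nlinarith [mul_pos hc hc, mul_nonneg (sub_nonneg.2 hK2) hc.le,
      mul_pos (sub_pos.2 hK1) (sub_pos.2 hK1), mul_pos (sub_pos.2 hK1) hc]
  · nlinarith [mul_pos hc hc, mul_nonneg (sub_nonneg.2 hK2) hc.le,
      mul_pos (sub_pos.2 hK1) (sub_pos.2 hK1), mul_pos (sub_pos.2 hK1) hc]

/-- alive gain, all `v` -/
theorem f3_q3 (c K F0 G h : ℝ) (hc : 0 < c) (hK1 : 3 * c < 4 * K) (hK2 : K ≤ c)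
    (hF : F0 ≤ c ^ 2 / 9 ∨ F0 ≤ (4 * K - 3 * c) ^ 2) (h1 : G ≤ h) (h2 : 2 * h ≤ 2 * G + c) :
    0 ≤ 2 * G * (G - c) + 8 * (h - G) * (c - (h - G)) - (20 / 3 * K - 2 * c) * G
      + (1250 / 27 * K ^ 2 - 260 / 9 * K * c + 2 * c ^ 2) - 4 / 5 * h ^ 2 - F0 := by
  have a0 := f3_q0 c K F0 h hc hK1 hK2 hF
  have a1 := f3_q2 c K F0 (h - c / 2) hc hK1 hK2 hF
  have hv0 : 0 ≤ h - G := by linarith
  have hv1 : 0 ≤ c - 2 * (h - G) := by linarith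
  have b0 := mul_nonneg hv1 a0
  have b1 := mul_nonneg hv0 a1
  have b2 := mul_nonneg hc.le (mul_nonneg hv0 hv1)
  have key : c * (2 * G * (G - c) + 8 * (h - G) * (c - (h - G)) - (20 / 3 * K - 2 * c) * G
      + (1250 / 27 * K ^ 2 - 260 / 9 * K * c + 2 * c ^ 2) - 4 / 5 * h ^ 2 - F0)
      = (c - 2 * (h - G)) * (6 / 5 * h ^ 2 - 20 / 3 * K * h
          + (1250 / 27 * K ^ 2 - 260 / 9 * K * c + 2 * c ^ 2) - F0)
        + 2 * ((h - G) * (2 * (h - c / 2) * ((h - c / 2) - c) + 2 * c ^ 2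
          - (20 / 3 * K - 2 * c) * (h - c / 2)
          + (1250 / 27 * K ^ 2 - 260 / 9 * K * c + 2 * c ^ 2) - 4 / 5 * ((h - c / 2) + c / 2) ^ 2 - F0))
        + 3 * (c * ((h - G) * (c - 2 * (h - G)))) := by
    ring
  have : 0 ≤ c * (2 * G * (G - c) + 8 * (h - G) * (c - (h - G)) - (20 / 3 * K - 2 * c) * G
      + (1250 / 27 * K ^ 2 - 260 / 9 * K * c + 2 * c ^ 2) - 4 / 5 * h ^ 2 - F0) := by
    rw [key]; linarith
  exact nonneg_of_mul_nonneg_right this hc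

/-- the other levels -/
theorem f3_others {ι : Type*} [DecidableEq ι] (V : Finset ι) (g w : ι → ℝ) (c K G : ℝ)
    (hc : 0 < c) (hK1 : 3 * c < 4 * K) (J : ℕ) (hJ : 3 ≤ J) (hV : V.card + 1 ≤ 2 * J)
    (hw : ∀ u ∈ V, 2 * g u * (g u - c) ≤ w u)
    (hT : 10 / 9 * (3 * (J:ℝ) + 1) * K ≤ c + (G + ∑ u ∈ V, g u)) :
    1250 / 27 * K ^ 2 - 260 / 9 * K * c + 2 * c ^ 2 - (20 / 3 * K - 2 * c) * G ≤ ∑ u ∈ V, w u := by
  have h1 : ∑ u ∈ V, (2 * (10 / 3 * K - c) * g u - 50 / 9 * K ^ 2) ≤ ∑ u ∈ V, w u := by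
    refine Finset.sum_le_sum fun u hu => ?_
    have := hw u hu
    nlinarith [sq_nonneg (g u - 5 / 3 * K)]
  rw [Finset.sum_sub_distrib, ← Finset.mul_sum, Finset.sum_const, nsmul_eq_mul] at h1
  have h2 : (V.card : ℝ) + 1 ≤ 2 * J := by exact_mod_cast hV
  have h3 : (3 : ℝ) ≤ J := by exact_mod_cast hJ
  have h4 : 0 < 10 / 3 * K - c := by linarith
  have h5 : 0 < K := by linarith
  have h6 : (V.card : ℝ) * (50 / 9 * K ^ 2) ≤ (2 * J - 1) * (50 / 9 * K ^ 2) :=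
    mul_le_mul_of_nonneg_right (by linarith) (by positivity)
  have h7 : 2 * (10 / 3 * K - c) * (10 / 9 * (3 * (J:ℝ) + 1) * K - c - G)
      ≤ 2 * (10 / 3 * K - c) * ∑ u ∈ V, g u :=
    mul_le_mul_of_nonneg_left (by linarith) (by linarith)
  have h8 : 0 ≤ ((J : ℝ) - 3) * (K * (5 / 3 * K - c)) :=
    mul_nonneg (by linarith) (mul_nonneg h5.le (by linarith))
  nlinarith

/-- large level, `J ≥ 3` : a large level -/
theorem strong3_a {ι : Type*} [DecidableEq ι] (U : Finset ι) (g w : ι → ℝ)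
    (c h K F0 : ℝ) (hc : 0 < c) (hK1 : 3 * c < 4 * K) (hK2 : K ≤ c) (hh : 4 * c < 3 * h)
    (J : ℕ) (hJ : 3 ≤ J) (hU : U.card ≤ 2 * J) (hL : ∀ u ∈ U, LevOK c h K (g u) (w u))
    (hT : 10 / 9 * (3 * (J:ℝ) + 1) * K ≤ c + ∑ u ∈ U, g u) (hF : F0OK c K F0)
    (hbig : ∃ u ∈ U, 2 * h ≤ 2 * g u + c) :
    4 / 5 * h ^ 2 + F0 ≤ ∑ u ∈ U, w u := by
  obtain ⟨u0, hu0, hbig⟩ := hbig
  have hF' := ff1_F0 c K F0 hK1 hF
  rw [← Finset.add_sum_erase U g hu0] at hT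
  rw [← Finset.add_sum_erase U w hu0]
  have hV : (U.erase u0).card + 1 ≤ 2 * J := by
    rw [Finset.card_erase_add_one hu0]; exact hU
  have ho := f3_others (U.erase u0) g w c K (g u0) hc hK1 J hJ hV
    (fun u hu => (hL u (Finset.mem_of_mem_erase hu)).2.2.2.1) hT
  obtain ⟨hx0, hw0, hw1, hw2, hopt⟩ := hL u0 hu0
  set G := g u0 with hG
  set wG := w u0 with hwG
  have hG0 : c ≤ 2 * G := by linarith
  rcases le_or_gt h G with hhG | hhG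
  · have h0 : h ^ 2 ≤ G ^ 2 := by
      have : 0 < h := by linarith
      nlinarith
    have a0 := f3_q0 c K F0 G hc hK1 hK2 hF'
    nlinarith
  · obtain ⟨β, hβ0, hβw, hβ⟩ := hopt hG0
    rcases hβ with h1 | ⟨h1, h2⟩ | ⟨h1, h2, h3⟩
    · have a1 := f3_q1 c K F0 G hc hK1 hK2 hF'
      have b1 : h ^ 2 ≤ (G + c / 2) ^ 2 := by
        have : 0 < h := by linarith
        nlinarith
      have b2 : β ^ 2 ≤ c ^ 2 / 9 := by nlinarith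
      have b3 : 8 * K * (c - K) ≤ 16 / 9 * c ^ 2 := by
        nlinarith [sq_nonneg (2 * K - c), mul_pos (sub_pos.2 hK1) hc,
          mul_pos (sub_pos.2 hK1) (sub_pos.2 hK1)]
      nlinarith
    · have a1 := f3_q1 c K F0 G hc hK1 hK2 hF'
      have b1 : h ^ 2 ≤ (G + c / 2) ^ 2 := by
        have : 0 < h := by linarith
        nlinarith
      have b2 : β ^ 2 ≤ (2 * K - c) ^ 2 := by nlinarith
      nlinarith
    · have h3' := h3 hhG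
      have a3 := f3_q3 c K F0 G h hc hK1 hK2 hF' hhG.le hbig
      have b2 : β ^ 2 ≤ (c - 2 * (h - G)) ^ 2 := by nlinarith
      nlinarith

/-- the bound without `h`, `J ≥ 3` -/
theorem strong3_s {ι : Type*} [DecidableEq ι] (U : Finset ι) (g w : ι → ℝ)
    (c K : ℝ) (hc : 0 < c) (hK1 : 3 * c < 4 * K) (hK2 : K ≤ c)
    (J : ℕ) (hJ : 3 ≤ J) (hU : U.card ≤ 2 * J) (hw : ∀ u ∈ U, 2 * g u * (g u - c) ≤ w u)
    (hT : 10 / 9 * (3 * (J:ℝ) + 1) * K ≤ c + ∑ u ∈ U, g u) :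
    1100 / 27 * K ^ 2 - 260 / 9 * K * c + 2 * c ^ 2 ≤ ∑ u ∈ U, w u := by
  have hJ' : (3:ℝ) ≤ (J:ℝ) := by exact_mod_cast hJ
  have hcard : ((U.card : ℕ) : ℝ) ≤ 2 * (J:ℝ) := by exact_mod_cast hU
  obtain ⟨S, hS⟩ : ∃ S, S = ∑ u ∈ U, g u := ⟨_, rfl⟩
  have hsq : S ^ 2 ≤ (U.card : ℝ) * ∑ u ∈ U, g u ^ 2 := by
    rw [hS]; exact sq_sum_le_card_mul_sum_sq
  have hsq0 : (0:ℝ) ≤ ∑ u ∈ U, g u ^ 2 := Finset.sum_nonneg fun u _ => sq_nonneg _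
  have hsq2 : S ^ 2 ≤ 2 * (J:ℝ) * ∑ u ∈ U, g u ^ 2 :=
    hsq.trans (mul_le_mul_of_nonneg_right hcard hsq0)
  have hws : 2 * (∑ u ∈ U, g u ^ 2) - 2 * c * S ≤ ∑ u ∈ U, w u := by
    have h1 : ∑ u ∈ U, (2 * g u * (g u - c)) ≤ ∑ u ∈ U, w u := Finset.sum_le_sum hw
    have h2 : ∑ u ∈ U, (2 * g u * (g u - c)) = 2 * (∑ u ∈ U, g u ^ 2) - 2 * c * S := by
      rw [hS, Finset.mul_sum, Finset.mul_sum, ← Finset.sum_sub_distrib]
      exact Finset.sum_congr rfl fun u _ => by ring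
    rw [← h2]; exact h1
  rw [← hS] at hT
  obtain ⟨Q, hQ⟩ : ∃ Q, Q = ∑ u ∈ U, g u ^ 2 := ⟨_, rfl⟩
  rw [← hQ] at hsq2 hws
  have hJ0 : (0:ℝ) < (J:ℝ) := by linarith
  obtain ⟨S0, hS0⟩ : ∃ S0, S0 = 10 / 9 * (3 * (J:ℝ) + 1) * K - c := ⟨_, rfl⟩
  have hSS : S0 ≤ S := by linarith
  have hA : 0 ≤ K * (5 / 3 * K - c) := mul_nonneg (by linarith) (by linarith)
  have hS00 : 0 ≤ S0 - 2 * c * J := by
    have h1 : S0 - 2 * c * J = 2 * J * (5 / 3 * K - c) + (10 / 9 * K - c) := by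
      rw [hS0]; ring
    have h2 : 6 * (5 / 3 * K - c) ≤ 2 * J * (5 / 3 * K - c) :=
      mul_le_mul_of_nonneg_right (by linarith) (by linarith)
    linarith
  have h3 : S0 * (S0 - 2 * c * J) ≤ S * (S - 2 * c * J) := by
    have hcJ : 0 ≤ c * J := by positivity
    exact mul_le_mul hSS (by linarith) hS00 (by linarith)
  have h4 : (J:ℝ) * (1100 / 27 * K ^ 2 - 260 / 9 * K * c + 2 * c ^ 2)
      ≤ S0 * (S0 - 2 * c * J) := by
    have h5 : S0 * (S0 - 2 * c * J) - (J:ℝ) * (1100 / 27 * K ^ 2 - 260 / 9 * K * c + 2 * c ^ 2)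
        = (20 / 3) * (J * (J - 3) * (K * (5 / 3 * K - c))) + (10 / 9 * K - c) ^ 2 := by
      rw [hS0]; ring
    have h6 : 0 ≤ (J:ℝ) * (J - 3) * (K * (5 / 3 * K - c)) :=
      mul_nonneg (mul_nonneg hJ0.le (by linarith)) hA
    nlinarith [sq_nonneg (10 / 9 * K - c)]
  have h7 : S ^ 2 - 2 * c * J * S ≤ J * (2 * Q - 2 * c * S) := by nlinarith
  have h8 : (J:ℝ) * (1100 / 27 * K ^ 2 - 260 / 9 * K * c + 2 * c ^ 2)
      ≤ J * (2 * Q - 2 * c * S) := by nlinarith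
  exact (le_of_mul_le_mul_left h8 hJ0).trans hws

/-- two levels, `J ≥ 3` -/
theorem strong3_uu (c h K F0 x y wx wy S : ℝ) (hc : 0 < c) (hK1 : 3 * c < 4 * K)
    (hK2 : K ≤ c) (hh : 4 * c < 3 * h) (hx : 2 * x + c < 2 * h) (hy : 2 * y + c < 2 * h)
    (hxy : 2 * h ≤ 2 * x + y)
    (hwx : c ≤ 2 * x → 2 * x * (x - c) + 8 * K * (c - K) ≤ wx)
    (hwy : c ≤ 2 * y → 2 * y * (y - c) + 8 * K * (c - K) ≤ wy)
    (hS1 : 1100 / 27 * K ^ 2 - 260 / 9 * K * c + 2 * c ^ 2 ≤ S)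
    (hS2 : wx + wy ≤ S) (hF : F0OK c K F0) :
    4 / 5 * h ^ 2 + F0 ≤ S := by
  have h1 := hwx (by linarith)
  have h2 := hwy (by linarith)
  have h3 : 8 / 5 * h ^ 2 - 12 / 5 * h * c - 1 / 10 * c ^ 2
      ≤ 2 * x * (x - c) + 2 * y * (y - c) := by
    have e1 : 0 ≤ (8 * h - 6 * c) * (2 * x + y - 2 * h) :=
      mul_nonneg (by linarith) (by linarith)
    nlinarith [sq_nonneg (x - (8 * h - c) / 10), sq_nonneg (y - (2 * h + c) / 5)]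
  have h4 : 0 ≤ (K - 3 / 4 * c) * (c - K) := mul_nonneg (by linarith) (by linarith)
  have h5 : 0 ≤ c * (c - K) := mul_nonneg hc.le (by linarith)
  have h6 : 0 ≤ c * (K - 3 / 4 * c) := mul_nonneg hc.le (by linarith)
  have h7 := sq_nonneg (h - 9 / 2 * c)
  have h8 : 0 < c ^ 2 := by positivity
  rcases ff4_F0 c K F0 hc hF with hF | hF
  · nlinarith
  · nlinarith

/-- three levels, `J ≥ 3` -/
theorem strong3_three (c h K F0 x y z wx wy wz S : ℝ) (hc : 0 < c) (hK1 : 3 * c < 4 * K)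
    (hK2 : K ≤ c) (hh : 4 * c < 3 * h) (hx : 2 * x + c < 2 * h) (hy : 2 * y + c < 2 * h)
    (hz : 2 * z + c < 2 * h) (hxyz : 2 * h ≤ x + y + z)
    (hwx : c ≤ 2 * x → 2 * x * (x - c) + 8 * K * (c - K) ≤ wx)
    (hwy : c ≤ 2 * y → 2 * y * (y - c) + 8 * K * (c - K) ≤ wy)
    (hwz : c ≤ 2 * z → 2 * z * (z - c) + 8 * K * (c - K) ≤ wz)
    (hS1 : 1100 / 27 * K ^ 2 - 260 / 9 * K * c + 2 * c ^ 2 ≤ S)
    (hS2 : wx + wy + wz ≤ S) (hF : F0OK c K F0) :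
    4 / 5 * h ^ 2 + F0 ≤ S := by
  have ax := hwx (by linarith)
  have ay := hwy (by linarith)
  have az := hwz (by linarith)
  have hT : 8 / 3 * h ^ 2 - 4 * h * c + 24 * K * (c - K) ≤ S := by
    have e1 : (2 / 3) * (x + y + z) ^ 2 ≤ 2 * x ^ 2 + 2 * y ^ 2 + 2 * z ^ 2 := by
      nlinarith [sq_nonneg (x - y), sq_nonneg (y - z), sq_nonneg (x - z)]
    have e2 : 8 / 3 * h ^ 2 - 4 * h * c ≤ (2 / 3) * (x + y + z) ^ 2 - 2 * c * (x + y + z) := by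
      have := mul_nonneg (sub_nonneg.2 hxyz)
        (by linarith : 0 ≤ (2 / 3) * (x + y + z + 2 * h) - 2 * c)
      nlinarith
    nlinarith
  have hKK : 0 ≤ K * (c - K) := mul_nonneg (by linarith) (by linarith)
  rcases le_total K (81 / 100 * c) with hk | hk
  · have e3 : 36 / 10 * c ^ 2 ≤ 24 * K * (c - K) := by
      nlinarith [mul_nonneg (sub_nonneg.2 hk) (by linarith : 0 ≤ K - 3 / 4 * c)]
    have e4 : F0 ≤ c ^ 2 / 9 := by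
      rcases ff5_F0 c K F0 hc hK1 hK2 hF with h | h
      · exact h
      · nlinarith
    nlinarith [sq_nonneg (h - 15 / 14 * c)]
  · rcases le_total h (12 / 5 * c) with hh2 | hh2
    · have e5 : 4 / 5 * h ^ 2 ≤ 4608 / 1000 * c ^ 2 := by nlinarith
      rcases ff5_F0 c K F0 hc hK1 hK2 hF with h | h
      · nlinarith
      · nlinarith
    · have e6 : 1152 / 1000 * c ^ 2 ≤ 28 / 15 * h ^ 2 - 4 * h * c := by
        nlinarith [mul_nonneg (sub_nonneg.2 hh2) (by linarith : 0 ≤ h - 1 / 5 * c)]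
      rcases ff5_F0 c K F0 hc hK1 hK2 hF with h | h
      · nlinarith
      · have : (4 * K - 3 * c) ^ 2 ≤ c ^ 2 := by nlinarith
        nlinarith

/-- `J ≥ 3` : small `h` (used for `3h ≤ 4c` and for `2h ≤ 3c`) -/
theorem strong3_smallh (c h K F0 S : ℝ) (hc : 0 < c) (hK1 : 3 * c < 4 * K)
    (hK2 : K ≤ c) (hh : 2 * h ≤ 3 * c) (hh0 : 0 < h)
    (hS1 : 1100 / 27 * K ^ 2 - 260 / 9 * K * c + 2 * c ^ 2 ≤ S)
    (hF : F0OK c K F0) :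
    4 / 5 * h ^ 2 + F0 ≤ S := by
  have hh2 : h ^ 2 ≤ (3 / 2 * c) ^ 2 := pow_le_pow_left₀ hh0.le (by linarith) 2
  have hKc : 3 / 4 * c ≤ K := by linarith
  have hK2' : (3 / 4 * c) ^ 2 ≤ K ^ 2 := pow_le_pow_left₀ (by linarith) hKc 2
  have hKc2 : 3 / 4 * c * c ≤ K * c := mul_le_mul_of_nonneg_right hKc hc.le
  have hc2 : 0 < c ^ 2 := by positivity
  have hbase : 9 / 5 * c ^ 2 + 1 / 9 * c ^ 2 ≤ S := by nlinarith [mul_nonneg (by linarith : 0 ≤ K - 3 / 4 * c) hc.le, mul_nonneg (by linarith : 0 ≤ K - 3 / 4 * c) (by linarith : 0 ≤ K)]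
  rcases hF with hF | ⟨ρ, hρ, hF, h5 | ⟨h5, h6⟩⟩
  · nlinarith
  · have h8 : ρ ^ 2 ≤ (c / 3) ^ 2 := by
      apply pow_le_pow_left₀ hρ
      linarith
    nlinarith
  · have h8 : ρ ^ 2 ≤ (4 * K - 3 * c) ^ 2 := pow_le_pow_left₀ hρ h5 2
    nlinarith

/-- the strong case with `J ≥ 3` -/
theorem fi_strong3 {ι : Type*} [DecidableEq ι] (U : Finset ι)
    (g w : ι → ℝ) (c h K F0 : ℝ) (hc : 0 < c) (hh : 0 < h)
    (hK1 : 3 * c < 4 * K) (hK2 : K ≤ c)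
    (hL : ∀ u ∈ U, LevOK c h K (g u) (w u)) (hF : F0OK c K F0)
    (J : ℕ) (hJ : 3 ≤ J) (hU : U.card ≤ 2 * J)
    (hdead : 10 / 9 * (3 * (J:ℝ) + 1) * K ≤ c + ∑ u ∈ U, g u)
    (hbon : (∃ u ∈ U, 2 * h ≤ 2 * g u + c) ∨
      (∃ u ∈ U, ∃ v ∈ U, u ≠ v ∧ 2 * h ≤ 2 * g u + g v) ∨
      (∃ u ∈ U, ∃ v ∈ U, ∃ t ∈ U, u ≠ v ∧ u ≠ t ∧ v ≠ t ∧ 2 * h ≤ g u + g v + g t) ∨
      2 * h ≤ 3 * c) :
    4 / 5 * h ^ 2 + F0 ≤ ∑ u ∈ U, w u := by
  have hw : ∀ u ∈ U, 0 ≤ w u := fun u hu => (hL u hu).2.1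
  have hS1 := strong3_s U g w c K hc hK1 hK2 J hJ hU
    (fun u hu => (hL u hu).2.2.2.1) hdead
  rcases le_or_gt (2 * h) (3 * c) with hh2 | hh2
  · exact strong3_smallh c h K F0 _ hc hK1 hK2 hh2 hh hS1 hF
  · have hh3 : 4 * c < 3 * h := by linarith
    by_cases hbig : ∃ u ∈ U, 2 * h ≤ 2 * g u + c
    · exact strong3_a U g w c h K F0 hc hK1 hK2 hh3 J hJ hU hL hdead hF hbig
    · have hsm : ∀ u ∈ U, 2 * g u + c < 2 * h := by
        intro u hu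
        by_contra hcon
        exact hbig ⟨u, hu, not_lt.1 hcon⟩
      have hmid : ∀ u ∈ U, c ≤ 2 * g u →
          2 * g u * (g u - c) + 8 * K * (c - K) ≤ w u :=
        fun u hu => strong_lev c h K (g u) (w u) hc hK1 hK2 (hL u hu) (hsm u hu)
      rcases hbon with hb | ⟨u, hu, v, hv, huv, hb⟩ | ⟨u, hu, v, hv, t, ht, huv, hut, hvt, hb⟩ | hb
      · exact absurd hb hbig
      · exact strong3_uu c h K F0 (g u) (g v) (w u) (w v) _ hc hK1 hK2 hh3 (hsm u hu)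
          (hsm v hv) hb (hmid u hu) (hmid v hv) hS1 (fi_two U w hw u v hu hv huv) hF
      · exact strong3_three c h K F0 (g u) (g v) (g t) (w u) (w v) (w t) _ hc hK1 hK2 hh3
          (hsm u hu) (hsm v hv) (hsm t ht) hb (hmid u hu) (hmid v hv) (hmid t ht) hS1
          (fi_three U w hw u v t hu hv ht huv hut hvt) hF
      · linarith

/-- the numerical theorem, weaker hypothesis on the dead bound -/
theorem far_num' {ι : Type*} [DecidableEq ι] (U : Finset ι) (sg : ι → Prop)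
    [DecidablePred sg]
    (g w : ι → ℝ) (c h K D F0 : ℝ) (hc : 0 ≤ c) (hh : 0 < h) (hK : 0 ≤ K)
    (hL : ∀ u ∈ U, LevOK c h K (g u) (w u)) (hF : F0OK c K F0)
    (hD : D = ∑ u ∈ U.filter (fun u => sg u), g u - ∑ u ∈ U.filter (fun u => ¬ sg u), g u)
    (hT : 3 * c ≤ 4 * ∑ u ∈ U, g u) (J : ℕ) (hJ : 1 ≤ J)
    (hU1 : (U.filter (fun u => sg u)).card ≤ J) (hU2 : (U.filter (fun u => ¬ sg u)).card ≤ J)
    (hdead : 4 * K ≤ 3 * c ∨ 6 / 5 * (3 * (J:ℝ) + 1) * K ≤ c + ∑ u ∈ U, g u ∨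
      (3 ≤ J ∧ 10 / 9 * (3 * (J:ℝ) + 1) * K ≤ c + ∑ u ∈ U, g u))
    (hbon : (∃ u ∈ U, 2 * h ≤ 2 * g u + c) ∨
      (∃ u ∈ U, ∃ v ∈ U, u ≠ v ∧ 2 * h ≤ g u + g v + c) ∨
      (2 ≤ J ∧ ∃ u ∈ U, ∃ v ∈ U, u ≠ v ∧ 2 * h ≤ 2 * g u + g v) ∨
      (2 ≤ J ∧ ∃ u ∈ U, ∃ v ∈ U, ∃ t ∈ U, u ≠ v ∧ u ≠ t ∧ v ≠ t ∧ 2 * h ≤ g u + g v + g t) ∨
      2 * h ≤ 3 * c) :
    4 / 5 * h ^ 2 + F0 ≤ D ^ 2 + ∑ u ∈ U, w u ∨
      (c + ∑ u ∈ U, g u) ^ 2 / 3 + F0 ≤ D ^ 2 + ∑ u ∈ U, w u := by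
  have hL' : ∀ u ∈ U, LevOK c h (min K c) (g u) (w u) :=
    fun u hu => lev_min c h K (g u) (w u) (hL u hu)
  have hF' : F0OK c (min K c) F0 := f0_min c K F0 hF
  -- reduce the options: the second gives the first
  have hb2 : (∃ u ∈ U, 2 * h ≤ 2 * g u + c) ∨
      (2 ≤ J ∧ ∃ u ∈ U, ∃ v ∈ U, u ≠ v ∧ 2 * h ≤ 2 * g u + g v) ∨
      (2 ≤ J ∧ ∃ u ∈ U, ∃ v ∈ U, ∃ t ∈ U, u ≠ v ∧ u ≠ t ∧ v ≠ t ∧ 2 * h ≤ g u + g v + g t) ∨
      2 * h ≤ 3 * c := by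
    rcases hbon with hb | ⟨u, hu, v, hv, _, hb⟩ | hb | hb | hb
    · exact Or.inl hb
    · left
      rcases le_total (g u) (g v) with h1 | h1
      · exact ⟨v, hv, by linarith⟩
      · exact ⟨u, hu, by linarith⟩
    · exact Or.inr (Or.inl hb)
    · exact Or.inr (Or.inr (Or.inl hb))
    · exact Or.inr (Or.inr (Or.inr hb))
  have hb3 : (∃ u ∈ U, 2 * h ≤ 2 * g u + c) ∨
      (∃ u ∈ U, ∃ v ∈ U, u ≠ v ∧ 2 * h ≤ 2 * g u + g v) ∨
      (∃ u ∈ U, ∃ v ∈ U, ∃ t ∈ U, u ≠ v ∧ u ≠ t ∧ v ≠ t ∧ 2 * h ≤ g u + g v + g t) ∨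
      2 * h ≤ 3 * c := by
    rcases hb2 with hb | ⟨_, hb⟩ | ⟨_, hb⟩ | hb
    · exact Or.inl hb
    · exact Or.inr (Or.inl hb)
    · exact Or.inr (Or.inr (Or.inl hb))
    · exact Or.inr (Or.inr (Or.inr hb))
  rcases le_or_gt (4 * min K c) (3 * c) with hwk | hst
  · exact fi_weak U sg g w c h (min K c) D F0 hc hh hwk hL' hF' hD hT hb3
  · left
    have hKc : min K c ≤ c := min_le_right K c
    have hKK : min K c ≤ K := min_le_left K c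
    have hc' : 0 < c := by linarith
    have hcard : U.card ≤ 2 * J := by
      have h1 := Finset.card_filter_add_card_filter_not (s := U) (fun u => sg u)
      omega
    rcases hdead with hdead | hdead | ⟨hJ3, hdead⟩
    · linarith
    · have hJ' : (0:ℝ) ≤ 6 / 5 * (3 * (J:ℝ) + 1) := by positivity
      have hdead' : 6 / 5 * (3 * (J:ℝ) + 1) * min K c ≤ c + ∑ u ∈ U, g u :=
        le_trans (mul_le_mul_of_nonneg_left hKK hJ') hdead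
      rcases Nat.lt_or_ge J 2 with hJ2 | hJ2
      · have hJ1 : J = 1 := by omega
        subst hJ1
        have hdead2 : 24 / 5 * min K c ≤ c + ∑ u ∈ U, g u := by
          have h1 : 6 / 5 * (3 * ((1:ℕ):ℝ) + 1) * min K c = 24 / 5 * min K c := by
            push_cast; ring
          linarith
        have hb4 : (∃ u ∈ U, 2 * h ≤ 2 * g u + c) ∨ 2 * h ≤ 3 * c := by
          rcases hb2 with hb | ⟨hb, _⟩ | ⟨hb, _⟩ | hb
          · exact Or.inl hb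
          · omega
          · omega
          · exact Or.inr hb
        exact fi_strong_J1 U sg g w c h (min K c) D F0 hc' hh hst hKc hL' hF' hD hU1 hU2
          hdead2 hb4
      · have h1 := fi_strong_two U g w c h (min K c) F0 hc' hh hst hKc hL' hF' J hJ2 hcard
          hdead' hb3
        nlinarith [sq_nonneg D]
    · have hJ' : (0:ℝ) ≤ 10 / 9 * (3 * (J:ℝ) + 1) := by positivity
      have hdead' : 10 / 9 * (3 * (J:ℝ) + 1) * min K c ≤ c + ∑ u ∈ U, g u :=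
        le_trans (mul_le_mul_of_nonneg_left hKK hJ') hdead
      have h1 := fi_strong3 U g w c h (min K c) F0 hc' hh hst hKc hL' hF' J hJ3 hcard
        hdead' hb3
      nlinarith [sq_nonneg D]

end Pool.Agent.POS.Far
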