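import Mathlib
import Pool.Agent.Lib_helper25.POS.FarDefs
import Pool.Agent.Lib_helper25.PR.F3

/-!
# FAR without the alternative `3 F ≤ - b ^ 2`
-/

set_option autoImplicit false

namespace Pool.Agent.POS.Far

open Finset

/-- only `B_0` has a bonus: `3K ≤ c` -/
theorem far_d2 {ι : Type*} [DecidableEq ι] (U : Finset ι) (sg : ι → Prop) [DecidablePred sg]
    (g w : ι → ℝ) (c h K D : ℝ) (hc : 0 ≤ c) (hK : 3 * K ≤ c) (hh : 0 < h)
    (hh2 : 2 * h ≤ 3 * c) (hL : ∀ u ∈ U, LevOK c h K (g u) (w u))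
    (hD : D = ∑ u ∈ U.filter (fun u => sg u), g u - ∑ u ∈ U.filter (fun u => ¬ sg u), g u)
    (hT : 3 * c ≤ 4 * ∑ u ∈ U, g u) (hsm : ∀ u ∈ U, 2 * g u + c < 2 * h) :
    4 / 5 * h ^ 2 + 1 / 9 * c ^ 2 ≤ D ^ 2 + ∑ u ∈ U, w u := by
  have hK0 : 4 * K ≤ 3 * c := by linarith
  rcases U.eq_empty_or_nonempty with hU | ⟨u0, hu0⟩
  · subst hU
    simp only [Finset.sum_empty] at hT
    linarith
  have hg : ∀ u ∈ U, 0 ≤ g u := fun u hu => (hL u hu).1
  have hw0 : ∀ u ∈ U, 0 ≤ w u := fun u hu => (hL u hu).2.1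
  have hh0 : 0 ≤ h := by
    have h1 := hsm u0 hu0
    have h2 := hg u0 hu0
    linarith
  have hDsq : 0 ≤ D ^ 2 := sq_nonneg D
  -- bound for h
  have hb : 4 / 5 * h ^ 2 + 1 / 9 * c ^ 2 ≤ 153 / 80 * c ^ 2 := by
    have h1 : h ^ 2 ≤ (3 / 2 * c) ^ 2 := pow_le_pow_left₀ hh0 (by linarith) 2
    have h2 : 0 ≤ c ^ 2 := sq_nonneg c
    nlinarith [h1, h2]
  by_cases h1 : ∃ u ∈ U, c ≤ 4 * g u
  · obtain ⟨u, hu, hGu⟩ := h1
    have hwu : 9 / 8 * c ^ 2 ≤ w u := fd_mid c h K (g u) (w u) hc hK0 (hL u hu) (hsm u hu) hh2 hGu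
    have hsumw : ∑ v ∈ U, w v = w u + ∑ v ∈ U.erase u, w v := (Finset.add_sum_erase U w hu).symm
    have hsumg : ∑ v ∈ U, g v = g u + ∑ v ∈ U.erase u, g v := (Finset.add_sum_erase U g hu).symm
    by_cases h2 : ∃ v ∈ U.erase u, c ≤ 4 * g v
    · obtain ⟨v, hv, hGv⟩ := h2
      have hvU := Finset.mem_of_mem_erase hv
      have hwv : 9 / 8 * c ^ 2 ≤ w v :=
        fd_mid c h K (g v) (w v) hc hK0 (hL v hvU) (hsm v hvU) hh2 hGv
      have h3 : w v ≤ ∑ v ∈ U.erase u, w v :=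
        Finset.single_le_sum (f := w) (fun t ht => hw0 t (Finset.mem_of_mem_erase ht)) hv
      have h4 : 0 ≤ c ^ 2 := sq_nonneg c
      rw [hsumw]
      nlinarith [h3, h4, hwu, hwv, hb]
    · push Not at h2
      obtain ⟨S, hS⟩ : ∃ S, S = ∑ v ∈ U.erase u, g v := ⟨_, rfl⟩
      have hS0 : 0 ≤ S := by
        rw [hS]
        exact Finset.sum_nonneg fun t ht => hg t (Finset.mem_of_mem_erase ht)
      have h3 : 9 / 2 * c * S ≤ ∑ v ∈ U.erase u, w v := by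
        rw [hS, Finset.mul_sum]
        apply Finset.sum_le_sum
        intro t ht
        exact fd_small c h K (g t) (w t) (hL t (Finset.mem_of_mem_erase ht)) (h2 t ht).le
      by_cases h4 : 7 * c ≤ 40 * S
      · rw [hsumw]
        have h5 : 0 ≤ c * (40 * S - 7 * c) := mul_nonneg hc (by linarith)
        nlinarith [h5, h3, hwu, hb, hDsq]
      · have h4' : 40 * S < 7 * c := not_le.1 h4
        have hTG : 3 * c ≤ 4 * (g u + S) := by
          rw [hsumg, ← hS] at hT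
          exact hT
        have h6 : (g u - S) ^ 2 ≤ D ^ 2 := by
          rw [hS]
          apply fd_D U sg g D hg hD u hu
          rw [← hS]
          linarith
        have hwu2 : 2 * (g u) ^ 2 - 2 * g u * c + 16 / 9 * c ^ 2 ≤ w u := by
          obtain ⟨β, hβ0, hβ1, hβ2⟩ := (hL u hu).2.2.2.2 (by linarith)
          have hsu := hsm u hu
          rcases hβ2 with h7 | ⟨h7, _⟩ | ⟨_, _, h7⟩
          · have h8 : β ^ 2 ≤ (c / 3) ^ 2 := pow_le_pow_left₀ hβ0 (by linarith) 2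
            nlinarith [h8, hβ1]
          · exfalso; linarith
          · exfalso
            have := h7 (by linarith)
            linarith
        rw [hsumw]
        obtain ⟨a, ha⟩ : ∃ a, a = g u - (3 / 4 * c - S) := ⟨_, rfl⟩
        have ha0 : 0 ≤ a := by rw [ha]; linarith
        have hgu : g u = a + 3 / 4 * c - S := by rw [ha]; ring
        have h7 : 0 ≤ a * (7 * c - 40 * S) := mul_nonneg ha0 (by linarith)
        have h8 : 0 ≤ a * c := mul_nonneg ha0 hc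
        have h9 : 0 ≤ c * S := mul_nonneg hc hS0
        have h10 : 0 ≤ c ^ 2 := sq_nonneg c
        have h11 : 0 ≤ a ^ 2 := sq_nonneg a
        have h12 : 0 ≤ S ^ 2 := sq_nonneg S
        rw [hgu] at hwu2 h6
        nlinarith [h3, h6, h7, h8, h9, h10, h11, h12, hwu2, hb]
  · push Not at h1
    have h3 : 9 / 2 * c * (∑ v ∈ U, g v) ≤ ∑ v ∈ U, w v := by
      rw [Finset.mul_sum]
      apply Finset.sum_le_sum
      intro t ht
      exact fd_small c h K (g t) (w t) (hL t ht) (h1 t ht).le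
    have h5 : 0 ≤ c * (4 * (∑ v ∈ U, g v) - 3 * c) := mul_nonneg hc (by linarith)
    have h4 : 0 ≤ c ^ 2 := sq_nonneg c
    nlinarith [h5, h3, h4, hb, hDsq]

/-- the weak case, no second alternative -/
theorem fi_weak2 {ι : Type*} [DecidableEq ι] (U : Finset ι) (sg : ι → Prop) [DecidablePred sg]
    (g w : ι → ℝ) (c h K D F0 : ℝ) (hc : 0 ≤ c) (hh : 0 < h) (hKn : 0 ≤ K)
    (hK : 4 * K ≤ 3 * c)
    (hL : ∀ u ∈ U, LevOK c h K (g u) (w u)) (hF : F0OK c K F0)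
    (hD : D = ∑ u ∈ U.filter (fun u => sg u), g u - ∑ u ∈ U.filter (fun u => ¬ sg u), g u)
    (hT : 3 * c ≤ 4 * ∑ u ∈ U, g u)
    (hbon : (∃ u ∈ U, 2 * h ≤ 2 * g u + c) ∨
      (∃ u ∈ U, ∃ v ∈ U, u ≠ v ∧ 2 * h ≤ 2 * g u + g v) ∨
      (∃ u ∈ U, ∃ v ∈ U, ∃ t ∈ U, u ≠ v ∧ u ≠ t ∧ v ≠ t ∧ 2 * h ≤ g u + g v + g t) ∨
      (2 * h ≤ 3 * c ∧ K ^ 2 ≤ F0)) :
    4 / 5 * h ^ 2 + F0 ≤ D ^ 2 + ∑ u ∈ U, w u := by
  have hF' := fi_f0_weak c K F0 hK hF
  have hw : ∀ u ∈ U, 0 ≤ w u := fun u hu => (hL u hu).2.1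
  rcases le_or_gt (3 * h) (4 * c) with hh2 | hh2
  · have h1 := far_a U sg g w c h K D hc hK hL hD hT
    nlinarith [mul_nonneg hc hh.le]
  · by_cases hbig : ∃ u ∈ U, 2 * h ≤ 2 * g u + c
    · have h1 := far_b U sg g w c h K D hc hK hh2 hL hD hbig
      linarith
    · have hsm : ∀ u ∈ U, 2 * g u + c < 2 * h := by
        intro u hu
        by_contra hcon
        exact hbig ⟨u, hu, not_lt.1 hcon⟩
      have hmid : ∀ u ∈ U, c ≤ 2 * g u →
          2 * ((g u) ^ 2 - g u * c + 3 / 4 * c ^ 2) ≤ w u :=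
        fun u hu => lev_mid c h K (g u) (w u) hK hc (hL u hu) (hsm u hu)
      rcases hbon with hb | ⟨u, hu, v, hv, huv, hb⟩ | ⟨u, hu, v, hv, t, ht, huv, hut, hvt, hb⟩ | hb
      · exact absurd hb hbig
      · have h1 := num_uu c h (g u) (g v) (w u) (w v) hc hh2 (hsm u hu) (hsm v hv) hb
          (hmid u hu) (hmid v hv)
        have h2 := fi_two U w hw u v hu hv huv
        nlinarith [sq_nonneg D]
      · have h1 := num_three3 c h (g u) (g v) (g t) (w u) (w v) (w t) hc hh2 (hsm u hu)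
          (hsm v hv) (hsm t ht) hb (hmid u hu) (hmid v hv) (hmid t ht)
        have h2 := fi_three U w hw u v t hu hv ht huv hut hvt
        nlinarith [sq_nonneg D]
      · have h3K : 3 * K ≤ c := by
          by_contra hcon
          push Not at hcon
          have h1 : (c / 3) ^ 2 < K ^ 2 := pow_lt_pow_left₀ (by linarith) (by linarith) (by norm_num)
          have h2 : K ^ 2 ≤ 1 / 9 * c ^ 2 := hb.2.trans hF'
          linarith
        have h1 := far_d2 U sg g w c h K D hc h3K hh hb.1 hL hD hT hsm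
        linarith

/-- the numerical theorem, no second alternative -/
theorem far_num2 {ι : Type*} [DecidableEq ι] (U : Finset ι) (sg : ι → Prop)
    [DecidablePred sg]
    (g w : ι → ℝ) (c h K D F0 : ℝ) (hc : 0 ≤ c) (hh : 0 < h) (hK : 0 ≤ K)
    (hL : ∀ u ∈ U, LevOK c h K (g u) (w u)) (hF : F0OK c K F0)
    (hD : D = ∑ u ∈ U.filter (fun u => sg u), g u - ∑ u ∈ U.filter (fun u => ¬ sg u), g u)
    (hT : 3 * c ≤ 4 * ∑ u ∈ U, g u) (J : ℕ) (hJ : 1 ≤ J)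
    (hU1 : (U.filter (fun u => sg u)).card ≤ J) (hU2 : (U.filter (fun u => ¬ sg u)).card ≤ J)
    (hdead : 4 * K ≤ 3 * c ∨ 6 / 5 * (3 * (J:ℝ) + 1) * K ≤ c + ∑ u ∈ U, g u ∨
      (3 ≤ J ∧ 10 / 9 * (3 * (J:ℝ) + 1) * K ≤ c + ∑ u ∈ U, g u))
    (hbon : (∃ u ∈ U, 2 * h ≤ 2 * g u + c) ∨
      (∃ u ∈ U, ∃ v ∈ U, u ≠ v ∧ 2 * h ≤ g u + g v + c) ∨
      (2 ≤ J ∧ ∃ u ∈ U, ∃ v ∈ U, u ≠ v ∧ 2 * h ≤ 2 * g u + g v) ∨
      (2 ≤ J ∧ ∃ u ∈ U, ∃ v ∈ U, ∃ t ∈ U, u ≠ v ∧ u ≠ t ∧ v ≠ t ∧ 2 * h ≤ g u + g v + g t) ∨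
      (2 * h ≤ 3 * c ∧ K ^ 2 ≤ F0)) :
    4 / 5 * h ^ 2 + F0 ≤ D ^ 2 + ∑ u ∈ U, w u := by
  have hL' : ∀ u ∈ U, LevOK c h (min K c) (g u) (w u) :=
    fun u hu => lev_min c h K (g u) (w u) (hL u hu)
  have hF' : F0OK c (min K c) F0 := f0_min c K F0 hF
  -- reduce the options: the second gives the first
  have hb2 : (∃ u ∈ U, 2 * h ≤ 2 * g u + c) ∨
      (2 ≤ J ∧ ∃ u ∈ U, ∃ v ∈ U, u ≠ v ∧ 2 * h ≤ 2 * g u + g v) ∨
      (2 ≤ J ∧ ∃ u ∈ U, ∃ v ∈ U, ∃ t ∈ U, u ≠ v ∧ u ≠ t ∧ v ≠ t ∧ 2 * h ≤ g u + g v + g t) ∨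
      2 * h ≤ 3 * c := by
    rcases hbon with hb | ⟨u, hu, v, hv, _, hb⟩ | hb | hb | hb
    · exact Or.inl hb
    · left
      rcases le_total (g u) (g v) with h1 | h1
      · exact ⟨v, hv, by linarith⟩
      · exact ⟨u, hu, by linarith⟩
    · exact Or.inr (Or.inl hb)
    · exact Or.inr (Or.inr (Or.inl hb))
    · exact Or.inr (Or.inr (Or.inr hb.1))
  have hb3 : (∃ u ∈ U, 2 * h ≤ 2 * g u + c) ∨
      (∃ u ∈ U, ∃ v ∈ U, u ≠ v ∧ 2 * h ≤ 2 * g u + g v) ∨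
      (∃ u ∈ U, ∃ v ∈ U, ∃ t ∈ U, u ≠ v ∧ u ≠ t ∧ v ≠ t ∧ 2 * h ≤ g u + g v + g t) ∨
      2 * h ≤ 3 * c := by
    rcases hb2 with hb | ⟨_, hb⟩ | ⟨_, hb⟩ | hb
    · exact Or.inl hb
    · exact Or.inr (Or.inl hb)
    · exact Or.inr (Or.inr (Or.inl hb))
    · exact Or.inr (Or.inr (Or.inr hb))
  have hmn : 0 ≤ min K c := le_min hK hc
  have hb5 : (∃ u ∈ U, 2 * h ≤ 2 * g u + c) ∨
      (∃ u ∈ U, ∃ v ∈ U, u ≠ v ∧ 2 * h ≤ 2 * g u + g v) ∨
      (∃ u ∈ U, ∃ v ∈ U, ∃ t ∈ U, u ≠ v ∧ u ≠ t ∧ v ≠ t ∧ 2 * h ≤ g u + g v + g t) ∨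
      (2 * h ≤ 3 * c ∧ (min K c) ^ 2 ≤ F0) := by
    rcases hbon with hb | ⟨u, hu, v, hv, _, hb⟩ | ⟨_, hb⟩ | ⟨_, hb⟩ | hb
    · exact Or.inl hb
    · left
      rcases le_total (g u) (g v) with h1 | h1
      · exact ⟨v, hv, by linarith⟩
      · exact ⟨u, hu, by linarith⟩
    · exact Or.inr (Or.inl hb)
    · exact Or.inr (Or.inr (Or.inl hb))
    · refine Or.inr (Or.inr (Or.inr ⟨hb.1, ?_⟩))
      exact (pow_le_pow_left₀ hmn (min_le_left K c) 2).trans hb.2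
  rcases le_or_gt (4 * min K c) (3 * c) with hwk | hst
  · exact fi_weak2 U sg g w c h (min K c) D F0 hc hh hmn hwk hL' hF' hD hT hb5
  · have hKc : min K c ≤ c := min_le_right K c
    have hKK : min K c ≤ K := min_le_left K c
    have hc' : 0 < c := by linarith
    have hcard : U.card ≤ 2 * J := by
      have h1 := Finset.card_filter_add_card_filter_not (s := U) (fun u => sg u)
      omega
    rcases hdead with hdead | hdead | ⟨hJ3, hdead⟩
    · linarith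
    · have hJ' : (0:ℝ) ≤ 6 / 5 * (3 * (J:ℝ) + 1) := by positivity
      have hdead' : 6 / 5 * (3 * (J:ℝ) + 1) * min K c ≤ c + ∑ u ∈ U, g u :=
        le_trans (mul_le_mul_of_nonneg_left hKK hJ') hdead
      rcases Nat.lt_or_ge J 2 with hJ2 | hJ2
      · have hJ1 : J = 1 := by omega
        subst hJ1
        have hdead2 : 24 / 5 * min K c ≤ c + ∑ u ∈ U, g u := by
          have h1 : 6 / 5 * (3 * ((1:ℕ):ℝ) + 1) * min K c = 24 / 5 * min K c := by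
            push_cast; ring
          linarith
        have hb4 : (∃ u ∈ U, 2 * h ≤ 2 * g u + c) ∨ 2 * h ≤ 3 * c := by
          rcases hb2 with hb | ⟨hb, _⟩ | ⟨hb, _⟩ | hb
          · exact Or.inl hb
          · omega
          · omega
          · exact Or.inr hb
        exact fi_strong_J1 U sg g w c h (min K c) D F0 hc' hh hst hKc hL' hF' hD hU1 hU2
          hdead2 hb4
      · have h1 := fi_strong_two U g w c h (min K c) F0 hc' hh hst hKc hL' hF' J hJ2 hcard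
          hdead' hb3
        nlinarith [sq_nonneg D]
    · have hJ' : (0:ℝ) ≤ 10 / 9 * (3 * (J:ℝ) + 1) := by positivity
      have hdead' : 10 / 9 * (3 * (J:ℝ) + 1) * min K c ≤ c + ∑ u ∈ U, g u :=
        le_trans (mul_le_mul_of_nonneg_left hKK hJ') hdead
      have h1 := fi_strong3 U g w c h (min K c) F0 hc' hh hst hKc hL' hF' J hJ3 hcard
        hdead' hb3
      nlinarith [sq_nonneg D]

end Pool.Agent.POS.Far
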