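import Mathlib
import Pool.Agent.Lib_helper25.POS.FarDefs
import Pool.Agent.Lib_helper25.PR.F4

/-!
# FAR, `J = 2` with the weaker hypothesis `70 K ≤ 9 b`
-/

set_option autoImplicit false

namespace Pool.Agent.POS.Far

open Finset

theorem f5_q0 (c K F0 G : ℝ) (hc : 0 < c) (hK1 : 3 * c < 4 * K) (hK2 : K ≤ c)
    (hF : F0 ≤ c ^ 2 / 9 ∨ F0 ≤ (4 * K - 3 * c) ^ 2) :
    0 ≤ 6 / 5 * G ^ 2 - 36 / 7 * K * G + (1474 / 49 * K ^ 2 - 1304 / 63 * K * c + 2 * c ^ 2)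
      - F0 := by
  have h1 : 0 ≤ 6 / 5 * (G - 15 / 7 * K) ^ 2 := by positivity
  have h2 := mul_pos hc hc
  have h3 := mul_nonneg (sub_nonneg.2 hK2) hc.le
  have h4 := mul_pos (sub_pos.2 hK1) (sub_pos.2 hK1)
  have h5 := mul_pos (sub_pos.2 hK1) hc
  rcases hF with h | h
  · nlinarith
  · nlinarith

theorem f5_q1 (c K F0 G : ℝ) (hc : 0 < c) (hK1 : 3 * c < 4 * K) (hK2 : K ≤ c)
    (hF : F0 ≤ c ^ 2 / 9 ∨ F0 ≤ (4 * K - 3 * c) ^ 2) :
    0 ≤ 2 * G * (G - c) + 8 * K * (c - K) - (36 / 7 * K - 2 * c) * G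
      + (1474 / 49 * K ^ 2 - 1304 / 63 * K * c + 2 * c ^ 2) - 4 / 5 * (G + c / 2) ^ 2 - F0 := by
  have h1 : 0 ≤ 6 / 5 * (G - (15 / 7 * K + c / 3)) ^ 2 := by positivity
  have h2 := mul_pos hc hc
  have h3 := mul_nonneg (sub_nonneg.2 hK2) hc.le
  have h4 := mul_pos (sub_pos.2 hK1) (sub_pos.2 hK1)
  have h5 := mul_pos (sub_pos.2 hK1) hc
  rcases hF with h | h
  · nlinarith
  · nlinarith

theorem f5_q2 (c K F0 G : ℝ) (hc : 0 < c) (hK1 : 3 * c < 4 * K) (hK2 : K ≤ c)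
    (hF : F0 ≤ c ^ 2 / 9 ∨ F0 ≤ (4 * K - 3 * c) ^ 2) :
    0 ≤ 2 * G * (G - c) + 2 * c ^ 2 - (36 / 7 * K - 2 * c) * G
      + (1474 / 49 * K ^ 2 - 1304 / 63 * K * c + 2 * c ^ 2) - 4 / 5 * (G + c / 2) ^ 2 - F0 := by
  have h1 := f5_q1 c K F0 G hc hK1 hK2 hF
  have h2 : 8 * K * (c - K) ≤ 2 * c ^ 2 := by nlinarith [sq_nonneg (2 * K - c)]
  linarith

theorem f5_q3 (c K F0 G h : ℝ) (hc : 0 < c) (hK1 : 3 * c < 4 * K) (hK2 : K ≤ c)
    (hF : F0 ≤ c ^ 2 / 9 ∨ F0 ≤ (4 * K - 3 * c) ^ 2) (h1 : G ≤ h) (h2 : 2 * h ≤ 2 * G + c) :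
    0 ≤ 2 * G * (G - c) + 8 * (h - G) * (c - (h - G)) - (36 / 7 * K - 2 * c) * G
      + (1474 / 49 * K ^ 2 - 1304 / 63 * K * c + 2 * c ^ 2) - 4 / 5 * h ^ 2 - F0 := by
  have a0 := f5_q0 c K F0 h hc hK1 hK2 hF
  have a1 := f5_q2 c K F0 (h - c / 2) hc hK1 hK2 hF
  have hv0 : 0 ≤ h - G := by linarith
  have hv1 : 0 ≤ c - 2 * (h - G) := by linarith
  have b0 := mul_nonneg hv1 a0
  have b1 := mul_nonneg hv0 a1
  have b2 := mul_nonneg hc.le (mul_nonneg hv0 hv1)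
  have key : c * (2 * G * (G - c) + 8 * (h - G) * (c - (h - G)) - (36 / 7 * K - 2 * c) * G
      + (1474 / 49 * K ^ 2 - 1304 / 63 * K * c + 2 * c ^ 2) - 4 / 5 * h ^ 2 - F0)
      = (c - 2 * (h - G)) * (6 / 5 * h ^ 2 - 36 / 7 * K * h
          + (1474 / 49 * K ^ 2 - 1304 / 63 * K * c + 2 * c ^ 2) - F0)
        + 2 * ((h - G) * (2 * (h - c / 2) * ((h - c / 2) - c) + 2 * c ^ 2
          - (36 / 7 * K - 2 * c) * (h - c / 2)
          + (1474 / 49 * K ^ 2 - 1304 / 63 * K * c + 2 * c ^ 2)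
          - 4 / 5 * ((h - c / 2) + c / 2) ^ 2 - F0))
        + 3 * (c * ((h - G) * (c - 2 * (h - G)))) := by
    ring
  have : 0 ≤ c * (2 * G * (G - c) + 8 * (h - G) * (c - (h - G)) - (36 / 7 * K - 2 * c) * G
      + (1474 / 49 * K ^ 2 - 1304 / 63 * K * c + 2 * c ^ 2) - 4 / 5 * h ^ 2 - F0) := by
    rw [key]; linarith
  exact nonneg_of_mul_nonneg_right this hc

/-- the other three levels -/
theorem f5_others {ι : Type*} [DecidableEq ι] (V : Finset ι) (g w : ι → ℝ) (c K G : ℝ)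
    (hc : 0 < c) (hK1 : 3 * c < 4 * K) (hV : V.card + 1 ≤ 4)
    (hw : ∀ u ∈ V, 2 * g u * (g u - c) ≤ w u)
    (hT : 70 / 9 * K ≤ c + (G + ∑ u ∈ V, g u)) :
    1474 / 49 * K ^ 2 - 1304 / 63 * K * c + 2 * c ^ 2 - (36 / 7 * K - 2 * c) * G
      ≤ ∑ u ∈ V, w u := by
  have h1 : ∑ u ∈ V, (2 * (18 / 7 * K - c) * g u - 162 / 49 * K ^ 2) ≤ ∑ u ∈ V, w u := by
    refine Finset.sum_le_sum fun u hu => ?_
    have := hw u hu
    nlinarith [sq_nonneg (g u - 9 / 7 * K)]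
  rw [Finset.sum_sub_distrib, ← Finset.mul_sum, Finset.sum_const, nsmul_eq_mul] at h1
  have h2 : (V.card : ℝ) + 1 ≤ 4 := by exact_mod_cast hV
  have h4 : 0 < 18 / 7 * K - c := by linarith
  have h6 : (V.card : ℝ) * (162 / 49 * K ^ 2) ≤ 3 * (162 / 49 * K ^ 2) :=
    mul_le_mul_of_nonneg_right (by linarith) (by positivity)
  have h7 : 2 * (18 / 7 * K - c) * (70 / 9 * K - c - G)
      ≤ 2 * (18 / 7 * K - c) * ∑ u ∈ V, g u :=
    mul_le_mul_of_nonneg_left (by linarith) (by linarith)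
  nlinarith

/-- a large level -/
theorem strong5_a {ι : Type*} [DecidableEq ι] (U : Finset ι) (g w : ι → ℝ)
    (c h K F0 : ℝ) (hc : 0 < c) (hK1 : 3 * c < 4 * K) (hK2 : K ≤ c) (hh : 4 * c < 3 * h)
    (hU : U.card ≤ 4) (hL : ∀ u ∈ U, LevOK c h K (g u) (w u))
    (hT : 70 / 9 * K ≤ c + ∑ u ∈ U, g u) (hF : F0OK c K F0)
    (hbig : ∃ u ∈ U, 2 * h ≤ 2 * g u + c) :
    4 / 5 * h ^ 2 + F0 ≤ ∑ u ∈ U, w u := by
  obtain ⟨u0, hu0, hbig⟩ := hbig
  have hF' := ff1_F0 c K F0 hK1 hF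
  rw [← Finset.add_sum_erase U g hu0] at hT
  rw [← Finset.add_sum_erase U w hu0]
  have hV : (U.erase u0).card + 1 ≤ 4 := by
    rw [Finset.card_erase_add_one hu0]; exact hU
  have ho := f5_others (U.erase u0) g w c K (g u0) hc hK1 hV
    (fun u hu => (hL u (Finset.mem_of_mem_erase hu)).2.2.2.1) hT
  obtain ⟨hx0, hw0, hw1, hw2, hopt⟩ := hL u0 hu0
  set G := g u0 with hG
  set wG := w u0 with hwG
  have hG0 : c ≤ 2 * G := by linarith
  rcases le_or_gt h G with hhG | hhG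
  · have h0 : h ^ 2 ≤ G ^ 2 := by
      have : 0 < h := by linarith
      nlinarith
    have a0 := f5_q0 c K F0 G hc hK1 hK2 hF'
    nlinarith
  · obtain ⟨β, hβ0, hβw, hβ⟩ := hopt hG0
    rcases hβ with h1 | ⟨h1, h2⟩ | ⟨h1, h2, h3⟩
    · have a1 := f5_q1 c K F0 G hc hK1 hK2 hF'
      have b1 : h ^ 2 ≤ (G + c / 2) ^ 2 := by
        have : 0 < h := by linarith
        nlinarith
      have b2 : β ^ 2 ≤ c ^ 2 / 9 := by nlinarith
      have b3 : 8 * K * (c - K) ≤ 16 / 9 * c ^ 2 := by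
        nlinarith [sq_nonneg (2 * K - c), mul_pos (sub_pos.2 hK1) hc,
          mul_pos (sub_pos.2 hK1) (sub_pos.2 hK1)]
      nlinarith
    · have a1 := f5_q1 c K F0 G hc hK1 hK2 hF'
      have b1 : h ^ 2 ≤ (G + c / 2) ^ 2 := by
        have : 0 < h := by linarith
        nlinarith
      have b2 : β ^ 2 ≤ (2 * K - c) ^ 2 := by nlinarith
      nlinarith
    · have h3' := h3 hhG
      have a3 := f5_q3 c K F0 G h hc hK1 hK2 hF' hhG.le hbig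
      have b2 : β ^ 2 ≤ (c - 2 * (h - G)) ^ 2 := by nlinarith
      nlinarith

/-- the bound without `h` -/
theorem strong5_s {ι : Type*} [DecidableEq ι] (U : Finset ι) (g w : ι → ℝ)
    (c K : ℝ) (hc : 0 < c) (hK1 : 3 * c < 4 * K) (hK2 : K ≤ c)
    (hU : U.card ≤ 4) (hw : ∀ u ∈ U, 2 * g u * (g u - c) ≤ w u)
    (hT : 70 / 9 * K ≤ c + ∑ u ∈ U, g u) :
    2450 / 81 * K ^ 2 - 70 / 3 * K * c + 5 / 2 * c ^ 2 ≤ ∑ u ∈ U, w u := by
  have hcard : ((U.card : ℕ) : ℝ) ≤ 4 := by exact_mod_cast hU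
  obtain ⟨S, hS⟩ : ∃ S, S = ∑ u ∈ U, g u := ⟨_, rfl⟩
  have hsq : S ^ 2 ≤ (U.card : ℝ) * ∑ u ∈ U, g u ^ 2 := by
    rw [hS]; exact sq_sum_le_card_mul_sum_sq
  have hsq0 : (0:ℝ) ≤ ∑ u ∈ U, g u ^ 2 := Finset.sum_nonneg fun u _ => sq_nonneg _
  have hsq2 : S ^ 2 ≤ 4 * ∑ u ∈ U, g u ^ 2 :=
    hsq.trans (mul_le_mul_of_nonneg_right hcard hsq0)
  have hws : 2 * (∑ u ∈ U, g u ^ 2) - 2 * c * S ≤ ∑ u ∈ U, w u := by
    have h1 : ∑ u ∈ U, (2 * g u * (g u - c)) ≤ ∑ u ∈ U, w u := Finset.sum_le_sum hw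
    have h2 : ∑ u ∈ U, (2 * g u * (g u - c)) = 2 * (∑ u ∈ U, g u ^ 2) - 2 * c * S := by
      rw [hS, Finset.mul_sum, Finset.mul_sum, ← Finset.sum_sub_distrib]
      exact Finset.sum_congr rfl fun u _ => by ring
    rw [← h2]; exact h1
  rw [← hS] at hT
  have hSS : 70 / 9 * K - c ≤ S := by linarith
  have h3 : 0 ≤ (S - (70 / 9 * K - c)) * (S + (70 / 9 * K - c) - 4 * c) :=
    mul_nonneg (by linarith) (by linarith)
  nlinarith

/-- two levels -/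
theorem strong5_uu (c h K F0 x y wx wy S R : ℝ) (hc : 0 < c) (hK1 : 3 * c < 4 * K)
    (hK2 : K ≤ c) (hh : 4 * c < 3 * h) (hh2 : 3 * c ≤ 2 * h)
    (hx : 2 * x + c < 2 * h) (hy : 2 * y + c < 2 * h)
    (hxy : 2 * h ≤ 2 * x + y)
    (hwx : c ≤ 2 * x → 2 * x * (x - c) + 8 * K * (c - K) ≤ wx)
    (hwy : c ≤ 2 * y → 2 * y * (y - c) + 8 * K * (c - K) ≤ wy)
    (hT : 70 / 9 * K ≤ c + (x + y + R))
    (hS1 : wx + wy + (4 * c * R - 9 * c ^ 2) ≤ S)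
    (hS2 : wx + wy ≤ S) (hF : F0OK c K F0) :
    4 / 5 * h ^ 2 + F0 ≤ S := by
  have h1 := hwx (by linarith)
  have h2 := hwy (by linarith)
  have h3 : 4 / 5 * (2 * h - 3 * c) ^ 2 ≤ 4 * (x - c) ^ 2 + 4 * (y - c) ^ 2 := by
    have e1 : 0 ≤ (2 * (x - c) + (y - c) - (2 * h - 3 * c))
        * (2 * (x - c) + (y - c) + (2 * h - 3 * c)) :=
      mul_nonneg (by linarith) (by linarith)
    nlinarith [sq_nonneg ((x - c) - 2 * (y - c))]
  have hR : 4 * c * (70 / 9 * K - c - x - y) ≤ 4 * c * R :=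
    mul_le_mul_of_nonneg_left (by linarith) (by linarith)
  have h4 : 0 ≤ (K - 3 / 4 * c) * (c - K) := mul_nonneg (by linarith) (by linarith)
  have h5 : 0 ≤ c * (c - K) := mul_nonneg hc.le (by linarith)
  have h6 : 0 ≤ c * (K - 3 / 4 * c) := mul_nonneg hc.le (by linarith)
  have h7 := sq_nonneg (h - 3 * c)
  have h8 : 0 < c ^ 2 := by positivity
  rcases ff4_F0 c K F0 hc hF with hF | hF
  · nlinarith
  · nlinarith

/-- three levels -/
theorem strong5_three (c h K F0 x y z wx wy wz S : ℝ) (hc : 0 < c) (hK1 : 3 * c < 4 * K)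
    (hK2 : K ≤ c) (hh : 4 * c < 3 * h) (hx : 2 * x + c < 2 * h) (hy : 2 * y + c < 2 * h)
    (hz : 2 * z + c < 2 * h) (hxyz : 2 * h ≤ x + y + z)
    (hwx : c ≤ 2 * x → 2 * x * (x - c) + 8 * K * (c - K) ≤ wx)
    (hwy : c ≤ 2 * y → 2 * y * (y - c) + 8 * K * (c - K) ≤ wy)
    (hwz : c ≤ 2 * z → 2 * z * (z - c) + 8 * K * (c - K) ≤ wz)
    (hS1 : 2450 / 81 * K ^ 2 - 70 / 3 * K * c + 5 / 2 * c ^ 2 ≤ S)
    (hS2 : wx + wy + wz ≤ S) (hF : F0OK c K F0) :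
    4 / 5 * h ^ 2 + F0 ≤ S := by
  have ax := hwx (by linarith)
  have ay := hwy (by linarith)
  have az := hwz (by linarith)
  have hT : 8 / 3 * h ^ 2 - 4 * h * c + 24 * K * (c - K) ≤ S := by
    have e1 : (2 / 3) * (x + y + z) ^ 2 ≤ 2 * x ^ 2 + 2 * y ^ 2 + 2 * z ^ 2 := by
      nlinarith [sq_nonneg (x - y), sq_nonneg (y - z), sq_nonneg (x - z)]
    have e2 : 8 / 3 * h ^ 2 - 4 * h * c ≤ (2 / 3) * (x + y + z) ^ 2 - 2 * c * (x + y + z) := by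
      have := mul_nonneg (sub_nonneg.2 hxyz)
        (by linarith : 0 ≤ (2 / 3) * (x + y + z + 2 * h) - 2 * c)
      nlinarith
    nlinarith
  have hKK : 0 ≤ K * (c - K) := mul_nonneg (by linarith) (by linarith)
  have hc2 : 0 < c ^ 2 := by positivity
  have hsq := sq_nonneg (h - 15 / 14 * c)
  rcases le_total K (88 / 100 * c) with hk | hk
  · have e0 := mul_nonneg (sub_nonneg.2 hk) (by linarith : 0 ≤ K - 3 / 4 * c)
    have e1 := mul_nonneg (sub_nonneg.2 hk) hc.le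
    rcases ff5_F0 c K F0 hc hK1 hK2 hF with h | h
    · nlinarith
    · nlinarith
  · have e0 := mul_nonneg (sub_nonneg.2 hk) (by linarith : 0 ≤ K)
    have e1 := mul_nonneg (sub_nonneg.2 hk) hc.le
    rcases le_total h (12 / 5 * c) with hh2 | hh2
    · have e5 : 4 / 5 * h ^ 2 ≤ 4608 / 1000 * c ^ 2 := by nlinarith
      rcases ff5_F0 c K F0 hc hK1 hK2 hF with h | h
      · nlinarith
      · nlinarith
    · have e6 : 1152 / 1000 * c ^ 2 ≤ 28 / 15 * h ^ 2 - 4 * h * c := by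
        nlinarith [mul_nonneg (sub_nonneg.2 hh2) (by linarith : 0 ≤ h - 1 / 5 * c)]
      rcases ff5_F0 c K F0 hc hK1 hK2 hF with h | h
      · nlinarith
      · have : (4 * K - 3 * c) ^ 2 ≤ c ^ 2 := by nlinarith
        nlinarith

/-- small `h` -/
theorem strong5_smallh (c h K F0 S : ℝ) (hc : 0 < c) (hK1 : 3 * c < 4 * K)
    (hK2 : K ≤ c) (hh : 2 * h ≤ 3 * c) (hh0 : 0 < h)
    (hS1 : 2450 / 81 * K ^ 2 - 70 / 3 * K * c + 5 / 2 * c ^ 2 ≤ S)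
    (hF : F0OK c K F0) :
    4 / 5 * h ^ 2 + F0 ≤ S := by
  have hh2 : h ^ 2 ≤ (3 / 2 * c) ^ 2 := pow_le_pow_left₀ hh0.le (by linarith) 2
  have e1 := mul_nonneg (by linarith : 0 ≤ K - 3 / 4 * c) hc.le
  have e2 := mul_nonneg (by linarith : 0 ≤ K - 3 / 4 * c) (by linarith : 0 ≤ K)
  have hc2 : 0 < c ^ 2 := by positivity
  rcases ff4_F0 c K F0 hc hF with hF | hF
  · nlinarith
  · nlinarith

/-- the strong case with `J = 2` -/
theorem fi_strong5 {ι : Type*} [DecidableEq ι] (U : Finset ι)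
    (g w : ι → ℝ) (c h K F0 : ℝ) (hc : 0 < c) (hh : 0 < h)
    (hK1 : 3 * c < 4 * K) (hK2 : K ≤ c)
    (hL : ∀ u ∈ U, LevOK c h K (g u) (w u)) (hF : F0OK c K F0)
    (hU : U.card ≤ 4) (hdead : 70 / 9 * K ≤ c + ∑ u ∈ U, g u)
    (hbon : (∃ u ∈ U, 2 * h ≤ 2 * g u + c) ∨
      (∃ u ∈ U, ∃ v ∈ U, u ≠ v ∧ 2 * h ≤ 2 * g u + g v) ∨
      (∃ u ∈ U, ∃ v ∈ U, ∃ t ∈ U, u ≠ v ∧ u ≠ t ∧ v ≠ t ∧ 2 * h ≤ g u + g v + g t) ∨
      2 * h ≤ 3 * c) :
    4 / 5 * h ^ 2 + F0 ≤ ∑ u ∈ U, w u := by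
  have hw : ∀ u ∈ U, 0 ≤ w u := fun u hu => (hL u hu).2.1
  have hS1 := strong5_s U g w c K hc hK1 hK2 hU
    (fun u hu => (hL u hu).2.2.2.1) hdead
  rcases le_or_gt (2 * h) (3 * c) with hh2 | hh2
  · exact strong5_smallh c h K F0 _ hc hK1 hK2 hh2 hh hS1 hF
  · have hh3 : 4 * c < 3 * h := by linarith
    by_cases hbig : ∃ u ∈ U, 2 * h ≤ 2 * g u + c
    · exact strong5_a U g w c h K F0 hc hK1 hK2 hh3 hU hL hdead hF hbig
    · have hsm : ∀ u ∈ U, 2 * g u + c < 2 * h := by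
        intro u hu
        by_contra hcon
        exact hbig ⟨u, hu, not_lt.1 hcon⟩
      have hmid : ∀ u ∈ U, c ≤ 2 * g u →
          2 * g u * (g u - c) + 8 * K * (c - K) ≤ w u :=
        fun u hu => strong_lev c h K (g u) (w u) hc hK1 hK2 (hL u hu) (hsm u hu)
      rcases hbon with hb | ⟨u, hu, v, hv, huv, hb⟩ | ⟨u, hu, v, hv, t, ht, huv, hut, hvt, hb⟩ | hb
      · exact absurd hb hbig
      · have hv' : v ∈ U.erase u := Finset.mem_erase.2 ⟨huv.symm, hv⟩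
        have hsg : ∑ t ∈ U, g t = g u + (g v + ∑ t ∈ (U.erase u).erase v, g t) := by
          rw [Finset.add_sum_erase _ g hv', Finset.add_sum_erase _ g hu]
        have hsw : ∑ t ∈ U, w t = w u + (w v + ∑ t ∈ (U.erase u).erase v, w t) := by
          rw [Finset.add_sum_erase _ w hv', Finset.add_sum_erase _ w hu]
        obtain ⟨R, hR⟩ : ∃ R, R = ∑ t ∈ (U.erase u).erase v, g t := ⟨_, rfl⟩
        have hcard : (((U.erase u).erase v).card : ℝ) ≤ 2 := by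
          have h1 := Finset.card_erase_add_one hv'
          have h2 := Finset.card_erase_add_one hu
          have h3 : ((U.erase u).erase v).card ≤ 2 := by omega
          exact_mod_cast h3
        have hV : 4 * c * R - 9 * c ^ 2 ≤ ∑ t ∈ (U.erase u).erase v, w t := by
          have h1 : ∑ t ∈ (U.erase u).erase v, (4 * c * g t - 9 / 2 * c ^ 2)
              ≤ ∑ t ∈ (U.erase u).erase v, w t := by
            refine Finset.sum_le_sum fun t ht => ?_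
            have := (hL t (Finset.mem_of_mem_erase (Finset.mem_of_mem_erase ht))).2.2.2.1
            nlinarith [sq_nonneg (g t - 3 / 2 * c)]
          rw [Finset.sum_sub_distrib, ← Finset.mul_sum, Finset.sum_const, nsmul_eq_mul,
            ← hR] at h1
          have h2 : (((U.erase u).erase v).card : ℝ) * (9 / 2 * c ^ 2) ≤ 2 * (9 / 2 * c ^ 2) :=
            mul_le_mul_of_nonneg_right hcard (by positivity)
          linarith
        refine strong5_uu c h K F0 (g u) (g v) (w u) (w v) _ R hc hK1 hK2 hh3 hh2.le (hsm u hu)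
          (hsm v hv) hb (hmid u hu) (hmid v hv) ?_ ?_ (fi_two U w hw u v hu hv huv) hF
        · rw [hsg, ← hR] at hdead
          linarith
        · rw [hsw]
          linarith
      · exact strong5_three c h K F0 (g u) (g v) (g t) (w u) (w v) (w t) _ hc hK1 hK2 hh3
          (hsm u hu) (hsm v hv) (hsm t ht) hb (hmid u hu) (hmid v hv) (hmid t ht) hS1
          (fi_three U w hw u v t hu hv ht huv hut hvt) hF
      · linarith

/-- the numerical theorem with the fourth alternative -/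
theorem far_num3 {ι : Type*} [DecidableEq ι] (U : Finset ι) (sg : ι → Prop)
    [DecidablePred sg]
    (g w : ι → ℝ) (c h K D F0 : ℝ) (hc : 0 ≤ c) (hh : 0 < h) (hK : 0 ≤ K)
    (hL : ∀ u ∈ U, LevOK c h K (g u) (w u)) (hF : F0OK c K F0)
    (hD : D = ∑ u ∈ U.filter (fun u => sg u), g u - ∑ u ∈ U.filter (fun u => ¬ sg u), g u)
    (hT : 3 * c ≤ 4 * ∑ u ∈ U, g u) (J : ℕ) (hJ : 1 ≤ J)
    (hU1 : (U.filter (fun u => sg u)).card ≤ J) (hU2 : (U.filter (fun u => ¬ sg u)).card ≤ J)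
    (hdead : 4 * K ≤ 3 * c ∨ 6 / 5 * (3 * (J:ℝ) + 1) * K ≤ c + ∑ u ∈ U, g u ∨
      (3 ≤ J ∧ 10 / 9 * (3 * (J:ℝ) + 1) * K ≤ c + ∑ u ∈ U, g u) ∨
      (J = 2 ∧ 70 / 9 * K ≤ c + ∑ u ∈ U, g u))
    (hbon : (∃ u ∈ U, 2 * h ≤ 2 * g u + c) ∨
      (∃ u ∈ U, ∃ v ∈ U, u ≠ v ∧ 2 * h ≤ g u + g v + c) ∨
      (2 ≤ J ∧ ∃ u ∈ U, ∃ v ∈ U, u ≠ v ∧ 2 * h ≤ 2 * g u + g v) ∨
      (2 ≤ J ∧ ∃ u ∈ U, ∃ v ∈ U, ∃ t ∈ U, u ≠ v ∧ u ≠ t ∧ v ≠ t ∧ 2 * h ≤ g u + g v + g t) ∨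
      (2 * h ≤ 3 * c ∧ K ^ 2 ≤ F0)) :
    4 / 5 * h ^ 2 + F0 ≤ D ^ 2 + ∑ u ∈ U, w u := by
  by_cases hd3 : 4 * K ≤ 3 * c ∨ 6 / 5 * (3 * (J:ℝ) + 1) * K ≤ c + ∑ u ∈ U, g u ∨
      (3 ≤ J ∧ 10 / 9 * (3 * (J:ℝ) + 1) * K ≤ c + ∑ u ∈ U, g u)
  · exact far_num2 U sg g w c h K D F0 hc hh hK hL hF hD hT J hJ hU1 hU2 hd3 hbon
  · have hd4 : J = 2 ∧ 70 / 9 * K ≤ c + ∑ u ∈ U, g u := by
      rcases hdead with h1 | h1 | h1 | h1
      · exact absurd (Or.inl h1) hd3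
      · exact absurd (Or.inr (Or.inl h1)) hd3
      · exact absurd (Or.inr (Or.inr h1)) hd3
      · exact h1
    obtain ⟨hJ2, hd⟩ := hd4
    by_cases hwk : 4 * min K c ≤ 3 * c
    · -- weak case after the reduction: apply `far_num2` with `min K c`
      have hL' : ∀ u ∈ U, LevOK c h (min K c) (g u) (w u) :=
        fun u hu => lev_min c h K (g u) (w u) (hL u hu)
      have hF' : F0OK c (min K c) F0 := f0_min c K F0 hF
      have hmn : 0 ≤ min K c := le_min hK hc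
      refine far_num2 U sg g w c h (min K c) D F0 hc hh hmn hL' hF' hD hT J hJ hU1 hU2
        (Or.inl hwk) ?_
      rcases hbon with hb | hb | hb | hb | hb
      · exact Or.inl hb
      · exact Or.inr (Or.inl hb)
      · exact Or.inr (Or.inr (Or.inl hb))
      · exact Or.inr (Or.inr (Or.inr (Or.inl hb)))
      · exact Or.inr (Or.inr (Or.inr (Or.inr
          ⟨hb.1, (pow_le_pow_left₀ hmn (min_le_left K c) 2).trans hb.2⟩)))
    · push Not at hwk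
      have hL' : ∀ u ∈ U, LevOK c h (min K c) (g u) (w u) :=
        fun u hu => lev_min c h K (g u) (w u) (hL u hu)
      have hF' : F0OK c (min K c) F0 := f0_min c K F0 hF
      have hKc : min K c ≤ c := min_le_right K c
      have hKK : min K c ≤ K := min_le_left K c
      have hc' : 0 < c := by linarith
      have hcard : U.card ≤ 4 := by
        have h1 := Finset.card_filter_add_card_filter_not (s := U) (fun u => sg u)
        omega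
      have hb3 : (∃ u ∈ U, 2 * h ≤ 2 * g u + c) ∨
          (∃ u ∈ U, ∃ v ∈ U, u ≠ v ∧ 2 * h ≤ 2 * g u + g v) ∨
          (∃ u ∈ U, ∃ v ∈ U, ∃ t ∈ U, u ≠ v ∧ u ≠ t ∧ v ≠ t ∧ 2 * h ≤ g u + g v + g t) ∨
          2 * h ≤ 3 * c := by
        rcases hbon with hb | ⟨u, hu, v, hv, _, hb⟩ | ⟨_, hb⟩ | ⟨_, hb⟩ | hb
        · exact Or.inl hb
        · left
          rcases le_total (g u) (g v) with h1 | h1
          · exact ⟨v, hv, by linarith⟩
          · exact ⟨u, hu, by linarith⟩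
        · exact Or.inr (Or.inl hb)
        · exact Or.inr (Or.inr (Or.inl hb))
        · exact Or.inr (Or.inr (Or.inr hb.1))
      have h1 := fi_strong5 U g w c h (min K c) F0 hc' hh hwk hKc hL' hF' hcard
        (by linarith) hb3
      nlinarith [sq_nonneg D]

end Pool.Agent.POS.Far
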