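import Mathlib
import Pool.Agent.Lib_helper25.POS.FarDefs
import Pool.Agent.Lib_helper25.PR.F5
import Pool.Agent.Lib_helper25.PR.GL2

/-!
# FAR and (K*) with `J = (m - 1) / 3` in the hypothesis on the dead bound
-/

set_option autoImplicit false

namespace Pool.Agent.POS

open Finset Pool.Agent.Lib_helper13.PL

section big
universe u
variable {G : Type u} [AddCommGroup G] [Fintype G] [DecidableEq G]
open Lib_helper42.RS (ds Per ng InO rho dl)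

/-- FAR, weaker hypothesis, one conclusion -/
theorem far_regime3 {m : ℕ} [NeZero m] (chi : G →+ ZMod m) (B : Finset G) (hB : NoWrap chi B)
    (h74 : 7 * (lev chi B 0).card ≤ 4 * B.card) (K' h : ℤ) (hK : 1 ≤ K') (hh : 1 ≤ h)
    (hdead : 4 * K' ≤ 3 * (lev chi B 0).card ∨
      12 * ((3 * (((m - 1) / 3 : ℕ) : ℤ) + 1) * K') ≤ 10 * B.card ∨
      (10 ≤ m ∧ 10 * ((3 * (((m - 1) / 3 : ℕ) : ℤ) + 1) * K') ≤ 9 * B.card) ∨
      ((m - 1) / 3 = 2 ∧ 70 * K' ≤ 9 * B.card))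
    (hcase : ∀ H : AddSubgroup G, (∀ t ∈ H, chi t = 0) → (Nat.card H : ℤ) ≤ K' ∨
      (h ≤ Nat.card H ∧ ∀ Y : Finset G, Cst H Y →
        (Nat.card H : ℤ) ≤ 4 * ds (lev chi B 0) Y))
    (u v : ZMod m)
    (hb : KE.Qp (lev chi B u).card (lev chi B v).card (lev chi B (u + v)).card + K' ^ 2
      < 4 * TT (lev chi B u) (lev chi B v) (lev chi B (u + v))) :
    5 * GL.FF B ≤ -4 * h ^ 2 := by
  classical
  have hlev : ∀ w : ZMod m, ∀ x ∈ lev chi B w, chi x = w := by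
    intro w x hx
    exact (Finset.mem_filter.mp hx).2
  obtain ⟨hcu, hcv, hcuv, H, hHL, hHK, hHs⟩ := bonus_struct chi (lev chi B u) (lev chi B v)
    (lev chi B (u + v)) u v (u + v) (hlev u) (hlev v) (hlev (u + v)) K' hK hb
  have hhH : h ≤ Nat.card H := by
    rcases hcase H hHL with h1 | h1
    · exact absurd h1 (not_le.mpr hHK)
    · exact h1.1
  obtain ⟨J, hJ⟩ : ∃ J : ℕ, J = (m - 1) / 3 := ⟨_, rfl⟩
  obtain ⟨U, hU⟩ : ∃ U : Finset (ZMod m), U = (B.image chi).erase 0 := ⟨_, rfl⟩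
  obtain ⟨g, hg⟩ : ∃ g : ZMod m → ℤ, g = fun u => ((lev chi B u).card : ℤ) := ⟨_, rfl⟩
  obtain ⟨c, hc⟩ : ∃ c : ℤ, c = (lev chi B 0).card := ⟨_, rfl⟩
  have hopt := bon_options2 chi B hB J hJ h u v hcu hcv hcuv (by linarith) U hU g hg c hc
  obtain ⟨hm1, hm2, hm3, hm4⟩ := lev_masses chi B hB J hJ U hU
  have hm1' : (B.card : ℤ) = c + ∑ u ∈ U, g u := by
    rw [hc, hg]
    exact hm1
  have hm2' : DD chi B = ∑ u ∈ U.filter (fun u => 0 < u.valMinAbs), g u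
      - ∑ u ∈ U.filter (fun u => ¬ 0 < u.valMinAbs), g u := by
    rw [hg]
    exact hm2
  have hc0 : 0 ≤ c := by
    rw [hc]
    positivity
  have h74' : 7 * c ≤ 4 * (B.card : ℤ) := by
    rw [hc]
    exact_mod_cast h74
  have hJ1 : 1 ≤ J := by
    by_contra hJ0
    have hJ0' : J = 0 := by omega
    rw [hJ0'] at hm3 hm4
    have e1 : U.filter (fun u => 0 < u.valMinAbs) = ∅ :=
      Finset.card_eq_zero.mp (Nat.le_zero.mp hm3)
    have e2 : U.filter (fun u => ¬ 0 < u.valMinAbs) = ∅ :=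
      Finset.card_eq_zero.mp (Nat.le_zero.mp hm4)
    have e3 : U = ∅ := by
      rw [← Finset.filter_union_filter_not_eq (fun u : ZMod m => 0 < u.valMinAbs) U, e1, e2]
      simp
    rw [e3] at hm1'
    simp only [Finset.sum_empty, add_zero] at hm1'
    have e4 : (B.card : ℤ) ≤ 0 := by linarith
    have e5 : (lev chi B u).card ≤ B.card := Finset.card_filter_le _ _
    have e6 : 0 < B.card := lt_of_lt_of_le hcu e5
    have e7 : (0 : ℤ) < B.card := by exact_mod_cast e6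
    linarith
  have hm0 : 1 ≤ m := Nat.one_le_iff_ne_zero.mpr (NeZero.ne m)
  have h3J : 3 * J + 1 ≤ m := by omega
  obtain ⟨cs, hcs⟩ : ∃ cs : ZMod m → ℤ, cs = fun u => cost (lev chi B u) (lev chi B 0) :=
    ⟨_, rfl⟩
  have hstar := pl_star chi B hB
  have hstar' : GL.FF B + DD chi B ^ 2 ≤ GL.FF (lev chi B 0) - ∑ u ∈ U, cs u := by
    rw [hU, hcs]
    exact hstar
  have hL : ∀ u ∈ U, Far.LevOK (c : ℝ) (h : ℝ) (K' : ℝ) ((g u : ℤ) : ℝ) ((cs u : ℤ) : ℝ) := by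
    intro w _
    apply gi_lev
    rw [hc, hg, hcs]
    exact lev_z chi (lev chi B w) (lev chi B 0) w (hlev w) (hlev 0) K' h hcase
  have hF : Far.F0OK (c : ℝ) (K' : ℝ) ((GL.FF (lev chi B 0) : ℤ) : ℝ) := by
    apply gi_f0
    rw [hc]
    exact f0_z chi (lev chi B 0) (hlev 0) K' h hcase
  have hsumR : ((B.card : ℤ) : ℝ) = (c : ℝ) + ∑ u ∈ U, ((g u : ℤ) : ℝ) := by
    rw [hm1']
    push_cast
    ring
  have hD : ((DD chi B : ℤ) : ℝ) = ∑ u ∈ U.filter (fun u => 0 < u.valMinAbs), ((g u : ℤ) : ℝ)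
      - ∑ u ∈ U.filter (fun u => ¬ 0 < u.valMinAbs), ((g u : ℤ) : ℝ) := by
    rw [hm2']
    push_cast
    ring
  have hT : 3 * (c : ℝ) ≤ 4 * ∑ u ∈ U, ((g u : ℤ) : ℝ) := by
    have e1 : 7 * (c : ℝ) ≤ 4 * ((B.card : ℤ) : ℝ) := by exact_mod_cast h74'
    rw [hsumR] at e1
    linarith
  have hK0 : (0 : ℝ) ≤ (K' : ℝ) := by
    have : (0 : ℤ) ≤ K' := by linarith
    exact_mod_cast this
  have hdeadR : 4 * (K' : ℝ) ≤ 3 * (c : ℝ) ∨
      6 / 5 * (3 * (J : ℝ) + 1) * (K' : ℝ) ≤ (c : ℝ) + ∑ u ∈ U, ((g u : ℤ) : ℝ) ∨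
      (3 ≤ J ∧ 10 / 9 * (3 * (J : ℝ) + 1) * (K' : ℝ) ≤ (c : ℝ) + ∑ u ∈ U, ((g u : ℤ) : ℝ)) ∨
      (J = 2 ∧ 70 / 9 * (K' : ℝ) ≤ (c : ℝ) + ∑ u ∈ U, ((g u : ℤ) : ℝ)) := by
    rw [← hsumR]
    rw [← hJ] at hdead
    rcases hdead with hdead | hdead | ⟨hm10, hdead⟩ | ⟨hJ2, hdead⟩
    · left
      rw [hc]
      exact_mod_cast hdead
    · right; left
      have e1 : 12 * ((3 * (J : ℝ) + 1) * (K' : ℝ)) ≤ 10 * ((B.card : ℤ) : ℝ) := by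
        exact_mod_cast hdead
      linarith
    · right; right; left
      refine ⟨by omega, ?_⟩
      have e1 : 10 * ((3 * (J : ℝ) + 1) * (K' : ℝ)) ≤ 9 * ((B.card : ℤ) : ℝ) := by
        exact_mod_cast hdead
      linarith
    · right; right; right
      refine ⟨hJ2, ?_⟩
      have e1 : 70 * (K' : ℝ) ≤ 9 * ((B.card : ℤ) : ℝ) := by exact_mod_cast hdead
      linarith
  have hbon : (∃ u ∈ U, 2 * (h : ℝ) ≤ 2 * ((g u : ℤ) : ℝ) + (c : ℝ)) ∨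
      (∃ u ∈ U, ∃ v ∈ U, u ≠ v ∧ 2 * (h : ℝ) ≤ ((g u : ℤ) : ℝ) + ((g v : ℤ) : ℝ) + (c : ℝ)) ∨
      (2 ≤ J ∧ ∃ u ∈ U, ∃ v ∈ U, u ≠ v ∧ 2 * (h : ℝ) ≤ 2 * ((g u : ℤ) : ℝ) + ((g v : ℤ) : ℝ)) ∨
      (2 ≤ J ∧ ∃ u ∈ U, ∃ v ∈ U, ∃ t ∈ U, u ≠ v ∧ u ≠ t ∧ v ≠ t ∧
        2 * (h : ℝ) ≤ ((g u : ℤ) : ℝ) + ((g v : ℤ) : ℝ) + ((g t : ℤ) : ℝ)) ∨
      (2 * (h : ℝ) ≤ 3 * (c : ℝ) ∧ (K' : ℝ) ^ 2 ≤ ((GL.FF (lev chi B 0) : ℤ) : ℝ)) := by
    rcases hopt with ⟨a, ha, h1⟩ | ⟨a, ha, b, hb', hab, h1⟩ | ⟨hJ2, a, ha, b, hb', hab, h1⟩ |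
      ⟨hJ2, a, ha, b, hb', t, ht, hab, hat, hbt, h1⟩ | ⟨h1, hu0, hv0⟩
    · exact Or.inl ⟨a, ha, by exact_mod_cast h1⟩
    · exact Or.inr (Or.inl ⟨a, ha, b, hb', hab, by exact_mod_cast h1⟩)
    · exact Or.inr (Or.inr (Or.inl ⟨hJ2, a, ha, b, hb', hab, by exact_mod_cast h1⟩))
    · exact Or.inr (Or.inr (Or.inr (Or.inl
        ⟨hJ2, a, ha, b, hb', t, ht, hab, hat, hbt, by exact_mod_cast h1⟩)))
    · refine Or.inr (Or.inr (Or.inr (Or.inr ⟨by exact_mod_cast h1, ?_⟩)))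
      rw [hu0, hv0, add_zero] at hb
      have h2 := gk_FF0 (lev chi B 0) K' hb
      exact_mod_cast h2.le
  have hstarR : ((GL.FF B : ℤ) : ℝ) + ((DD chi B : ℤ) : ℝ) ^ 2 ≤
      ((GL.FF (lev chi B 0) : ℤ) : ℝ) - ∑ u ∈ U, ((cs u : ℤ) : ℝ) := by exact_mod_cast hstar'
  have hh0 : (0 : ℝ) < (h : ℝ) := by
    have : (0 : ℤ) < h := by linarith
    exact_mod_cast this
  have hc0R : (0 : ℝ) ≤ (c : ℝ) := by exact_mod_cast hc0
  have key := Far.far_num3 U (fun u : ZMod m => 0 < u.valMinAbs) (fun u => ((g u : ℤ) : ℝ))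
    (fun u => ((cs u : ℤ) : ℝ)) (c : ℝ) (h : ℝ) (K' : ℝ) ((DD chi B : ℤ) : ℝ)
    ((GL.FF (lev chi B 0) : ℤ) : ℝ) hc0R hh0 hK0 hL hF hD hT J hJ1 hm3 hm4 hdeadR hbon
  have e1 : 5 * ((GL.FF B : ℤ) : ℝ) ≤ -4 * (h : ℝ) ^ 2 := by linarith
  exact_mod_cast e1

/-- (K*), structural output, final form -/
theorem kstar_struct3 {m : ℕ} [NeZero m] (chi : G →+ ZMod m) (B : Finset G) (hB : NoWrap chi B)
    (h74 : 7 * (lev chi B 0).card ≤ 4 * B.card) (K' h : ℤ) (hK : 1 ≤ K') (hh : 1 ≤ h)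
    (hdead : 4 * K' ≤ 3 * (lev chi B 0).card ∨
      12 * ((3 * (((m - 1) / 3 : ℕ) : ℤ) + 1) * K') ≤ 10 * B.card ∨
      (10 ≤ m ∧ 10 * ((3 * (((m - 1) / 3 : ℕ) : ℤ) + 1) * K') ≤ 9 * B.card) ∨
      ((m - 1) / 3 = 2 ∧ 70 * K' ≤ 9 * B.card))
    (hord : ∀ H : AddSubgroup G, (∀ t ∈ H, chi t = 0) → (Nat.card H : ℤ) ≤ K' ∨
      h ≤ Nat.card H) :
    (∀ u v : ZMod m, 4 * TT (lev chi B u) (lev chi B v) (lev chi B (u + v))
      ≤ KE.Qp (lev chi B u).card (lev chi B v).card (lev chi B (u + v)).card + K' ^ 2) ∨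
    5 * GL.FF B ≤ -4 * h ^ 2 ∨
    ∃ (H : AddSubgroup G) (HH : Finset G), (∀ t ∈ H, chi t = 0) ∧ (∀ x, x ∈ HH ↔ x ∈ H) ∧
      K' < Nat.card H ∧ h ≤ Nat.card H ∧
      4 * (((HH \ lev chi B 0).card : ℤ) + ((lev chi B 0 \ HH).card : ℤ)) < Nat.card H := by
  by_cases hall : ∀ u v : ZMod m, 4 * TT (lev chi B u) (lev chi B v) (lev chi B (u + v))
      ≤ KE.Qp (lev chi B u).card (lev chi B v).card (lev chi B (u + v)).card + K' ^ 2
  · exact Or.inl hall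
  right
  push Not at hall
  obtain ⟨u, v, hb⟩ := hall
  by_cases hn : ∃ H : AddSubgroup G, (∀ t ∈ H, chi t = 0) ∧ K' < Nat.card H ∧
      h ≤ Nat.card H ∧ ∃ Y : Finset G, Cst H Y ∧ 4 * ds (lev chi B 0) Y < Nat.card H
  · obtain ⟨H, hker, hHK, hH, Y, hY, hd⟩ := hn
    by_cases h0 : (0 : G) ∈ Y
    · right
      have hmem := gj_coset_zero H Y hY h0
      refine ⟨H, Y, hker, hmem, hHK, hH, ?_⟩
      have h1 : ds (lev chi B 0) Y
          = ((lev chi B 0 \ Y).card : ℤ) + ((Y \ lev chi B 0).card : ℤ) := gj_ds _ _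
      rw [h1] at hd
      linarith
    · left
      have h1 := far_coset chi B hB H Y hY h0 hd.le
      have h2 : h ^ 2 ≤ (Nat.card H : ℤ) ^ 2 := by
        apply pow_le_pow_left₀ (by linarith) hH
      nlinarith [sq_nonneg (Nat.card H : ℤ)]
  · have hcase : ∀ H : AddSubgroup G, (∀ t ∈ H, chi t = 0) → (Nat.card H : ℤ) ≤ K' ∨
        (h ≤ Nat.card H ∧ ∀ Y : Finset G, Cst H Y →
          (Nat.card H : ℤ) ≤ 4 * ds (lev chi B 0) Y) := by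
      intro H hker
      rcases le_or_gt (Nat.card H : ℤ) K' with h0 | h0
      · exact Or.inl h0
      rcases hord H hker with h1 | h1
      · exact Or.inl h1
      · refine Or.inr ⟨h1, fun Y hY => ?_⟩
        by_contra hcon
        exact hn ⟨H, hker, h0, h1, Y, hY, not_le.1 hcon⟩
    exact Or.inl (far_regime3 chi B hB h74 K' h hK hh hdead hcase u v hb)

end big

end Pool.Agent.POS
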