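import Mathlib
import Pool.Agent.Lib_helper42.RS.Main
import Pool.Agent.Lib_helper42.RS.Sym
import Pool.Agent.Lib_helper42.RS.Quot
import Pool.Agent.Lib_helper25.POS.Defs
import Pool.Agent.Lib_helper42.RS.Struct
import Pool.Agent.Lib_helper25.PR.PA
import Pool.Agent.Lib_helper25.PR.PB

set_option autoImplicit false
set_option linter.unusedSectionVars false

namespace Pool.Agent.POS

open Finset Pool.Agent.Lib_helper13.PL

section numbers

theorem pj_basic (c g k : ℤ) (hc : 0 < c) (hk : 8 * k < 3 * c) (hk0 : 0 ≤ k)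
    (hgc : c ≤ 2 * g) (Δ : ℤ)
    (h1 : 6 * g * (c - g) < k ^ 2) (h2 : 2 * g * (g - c) < k ^ 2)
    (h3 : 2 * (g ^ 2 - g * c + c ^ 2) - 2 * Δ < k ^ 2) :
    97 * c ≤ 100 * g ∧ 100 * g ≤ 107 * c ∧ 899 * c ^ 2 < 1000 * Δ := by
  have hk2 : 64 * k ^ 2 ≤ 9 * c ^ 2 := by nlinarith
  have hc2 : 0 < c ^ 2 := by positivity
  have hA : 97 * c ≤ 100 * g := by
    by_contra h
    push Not at h
    have h5 : 0 ≤ (2 * g - c) * (97 * c - 100 * g) := mul_nonneg (by linarith) (by linarith)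
    nlinarith
  have hB : 100 * g ≤ 107 * c := by
    by_contra h
    push Not at h
    have h5 : 0 ≤ (100 * g - 107 * c) * (100 * g) := mul_nonneg (by linarith) (by linarith)
    nlinarith
  refine ⟨hA, hB, ?_⟩
  have h5 : 0 ≤ (100 * g - 97 * c) * c := mul_nonneg (by linarith) hc.le
  nlinarith [sq_nonneg (g - c)]

/-- PJ1: numbers of case `z_0 ≥ 3` -/
theorem num_three (c g k F : ℤ) (hc : 0 < c) (hg : 0 ≤ g) (hk : 8 * k < 3 * c) (hk0 : 0 ≤ k)
    (hgc : c ≤ 2 * g) (Δ : ℤ)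
    (h1 : 6 * g * (c - g) < k ^ 2) (h2 : 2 * g * (g - c) < k ^ 2)
    (h3 : 2 * (g ^ 2 - g * c + c ^ 2) - 2 * Δ < k ^ 2) (h ρ e dX dZ : ℤ)
    (hρ0 : 0 ≤ ρ) (hρ : Δ ≤ ρ ^ 2) (hρe : ρ = h - dX - e - dZ)
    (hX : |g - h| ≤ dX) (hZ : |g - h| ≤ dZ) (he : 0 ≤ e) (hmax : h - 3 * e ≤ k) : False := by
  obtain ⟨hA, hB, hD⟩ := pj_basic c g k hc hk hk0 hgc Δ h1 h2 h3
  have h4 : h - g ≤ |g - h| := by
    rw [abs_sub_comm]; exact le_abs_self _
  have h5 : 0 ≤ |g - h| := abs_nonneg _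
  have h6 : 3 * ρ ≤ 2 * g + k := by linarith
  have h7 : 1200 * ρ ≤ 1007 * c := by linarith
  have h8 : 0 ≤ (1007 * c - 1200 * ρ) * (1007 * c + 1200 * ρ) :=
    mul_nonneg (by linarith) (by linarith)
  nlinarith

/-- PJ2: only one coset each -/
theorem num_three' (c g k : ℤ) (hc : 0 < c) (hg : 0 ≤ g) (hk : 8 * k < 3 * c) (hk0 : 0 ≤ k)
    (hgc : c ≤ 2 * g) (Δ : ℤ)
    (h1 : 6 * g * (c - g) < k ^ 2) (h2 : 2 * g * (g - c) < k ^ 2)
    (h3 : 2 * (g ^ 2 - g * c + c ^ 2) - 2 * Δ < k ^ 2) (h ρ x y z n : ℤ) (hh : 0 < h)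
    (hx : 0 ≤ x) (hy : 0 ≤ y) (hz : 0 ≤ z) (hn : x + y + z = 2 * n + 1)
    (hρ0 : 0 ≤ ρ) (hρ : Δ ≤ ρ ^ 2) (hρe : ρ ≤ h - |g - x * h| - |c - y * h| - |g - z * h|) :
    x = 1 ∧ y = 1 ∧ z = 1 := by
  obtain ⟨hA, hB, hD⟩ := pj_basic c g k hc hk hk0 hgc Δ h1 h2 h3
  have hρ9 : 90 * c < 100 * ρ := by
    by_contra h4
    push Not at h4
    have h8 : 0 ≤ (90 * c - 100 * ρ) * (90 * c + 100 * ρ) :=
      mul_nonneg (by linarith) (by linarith)
    nlinarith
  have ax := abs_nonneg (g - x * h)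
  have ay := abs_nonneg (c - y * h)
  have az := abs_nonneg (g - z * h)
  have hx2 : x < 2 := by
    by_contra h4
    push Not at h4
    have h5 : 2 * h ≤ x * h := mul_le_mul_of_nonneg_right h4 hh.le
    have h6 : x * h - g ≤ |g - x * h| := by rw [abs_sub_comm]; exact le_abs_self _
    linarith
  have hy2 : y < 2 := by
    by_contra h4
    push Not at h4
    have h5 : 2 * h ≤ y * h := mul_le_mul_of_nonneg_right h4 hh.le
    have h6 : y * h - c ≤ |c - y * h| := by rw [abs_sub_comm]; exact le_abs_self _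
    linarith
  have hz2 : z < 2 := by
    by_contra h4
    push Not at h4
    have h5 : 2 * h ≤ z * h := mul_le_mul_of_nonneg_right h4 hh.le
    have h6 : z * h - g ≤ |g - z * h| := by rw [abs_sub_comm]; exact le_abs_self _
    linarith
  have hx3 : x = 0 ∨ x = 1 := by omega
  have hy3 : y = 0 ∨ y = 1 := by omega
  have hz3 : z = 0 ∨ z = 1 := by omega
  have hh1 : h - g ≤ |g - 1 * h| := by rw [abs_sub_comm, one_mul]; exact le_abs_self _
  have hh2 : h - c ≤ |c - 1 * h| := by rw [abs_sub_comm, one_mul]; exact le_abs_self _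
  have hh3 : g ≤ |g - 0 * h| := by rw [zero_mul, sub_zero]; exact le_abs_self _
  have hh4 : c ≤ |c - 0 * h| := by rw [zero_mul, sub_zero]; exact le_abs_self _
  rcases hx3 with rfl | rfl <;> rcases hy3 with rfl | rfl <;> rcases hz3 with rfl | rfl
  · omega
  · exfalso; linarith
  · exfalso; linarith
  · omega
  · exfalso; linarith
  · omega
  · omega
  · exact ⟨rfl, rfl, rfl⟩

end numbers

section big
universe u
variable {G : Type u} [AddCommGroup G] [Fintype G] [DecidableEq G]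
open Lib_helper42.RS (ds Per)

theorem pj_N (A B C : Finset G) :
    Lib_helper42.RS.N A B (Lib_helper42.RS.ng C) = TT A B C := by
  unfold Lib_helper42.RS.N Lib_helper42.RS.tri TT
  have h1 : ∀ x y : G, Lib_helper42.RS.ind A x * Lib_helper42.RS.ind B y *
      Lib_helper42.RS.ind (Lib_helper42.RS.ng C) (-(x + y)) =
      if x ∈ A then (if y ∈ B then (if x + y ∈ C then 1 else 0) else 0) else 0 := by
    intro x y
    rw [Lib_helper42.RS.ind_ng, neg_neg]
    unfold Lib_helper42.RS.ind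
    split_ifs <;> simp
  simp only [h1]
  have h2 : ∀ x : G, (∑ y, if x ∈ A then (if y ∈ B then (if x + y ∈ C then (1:ℤ) else 0) else 0)
      else 0) = if x ∈ A then (∑ y ∈ B, if x + y ∈ C then (1:ℤ) else 0) else 0 := by
    intro x
    split_ifs with hx
    · rw [Finset.sum_ite_mem, Finset.univ_inter]
    · simp
  simp only [h2]
  rw [Finset.sum_ite_mem, Finset.univ_inter]

theorem pj_dl (A B0 : Finset G) :
    Lib_helper42.RS.dl A B0 (Lib_helper42.RS.ng A) =
      (B0.card : ℤ) ^ 2 - 4 * ∑ y ∈ B0, dlt A y := by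
  unfold Lib_helper42.RS.dl Lib_helper42.RS.Q3
  rw [pj_N, TT_self, Lib_helper42.RS.card_ng]
  ring

theorem pj_ds {A X : Finset G} {n : ℤ} (h : (X.card : ℤ) = n) : |(A.card : ℤ) - n| ≤ ds A X := by
  rw [← h, abs_le]
  have h1 := Lib_helper42.RS.card_sub_le_ds A X
  have h2 := Lib_helper42.RS.card_sub_le_ds X A
  rw [Lib_helper42.RS.ds_comm X A] at h2
  constructor <;> linarith

/-- PJ -/
theorem case3 {m : ℕ} [NeZero m] (chi : G →+ ZMod m) (B : Finset G) (hB : NoWrap chi B)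
    (h43 : 4 * (lev chi B 0).card ≤ 3 * B.card) (hF : 1 ≤ GL.FF B)
    (K : AddSubgroup G) (X : Finset G) (hX : Per K X) (z : ℤ) (hz : 3 ≤ z)
    (hXc : (X.card : ℤ) = z * Nat.card K)
    (hρ : 1 ≤ (Nat.card K : ℤ) - 3 * ds (lev chi B 0) X)
    (hle : GL.FF (lev chi B 0) ≤ ((Nat.card K : ℤ) - 3 * ds (lev chi B 0) X) ^ 2)
    (hmax : ∀ (H : AddSubgroup G) (Y : Finset G), Per H Y →
      (∃ n : ℤ, (Y.card : ℤ) = (2 * n + 1) * Nat.card H) →
      (Nat.card H : ℤ) - 3 * ds (lev chi B 0) Y ≤ (Nat.card K : ℤ) - 3 * ds (lev chi B 0) X) :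
    False := by
  classical
  set B0 := lev chi B 0 with hB0
  obtain ⟨k, hk⟩ : ∃ k : ℤ, k = (Nat.card K : ℤ) - 3 * ds B0 X := ⟨_, rfl⟩
  rw [← hk] at hρ hle hmax
  have hds := Lib_helper42.RS.ds_nonneg B0 X
  have hKpos : (1 : ℤ) ≤ Nat.card K := by
    have : 0 < Nat.card K := Nat.card_pos
    exact_mod_cast this
  have hcX : z * (Nat.card K : ℤ) - ds B0 X ≤ B0.card := by
    have h1 := pj_ds (A := B0) hXc
    have h2 := (abs_le.mp h1).1
    linarith
  have hzK : 3 * (Nat.card K : ℤ) ≤ z * Nat.card K := mul_le_mul_of_nonneg_right hz (by linarith)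
  have hk8 : 8 * k < 3 * (B0.card : ℤ) := by linarith
  have hc : 0 < (B0.card : ℤ) := by linarith
  -- the budget
  have hpl := pl_star chi B hB
  rw [← hB0] at hpl
  have hD := sq_nonneg (DD chi B)
  have hbud : ∑ u ∈ (B.image chi).erase 0, cost (lev chi B u) B0 < k ^ 2 := by linarith
  have hcn : ∀ u ∈ (B.image chi).erase 0, 0 ≤ cost (lev chi B u) B0 := fun u _ =>
    cost_nonneg _ _
  -- a level with at least `c / 2` elements
  have hex : ∃ u ∈ (B.image chi).erase 0, (B0.card : ℤ) ≤ 2 * (lev chi B u).card := by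
    by_contra hno
    push Not at hno
    have h1 : ∀ u ∈ (B.image chi).erase 0, 3 * (B0.card : ℤ) * (lev chi B u).card ≤
        cost (lev chi B u) B0 := by
      intro u hu
      have h2 := hno u hu
      have h3 := cost_small (lev chi B u) B0
      have h4 : (0 : ℤ) ≤ (lev chi B u).card := by positivity
      have h5 : 0 ≤ ((lev chi B u).card : ℤ) * ((B0.card : ℤ) - 2 * (lev chi B u).card) :=
        mul_nonneg h4 (by linarith)
      nlinarith
    have h2 := Finset.sum_le_sum h1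
    rw [← Finset.mul_sum] at h2
    -- total mass
    have h3 : (B.card : ℤ) ≤ B0.card + ∑ u ∈ (B.image chi).erase 0, ((lev chi B u).card : ℤ) := by
      have h4 := card_eq_sum_fib chi B
      have h5 : ∀ u, fib chi B u = lev chi B u := fun u => rfl
      simp only [h5] at h4
      by_cases h0 : (0 : ZMod m) ∈ B.image chi
      · rw [h4, ← Finset.sum_erase_add _ _ h0, ← hB0]
        linarith
      · rw [h4, Finset.erase_eq_of_notMem h0]
        linarith
    have h4 : 4 * (B0.card : ℤ) ≤ 3 * B.card := by exact_mod_cast h43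
    have h5 : (B0.card : ℤ) ≤ 3 * ∑ u ∈ (B.image chi).erase 0, ((lev chi B u).card : ℤ) := by
      linarith
    have h6 : (B0.card : ℤ) * B0.card ≤
        B0.card * (3 * ∑ u ∈ (B.image chi).erase 0, ((lev chi B u).card : ℤ)) :=
      mul_le_mul_of_nonneg_left h5 hc.le
    nlinarith
  obtain ⟨u, hu, hgc⟩ := hex
  have hcu : cost (lev chi B u) B0 < k ^ 2 :=
    lt_of_le_of_lt (Finset.single_le_sum hcn hu) hbud
  set A := lev chi B u with hA
  obtain ⟨Δ, hΔ⟩ : ∃ Δ : ℤ, Δ = (B0.card : ℤ) ^ 2 - 4 * ∑ y ∈ B0, dlt A y := ⟨_, rfl⟩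
  have h1 := (cost_small A B0).trans_lt hcu
  have h2 := (cost_big A B0).trans_lt hcu
  have h3 : 2 * ((A.card : ℤ) ^ 2 - A.card * B0.card + (B0.card : ℤ) ^ 2) - 2 * Δ < k ^ 2 := by
    unfold cost at hcu
    rw [hΔ]
    nlinarith
  have hg0 : (0 : ℤ) ≤ A.card := by positivity
  obtain ⟨_, _, hDpos⟩ := pj_basic B0.card A.card k hc hk8 (by linarith) hgc Δ h1 h2 h3
  have hdl := pj_dl A B0
  rw [← hΔ] at hdl
  rcases Lib_helper42.RS.good_all G A B0 (Lib_helper42.RS.ng A) with hgood | hgood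
  · rw [hdl] at hgood
    nlinarith [sq_nonneg (B0.card : ℤ)]
  · obtain ⟨H, X', Y', Z', hO, hr0, hr1⟩ := hgood
    obtain ⟨hPX, hPY, hPZ, n, hn⟩ := hO
    obtain ⟨x, hx⟩ := hPX.dvd
    obtain ⟨y, hy⟩ := hPY.dvd
    obtain ⟨z', hz'⟩ := hPZ.dvd
    have hHpos : (0 : ℤ) < Nat.card H := by
      have : 0 < Nat.card H := Nat.card_pos
      exact_mod_cast this
    have nn : ∀ {w : ℤ} {Y : Finset G}, (Y.card : ℤ) = w * Nat.card H → 0 ≤ w := by
      intro w Y hw
      by_contra hneg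
      push Not at hneg
      have : w * (Nat.card H : ℤ) < 0 := mul_neg_of_neg_of_pos hneg hHpos
      have h4 : (0 : ℤ) ≤ (Y.card : ℤ) := by positivity
      linarith
    have hsum : x + y + z' = 2 * n + 1 := by
      rw [hx, hy, hz'] at hn
      have : (x + y + z') * (Nat.card H : ℤ) = (2 * n + 1) * Nat.card H := by linarith
      exact mul_right_cancel₀ hHpos.ne' this
    have dX := pj_ds (A := A) hx
    have dY := pj_ds (A := B0) hy
    have dZ := pj_ds (A := Lib_helper42.RS.ng A) hz'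
    rw [Lib_helper42.RS.card_ng] at dZ
    rw [hdl] at hr1
    have hρe : Lib_helper42.RS.rho H A B0 (Lib_helper42.RS.ng A) X' Y' Z' =
        (Nat.card H : ℤ) - ds A X' - ds B0 Y' - ds (Lib_helper42.RS.ng A) Z' := by
      unfold Lib_helper42.RS.rho Lib_helper42.RS.ds3
      ring
    obtain ⟨rfl, rfl, rfl⟩ := num_three' B0.card A.card k hc hg0 hk8 (by linarith) hgc Δ h1 h2 h3
      (Nat.card H) _ x y z' n hHpos (nn hx) (nn hy) (nn hz') hsum hr0 hr1 (by rw [hρe]; linarith)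
    rw [one_mul] at dX dY dZ
    refine num_three B0.card A.card k 0 hc hg0 hk8 (by linarith) hgc Δ h1 h2 h3
      (Nat.card H) _ (ds B0 Y') (ds A X') (ds (Lib_helper42.RS.ng A) Z') hr0 hr1 hρe
      dX dZ (Lib_helper42.RS.ds_nonneg _ _) (hmax H Y' hPY ⟨0, by linarith⟩)

end big

end Pool.Agent.POS
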