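import Mathlib
import Pool.Agent.Lib_helper25.POS.Defs
import Pool.Agent.Lib_helper42.RS.Struct
import Pool.Agent.Lib_helper42.RS.Sym
import Pool.Agent.Lib_helper25.PR.PA
import Pool.Agent.Lib_helper25.PR.PB
import Pool.Agent.Lib_helper25.PR.PJ
import Pool.Agent.Lib_helper25.PR.PK
import Pool.Agent.Lib_helper25.PR.PM

/-!
# POS block PZ: the positive regime
-/

set_option autoImplicit false

namespace Pool.Agent.POS

open Finset Pool.Agent.Lib_helper13.PL

section big
universe u
variable {G : Type u} [AddCommGroup G] [Fintype G] [DecidableEq G]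
open Lib_helper42.RS (ds Per InO rho sym_of_rho exists_max good_all ng)

theorem pz_dl (B0 : Finset G) :
    Lib_helper42.RS.dl B0 B0 (Lib_helper42.RS.ng B0) = GL.FF B0 := by
  rw [← FF_eq]
  unfold Lib_helper42.RS.dl Lib_helper42.RS.Q3 FF
  rw [pj_N, Lib_helper42.RS.card_ng]
  ring

theorem pz_ds (B0 X : Finset G) :
    ds B0 X = ((X \ B0).card : ℤ) + ((B0 \ X).card : ℤ) := by
  rw [Lib_helper42.RS.ds_eq_card]
  have h : symmDiff B0 X = (X \ B0) ∪ (B0 \ X) := by
    ext x; simp [Finset.mem_symmDiff]; tauto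
  rw [h, Finset.card_union_of_disjoint]
  · push_cast; ring
  · rw [Finset.disjoint_left]
    intro x h1 h2
    simp only [Finset.mem_sdiff] at h1 h2
    exact h1.2 h2.1

theorem pz_coset (K : AddSubgroup G) (X : Finset G) (hX : Per K X)
    (hc : (X.card : ℤ) = Nat.card K) : ∃ w, ∀ x, x ∈ X ↔ x - w ∈ K := by
  classical
  have hc' : X.card = Nat.card K := by exact_mod_cast hc
  have hpos : 0 < X.card := by rw [hc']; exact Nat.card_pos
  obtain ⟨w, hw⟩ := Finset.card_pos.mp hpos
  refine ⟨w, ?_⟩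
  set Y : Finset G := Finset.univ.filter (fun x => x - w ∈ K) with hY
  have hYc : Y.card = Nat.card K := by
    rw [Nat.card_eq_fintype_card, ← Fintype.card_coe]
    refine Fintype.card_congr ⟨fun y => ⟨y.1 - w, ?_⟩, fun x => ⟨x.1 + w, ?_⟩, ?_, ?_⟩
    · have := y.2
      simp only [hY, Finset.mem_filter, Finset.mem_univ, true_and] at this
      exact this
    · simp only [hY, Finset.mem_filter, Finset.mem_univ, true_and, add_sub_cancel_right]
      exact x.2
    · intro y; simp
    · intro x; simp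
  have hsub : Y ⊆ X := by
    intro y hy
    simp only [hY, Finset.mem_filter, Finset.mem_univ, true_and] at hy
    have := (hX w (y - w) hy).mpr hw
    simpa using this
  have heq : Y = X := Finset.eq_of_subset_of_card_le hsub (by rw [hYc, hc'])
  intro x
  rw [← heq]
  simp [hY]

/-- PZ : the positive regime -/
theorem pos_regime {m : ℕ} [NeZero m] (chi : G →+ ZMod m)
    (hchi : Function.Surjective chi) (B : Finset G) (hB : NoWrap chi B)
    (h43 : 4 * (lev chi B 0).card ≤ 3 * B.card) (hF : 1 ≤ GL.FF B) :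
    GL.Bd G B.card (GL.FF B) := by
  classical
  set B0 := lev chi B 0 with hB0
  have hstar := pl_star chi B hB
  have hcost : 0 ≤ ∑ u ∈ (B.image chi).erase 0, cost (lev chi B u) (lev chi B 0) :=
    Finset.sum_nonneg fun u _ => cost_nonneg _ _
  have hF0 : 1 ≤ GL.FF B0 := by nlinarith [sq_nonneg (DD chi B)]
  have hdl := pz_dl B0
  rcases good_all G B0 B0 (ng B0) with hg | ⟨H0, X0, Y0, Z0, hO0, hr0, hd0⟩
  · rw [hdl] at hg; omega
  rw [hdl] at hd0
  obtain ⟨H, X, Y, Z, hO, hle, hmax⟩ := exists_max B0 B0 (ng B0) H0 X0 Y0 Z0 hO0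
  have hr01 : 1 ≤ rho H0 B0 B0 (ng B0) X0 Y0 Z0 := by
    by_contra h
    have h0 : rho H0 B0 B0 (ng B0) X0 Y0 Z0 = 0 := by omega
    rw [h0] at hd0
    norm_num at hd0
    omega
  obtain ⟨hYX, hZX⟩ := sym_of_rho hO (by linarith)
  subst hYX
  rw [hZX] at hle hmax hO
  have hrX : ∀ (H' : AddSubgroup G) (X' : Finset G),
      rho H' B0 B0 (ng B0) X' X' (ng X') = (Nat.card H' : ℤ) - 3 * ds B0 X' := by
    intro H' X'
    unfold rho Lib_helper42.RS.ds3
    rw [Lib_helper42.RS.ds_ng]
    ring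
  rw [hrX] at hle
  have hρ : 1 ≤ (Nat.card H : ℤ) - 3 * ds B0 Y := by linarith
  have hle2 : GL.FF B0 ≤ ((Nat.card H : ℤ) - 3 * ds B0 Y) ^ 2 := by nlinarith
  obtain ⟨hPX, _, _, kk, hkk⟩ := hO
  obtain ⟨z, hz⟩ := hPX.dvd
  rw [Lib_helper42.RS.card_ng] at hkk
  have hHpos : (0:ℤ) < Nat.card H := by
    have : 0 < Nat.card H := Nat.card_pos
    exact_mod_cast this
  have h3z : 3 * z = 2 * kk + 1 := by
    have h1 : (3 * z) * (Nat.card H : ℤ) = (2 * kk + 1) * Nat.card H := by
      rw [← hkk, hz]; ring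
    exact mul_right_cancel₀ hHpos.ne' h1
  have hz1 : 1 ≤ z := by
    have h1 : 0 ≤ z := by
      by_contra h
      have h2 : (Y.card : ℤ) < 0 := by
        rw [hz]; exact mul_neg_of_neg_of_pos (by omega) hHpos
      have : (0:ℤ) ≤ Y.card := by positivity
      omega
    omega
  by_cases hz3 : 3 ≤ z
  · exfalso
    refine case3 chi B hB h43 hF H Y hPX z hz3 hz hρ hle2 ?_
    rintro H' Y' hPY ⟨n, hn⟩
    have hin : InO H' Y' Y' (ng Y') := by
      refine ⟨hPY, hPY, hPY.ng, 3 * n + 1, ?_⟩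
      rw [Lib_helper42.RS.card_ng, hn]; ring
    have := (hmax H' Y' Y' (ng Y') hin).1
    rw [hrX, hrX] at this
    exact this
  · have hz' : z = 1 := by omega
    rw [hz', one_mul] at hz
    have hds3 : 3 * ds B0 Y < (Nat.card H : ℤ) := by linarith
    have hcos := pz_coset H Y hPX hz
    have hYH : ∀ x, x ∈ Y ↔ x ∈ H := coset_is_K H B0 Y hcos hds3 hF0
    have hpd := pz_ds B0 Y
    have hpr : 3 * ((Y \ B0).card + (B0 \ Y).card) < Y.card := by
      have : (3 * ((Y \ B0).card + (B0 \ Y).card) : ℤ) < Y.card := by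
        rw [hz, ← hpd]; exact hds3
      exact_mod_cast this
    have hKL := K_le_L chi H Y B0 hYH (by
      intro x hx
      simp only [hB0, lev, Finset.mem_filter] at hx
      exact hx.2) (by omega)
    exact case1 chi hchi B hB h43 hF H Y hYH hKL hpr

end big

end Pool.Agent.POS
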