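import Mathlib
import Pool.Agent.Lib_helper25.POS.Defs
import Pool.Agent.Lib_helper25.PR.PM
import Pool.Agent.Lib_helper25.PR.PZ

/-!
# Positive regime: structural output
-/

set_option autoImplicit false

namespace Pool.Agent.POS

open Finset Pool.Agent.Lib_helper13.PL

/-- numbers: two majority levels -/
theorem ps_num (k e d1 d2 : ℤ) (he : 0 ≤ e) (hek : 3 * e < k) (hd1 : 0 ≤ d1) (hd1k : 2 * d1 < k)
    (hd2 : 0 ≤ d2) (hd2k : 2 * d2 < k)
    (h : 4 * k * e + d1 * (6 * k - 6 * d1 - 10 * e) + d2 * (6 * k - 6 * d2 - 10 * e)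
      < (k - 3 * e) ^ 2) : 9 * e < k := by
  have h1 : ∀ d : ℤ, 0 ≤ d → 2 * d < k → d * (3 * k - 10 * e) ≤ d * (6 * k - 6 * d - 10 * e) := by
    intro d hd hdk
    exact mul_le_mul_of_nonneg_left (by linarith) hd
  have h2 := h1 d1 hd1 hd1k
  have h3 := h1 d2 hd2 hd2k
  by_contra hcon
  push Not at hcon
  rcases le_or_gt (10 * e) (3 * k) with h4 | h4
  · have h5 : 0 ≤ d1 * (3 * k - 10 * e) := mul_nonneg hd1 (by linarith)
    have h6 : 0 ≤ d2 * (3 * k - 10 * e) := mul_nonneg hd2 (by linarith)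
    have h7 : 0 < (k - e) * (k - 9 * e) := by nlinarith
    have h8 : (k - e) * (k - 9 * e) ≤ 0 :=
      mul_nonpos_of_nonneg_of_nonpos (by linarith) (by linarith)
    linarith
  · have h5 : -(k * (10 * e - 3 * k)) ≤ 2 * (d1 * (3 * k - 10 * e)) := by nlinarith
    have h6 : -(k * (10 * e - 3 * k)) ≤ 2 * (d2 * (3 * k - 10 * e)) := by nlinarith
    have h7 : 0 < k := by linarith
    nlinarith

section blocks
variable {G : Type*} [AddCommGroup G] [DecidableEq G]

/-- case `z_0 = 1`, structural output -/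
theorem case1_struct {m : ℕ} [NeZero m] [Fintype G] (chi : G →+ ZMod m)
    (B : Finset G) (hB : NoWrap chi B)
    (h43 : 4 * (lev chi B 0).card ≤ 3 * B.card) (hF : 1 ≤ GL.FF B)
    (K : AddSubgroup G) (KK : Finset G) (hKK : ∀ x, x ∈ KK ↔ x ∈ K) (hKL : ∀ x ∈ K, chi x = 0)
    (hpr : 3 * ((KK \ lev chi B 0).card + (lev chi B 0 \ KK).card) < KK.card) :
    9 * (((KK \ lev chi B 0).card : ℤ) + ((lev chi B 0 \ KK).card : ℤ)) < KK.card ∧
    ∃ (j : ℕ) (s : ℤ), 1 ≤ j ∧ 3 * j < m ∧ 0 ≤ s ∧ 5 * s < KK.card ∧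
      ((B.card : ℤ) = (2 * j + 1) * KK.card + s ∨ (B.card : ℤ) + s = (2 * j + 1) * KK.card) ∧
      GL.FF B ≤ ((KK.card : ℤ) - s) * ((KK.card : ℤ) - 5 * s) := by
  classical
  obtain ⟨B0, hB0⟩ : ∃ B0 : Finset G, B0 = lev chi B 0 := ⟨_, rfl⟩
  obtain ⟨U, hU⟩ : ∃ U : Finset (ZMod m), U = (B.image chi).erase 0 := ⟨_, rfl⟩
  obtain ⟨k, hk⟩ : ∃ k : ℤ, k = KK.card := ⟨_, rfl⟩
  obtain ⟨p, hp⟩ : ∃ p : ℤ, p = ((KK \ B0).card : ℤ) := ⟨_, rfl⟩
  obtain ⟨r, hr⟩ : ∃ r : ℤ, r = ((B0 \ KK).card : ℤ) := ⟨_, rfl⟩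
  have hp0 : 0 ≤ p := by rw [hp]; positivity
  have hr0 : 0 ≤ r := by rw [hr]; positivity
  obtain ⟨e, he⟩ : ∃ e : ℤ, e = p + r := ⟨_, rfl⟩
  have he0 : 0 ≤ e := by rw [he]; linarith
  have hek : 3 * e < k := by
    rw [← hB0] at hpr
    rw [he, hp, hr, hk]
    exact_mod_cast hpr
  have hk0 : 0 ≤ k := by linarith
  -- the budget
  have hpl := pl_star chi B hB
  rw [← hB0, ← hU] at hpl
  have hff := ff0 K KK hKK B0 k p r hk hp hr
  have hbud : ∑ u ∈ U, cost (lev chi B u) B0 + DD chi B ^ 2 < (k - 3 * e) ^ 2 := by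
    have h1 : k ^ 2 - 6 * k * (p + r) + 9 * p ^ 2 + 6 * p * r + 9 * r ^ 2 ≤ (k - 3 * e) ^ 2 := by
      rw [he]
      nlinarith [mul_nonneg hp0 hr0]
    linarith
  have hcn : ∀ u, 0 ≤ cost (lev chi B u) B0 := fun u => cost_nonneg _ _
  have hcu : ∀ u ∈ U, cost (lev chi B u) B0 < (k - 3 * e) ^ 2 := by
    intro u hu
    have h1 := single_le_sum (f := fun u => cost (lev chi B u) B0) (fun i _ => hcn i) hu
    have h2 := sq_nonneg (DD chi B)
    linarith
  -- the levels with a majority coset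
  obtain ⟨V, hVd⟩ : ∃ V : Finset (ZMod m), V = U.filter (fun u => ∃ x ∈ lev chi B u,
    k < 2 * th K (lev chi B u) x) := ⟨_, rfl⟩
  have hVU : V ⊆ U := by rw [hVd]; exact filter_subset _ _
  have hVx : ∀ u ∈ V, ∃ x, x ∈ lev chi B u ∧ k < 2 * th K (lev chi B u) x := by
    intro u hu
    rw [hVd, mem_filter] at hu
    obtain ⟨_, x, hx, h⟩ := hu
    exact ⟨x, hx, h⟩
  choose! xs hxs using hVx
  obtain ⟨C, hCd⟩ : ∃ C : ZMod m → Finset G, ∀ u, C u = if u = 0 then KK else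
    univ.filter (fun z => z - xs u ∈ K) := ⟨_, fun u => rfl⟩
  have hC0 : C 0 = KK := by rw [hCd, if_pos rfl]
  have hCV : ∀ u, u ≠ 0 → ∀ z, z ∈ C u ↔ z - xs u ∈ K := by
    intro u hu z
    rw [hCd, if_neg hu, mem_filter]
    simp
  have h0U : (0 : ZMod m) ∉ U := by rw [hU]; exact notMem_erase _ _
  have h0V : (0 : ZMod m) ∉ V := fun h => h0U (hVU h)
  have hV0 : ∀ u ∈ V, u ≠ 0 := fun u hu h => h0V (h ▸ hu)
  obtain ⟨a, had⟩ : ∃ a : ZMod m → ℤ, ∀ u, a u = if u ∈ V then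
    ((C u \ lev chi B u).card : ℤ) else 0 := ⟨_, fun u => rfl⟩
  obtain ⟨t, htd⟩ : ∃ t : ZMod m → ℤ, ∀ u, t u = if u ∈ V then
    ((lev chi B u \ C u).card : ℤ) else ((lev chi B u).card : ℤ) := ⟨_, fun u => rfl⟩
  have haV : ∀ u ∈ V, a u = ((C u \ lev chi B u).card : ℤ) := fun u hu => by
    rw [had, if_pos hu]
  have htV : ∀ u ∈ V, t u = ((lev chi B u \ C u).card : ℤ) := fun u hu => by
    rw [htd, if_pos hu]
  have ha0 : ∀ u, 0 ≤ a u := by
    intro u
    rw [had]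
    by_cases hu : u ∈ V
    · rw [if_pos hu]
      exact Int.natCast_nonneg _
    · rw [if_neg hu]
  have ht0 : ∀ u, 0 ≤ t u := by
    intro u
    rw [htd]
    by_cases hu : u ∈ V
    · rw [if_pos hu]
      exact Int.natCast_nonneg _
    · rw [if_neg hu]
      exact Int.natCast_nonneg _
  have hlevV : ∀ u ∈ V, 2 * (a u + t u) < k ∧
      2 * k * e + (a u + t u) * (6 * k - 6 * (a u + t u) - 10 * e) ≤ cost (lev chi B u) B0 ∧
      |((lev chi B u).card : ℤ) - k| ≤ a u + t u := by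
    intro u hu
    exact pm_level K KK hKK (lev chi B u) B0 (C u) k p r e (a u) (t u) hk hp hr he hek
      (hcu u (hVU hu)) (xs u) (hxs u hu).2 (hCV u (hV0 u hu)) (haV u hu) (htV u hu)
  have hlevN : ∀ u ∈ U, u ∉ V → 2 * ((lev chi B u).card : ℤ) ≤ k ∧
      6 * ((lev chi B u).card : ℤ) * (k - e - (lev chi B u).card) ≤ cost (lev chi B u) B0 := by
    intro u hu huV
    refine pm_none K KK hKK (lev chi B u) B0 k p r e hk hp hr he hek (hcu u hu) ?_
    intro x hx
    by_contra h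
    exact huV (by rw [hVd, mem_filter]; exact ⟨hu, x, hx, not_le.1 h⟩)
  have hdN : ∀ u, u ∉ V → a u + t u = ((lev chi B u).card : ℤ) := by
    intro u hu
    rw [had, htd, if_neg hu, if_neg hu, zero_add]
  have hcard := pm_card chi B
  rw [← hB0, ← hU] at hcard
  have hbig : k - e ≤ 3 * ∑ u ∈ U, ((lev chi B u).card : ℤ) := by
    have h1 : 4 * (B0.card : ℤ) ≤ 3 * B.card := by rw [hB0]; exact_mod_cast h43
    have h2 := Finset.card_inter_add_card_sdiff KK B0
    have h3 := Finset.card_inter_add_card_sdiff B0 KK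
    have h4 : ((KK ∩ B0).card : ℤ) + ((KK \ B0).card : ℤ) = KK.card := by exact_mod_cast h2
    have h5 : ((B0 ∩ KK).card : ℤ) + ((B0 \ KK).card : ℤ) = B0.card := by exact_mod_cast h3
    rw [inter_comm] at h5
    linarith
  obtain ⟨j, hj1, hjp, hjn, hjS⟩ := num_levels U V hVU (fun u : ZMod m => 0 < u.valMinAbs)
    (fun u => a u + t u) (fun u => ((lev chi B u).card : ℤ)) (fun u => cost (lev chi B u) B0)
    k e (DD chi B) he0 hek (fun u _ => add_nonneg (ha0 u) (ht0 u))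
    (fun u hu => by
      by_cases huV : u ∈ V
      · exact (hlevV u huV).1.le
      · simp only [hdN u huV]
        exact (hlevN u hu huV).1)
    (fun u hu => (hlevV u hu).2.1)
    (fun u hu huV => by
      simp only [hdN u huV]
      exact (hlevN u hu huV).2)
    (fun u hu => (hlevV u hu).2.2) (fun u _ huV => (hdN u huV).symm)
    (by rw [hU]; exact pm_DD chi B) hbud hbig
  -- the near-structured lemma
  obtain ⟨I, hId⟩ : ∃ I : Finset (ZMod m), I = insert 0 V := ⟨_, rfl⟩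
  obtain ⟨P, hPd⟩ : ∃ P : ℤ, P = ((I.biUnion C \ B).card : ℤ) := ⟨_, rfl⟩
  obtain ⟨R, hRd⟩ : ∃ R : ℤ, R = ((B \ I.biUnion C).card : ℤ) := ⟨_, rfl⟩
  have hsub : ∀ u, lev chi B u ⊆ B := fun u => filter_subset _ _
  have hP : P ≤ p + ∑ u ∈ U, a u := by
    have h1 : I.biUnion C \ B ⊆ (KK \ B0) ∪ V.biUnion (fun u => C u \ lev chi B u) := by
      intro x hx
      rw [mem_sdiff, mem_biUnion] at hx
      obtain ⟨⟨u, hu, hxu⟩, hxB⟩ := hx
      rw [mem_union]
      rw [hId, mem_insert] at hu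
      rcases hu with hu | hu
      · left
        rw [hu, hC0] at hxu
        rw [mem_sdiff]
        exact ⟨hxu, fun h => hxB (hsub 0 (hB0 ▸ h))⟩
      · right
        rw [mem_biUnion]
        exact ⟨u, hu, mem_sdiff.2 ⟨hxu, fun h => hxB (hsub u h)⟩⟩
    have h2 := (card_le_card h1).trans (card_union_le _ _)
    have h3 : (V.biUnion (fun u => C u \ lev chi B u)).card ≤
        ∑ u ∈ V, (C u \ lev chi B u).card := card_biUnion_le
    have h4 : ((I.biUnion C \ B).card : ℤ) ≤ ((KK \ B0).card : ℤ) +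
        ∑ u ∈ V, ((C u \ lev chi B u).card : ℤ) := by exact_mod_cast h2.trans (by omega)
    rw [← hPd, ← hp] at h4
    have h5 : ∑ u ∈ V, ((C u \ lev chi B u).card : ℤ) = ∑ u ∈ V, a u :=
      sum_congr rfl fun u hu => (haV u hu).symm
    have h6 : ∑ u ∈ V, a u ≤ ∑ u ∈ U, a u :=
      sum_le_sum_of_subset_of_nonneg hVU fun u _ _ => ha0 u
    linarith
  have hR : R ≤ r + ∑ u ∈ U, t u := by
    have h1 : B \ I.biUnion C ⊆ (B0 \ KK) ∪
        U.biUnion (fun u => if u ∈ V then lev chi B u \ C u else lev chi B u) := by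
      intro x hx
      rw [mem_sdiff, mem_biUnion] at hx
      obtain ⟨hxB, hxn⟩ := hx
      rw [mem_union]
      by_cases h0 : chi x = 0
      · left
        rw [mem_sdiff, hB0]
        refine ⟨mem_filter.2 ⟨hxB, h0⟩, fun h => hxn ⟨0, ?_, ?_⟩⟩
        · rw [hId]; exact mem_insert_self _ _
        · rw [hC0]; exact h
      · right
        rw [mem_biUnion]
        refine ⟨chi x, ?_, ?_⟩
        · rw [hU, mem_erase]
          exact ⟨h0, mem_image_of_mem _ hxB⟩
        · have h2 : x ∈ lev chi B (chi x) := mem_filter.2 ⟨hxB, rfl⟩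
          by_cases hV' : chi x ∈ V
          · rw [if_pos hV', mem_sdiff]
            refine ⟨h2, fun h => hxn ⟨chi x, ?_, h⟩⟩
            rw [hId]
            exact mem_insert_of_mem hV'
          · rw [if_neg hV']
            exact h2
    have h2 := (card_le_card h1).trans (card_union_le _ _)
    have h3 : (U.biUnion (fun u => if u ∈ V then lev chi B u \ C u else lev chi B u)).card ≤
        ∑ u ∈ U, (if u ∈ V then lev chi B u \ C u else lev chi B u).card := card_biUnion_le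
    have h4 : ((B \ I.biUnion C).card : ℤ) ≤ ((B0 \ KK).card : ℤ) +
        ∑ u ∈ U, ((if u ∈ V then lev chi B u \ C u else lev chi B u).card : ℤ) := by
      exact_mod_cast h2.trans (by omega)
    rw [← hRd, ← hr] at h4
    have h5 : ∑ u ∈ U, ((if u ∈ V then lev chi B u \ C u else lev chi B u).card : ℤ) =
        ∑ u ∈ U, t u := by
      refine sum_congr rfl fun u _ => ?_
      rw [htd]
      by_cases hu : u ∈ V
      · rw [if_pos hu, if_pos hu]
      · rw [if_neg hu, if_neg hu]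
    linarith
  have hsum : ∑ u ∈ U, (a u + t u) = ∑ u ∈ U, a u + ∑ u ∈ U, t u := sum_add_distrib
  have hP0 : 0 ≤ P := by rw [hPd]; exact Int.natCast_nonneg _
  have hR0 : 0 ≤ R := by rw [hRd]; exact Int.natCast_nonneg _
  have hPR : 4 * (P + R) ≤ 3 * k := by
    rw [hsum] at hjS
    linarith
  obtain ⟨s, hs⟩ : ∃ s : ℤ, s = |R - P| := ⟨_, rfl⟩
  have hsk : 0 ≤ s ∧ s ≤ k := by
    rw [hs]
    refine ⟨abs_nonneg _, ?_⟩
    rw [abs_le]
    constructor <;> linarith
  have hr3 : ((lev chi B 0 \ KK).card : ℤ) ≤ 3 * k := by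
    rw [← hB0, ← hr]
    linarith
  have hIp : (I.filter (fun u => 0 < u.valMinAbs)).card = j := by
    rw [hId, filter_insert, if_neg (by rw [ZMod.valMinAbs_zero]; exact lt_irrefl _)]
    exact hjp
  have hIn : (I.filter (fun u => u.valMinAbs < 0)).card = j := by
    rw [hId, filter_insert, if_neg (by rw [ZMod.valMinAbs_zero]; exact lt_irrefl _), ← hjn]
    congr 1
    refine filter_congr fun u hu => ?_
    have h1 : u.valMinAbs ≠ 0 := by
      intro h
      exact hV0 u hu ((ZMod.valMinAbs_eq_zero u).1 h)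
    constructor
    · intro h
      linarith
    · intro h
      exact lt_of_le_of_ne (not_lt.1 h) h1
  obtain ⟨hns, hnc⟩ := ns chi B hB K KK hKK hKL I (by rw [hId]; exact mem_insert_self _ _) C
    (fun u hu => by
      rw [hId, mem_insert] at hu
      rcases hu with hu | hu
      · refine ⟨0, by rw [hu, map_zero], fun x => ?_⟩
        rw [hu, hC0, sub_zero]
        exact hKK x
      · exact ⟨xs u, (mem_filter.1 (hxs u hu).1).2, hCV u (hV0 u hu)⟩)
    hC0 j hj1 hIp hIn k P R s hk hPd hRd hs hr3 (Or.inr (Or.inr ⟨by linarith, by linarith⟩))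
  have hm : 3 * j < m := pm_j chi B hB V (by rw [← hU]; exact hVU) j hjp
  have h5s : 5 * s < k := by
    by_contra h
    have h1 : (k - s) * (k - 5 * s) ≤ 0 :=
      mul_nonpos_of_nonneg_of_nonpos (by linarith [hsk.2]) (by linarith)
    linarith
  refine ⟨?_, j, s, hj1, hm, hsk.1, by rw [← hk]; exact h5s, ?_, by rw [← hk]; exact hns⟩
  · -- two majority levels
    rw [← hB0, ← hp, ← hr, ← hk, ← he]
    have hpos : 0 < (V.filter (fun u => 0 < u.valMinAbs)).card := by rw [hjp]; omega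
    have hneg : 0 < (V.filter (fun u => ¬ 0 < u.valMinAbs)).card := by rw [hjn]; omega
    obtain ⟨u1, hu1⟩ := Finset.card_pos.mp hpos
    obtain ⟨u2, hu2⟩ := Finset.card_pos.mp hneg
    rw [mem_filter] at hu1 hu2
    have hne : u1 ≠ u2 := by
      intro h
      rw [h] at hu1
      exact hu2.2 hu1.2
    have h12 : cost (lev chi B u1) B0 + cost (lev chi B u2) B0 ≤
        ∑ u ∈ U, cost (lev chi B u) B0 := by
      have h1 : ∑ t ∈ ({u1, u2} : Finset (ZMod m)), cost (lev chi B t) B0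
          = cost (lev chi B u1) B0 + cost (lev chi B u2) B0 := Finset.sum_pair hne
      rw [← h1]
      refine Finset.sum_le_sum_of_subset_of_nonneg ?_ (fun t _ _ => hcn t)
      intro t ht
      rw [Finset.mem_insert, Finset.mem_singleton] at ht
      rcases ht with rfl | rfl
      · exact hVU hu1.1
      · exact hVU hu2.1
    obtain ⟨hd1, hc1, _⟩ := hlevV u1 hu1.1
    obtain ⟨hd2, hc2, _⟩ := hlevV u2 hu2.1
    obtain ⟨d1, hd1e⟩ : ∃ d1 : ℤ, d1 = a u1 + t u1 := ⟨_, rfl⟩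
    obtain ⟨d2, hd2e⟩ : ∃ d2 : ℤ, d2 = a u2 + t u2 := ⟨_, rfl⟩
    rw [← hd1e] at hd1 hc1
    rw [← hd2e] at hd2 hc2
    have hd10 : 0 ≤ d1 := by rw [hd1e]; exact add_nonneg (ha0 _) (ht0 _)
    have hd20 : 0 ≤ d2 := by rw [hd2e]; exact add_nonneg (ha0 _) (ht0 _)
    have hDD := sq_nonneg (DD chi B)
    have hsum2 : 4 * k * e + d1 * (6 * k - 6 * d1 - 10 * e) + d2 * (6 * k - 6 * d2 - 10 * e)
        < (k - 3 * e) ^ 2 := by linarith
    exact ps_num k e d1 d2 he0 hek hd10 hd1 hd20 hd2 hsum2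
  · rw [← hk]
    rcases le_total R P with h | h
    · right
      have h1 : s = P - R := by rw [hs, abs_of_nonpos (by linarith)]; ring
      rw [hnc, h1]
      ring
    · left
      have h1 : s = R - P := by rw [hs, abs_of_nonneg (by linarith)]
      rw [hnc, h1]
      ring

end blocks

section big
universe u
variable {G : Type u} [AddCommGroup G] [Fintype G] [DecidableEq G]
open Lib_helper42.RS (ds Per InO rho sym_of_rho exists_max good_all ng)

/-- the positive regime, structural output -/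
theorem pos_struct {m : ℕ} [NeZero m] (chi : G →+ ZMod m)
    (B : Finset G) (hB : NoWrap chi B)
    (h43 : 4 * (lev chi B 0).card ≤ 3 * B.card) (hF : 1 ≤ GL.FF B) :
    ∃ (K : AddSubgroup G) (KK : Finset G) (j : ℕ) (s : ℤ), (∀ t ∈ K, chi t = 0) ∧
      (∀ x, x ∈ KK ↔ x ∈ K) ∧
      9 * (((KK \ lev chi B 0).card : ℤ) + ((lev chi B 0 \ KK).card : ℤ)) < KK.card ∧
      1 ≤ j ∧ 3 * j < m ∧ 0 ≤ s ∧ 5 * s < KK.card ∧
      ((B.card : ℤ) = (2 * j + 1) * KK.card + s ∨ (B.card : ℤ) + s = (2 * j + 1) * KK.card) ∧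
      GL.FF B ≤ ((KK.card : ℤ) - s) * ((KK.card : ℤ) - 5 * s) := by
  classical
  set B0 := lev chi B 0 with hB0
  have hstar := pl_star chi B hB
  have hcost : 0 ≤ ∑ u ∈ (B.image chi).erase 0, cost (lev chi B u) (lev chi B 0) :=
    Finset.sum_nonneg fun u _ => cost_nonneg _ _
  have hF0 : 1 ≤ GL.FF B0 := by nlinarith [sq_nonneg (DD chi B)]
  have hdl := pz_dl B0
  rcases good_all G B0 B0 (ng B0) with hg | ⟨H0, X0, Y0, Z0, hO0, hr0, hd0⟩
  · rw [hdl] at hg; omega
  rw [hdl] at hd0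
  obtain ⟨H, X, Y, Z, hO, hle, hmax⟩ := exists_max B0 B0 (ng B0) H0 X0 Y0 Z0 hO0
  have hr01 : 1 ≤ rho H0 B0 B0 (ng B0) X0 Y0 Z0 := by
    by_contra h
    have h0 : rho H0 B0 B0 (ng B0) X0 Y0 Z0 = 0 := by omega
    rw [h0] at hd0
    norm_num at hd0
    omega
  obtain ⟨hYX, hZX⟩ := sym_of_rho hO (by linarith)
  subst hYX
  rw [hZX] at hle hmax hO
  have hrX : ∀ (H' : AddSubgroup G) (X' : Finset G),
      rho H' B0 B0 (ng B0) X' X' (ng X') = (Nat.card H' : ℤ) - 3 * ds B0 X' := by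
    intro H' X'
    unfold rho Lib_helper42.RS.ds3
    rw [Lib_helper42.RS.ds_ng]
    ring
  rw [hrX] at hle
  have hρ : 1 ≤ (Nat.card H : ℤ) - 3 * ds B0 Y := by linarith
  have hle2 : GL.FF B0 ≤ ((Nat.card H : ℤ) - 3 * ds B0 Y) ^ 2 := by nlinarith
  obtain ⟨hPX, _, _, kk, hkk⟩ := hO
  obtain ⟨z, hz⟩ := hPX.dvd
  rw [Lib_helper42.RS.card_ng] at hkk
  have hHpos : (0:ℤ) < Nat.card H := by
    have : 0 < Nat.card H := Nat.card_pos
    exact_mod_cast this
  have h3z : 3 * z = 2 * kk + 1 := by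
    have h1 : (3 * z) * (Nat.card H : ℤ) = (2 * kk + 1) * Nat.card H := by
      rw [← hkk, hz]; ring
    exact mul_right_cancel₀ hHpos.ne' h1
  have hz1 : 1 ≤ z := by
    have h1 : 0 ≤ z := by
      by_contra h
      have h2 : (Y.card : ℤ) < 0 := by
        rw [hz]; exact mul_neg_of_neg_of_pos (by omega) hHpos
      have : (0:ℤ) ≤ Y.card := by positivity
      omega
    omega
  by_cases hz3 : 3 ≤ z
  · exfalso
    refine case3 chi B hB h43 hF H Y hPX z hz3 hz hρ hle2 ?_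
    rintro H' Y' hPY ⟨n, hn⟩
    have hin : InO H' Y' Y' (ng Y') := by
      refine ⟨hPY, hPY, hPY.ng, 3 * n + 1, ?_⟩
      rw [Lib_helper42.RS.card_ng, hn]; ring
    have := (hmax H' Y' Y' (ng Y') hin).1
    rw [hrX, hrX] at this
    exact this
  · have hz' : z = 1 := by omega
    rw [hz', one_mul] at hz
    have hds3 : 3 * ds B0 Y < (Nat.card H : ℤ) := by linarith
    have hcos := pz_coset H Y hPX hz
    have hYH : ∀ x, x ∈ Y ↔ x ∈ H := coset_is_K H B0 Y hcos hds3 hF0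
    have hpd := pz_ds B0 Y
    have hpr : 3 * ((Y \ B0).card + (B0 \ Y).card) < Y.card := by
      have : (3 * ((Y \ B0).card + (B0 \ Y).card) : ℤ) < Y.card := by
        rw [hz, ← hpd]; exact hds3
      exact_mod_cast this
    have hKL := K_le_L chi H Y B0 hYH (by
      intro x hx
      simp only [hB0, lev, Finset.mem_filter] at hx
      exact hx.2) (by omega)
    obtain ⟨h9, j, s, hj1, h3j, hs0, h5s, hbs, hFs⟩ :=
      case1_struct chi B hB h43 hF H Y hYH hKL hpr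
    exact ⟨H, Y, j, s, hKL, hYH, h9, hj1, h3j, hs0, h5s, hbs, hFs⟩

end big

end Pool.Agent.POS
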